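import Pool.Agent.Lib_MP_3a79a1_b.Defs

/-!
# [RM-AL] Lagrange interpolation

`c : Fin (d+1) → F` injective.  `lag c t j` is the `j`-th Lagrange basis polynomial of the nodes
`c` evaluated at `t`.

* `lag_self`: `Lagrange.eval_basis_self`, `Lagrange.eval_basis_of_ne`.
* `lag_ne`: the basis polynomial is a product of nonzero multiples of `X - c i`
  (`Lagrange.basis`, `Lagrange.basisDivisor`, `Polynomial.eval_prod`).
* `lag_sum`: for `k ≤ d` the polynomial `X^k` of degree `< d+1` is its interpolant:
  `t^k = ∑ j, (c j)^k * lag c t j` (`Lagrange.eq_interpolate`, `Lagrange.interpolate_apply`).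
* `PhiE`: the map `(w_j) ↦ ∑ j, ten d (c j) (w j)` is an additive automorphism of
  `Fin (d+1) → V`.  Inverse: `(Ψ v) j = ∑ k, coeff_k (basis j) • v k`, because
  `∑ k, coeff_k (basis j) * (c i)^k = (basis j).eval (c i) = δ_{ij}` (degree of `basis j` is `≤ d`,
  `Polynomial.eval_eq_sum_range'`); `Ψ ∘ Φ = id` and, e.g. by `lag_sum` in each coordinate (or since
  the Vandermonde matrix is invertible: `Matrix.det_vandermonde_ne_zero_iff`), `Φ ∘ Ψ = id`.
  Any construction is fine; only `PhiE_apply` is used.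
* `ten_eq_Phi`: `ten d t w = PhiE c hc (fun j => lag c t j • w)` by `lag_sum`.
* `exists_coef`: the case `V = F`: `ten d (c j) b = b • evec F d (c j)`.
-/

set_option linter.unusedSectionVars false

namespace Pool.Agent.Lib_MP_3a79a1_b

open Finset
open scoped BigOperators

variable {F : Type} [Field F] [Fintype F] [DecidableEq F] {d : ℕ}

/-- values at `t` of the Lagrange basis polynomials of the nodes `c` -/
noncomputable def lag (c : Fin (d + 1) → F) (t : F) (j : Fin (d + 1)) : F :=
  (Lagrange.basis Finset.univ c j).eval t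

theorem lag_self {c : Fin (d + 1) → F} (hc : Function.Injective c) (k j : Fin (d + 1)) :
    lag c (c k) j = if j = k then 1 else 0 := by
  unfold lag
  by_cases h : j = k
  · subst h
    rw [if_pos rfl]
    exact Lagrange.eval_basis_self hc.injOn (Finset.mem_univ _)
  · rw [if_neg h]
    exact Lagrange.eval_basis_of_ne h (Finset.mem_univ _)

theorem lag_ne {c : Fin (d + 1) → F} (hc : Function.Injective c) {t : F} (ht : ∀ j, c j ≠ t)
    (j : Fin (d + 1)) : lag c t j ≠ 0 := by
  unfold lag Lagrange.basis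
  rw [Polynomial.eval_prod]
  refine Finset.prod_ne_zero_iff.2 fun i hi => ?_
  have h1 : c j - c i ≠ 0 := sub_ne_zero.2 fun h => (Finset.mem_erase.1 hi).1 (hc h).symm
  have h2 : t - c i ≠ 0 := sub_ne_zero.2 fun h => ht i h.symm
  unfold Lagrange.basisDivisor
  rw [Polynomial.eval_mul, Polynomial.eval_C, Polynomial.eval_sub, Polynomial.eval_X, Polynomial.eval_C]
  exact mul_ne_zero (inv_ne_zero h1) h2

/-- `X ^ k` is its own interpolant -/
private theorem pow_alg {c : Fin (d + 1) → F} (hc : Function.Injective c) (k : Fin (d + 1)) :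
    (Polynomial.X ^ (k : ℕ) : Polynomial F) =
      ∑ j, Polynomial.C (c j ^ (k : ℕ)) * Lagrange.basis Finset.univ c j := by
  have hdeg : (Polynomial.X ^ (k : ℕ) : Polynomial F).degree < (Finset.univ : Finset (Fin (d + 1))).card := by
    rw [Polynomial.degree_X_pow, Finset.card_univ, Fintype.card_fin]
    exact_mod_cast k.2
  have h := Lagrange.eq_interpolate (hc.injOn (s := (Finset.univ : Finset (Fin (d + 1))))) hdeg
  rw [Lagrange.interpolate_apply] at h
  simpa only [Polynomial.eval_pow, Polynomial.eval_X] using h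

theorem lag_sum {c : Fin (d + 1) → F} (hc : Function.Injective c) (t : F) :
    evec F d t = ∑ j, lag c t j • evec F d (c j) := by
  funext k
  have h := congrArg (Polynomial.eval t) (pow_alg hc k)
  rw [Polynomial.eval_pow, Polynomial.eval_X, Polynomial.eval_finsetSum] at h
  rw [Finset.sum_apply]
  show t ^ (k : ℕ) = ∑ j, lag c t j * c j ^ (k : ℕ)
  rw [h]
  refine Finset.sum_congr rfl fun j _ => ?_
  rw [Polynomial.eval_mul, Polynomial.eval_C, mul_comm]
  rfl

private theorem eval_alg {c : Fin (d + 1) → F} (hc : Function.Injective c) (i j : Fin (d + 1)) :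
    ∑ k : Fin (d + 1), (Lagrange.basis Finset.univ c j).coeff (k : ℕ) * c i ^ (k : ℕ) =
      if j = i then 1 else 0 := by
  rw [← lag_self hc i j]
  unfold lag
  have hn : (Lagrange.basis Finset.univ c j).natDegree < d + 1 := by
    have h := Lagrange.natDegree_basis (hc.injOn (s := (Finset.univ : Finset (Fin (d + 1))))) (Finset.mem_univ j)
    rw [h, Finset.card_univ, Fintype.card_fin]
    omega
  rw [Polynomial.eval_eq_sum_range' hn]
  exact Fin.sum_univ_eq_sum_range (fun k => (Lagrange.basis Finset.univ c j).coeff k * c i ^ k) (d + 1)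

private theorem coeff_alg {c : Fin (d + 1) → F} (hc : Function.Injective c) (k l : Fin (d + 1)) :
    ∑ j, c j ^ (k : ℕ) * (Lagrange.basis Finset.univ c j).coeff (l : ℕ) = if k = l then 1 else 0 := by
  have h := congrArg (fun q => Polynomial.coeff q (l : ℕ)) (pow_alg hc k)
  simp only [Polynomial.finsetSum_coeff, Polynomial.coeff_C_mul, Polynomial.coeff_X_pow] at h
  rw [← h]
  by_cases e : k = l
  · subst e
    simp
  · have e' : ¬ (l : ℕ) = (k : ℕ) := fun h => e (Fin.ext h.symm)
    rw [if_neg e, if_neg e']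

/-- `(w_j) ↦ ∑ j, w_j ⊗ e(c_j)` as an additive automorphism of `V^{d+1}` -/
noncomputable def PhiE {V : Type} [AddCommGroup V] [Module F V] (c : Fin (d + 1) → F)
    (hc : Function.Injective c) : (Fin (d + 1) → V) ≃+ (Fin (d + 1) → V) where
  toFun w := ∑ j, ten d (c j) (w j)
  invFun v := fun j => ∑ k : Fin (d + 1), (Lagrange.basis Finset.univ c j).coeff (k : ℕ) • v k
  left_inv w := by
    funext j
    show ∑ k : Fin (d + 1), (Lagrange.basis Finset.univ c j).coeff (k : ℕ) • (∑ i, ten d (c i) (w i)) k = w j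
    have h1 : ∀ k : Fin (d + 1), (Lagrange.basis Finset.univ c j).coeff (k : ℕ) • (∑ i, ten d (c i) (w i)) k =
        ∑ i, ((Lagrange.basis Finset.univ c j).coeff (k : ℕ) * c i ^ (k : ℕ)) • w i := by
      intro k
      rw [Finset.sum_apply, Finset.smul_sum]
      refine Finset.sum_congr rfl fun i _ => ?_
      show _ • c i ^ (k : ℕ) • w i = _
      rw [smul_smul]
    rw [Finset.sum_congr rfl fun k _ => h1 k, Finset.sum_comm]
    have h2 : ∀ i, ∑ k : Fin (d + 1), ((Lagrange.basis Finset.univ c j).coeff (k : ℕ) * c i ^ (k : ℕ)) • w i =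
        (if j = i then (1 : F) else 0) • w i := by
      intro i
      rw [← Finset.sum_smul, eval_alg hc i j]
    rw [Finset.sum_congr rfl fun i _ => h2 i]
    simp
  right_inv v := by
    funext k
    show (∑ j, ten d (c j) (∑ l : Fin (d + 1), (Lagrange.basis Finset.univ c j).coeff (l : ℕ) • v l)) k = v k
    rw [Finset.sum_apply]
    have h1 : ∀ j, ten d (c j) (∑ l : Fin (d + 1), (Lagrange.basis Finset.univ c j).coeff (l : ℕ) • v l) k =
        ∑ l : Fin (d + 1), (c j ^ (k : ℕ) * (Lagrange.basis Finset.univ c j).coeff (l : ℕ)) • v l := by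
      intro j
      show c j ^ (k : ℕ) • (∑ l : Fin (d + 1), (Lagrange.basis Finset.univ c j).coeff (l : ℕ) • v l) = _
      rw [Finset.smul_sum]
      refine Finset.sum_congr rfl fun l _ => ?_
      rw [smul_smul]
    rw [Finset.sum_congr rfl fun j _ => h1 j, Finset.sum_comm]
    have h2 : ∀ l : Fin (d + 1), ∑ j, (c j ^ (k : ℕ) * (Lagrange.basis Finset.univ c j).coeff (l : ℕ)) • v l =
        (if k = l then (1 : F) else 0) • v l := by
      intro l
      rw [← Finset.sum_smul, coeff_alg hc k l]
    rw [Finset.sum_congr rfl fun l _ => h2 l]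
    simp
  map_add' w w' := by
    rw [← Finset.sum_add_distrib]
    refine Finset.sum_congr rfl fun j _ => ?_
    funext k
    show c j ^ (k : ℕ) • (w j + w' j) = c j ^ (k : ℕ) • w j + c j ^ (k : ℕ) • w' j
    rw [smul_add]

theorem PhiE_apply {V : Type} [AddCommGroup V] [Module F V] (c : Fin (d + 1) → F)
    (hc : Function.Injective c) (w : Fin (d + 1) → V) :
    PhiE c hc w = ∑ j, ten d (c j) (w j) := by
  rfl

theorem ten_eq_Phi {V : Type} [AddCommGroup V] [Module F V] (c : Fin (d + 1) → F)
    (hc : Function.Injective c) (t : F) (w : V) :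
    ten d t w = PhiE c hc (fun j => lag c t j • w) := by
  rw [PhiE_apply]
  funext k
  rw [Finset.sum_apply]
  have h := congrFun (lag_sum hc t) k
  rw [Finset.sum_apply] at h
  show t ^ (k : ℕ) • w = ∑ j, c j ^ (k : ℕ) • lag c t j • w
  have h' : t ^ (k : ℕ) = ∑ j, lag c t j * c j ^ (k : ℕ) := h
  rw [h', Finset.sum_smul]
  refine Finset.sum_congr rfl fun j _ => ?_
  rw [smul_smul, mul_comm]

theorem exists_coef {c : Fin (d + 1) → F} (hc : Function.Injective c) (γ : Fin (d + 1) → F) :
    ∃ b : Fin (d + 1) → F, γ = ∑ j, b j • evec F d (c j) := by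
  refine ⟨(PhiE (V := F) c hc).symm γ, ?_⟩
  conv_lhs => rw [← (PhiE (V := F) c hc).apply_symm_apply γ]
  rw [PhiE_apply]
  refine Finset.sum_congr rfl fun j _ => ?_
  funext k
  show c j ^ (k : ℕ) • _ = _ * c j ^ (k : ℕ)
  rw [smul_eq_mul, mul_comm]

end Pool.Agent.Lib_MP_3a79a1_b
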