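import Pool.Agent.Lib_MP_3a79a1_b.Alg

/-!
# [RM-GC] Characters at the next level

`χ` a nontrivial character of `V' = Fin (d+1) → V`.  For `c : F` let `χ_c w = χ (ten d c w)`, a
character of `V` (`AddChar.compAddMonoidHom`).  `#{c | χ_c = 1} ≤ d`: otherwise take `d+1` distinct
such `c_j` (injective `c : Fin (d+1) → F`); every `v : V'` is `PhiE c hc w = ∑ j ten d (c j) (w j)`,
so `χ v = ∏ j χ_{c_j} (w_j) = 1`, i.e. `χ = 1`.
`b • pt' (u,c) = ten d c (b • pt u)`.  So
`𝔼 (u,c) ind (∀ b, χ (b • pt' (u,c)) = 1) = 𝔼 c 𝔼 u ind (∀ b, χ_c (b • pt u) = 1)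
 ≤ 𝔼 c (ind (χ_c = 1) + m d / q) ≤ d/q + m d/q`.
(If `q ≤ d` the bound for the number of trivial `χ_c` is trivial as well.)
-/

set_option linter.unusedSectionVars false

namespace Pool.Agent.Lib_MP_3a79a1_b

open Finset
open scoped BigOperators

variable {F : Type} [Field F] [Fintype F] [DecidableEq F] {d : ℕ}

/-- `w ↦ ten d c w` as an additive homomorphism -/
private def tenH_goodchr {V : Type} [AddCommGroup V] [Module F V] (c : F) :
    V →+ (Fin (d + 1) → V) where
  toFun w := ten d c w
  map_zero' := by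
    funext k
    show c ^ (k : ℕ) • (0 : V) = 0
    rw [smul_zero]
  map_add' w w' := by
    funext k
    show c ^ (k : ℕ) • (w + w') = c ^ (k : ℕ) • w + c ^ (k : ℕ) • w'
    rw [smul_add]

private lemma char_sum_goodchr {V ι : Type} [AddCommGroup V] (χ : AddChar V ℂ)
    (s : Finset ι) (f : ι → V) : χ (∑ j ∈ s, f j) = ∏ j ∈ s, χ (f j) := by
  classical
  induction s using Finset.induction_on with
  | empty => simp
  | insert a s ha ih =>
    rw [Finset.sum_insert ha, Finset.prod_insert ha, AddChar.map_add_eq_mul, ih]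

open Classical in
private lemma card_triv_goodchr {V : Type} [AddCommGroup V] [Module F V]
    (χ : AddChar (Fin (d + 1) → V) ℂ) (hχ : χ ≠ 1) :
    (Finset.univ.filter (fun c : F => ∀ w : V, χ (ten d c w) = 1)).card ≤ d := by
  classical
  by_contra hcon
  push Not at hcon
  obtain ⟨t, ht, htc⟩ := Finset.exists_subset_card_eq (Nat.succ_le_of_lt hcon)
  obtain e := (t.equivFinOfCardEq htc).symm
  let c : Fin (d + 1) → F := fun j => (e j : F)
  have hc : Function.Injective c := fun i j h => e.injective (Subtype.ext h)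
  apply hχ
  ext v
  have hv : v = PhiE (V := V) c hc ((PhiE (V := V) c hc).symm v) :=
    ((PhiE (V := V) c hc).apply_symm_apply v).symm
  rw [hv, PhiE_apply, char_sum_goodchr, AddChar.one_apply]
  refine Finset.prod_eq_one fun j _ => ?_
  exact (Finset.mem_filter.1 (ht (e j).2)).2 _

theorem next_chr {S : Sys F d} {m : ℕ} (hS : Good S m) (χ : AddChar (next S).V ℂ) (hχ : χ ≠ 1) :
    𝔼 u : (next S).U, ind (∀ b : F, χ (b • (next S).pt u) = 1) ≤
      ((m + 1 : ℕ) : ℝ) * d / Fintype.card F := by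
  classical
  have hq : (0 : ℝ) < Fintype.card F := by exact_mod_cast Fintype.card_pos
  let χ' : AddChar (Fin (d + 1) → S.V) ℂ := χ
  have hχ' : χ' ≠ 1 := hχ
  have hsm : ∀ (u : S.U) (c b : F), b • ten d c (S.pt u) = ten d c (b • S.pt u) := by
    intro u c b
    funext k
    show b • c ^ (k : ℕ) • S.pt u = c ^ (k : ℕ) • b • S.pt u
    rw [smul_comm]
  have h1 : 𝔼 u : (next S).U, ind (∀ b : F, χ (b • (next S).pt u) = 1) =
      𝔼 c : F, 𝔼 u : S.U, ind (∀ b : F, χ' (ten d c (b • S.pt u)) = 1) := by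
    have h0 : 𝔼 u : (next S).U, ind (∀ b : F, χ (b • (next S).pt u) = 1) =
        𝔼 u : S.U × F, ind (∀ b : F, χ' (ten d u.2 (b • S.pt u.1)) = 1) := by
      refine Finset.expect_congr rfl fun u _ => ?_
      refine ind_congr (forall_congr' fun b => ?_)
      rw [← hsm]
      rfl
    rw [h0, ← Finset.univ_product_univ]
    rw [Finset.expect_product' (s := (univ : Finset S.U)) (t := (univ : Finset F))
      (f := fun u c => ind (∀ b : F, χ' (ten d c (b • S.pt u)) = 1)), Finset.expect_comm]
  have h2 : ∀ c : F, 𝔼 u : S.U, ind (∀ b : F, χ' (ten d c (b • S.pt u)) = 1) ≤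
      ind (∀ w : S.V, χ' (ten d c w) = 1) + m * d / Fintype.card F := by
    intro c
    by_cases h : ∀ w : S.V, χ' (ten d c w) = 1
    · rw [ind_true h]
      have h3 : 𝔼 u : S.U, ind (∀ b : F, χ' (ten d c (b • S.pt u)) = 1) ≤ 𝔼 u : S.U, (1 : ℝ) :=
        Finset.expect_le_expect fun u _ => ind_le_one _
      rw [Fintype.expect_const] at h3
      have h4 : (0 : ℝ) ≤ m * d / Fintype.card F := by positivity
      linarith
    · rw [ind_false h, zero_add]
      have h3 := hS.chr (χ'.compAddMonoidHom (tenH_goodchr c)) (by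
        intro h5
        apply h
        intro w
        have h6 := DFunLike.congr_fun h5 w
        exact h6)
      exact h3
  rw [h1]
  have h3 : 𝔼 c : F, 𝔼 u : S.U, ind (∀ b : F, χ' (ten d c (b • S.pt u)) = 1) ≤
      𝔼 c : F, (ind (∀ w : S.V, χ' (ten d c w) = 1) + m * d / Fintype.card F) :=
    Finset.expect_le_expect fun c _ => h2 c
  refine h3.trans ?_
  rw [Finset.expect_add_distrib, Fintype.expect_const]
  have h4 : 𝔼 c : F, ind (∀ w : S.V, χ' (ten d c w) = 1) ≤ d / Fintype.card F := by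
    rw [Fintype.expect_eq_sum_div_card]
    have h5 : ∑ c : F, ind (∀ w : S.V, χ' (ten d c w) = 1) =
        ((Finset.univ.filter (fun c : F => ∀ w : S.V, χ' (ten d c w) = 1)).card : ℝ) := by
      rw [Finset.card_filter]
      push_cast
      refine Finset.sum_congr rfl fun c _ => ?_
      by_cases h : ∀ w : S.V, χ' (ten d c w) = 1
      · rw [ind_true h, if_pos h]
      · rw [ind_false h, if_neg h]
    rw [h5]
    gcongr
    have h7 := card_triv_goodchr (F := F) (V := S.V) χ' hχ'
    exact_mod_cast h7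
  have h6 : ((m + 1 : ℕ) : ℝ) * d / Fintype.card F = d / Fintype.card F + m * d / Fintype.card F := by
    push_cast
    ring
  rw [h6]
  linarith

end Pool.Agent.Lib_MP_3a79a1_b
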