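import Pool.Agent.Lib_MP_3a79a1_b.Defs

/-!
# [RM-GH] Isoperimetry at the next level (Efron-Stein)

`U' = U × F`, `L' = (L × F) ⊕ U`, `f (u,c) = ind (B (u,c))`, `β = 𝔼 f`, `β_c = 𝔼 u f (u,c)`,
`r_u = 𝔼 c f (u,c)`.  `|U'|/q = |U|`.
Right side `= ∑ c ∑ l r_{l,c} (1 - r_{l,c}) + ∑ u r_u (1 - r_u)` with
`r_{l,c} = 𝔼 t ind (B (lpt l t, c))`.  By `Good.ham` for `u ↦ B (u,c)` the first sum is
`≥ (|U|/q) ∑ c β_c (1 - β_c) = |U| 𝔼 c β_c (1 - β_c)`, the second is `|U| 𝔼 u r_u (1 - r_u)`.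
It remains `β (1-β) ≤ 𝔼 c β_c (1-β_c) + 𝔼 u r_u (1 - r_u)`, i.e. (`𝔼 β_c = 𝔼 r_u = β`)
`𝔼 c β_c^2 + 𝔼 u r_u^2 ≤ β + β^2 = 𝔼 f^2 + β^2`, which is
`0 ≤ 𝔼 (u,c) (f (u,c) - r_u - β_c + β)^2` expanded.
-/

set_option linter.unusedSectionVars false

namespace Pool.Agent.Lib_MP_3a79a1_b

open Finset
open scoped BigOperators

variable {F : Type} [Field F] [Fintype F] [DecidableEq F] {d : ℕ}

private lemma es_goodham {U C : Type} [Fintype U] [Fintype C] [Nonempty U] [Nonempty C]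
    (f : U → C → ℝ) (hf : ∀ u c, f u c ^ 2 = f u c) :
    𝔼 c, (𝔼 u, f u c) ^ 2 + 𝔼 u, (𝔼 c, f u c) ^ 2 ≤
      (𝔼 u, 𝔼 c, f u c) + (𝔼 u, 𝔼 c, f u c) ^ 2 := by
  set r : U → ℝ := fun u => 𝔼 c, f u c with hr
  set b : C → ℝ := fun c => 𝔼 u, f u c with hb
  set β : ℝ := 𝔼 u, r u with hβ
  have hβ' : 𝔼 c, b c = β := by
    rw [hβ, hb, hr]
    exact Finset.expect_comm _ _ _
  have h1 : ∀ u, 𝔼 c, (f u c - r u - b c + β) ^ 2 =
      r u + r u ^ 2 + (𝔼 c, b c ^ 2) + β ^ 2 - 2 * r u * r u - 2 * (𝔼 c, f u c * b c)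
        + 2 * β * r u + 2 * r u * β - 2 * β * r u - 2 * β * β := by
    intro u
    have h2 : ∀ c, (f u c - r u - b c + β) ^ 2 =
        f u c + r u ^ 2 + b c ^ 2 + β ^ 2 - 2 * r u * f u c - 2 * (f u c * b c)
          + 2 * β * f u c + 2 * r u * b c - 2 * β * r u - 2 * β * b c := by
      intro c
      have := hf u c
      linear_combination this
    rw [Finset.expect_congr rfl (fun c _ => h2 c)]
    have hru : 𝔼 i, f u i = r u := rfl
    simp only [Finset.expect_add_distrib, Finset.expect_sub_distrib, ← Finset.mul_expect,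
      Fintype.expect_const, hβ', hru]
  have h3 : 𝔼 u, 𝔼 c, f u c * b c = 𝔼 c, b c ^ 2 := by
    rw [Finset.expect_comm]
    apply Finset.expect_congr rfl
    intro c _
    rw [← Finset.expect_mul, sq]
  have h4 : 𝔼 u, 𝔼 c, (f u c - r u - b c + β) ^ 2 =
      β + β ^ 2 - (𝔼 c, b c ^ 2) - 𝔼 u, r u ^ 2 := by
    rw [Finset.expect_congr rfl (fun u _ => h1 u)]
    have h5 : ∀ u, r u + r u ^ 2 + (𝔼 c, b c ^ 2) + β ^ 2 - 2 * r u * r u
        - 2 * (𝔼 c, f u c * b c) + 2 * β * r u + 2 * r u * β - 2 * β * r u - 2 * β * β =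
        (1 + 2 * β) * r u - r u ^ 2 + ((𝔼 c, b c ^ 2) - β ^ 2) - 2 * (𝔼 c, f u c * b c) := by
      intro u; ring
    rw [Finset.expect_congr rfl (fun u _ => h5 u)]
    simp only [Finset.expect_add_distrib, Finset.expect_sub_distrib, ← Finset.mul_expect,
      Fintype.expect_const, h3]
    rw [← hβ]
    ring
  have h6 : 0 ≤ 𝔼 u, 𝔼 c, (f u c - r u - b c + β) ^ 2 :=
    Finset.expect_nonneg fun u _ => Finset.expect_nonneg fun c _ => sq_nonneg _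
  rw [h4] at h6
  linarith

theorem next_ham {S : Sys F d} {m : ℕ} (hS : Good S m) (B : (next S).U → Prop) :
    (Fintype.card (next S).U : ℝ) / Fintype.card F *
        ((𝔼 u, ind (B u)) * (1 - 𝔼 u, ind (B u))) ≤
      ∑ l : (next S).L, (𝔼 t : F, ind (B ((next S).lpt l t))) *
        (1 - 𝔼 t : F, ind (B ((next S).lpt l t))) := by
  have hq : (0 : ℝ) < Fintype.card F := by
    exact_mod_cast Fintype.card_pos
  have hN : (0 : ℝ) < Fintype.card S.U := by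
    exact_mod_cast Fintype.card_pos
  have hcard : (Fintype.card (next S).U : ℝ) / Fintype.card F = Fintype.card S.U := by
    have h : Fintype.card (next S).U = Fintype.card S.U * Fintype.card F :=
      Fintype.card_prod S.U F
    rw [h]
    push_cast
    field_simp
  set f : S.U → F → ℝ := fun u c => ind (B (u, c)) with hf
  have hf2 : ∀ u c, f u c ^ 2 = f u c := by
    intro u c
    by_cases h : B (u, c)
    · simp only [hf, ind_true h]; norm_num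
    · simp only [hf, ind_false h]; norm_num
  have hβ : 𝔼 u, ind (B u) = 𝔼 u, 𝔼 c, f u c := by
    have h : (𝔼 u : S.U × F, ind (B u)) = 𝔼 u, 𝔼 c, f u c := by
      rw [← Finset.univ_product_univ, Finset.expect_product]
    exact h
  have hR : (∑ l : (next S).L, (𝔼 t : F, ind (B ((next S).lpt l t))) *
        (1 - 𝔼 t : F, ind (B ((next S).lpt l t)))) =
      (∑ l : S.L, ∑ c : F, (𝔼 t : F, f (S.lpt l t) c) * (1 - 𝔼 t : F, f (S.lpt l t) c)) +
      ∑ u : S.U, (𝔼 c, f u c) * (1 - 𝔼 c, f u c) := by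
    have h : (∑ l : (S.L × F) ⊕ S.U, (𝔼 t : F, ind (B ((next S).lpt l t))) *
        (1 - 𝔼 t : F, ind (B ((next S).lpt l t)))) =
      (∑ l : S.L, ∑ c : F, (𝔼 t : F, f (S.lpt l t) c) * (1 - 𝔼 t : F, f (S.lpt l t) c)) +
      ∑ u : S.U, (𝔼 c, f u c) * (1 - 𝔼 c, f u c) := by
      rw [Fintype.sum_sum_type, Fintype.sum_prod_type]
      rfl
    exact h
  rw [hR, hcard, hβ, Finset.sum_comm]
  have h1 : (∑ c : F, (Fintype.card S.U : ℝ) / Fintype.card F *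
      ((𝔼 u, f u c) * (1 - 𝔼 u, f u c))) ≤
      ∑ c : F, ∑ l : S.L, (𝔼 t : F, f (S.lpt l t) c) * (1 - 𝔼 t : F, f (S.lpt l t) c) :=
    Finset.sum_le_sum fun c _ => hS.ham (fun u => B (u, c))
  have h2 : (∑ c : F, (Fintype.card S.U : ℝ) / Fintype.card F *
      ((𝔼 u, f u c) * (1 - 𝔼 u, f u c))) =
      Fintype.card S.U * ((𝔼 u, 𝔼 c, f u c) - 𝔼 c, (𝔼 u, f u c) ^ 2) := by
    rw [← Finset.mul_sum]
    have h3 : (∑ c : F, (𝔼 u, f u c) * (1 - 𝔼 u, f u c)) =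
        Fintype.card F * ((𝔼 u, 𝔼 c, f u c) - 𝔼 c, (𝔼 u, f u c) ^ 2) := by
      have h4 : (𝔼 c : F, (𝔼 u, f u c) * (1 - 𝔼 u, f u c)) =
          (𝔼 u, 𝔼 c, f u c) - 𝔼 c, (𝔼 u, f u c) ^ 2 := by
        rw [Finset.expect_comm, ← Finset.expect_sub_distrib]
        apply Finset.expect_congr rfl
        intro c _
        ring
      rw [← h4, Fintype.expect_eq_sum_div_card]
      field_simp
    rw [h3]
    field_simp
  have h5 : (∑ u : S.U, (𝔼 c, f u c) * (1 - 𝔼 c, f u c)) =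
      Fintype.card S.U * ((𝔼 u, 𝔼 c, f u c) - 𝔼 u, (𝔼 c, f u c) ^ 2) := by
    have h4 : (𝔼 u : S.U, (𝔼 c, f u c) * (1 - 𝔼 c, f u c)) =
        (𝔼 u, 𝔼 c, f u c) - 𝔼 u, (𝔼 c, f u c) ^ 2 := by
      rw [← Finset.expect_sub_distrib]
      apply Finset.expect_congr rfl
      intro c _
      ring
    rw [← h4, Fintype.expect_eq_sum_div_card]
    field_simp
  rw [h5]
  rw [h2] at h1
  have h6 := es_goodham f hf2
  have h7 : (Fintype.card S.U : ℝ) * ((𝔼 u, 𝔼 c, f u c) * (1 - 𝔼 u, 𝔼 c, f u c)) ≤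
      Fintype.card S.U * (((𝔼 u, 𝔼 c, f u c) - 𝔼 c, (𝔼 u, f u c) ^ 2) +
        ((𝔼 u, 𝔼 c, f u c) - 𝔼 u, (𝔼 c, f u c) ^ 2)) := by
    apply mul_le_mul_of_nonneg_left _ hN.le
    nlinarith [h6]
  rw [mul_add] at h7
  linarith

end Pool.Agent.Lib_MP_3a79a1_b
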