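import Pool.Agent.Lib_MP_3a79a1_b.GoodLin
import Pool.Agent.Lib_MP_3a79a1_b.GoodHam
import Pool.Agent.Lib_MP_3a79a1_b.GoodChr

/-!
# All levels are good
-/

set_option linter.unusedSectionVars false

namespace Pool.Agent.Lib_MP_3a79a1_b

open Finset
open scoped BigOperators

variable {F : Type} [Field F] [Fintype F] [DecidableEq F] {d : ℕ}

theorem good_next {S : Sys F d} {m : ℕ} (hS : Good S m) : Good (next S) (m + 1) where
  lin_add := next_lin_add hS
  lin_e := next_lin_e hS
  inc := next_inc hS
  ham := next_ham hS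
  chr := next_chr hS

theorem good_sysm : ∀ m : ℕ, Good (sysm F d m) m
  | 0 => good_base
  | m + 1 => good_next (good_sysm m)

end Pool.Agent.Lib_MP_3a79a1_b
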