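import Pool.Agent.Lib_MP_3a79a1_b.MixChr

/-!
# [RM-MS] The spectral gap of a good system

`mix_sys`: for a system which is `Good S m` with `m d / q ≤ 1/10000`.
Proof.  For `χ ≠ 1`: `𝔼 (u,b), χ (b • pt u) = 𝔼 u, 𝔼 b, χ (b • pt u)`, and the inner average is `1`
if `χ (b • pt u) = 1` for all `b` and `0` otherwise (`AddChar.sum_eq_ite` /
`AddChar.expect_eq_ite` for the character `b ↦ χ (b • pt u)` of `F`).  So it equals
`𝔼 u, ind (∀ b, χ (b • pt u) = 1) ≤ m d / q` by `Good.chr`.
-/

set_option linter.unusedSectionVars false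

namespace Pool.Agent.Lib_MP_3a79a1_b

open Finset
open scoped BigOperators


theorem mix_sys {F : Type} [Field F] [Fintype F] [DecidableEq F] {d : ℕ} {S : Sys F d} {m : ℕ}
    (hS : Good S m) (hq : (m : ℝ) * d / Fintype.card F ≤ 1 / 10000) : Mix (hatS S) := by
  classical
  have hne : Nonempty (S.U × F) := ⟨(Classical.arbitrary _, 0)⟩
  apply mix_of_chr
  intro χ hχ
  have h1 : 𝔼 s : S.U × F, χ (hatS S s) = 𝔼 u : S.U, 𝔼 b : F, χ (b • S.pt u) := by
    rw [← Finset.univ_product_univ, Finset.expect_product]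
    rfl
  have h2 : ∀ u : S.U, 𝔼 b : F, χ (b • S.pt u) =
      ((ind (∀ b : F, χ (b • S.pt u) = 1) : ℝ) : ℂ) := by
    intro u
    have h := AddChar.expect_eq_ite
      (χ.compAddMonoidHom (LinearMap.toSpanSingleton F S.V (S.pt u)).toAddMonoidHom)
    have e : ∀ b : F, (χ.compAddMonoidHom
        (LinearMap.toSpanSingleton F S.V (S.pt u)).toAddMonoidHom) b = χ (b • S.pt u) :=
      fun b => rfl
    simp only [e] at h
    rw [h]
    by_cases h0 : ∀ b : F, χ (b • S.pt u) = 1
    · rw [ind_true h0, if_pos]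
      · norm_num
      · ext b
        rw [e, h0]
        rfl
    · rw [ind_false h0, if_neg]
      · norm_num
      · intro h3
        apply h0
        intro b
        rw [← e, h3]
        rfl
  have h3 : (𝔼 u : S.U, ((ind (∀ b : F, χ (b • S.pt u) = 1) : ℝ) : ℂ)) =
      ((𝔼 u : S.U, ind (∀ b : F, χ (b • S.pt u) = 1) : ℝ) : ℂ) := by
    push_cast
    rfl
  have h4 : 0 ≤ 𝔼 u : S.U, ind (∀ b : F, χ (b • S.pt u) = 1) :=
    Finset.expect_nonneg fun u _ => ind_nonneg _
  rw [h1, Finset.expect_congr rfl fun u _ => h2 u, h3, Complex.norm_real, Real.norm_of_nonneg h4]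
  exact (hS.chr χ hχ).trans hq

end Pool.Agent.Lib_MP_3a79a1_b
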