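import Pool.Agent.Lib_MP_3a79a1_b.Core
import Pool.Agent.Lib_MP_3a79a1_b.MixSys
import Pool.Agent.Lib_MP_3a79a1_b.GoodAll

/-!
# [RM-BC] Level zero

`V = F`, `U = Unit`, `a b = A (inl ((), b))`.  For `x : X` let `f b = some (a b x)`.
`OK f γ ((), b)` says `a (γ + b) x = a b (a γ x)` (`hatS (base) ((),b) = b • 1 = b`), so
`En f = 𝔼 γ 𝔼 b ind (a b (a γ x) ≠ a (b + γ) x) = tbX A x`.  `core`:
`𝔼 γ ind (a γ x ∉ GG) ≤ (700/e1) tbX A x`.  Sum over `x`; `∑ x ind (a γ x ∉ GG) = ∑ x ind (x ∉ GG)`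
since `a γ` is a bijection.  `∑ x tbX A x ≤ own A` (all parts of `ownX` are nonnegative).
`Mix (hatS (base F d))` by `mix_sys good_base` (`0 * d / q = 0`).
-/

set_option linter.unusedSectionVars false

namespace Pool.Agent.Lib_MP_3a79a1_b

open Finset
open scoped BigOperators

variable {F : Type} [Field F] [Fintype F] [DecidableEq F] {d : ℕ}

variable {X : Type} [Fintype X]

private lemma tb_le_basec (A : Gen (base F d) → Equiv.Perm X) (x : X) : tbX A x ≤ ownX A x := by
  have h1 : 0 ≤ ivX (ptA A) x := Finset.expect_nonneg fun s _ => ind_nonneg _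
  have h2 : 0 ≤ cmX (ptA A) x :=
    Finset.expect_nonneg fun s _ => Finset.expect_nonneg fun t _ => ind_nonneg _
  have h3 : 0 ≤ cnX A x := by
    unfold cnX cnL
    exact mul_nonneg (div_nonneg (Nat.cast_nonneg _) (Nat.cast_nonneg _))
      (Finset.sum_nonneg fun l _ => Finset.expect_nonneg fun t _ =>
        Finset.expect_nonneg fun b _ => Finset.expect_nonneg fun γ _ => ind_nonneg _)
  unfold ownX
  linarith

/-- the orbit map of `x` -/
private def orb_basec (A : Gen (base F d) → Equiv.Perm X) (x : X) :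
    (base F d).V → Option X := fun b : F => some (A (Sum.inl ((), b)) x)

private lemma En_basec (A : Gen (base F d) → Equiv.Perm X) (x : X) :
    En (hatS (base F d)) (ptA A) (orb_basec A x) = tbX A x := by
  have hR : tbX A x = 𝔼 b : F, 𝔼 b' : F, ind (A (Sum.inl ((), b)) (A (Sum.inl ((), b')) x) ≠
      A (Sum.inl ((), b + b')) x) := by
    unfold tbX tbU
    exact Fintype.expect_const (ι := Unit) _
  have hL : En (hatS (base F d)) (ptA A) (orb_basec A x) =
      𝔼 b' : F, 𝔼 b : F, ind (A (Sum.inl ((), b)) (A (Sum.inl ((), b')) x) ≠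
      A (Sum.inl ((), b + b')) x) := by
    unfold En eL
    refine Finset.expect_congr rfl fun (γ : F) _ => ?_
    have e0 : 𝔼 s : (base F d).U × F, ind (¬ OK (hatS (base F d)) (ptA A) (orb_basec A x) γ s) =
        𝔼 u : Unit, 𝔼 b : F,
          ind (¬ OK (hatS (base F d)) (ptA A) (orb_basec A x) γ (u, b)) := by
      rw [← Finset.univ_product_univ, Finset.expect_product]
      rfl
    rw [e0, Fintype.expect_const (ι := Unit)
      (𝔼 b : F, ind (¬ OK (hatS (base F d)) (ptA A) (orb_basec A x) γ ((), b)))]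
    refine Finset.expect_congr rfl fun b _ => ind_congr ?_
    have e1 : hatS (base F d) ((), b) = b := mul_one b
    have hc : A (Sum.inl ((), γ + b)) x = A (Sum.inl ((), b + γ)) x :=
      congrArg (fun c : F => A (Sum.inl ((), c)) x) (add_comm γ b)
    unfold OK
    rw [e1]
    constructor
    · intro h h'
      refine h ⟨_, rfl, ?_⟩
      exact congrArg some (hc.trans h'.symm)
    · rintro h ⟨z, hz, hz'⟩
      apply h
      have a1 : A (Sum.inl ((), γ)) x = z := Option.some.inj hz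
      have a2 : A (Sum.inl ((), γ + b)) x = A (Sum.inl ((), b)) z := Option.some.inj hz'
      exact (congrArg _ a1).trans (a2.symm.trans hc)
  rw [hL, hR, Finset.expect_comm]

private lemma mix_basec : Mix (hatS (base F d)) := by
  refine mix_sys (m := 0) good_base ?_
  norm_num

private lemma pt_basec (A : Gen (base F d) → Equiv.Perm X) {e1 : ℝ} (he0 : 0 < e1)
    (he1 : e1 ≤ 1 / 2000) (x : X) :
    𝔼 γ : F, ind (A (Sum.inl ((), γ)) x ∉ GG (hatS (base F d)) (ptA A) e1) ≤
      700 / e1 * tbX A x := by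
  have hne : Nonempty ((base F d).U × F) := ⟨(Classical.arbitrary _, 0)⟩
  have h := core (mix_basec (F := F) (d := d)) (α := ptA A) he0 he1 (orb_basec A x)
  rw [En_basec] at h
  refine le_trans (le_of_eq ?_) h
  refine Finset.expect_congr rfl fun γ _ => ind_congr ?_
  constructor
  · rintro h1 ⟨z, hz, hz'⟩
    have a1 : A (Sum.inl ((), (γ : F))) x = z := Option.some.inj hz'
    rw [a1] at h1
    exact h1 hz
  · intro h1 h2
    exact h1 ⟨_, h2, rfl⟩

theorem base_case (A : Gen (base F d) → Equiv.Perm X) {e1 : ℝ} (he0 : 0 < e1)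
    (he1 : e1 ≤ 1 / 2000) :
    ∑ x, ind (x ∉ GG (hatS (base F d)) (ptA A) e1) ≤ 700 / e1 * own A := by
  have h1 : ∑ x, 𝔼 γ : F, ind (A (Sum.inl ((), γ)) x ∉ GG (hatS (base F d)) (ptA A) e1) ≤
      ∑ x, 700 / e1 * tbX A x := Finset.sum_le_sum fun x _ => pt_basec A he0 he1 x
  have h2 : ∑ x, 𝔼 γ : F, ind (A (Sum.inl ((), γ)) x ∉ GG (hatS (base F d)) (ptA A) e1) =
      ∑ x, ind (x ∉ GG (hatS (base F d)) (ptA A) e1) := by
    rw [← Finset.expect_sum_comm]
    have e : ∀ γ : F, ∑ x, ind (A (Sum.inl ((), γ)) x ∉ GG (hatS (base F d)) (ptA A) e1) =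
        ∑ x, ind (x ∉ GG (hatS (base F d)) (ptA A) e1) := fun γ =>
      Equiv.sum_comp (A (Sum.inl ((), γ)))
        (fun x => ind (x ∉ GG (hatS (base F d)) (ptA A) e1))
    rw [Finset.expect_congr rfl fun γ _ => e γ]
    exact Fintype.expect_const _
  rw [← h2]
  refine h1.trans ?_
  rw [← Finset.mul_sum]
  refine mul_le_mul_of_nonneg_left ?_ (by positivity)
  exact Finset.sum_le_sum fun x _ => tb_le_basec A x

end Pool.Agent.Lib_MP_3a79a1_b
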