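import Pool.Agent.Lib_MP_3a79a1_b.SecB

/-!
# [RM-OR] Sums over excellent sections

`V` acts on the finite set `excF` of excellent sections by `tr` (`Exc_tr`, `tr_zero`, `tr_add`), and
evaluation at `0` is injective on the excellent sections defined at `0` (`max_unique`), with image
`GG`.  `secAt x` is the excellent section through `x ∈ GG`.

* `sum_exc_tr`: exchange the sums; for fixed `γ` the map `tr γ` is a bijection of `excF`.
* `sum_exc_ev`: `y ↦ y 0` is a bijection from `{y ∈ excF | y 0 ≠ none}` onto `GG`.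
* `Etot_eq`: same, `eX x = eL (secAt x) 0`, and `eL y 0 = 1` if `y 0 = none`.
* `sum_En`: `∑ y ∈ excF, En y = ∑ y, 𝔼 γ, eL (tr γ y) 0 = Etot`;
  `sum_pull`: `pull h y = 𝔼 γ, ((tr γ y) 0).elim 0 h`.
-/

set_option linter.unusedSectionVars false

namespace Pool.Agent.Lib_MP_3a79a1_b

open Finset
open scoped BigOperators

variable {V P X : Type} [AddCommGroup V] [Fintype V] [Fintype P] [Nonempty P] [Fintype X]
  {hat : P → V} {α : P → Equiv.Perm X}

/-- the excellent sections -/
noncomputable def excF (hat : P → V) (α : P → Equiv.Perm X) (e1 : ℝ) : Finset (V → Option X) := by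
  classical exact Finset.univ.filter (fun y => Exc hat α e1 y)

/-- total local error of the excellent sections at `0` -/
noncomputable def Etot (hat : P → V) (α : P → Equiv.Perm X) (e1 : ℝ) : ℝ :=
  ∑ y ∈ excF hat α e1, eL hat α y 0

theorem mem_excF {e1 : ℝ} {y : V → Option X} : y ∈ excF hat α e1 ↔ Exc hat α e1 y := by
  simp [excF]

theorem secAt_spec {e1 : ℝ} {x : X} (hx : x ∈ GG hat α e1) :
    Exc hat α e1 (secAt hat α e1 x) ∧ secAt hat α e1 x 0 = some x := by
  classical
  have hx' : ∃ y, Exc hat α e1 y ∧ y 0 = some x := hx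
  have e : secAt hat α e1 x = hx'.choose := by
    unfold secAt
    exact dif_pos hx'
  rw [e]
  exact hx'.choose_spec

theorem secAt_eq {e1 : ℝ} {y : V → Option X} (hy : Exc hat α e1 y) {x : X} (h : y 0 = some x) :
    secAt hat α e1 x = y := by
  have h1 := secAt_spec (hat := hat) (α := α) (e1 := e1) (x := x) ⟨y, hy, h⟩
  exact max_unique h1.1.1 hy.1 h1.2 h

theorem sum_exc_tr (e1 : ℝ) (Φ : (V → Option X) → ℝ) :
    ∑ y ∈ excF hat α e1, 𝔼 γ, Φ (tr γ y) = ∑ y ∈ excF hat α e1, Φ y := by
  have h1 : ∀ γ : V, ∑ y ∈ excF hat α e1, Φ (tr γ y) = ∑ y ∈ excF hat α e1, Φ y := by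
    intro γ
    refine Finset.sum_nbij' (fun y => tr γ y) (fun y => tr (-γ) y) ?_ ?_ ?_ ?_ ?_
    · intro y hy
      exact mem_excF.2 ((Exc_tr e1 γ y).2 (mem_excF.1 hy))
    · intro y hy
      exact mem_excF.2 ((Exc_tr e1 (-γ) y).2 (mem_excF.1 hy))
    · intro y _
      rw [← tr_add, neg_add_cancel, tr_zero]
    · intro y _
      rw [← tr_add, add_neg_cancel, tr_zero]
    · intro y _
      rfl
  rw [← Finset.expect_sum_comm]
  simp_rw [h1]
  rw [Fintype.expect_const]

private theorem cnt_orbit (e1 : ℝ) (x : X) :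
    ∑ y ∈ excF hat α e1, ind (y 0 = some x) = ind (x ∈ GG hat α e1) := by
  by_cases hx : x ∈ GG hat α e1
  · obtain ⟨h1, h2⟩ := secAt_spec hx
    rw [ind_true hx, Finset.sum_eq_single (secAt hat α e1 x), ind_true h2]
    · intro y hy hne
      refine ind_false fun h => hne ?_
      exact (secAt_eq (mem_excF.1 hy) h).symm
    · intro h
      exact absurd (mem_excF.2 h1) h
  · rw [ind_false hx]
    refine Finset.sum_eq_zero fun y hy => ind_false fun h => hx ?_
    exact ⟨y, mem_excF.1 hy, h⟩

theorem sum_exc_ev (e1 : ℝ) (h : X → ℝ) :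
    ∑ y ∈ excF hat α e1, (y 0).elim 0 h = ∑ x, ind (x ∈ GG hat α e1) * h x := by
  classical
  have h1 : ∀ o : Option X, o.elim 0 h = ∑ x, ind (o = some x) * h x := by
    intro o
    rcases o with _ | a
    · rw [Option.elim_none]
      refine (Finset.sum_eq_zero fun x _ => ?_).symm
      rw [ind_false (by simp), zero_mul]
    · rw [Option.elim_some, Finset.sum_eq_single a, ind_true rfl, one_mul]
      · intro b _ hb
        rw [ind_false (by simpa using hb.symm), zero_mul]
      · intro h
        exact absurd (Finset.mem_univ a) h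
  simp_rw [h1]
  rw [Finset.sum_comm]
  refine Finset.sum_congr rfl fun x _ => ?_
  rw [← Finset.sum_mul, cnt_orbit]

private theorem eL_none_orbit {y : V → Option X} (h : y 0 = none) : eL hat α y 0 = 1 := by
  unfold eL
  have h1 : ∀ s : P, ind (¬ OK hat α y 0 s) = 1 := by
    intro s
    refine ind_true ?_
    rintro ⟨x, hx, -⟩
    rw [h] at hx
    exact absurd hx (by simp)
  simp_rw [h1]
  exact Fintype.expect_const _

theorem Etot_eq (e1 : ℝ) :
    Etot hat α e1 = ∑ x, ind (x ∈ GG hat α e1) * eX hat α e1 x +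
      ∑ y ∈ excF hat α e1, ind (y 0 = none) := by
  rw [← sum_exc_ev, ← Finset.sum_add_distrib]
  unfold Etot
  refine Finset.sum_congr rfl fun y hy => ?_
  rcases hy0 : y 0 with _ | x
  · rw [Option.elim_none, ind_true rfl, eL_none_orbit hy0, zero_add]
  · rw [Option.elim_some, ind_false (by simp), add_zero]
    unfold eX
    rw [secAt_eq (mem_excF.1 hy) hy0]

theorem card_excF (e1 : ℝ) :
    ((excF hat α e1).card : ℝ) = ∑ x, ind (x ∈ GG hat α e1) +
      ∑ y ∈ excF hat α e1, ind (y 0 = none) := by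
  have h1 : ∑ x, ind (x ∈ GG hat α e1) = ∑ x, ind (x ∈ GG hat α e1) * (fun _ : X => (1 : ℝ)) x := by
    simp
  rw [h1, ← sum_exc_ev, ← Finset.sum_add_distrib, Finset.card_eq_sum_ones, Nat.cast_sum]
  refine Finset.sum_congr rfl fun y _ => ?_
  rcases hy0 : y 0 with _ | x
  · rw [Option.elim_none, ind_true rfl, zero_add, Nat.cast_one]
  · rw [Option.elim_some, ind_false (by simp), add_zero, Nat.cast_one]

theorem sum_En (e1 : ℝ) : ∑ y ∈ excF hat α e1, En hat α y = Etot hat α e1 := by
  unfold Etot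
  rw [← sum_exc_tr e1 (fun y => eL hat α y 0)]
  refine Finset.sum_congr rfl fun y _ => ?_
  unfold En
  refine Finset.expect_congr rfl fun γ _ => ?_
  rw [eL_tr, zero_add]

theorem sum_pull (e1 : ℝ) (h : X → ℝ) :
    ∑ y ∈ excF hat α e1, pull h y = ∑ x, ind (x ∈ GG hat α e1) * h x := by
  rw [← sum_exc_ev, ← sum_exc_tr e1 (fun y => (y 0).elim 0 h)]
  refine Finset.sum_congr rfl fun y _ => ?_
  unfold pull tr
  refine Finset.expect_congr rfl fun γ _ => ?_
  rw [zero_add]

end Pool.Agent.Lib_MP_3a79a1_b
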