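import Pool.Agent.Lib_MP_3a79a1_b.Core
import Pool.Agent.Lib_MP_3a79a1_b.Orbit

/-!
# [RM-BD] The boundary of the excellent part

`ζ` a permutation of `X`.  For an excellent `y` put `f γ = (y γ).map ζ`.  If `OK y γ s` and
`α s (ζ x) = ζ (α s x)` for `x = y γ` then `OK f γ s`; so `En f ≤ En y + pull (cmS α ζ) y`.
By `core`: `𝔼 γ ind (¬ ∃ x' ∈ GG, (y γ).map ζ = some x') ≤ (700/e1) (En y + pull (cmS α ζ) y)`.
Sum over `y ∈ excF`.  Left: with `Φ y = ind (¬ ∃ x' ∈ GG, (y 0).map ζ = some x')` it is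
`∑ y 𝔼 γ Φ (tr γ y) = ∑ y Φ y` (`sum_exc_tr`), which is
`≥ ∑ y, (y 0).elim 0 (fun x => ind (ζ x ∉ GG)) = ∑ x ind (x ∈ GG) ind (ζ x ∉ GG)` (`sum_exc_ev`).
Right: `sum_En`, `sum_pull`, `ind (x ∈ GG) ≤ 1`.
-/

set_option linter.unusedSectionVars false

namespace Pool.Agent.Lib_MP_3a79a1_b

open Finset
open scoped BigOperators

variable {V P X : Type} [AddCommGroup V] [Fintype V] [Fintype P] [Nonempty P] [Fintype X]
  {hat : P → V} {α : P → Equiv.Perm X}

private lemma cmS_nonneg_bdry (ζ : Equiv.Perm X) (x : X) : 0 ≤ cmS α ζ x := by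
  unfold cmS
  exact Finset.expect_nonneg fun s _ => ind_nonneg _

private lemma eL_map_bdry (ζ : Equiv.Perm X) (y : V → Option X) (γ : V) :
    eL hat α (fun δ => (y δ).map ζ) γ ≤ eL hat α y γ + (y γ).elim 0 (cmS α ζ) := by
  unfold eL
  cases hy : y γ with
  | none =>
    simp only [Option.elim_none, add_zero]
    refine Finset.expect_le_expect fun s _ => ind_mono ?_
    rintro - ⟨x, hx, -⟩
    rw [hy] at hx
    exact absurd hx (by simp)
  | some x =>
    simp only [Option.elim_some]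
    unfold cmS
    rw [← Finset.expect_add_distrib]
    refine Finset.expect_le_expect fun s _ => ind_le_add ?_
    intro hno
    by_contra hcon
    rw [not_or, not_not, not_not] at hcon
    obtain ⟨⟨x', hx', hx2⟩, hc⟩ := hcon
    rw [hy] at hx'
    obtain rfl := Option.some.inj hx'
    refine hno ⟨ζ x, ?_, ?_⟩
    · show (y γ).map ζ = some (ζ x)
      rw [hy]
      rfl
    · show (y (γ + hat s)).map ζ = some (α s (ζ x))
      rw [hx2, hc]
      rfl

private lemma En_map_bdry (ζ : Equiv.Perm X) (y : V → Option X) :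
    En hat α (fun δ => (y δ).map ζ) ≤ En hat α y + pull (cmS α ζ) y := by
  unfold En pull
  rw [← Finset.expect_add_distrib]
  exact Finset.expect_le_expect fun γ _ => eL_map_bdry ζ y γ

theorem boundary (hm : Mix hat) {e1 : ℝ} (he0 : 0 < e1) (he1 : e1 ≤ 1 / 2000)
    (ζ : Equiv.Perm X) :
    ∑ x, ind (x ∈ GG hat α e1 ∧ ζ x ∉ GG hat α e1) ≤
      700 / e1 * (Etot hat α e1 + ∑ x, cmS α ζ x) := by
  set Φ : (V → Option X) → ℝ :=
    fun y => ind (¬ ∃ x' ∈ GG hat α e1, (y 0).map ζ = some x') with hΦ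
  have hpos : 0 ≤ 700 / e1 := by positivity
  have h1 : ∀ y ∈ excF hat α e1, 𝔼 γ, Φ (tr γ y) ≤
      700 / e1 * (En hat α y + pull (cmS α ζ) y) := by
    intro y _
    have hc := core (α := α) hm he0 he1 (fun δ => (y δ).map ζ)
    have he : 𝔼 γ, Φ (tr γ y) =
        𝔼 γ, ind (¬ ∃ x ∈ GG hat α e1, (fun δ => (y δ).map ζ) γ = some x) := by
      refine Finset.expect_congr rfl fun γ _ => ?_
      simp only [hΦ, tr, zero_add]
    rw [he]
    exact hc.trans (mul_le_mul_of_nonneg_left (En_map_bdry ζ y) hpos)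
  have h2 : ∑ y ∈ excF hat α e1, Φ y ≤
      700 / e1 * (Etot hat α e1 + ∑ x, ind (x ∈ GG hat α e1) * cmS α ζ x) := by
    rw [← sum_exc_tr, ← sum_En, ← sum_pull, ← Finset.sum_add_distrib, Finset.mul_sum]
    exact Finset.sum_le_sum h1
  have h3 : ∑ x, ind (x ∈ GG hat α e1 ∧ ζ x ∉ GG hat α e1) ≤ ∑ y ∈ excF hat α e1, Φ y := by
    have h4 : ∑ x, ind (x ∈ GG hat α e1 ∧ ζ x ∉ GG hat α e1) =
        ∑ x, ind (x ∈ GG hat α e1) * ind (ζ x ∉ GG hat α e1) := by
      refine Finset.sum_congr rfl fun x _ => ?_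
      by_cases hx : x ∈ GG hat α e1
      · rw [ind_true hx, one_mul]
        exact ind_congr ⟨fun h => h.2, fun h => ⟨hx, h⟩⟩
      · rw [ind_false hx, zero_mul]
        exact ind_false fun h => hx h.1
    rw [h4, ← sum_exc_ev e1 (fun x => ind (ζ x ∉ GG hat α e1))]
    refine Finset.sum_le_sum fun y _ => ?_
    cases hy : y 0 with
    | none =>
      simp only [Option.elim_none]
      exact ind_nonneg _
    | some x =>
      simp only [Option.elim_some]
      refine ind_mono ?_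
      rintro hx ⟨x', hx', he⟩
      rw [hy] at he
      have he' : ζ x = x' := Option.some.inj he
      rw [he'] at hx
      exact hx hx'
  have h5 : ∑ x, ind (x ∈ GG hat α e1) * cmS α ζ x ≤ ∑ x, cmS α ζ x := by
    refine Finset.sum_le_sum fun x _ => ?_
    have := mul_le_mul_of_nonneg_right (ind_le_one (x ∈ GG hat α e1)) (cmS_nonneg_bdry (α := α) ζ x)
    rw [one_mul] at this
    exact this
  refine h3.trans (h2.trans (mul_le_mul_of_nonneg_left ?_ hpos))
  linarith

end Pool.Agent.Lib_MP_3a79a1_b
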