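import Pool.Agent.Lib_MP_3a79a1_b.MixCor
import Pool.Agent.Lib_MP_3a79a1_b.Orbit

/-!
# [RM-BE] The partial action given by the excellent sections

`x ∈ GG`, `y = secAt x`.
* `secAt_mem`: if `y γ = some x'` then `tr γ y` is excellent (`Exc_tr`) with value `x'` at `0`
  (`tr γ y 0 = y (0 + γ)`), so `x' ∈ GG` and `secAt x' = tr γ y` (`secAt_eq`).
* `secAt_inj`: `secAt x1 = tr (-γ) (secAt x') = secAt x2` and evaluate at `0`.
* `secAt_shift`: `OK (secAt x) 0 s` says `secAt x (0 + hat s) = some (α s x)`; so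
  `secAt (α s x) = tr (hat s) (secAt x)`, evaluate at `γ`.
* `leave`: `mix_pp` with `Z = V → Option X`, `act = tr`,
  `Γ = {y | Exc y ∧ ∃ x ∈ Y, y 0 = some x}` (equivalently the image of `Y` under the injective map
  `secAt`; `x ↦ secAt x` is a bijection `Y → Γ`).  `tr γ (secAt x) ∈ Γ ↔ ∃ x' ∈ Y, secAt x γ = some x'`.
  If `tr (hat s) (secAt x) ∉ Γ` then `¬ OK (secAt x) 0 s` or `α s x ∉ Y`.
* `leave2`: `mix_pp` with `Z = (V → Option X) × (V → Option X)`, `act γ = Prod.map (tr γ) (tr γ)`,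
  `Γ` = image of `{w ∈ Y | ζ w ∈ Y}` under the injective map `w ↦ (secAt w, secAt (ζ w))`.
  `act γ (secAt w, secAt (ζ w)) ∈ Γ ↔ ∃ v ∈ Y, secAt w γ = some v ∧ ζ v ∈ Y ∧ secAt (ζ w) γ = some (ζ v)`.
  For `γ = hat s`: it fails only if `¬ OK (secAt w) 0 s`, or `¬ OK (secAt (ζ w)) 0 s`, or
  `α s w ∉ Y`, or `α s (ζ w) ∉ Y`, or `α s (ζ w) ≠ ζ (α s w)` (otherwise `v = α s w`).  The sums
  over `w ∈ Y, ζ w ∈ Y` of the terms at `ζ w` are at most the sums over `Y` (`ζ` is injective).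
-/

set_option linter.unusedSectionVars false

namespace Pool.Agent.Lib_MP_3a79a1_b

open Finset
open scoped BigOperators

variable {V P X : Type} [AddCommGroup V] [Fintype V] [Fintype P] [Nonempty P] [Fintype X]
  {hat : P → V} {α : P → Equiv.Perm X}

theorem secAt_mem {e1 : ℝ} {x x' : X} (hx : x ∈ GG hat α e1) {γ : V}
    (h : secAt hat α e1 x γ = some x') :
    x' ∈ GG hat α e1 ∧ secAt hat α e1 x' = tr γ (secAt hat α e1 x) := by
  have h1 : Exc hat α e1 (tr γ (secAt hat α e1 x)) := (Exc_tr e1 γ _).2 (secAt_spec hx).1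
  have h2 : tr γ (secAt hat α e1 x) 0 = some x' := by
    unfold tr
    rw [zero_add]
    exact h
  exact ⟨⟨_, h1, h2⟩, secAt_eq h1 h2⟩

private theorem tr_neg_cancel_beta (γ : V) (y : V → Option X) : tr (-γ) (tr γ y) = y := by
  funext δ
  unfold tr
  rw [neg_add_cancel_right]

private theorem secAt_inj_beta {e1 : ℝ} {x1 x2 : X} (h1 : x1 ∈ GG hat α e1) (h2 : x2 ∈ GG hat α e1)
    (h : secAt hat α e1 x1 = secAt hat α e1 x2) : x1 = x2 := by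
  have h3 := (secAt_spec h1).2
  rw [h, (secAt_spec h2).2] at h3
  exact (Option.some.inj h3).symm

theorem secAt_inj {e1 : ℝ} {x1 x2 x' : X} (h1 : x1 ∈ GG hat α e1) (h2 : x2 ∈ GG hat α e1) {γ : V}
    (h : secAt hat α e1 x1 γ = some x') (h' : secAt hat α e1 x2 γ = some x') : x1 = x2 := by
  have h3 := (secAt_mem h1 h).2
  rw [(secAt_mem h2 h').2] at h3
  refine secAt_inj_beta h1 h2 ?_
  rw [← tr_neg_cancel_beta γ (secAt hat α e1 x1), ← h3, tr_neg_cancel_beta]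

theorem secAt_shift {e1 : ℝ} {x : X} (hx : x ∈ GG hat α e1) {s : P}
    (h : OK hat α (secAt hat α e1 x) 0 s) (γ : V) :
    secAt hat α e1 x (γ + hat s) = secAt hat α e1 (α s x) γ := by
  obtain ⟨a, ha, hb⟩ := h
  rw [(secAt_spec hx).2] at ha
  have hax : x = a := Option.some.inj ha
  subst hax
  rw [zero_add] at hb
  rw [(secAt_mem hx hb).2]
  rfl

private theorem secAt_ok_beta {e1 : ℝ} {x : X} (hx : x ∈ GG hat α e1) {s : P}
    (h : OK hat α (secAt hat α e1 x) 0 s) : secAt hat α e1 x (hat s) = some (α s x) := by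
  obtain ⟨a, ha, hb⟩ := h
  rw [(secAt_spec hx).2] at ha
  have hax : x = a := Option.some.inj ha
  subst hax
  rwa [zero_add] at hb

theorem leave (hm : Mix hat) (e1 : ℝ) (Y : Finset X) (hY : ∀ x ∈ Y, x ∈ GG hat α e1) :
    ∑ x ∈ Y, 𝔼 γ, ind (¬ ∃ x' ∈ Y, secAt hat α e1 x γ = some x') ≤
      2 * (∑ x ∈ Y, eX hat α e1 x + ∑ x ∈ Y, 𝔼 s, ind (α s x ∉ Y)) := by
  classical
  obtain ⟨Γ, hΓ⟩ : ∃ Γ : Finset (V → Option X), Γ = Y.image (secAt hat α e1) := ⟨_, rfl⟩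
  have hinj : Set.InjOn (secAt hat α e1) (Y : Set X) := fun a ha b hb hab =>
    secAt_inj_beta (hY a ha) (hY b hb) hab
  have hmem : ∀ x ∈ Y, ∀ γ, (tr γ (secAt hat α e1 x) ∈ Γ ↔ ∃ x' ∈ Y, secAt hat α e1 x γ = some x') := by
    intro x hx γ
    rw [hΓ, Finset.mem_image]
    constructor
    · rintro ⟨x', hx', h⟩
      refine ⟨x', hx', ?_⟩
      have h1 := congrFun h 0
      rw [(secAt_spec (hY x' hx')).2] at h1
      unfold tr at h1
      rw [zero_add] at h1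
      exact h1.symm
    · rintro ⟨x', hx', h⟩
      exact ⟨x', hx', (secAt_mem (hY x hx) h).2⟩
  have key := mix_pp hm (Z := V → Option X) tr tr_zero tr_add Γ
  have e1' : ∑ p ∈ Γ, 𝔼 γ, ind (tr γ p ∉ Γ) =
      ∑ x ∈ Y, 𝔼 γ, ind (¬ ∃ x' ∈ Y, secAt hat α e1 x γ = some x') := by
    conv_lhs => rw [hΓ, Finset.sum_image hinj]
    refine Finset.sum_congr rfl fun x hx => Finset.expect_congr rfl fun γ _ => ?_
    rw [← hΓ]
    exact ind_congr (not_congr (hmem x hx γ))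
  have e2' : ∑ p ∈ Γ, 𝔼 s, ind (tr (hat s) p ∉ Γ) ≤
      ∑ x ∈ Y, (eX hat α e1 x + 𝔼 s, ind (α s x ∉ Y)) := by
    conv_lhs => rw [hΓ, Finset.sum_image hinj]
    refine Finset.sum_le_sum fun x hx => ?_
    rw [← hΓ]
    unfold eX eL
    rw [← Finset.expect_add_distrib]
    refine Finset.expect_le_expect fun s _ => ind_le_add fun h => ?_
    by_contra hcon
    rw [not_or, not_not, not_not] at hcon
    exact h ((hmem x hx (hat s)).2 ⟨α s x, hcon.2, secAt_ok_beta (hY x hx) hcon.1⟩)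
  rw [e1'] at key
  rw [Finset.sum_add_distrib] at e2'
  linarith

private theorem sum_filter_le_beta (Y : Finset X) (p : X → Prop) [DecidablePred p] (f : X → ℝ)
    (hf : ∀ x, 0 ≤ f x) : ∑ w ∈ Y.filter p, f w ≤ ∑ x ∈ Y, f x :=
  Finset.sum_le_sum_of_subset_of_nonneg (Finset.filter_subset _ _) fun x _ _ => hf x

private theorem sum_shift_le_beta (Y : Finset X) (ζ : Equiv.Perm X) [DecidablePred fun w => ζ w ∈ Y]
    (f : X → ℝ) (hf : ∀ x, 0 ≤ f x) : ∑ w ∈ Y.filter (fun w => ζ w ∈ Y), f (ζ w) ≤ ∑ x ∈ Y, f x := by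
  classical
  have h1 : ∑ w ∈ Y.filter (fun w => ζ w ∈ Y), f (ζ w) =
      ∑ x ∈ (Y.filter (fun w => ζ w ∈ Y)).image ζ, f x :=
    (Finset.sum_image fun a _ b _ hab => ζ.injective hab).symm
  rw [h1]
  refine Finset.sum_le_sum_of_subset_of_nonneg ?_ fun x _ _ => hf x
  intro x hx
  obtain ⟨w, hw, rfl⟩ := Finset.mem_image.mp hx
  exact (Finset.mem_filter.mp hw).2

theorem leave2 (hm : Mix hat) (e1 : ℝ) (Y : Finset X) (hY : ∀ x ∈ Y, x ∈ GG hat α e1)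
    (ζ : Equiv.Perm X) :
    ∑ w ∈ Y, ind (ζ w ∈ Y) * 𝔼 γ, ind (¬ ∃ v ∈ Y, secAt hat α e1 w γ = some v ∧ ζ v ∈ Y ∧
        secAt hat α e1 (ζ w) γ = some (ζ v)) ≤
      2 * (2 * ∑ x ∈ Y, eX hat α e1 x + 2 * ∑ x ∈ Y, 𝔼 s, ind (α s x ∉ Y) +
        ∑ x ∈ Y, cmS α ζ x) := by
  classical
  obtain ⟨F2, hF2⟩ : ∃ F2 : X → (V → Option X) × (V → Option X),
      F2 = fun w => (secAt hat α e1 w, secAt hat α e1 (ζ w)) := ⟨_, rfl⟩
  obtain ⟨Y', hY'⟩ : ∃ Y' : Finset X, Y' = Y.filter (fun w => ζ w ∈ Y) := ⟨_, rfl⟩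
  obtain ⟨Γ, hΓ⟩ : ∃ Γ : Finset ((V → Option X) × (V → Option X)), Γ = Y'.image F2 := ⟨_, rfl⟩
  have hmY' : ∀ w, w ∈ Y' ↔ w ∈ Y ∧ ζ w ∈ Y := fun w => by rw [hY', Finset.mem_filter]
  have hinj : Set.InjOn F2 (Y' : Set X) := by
    intro a ha b hb hab
    have ha' := (hmY' a).1 ha
    have hb' := (hmY' b).1 hb
    rw [hF2] at hab
    exact secAt_inj_beta (hY a ha'.1) (hY b hb'.1) (congrArg Prod.fst hab)
  have hmem : ∀ w ∈ Y', ∀ γ, (Prod.map (tr γ) (tr γ) (F2 w) ∈ Γ ↔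
      ∃ v ∈ Y, secAt hat α e1 w γ = some v ∧ ζ v ∈ Y ∧ secAt hat α e1 (ζ w) γ = some (ζ v)) := by
    intro w hw γ
    have hw' := (hmY' w).1 hw
    rw [hΓ, Finset.mem_image]
    constructor
    · rintro ⟨v, hv, h⟩
      have hv' := (hmY' v).1 hv
      rw [hF2] at h
      have h1 : secAt hat α e1 v = tr γ (secAt hat α e1 w) := congrArg Prod.fst h
      have h2 : secAt hat α e1 (ζ v) = tr γ (secAt hat α e1 (ζ w)) := congrArg Prod.snd h
      refine ⟨v, hv'.1, ?_, hv'.2, ?_⟩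
      · have h3 := congrFun h1 0
        rw [(secAt_spec (hY v hv'.1)).2] at h3
        unfold tr at h3
        rw [zero_add] at h3
        exact h3.symm
      · have h3 := congrFun h2 0
        rw [(secAt_spec (hY (ζ v) hv'.2)).2] at h3
        unfold tr at h3
        rw [zero_add] at h3
        exact h3.symm
    · rintro ⟨v, hv, h1, hζv, h2⟩
      refine ⟨v, (hmY' v).2 ⟨hv, hζv⟩, ?_⟩
      rw [hF2]
      exact Prod.ext (secAt_mem (hY w hw'.1) h1).2 (secAt_mem (hY (ζ w) hw'.2) h2).2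
  have key := mix_pp hm (Z := (V → Option X) × (V → Option X)) (fun γ => Prod.map (tr γ) (tr γ))
    (fun z => by
      show (tr 0 z.1, tr 0 z.2) = z
      rw [tr_zero, tr_zero])
    (fun g h z => by
      show (tr (g + h) z.1, tr (g + h) z.2) = (tr g (tr h z.1), tr g (tr h z.2))
      rw [tr_add, tr_add]) Γ
  have e1' : ∑ p ∈ Γ, 𝔼 γ, ind (Prod.map (tr γ) (tr γ) p ∉ Γ) =
      ∑ w ∈ Y, ind (ζ w ∈ Y) * 𝔼 γ, ind (¬ ∃ v ∈ Y, secAt hat α e1 w γ = some v ∧ ζ v ∈ Y ∧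
        secAt hat α e1 (ζ w) γ = some (ζ v)) := by
    conv_lhs => rw [hΓ, Finset.sum_image hinj]
    rw [← hΓ]
    have h1 : ∑ w ∈ Y, ind (ζ w ∈ Y) * 𝔼 γ, ind (¬ ∃ v ∈ Y, secAt hat α e1 w γ = some v ∧ ζ v ∈ Y ∧
        secAt hat α e1 (ζ w) γ = some (ζ v)) =
        ∑ w ∈ Y', ind (ζ w ∈ Y) * 𝔼 γ, ind (¬ ∃ v ∈ Y, secAt hat α e1 w γ = some v ∧ ζ v ∈ Y ∧
        secAt hat α e1 (ζ w) γ = some (ζ v)) := by
      rw [hY']
      symm
      refine Finset.sum_filter_of_ne fun w _ hne => ?_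
      by_contra hcon
      apply hne
      rw [ind_false hcon, zero_mul]
    rw [h1]
    refine Finset.sum_congr rfl fun w hw => ?_
    rw [ind_true ((hmY' w).1 hw).2, one_mul]
    exact Finset.expect_congr rfl fun γ _ => ind_congr (not_congr (hmem w hw γ))
  have e2' : ∑ p ∈ Γ, 𝔼 s, ind (Prod.map (tr (hat s)) (tr (hat s)) p ∉ Γ) ≤
      ∑ w ∈ Y', (eX hat α e1 w + (eX hat α e1 (ζ w) + (𝔼 s, ind (α s w ∉ Y) +
        (𝔼 s, ind (α s (ζ w) ∉ Y) + cmS α ζ w)))) := by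
    conv_lhs => rw [hΓ, Finset.sum_image hinj]
    rw [← hΓ]
    refine Finset.sum_le_sum fun w hw => ?_
    have hw' := (hmY' w).1 hw
    unfold eX eL cmS
    rw [← Finset.expect_add_distrib, ← Finset.expect_add_distrib, ← Finset.expect_add_distrib,
      ← Finset.expect_add_distrib]
    refine Finset.expect_le_expect fun s _ => ?_
    have h1 : ind (Prod.map (tr (hat s)) (tr (hat s)) (F2 w) ∉ Γ) ≤
        ind (¬ OK hat α (secAt hat α e1 w) 0 s) + ind (¬ OK hat α (secAt hat α e1 (ζ w)) 0 s ∨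
          α s w ∉ Y ∨ α s (ζ w) ∉ Y ∨ α s (ζ w) ≠ ζ (α s w)) := by
      refine ind_le_add fun h => ?_
      by_contra hcon
      simp only [not_or, not_not, ne_eq] at hcon
      obtain ⟨k1, k2, k3, k4, k5⟩ := hcon
      refine h ((hmem w hw (hat s)).2 ⟨α s w, k3, secAt_ok_beta (hY w hw'.1) k1, ?_, ?_⟩)
      · rw [← k5]
        exact k4
      · rw [← k5]
        exact secAt_ok_beta (hY (ζ w) hw'.2) k2
    have h2 : ind (¬ OK hat α (secAt hat α e1 (ζ w)) 0 s ∨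
          α s w ∉ Y ∨ α s (ζ w) ∉ Y ∨ α s (ζ w) ≠ ζ (α s w)) ≤
        ind (¬ OK hat α (secAt hat α e1 (ζ w)) 0 s) + ind (α s w ∉ Y ∨ α s (ζ w) ∉ Y ∨ α s (ζ w) ≠ ζ (α s w)) :=
      ind_le_add id
    have h3 : ind (α s w ∉ Y ∨ α s (ζ w) ∉ Y ∨ α s (ζ w) ≠ ζ (α s w)) ≤
        ind (α s w ∉ Y) + ind (α s (ζ w) ∉ Y ∨ α s (ζ w) ≠ ζ (α s w)) := ind_le_add id
    have h4 : ind (α s (ζ w) ∉ Y ∨ α s (ζ w) ≠ ζ (α s w)) ≤
        ind (α s (ζ w) ∉ Y) + ind (α s (ζ w) ≠ ζ (α s w)) := ind_le_add id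
    linarith
  have heX : ∀ x, 0 ≤ eX hat α e1 x := fun x => Finset.expect_nonneg fun s _ => ind_nonneg _
  have hEi : ∀ x, 0 ≤ 𝔼 s, ind (α s x ∉ Y) := fun x => Finset.expect_nonneg fun s _ => ind_nonneg _
  have hcm : ∀ x, 0 ≤ cmS α ζ x := fun x => Finset.expect_nonneg fun s _ => ind_nonneg _
  rw [e1'] at key
  simp only [Finset.sum_add_distrib] at e2'
  have s1 : ∑ w ∈ Y', eX hat α e1 w ≤ ∑ x ∈ Y, eX hat α e1 x := by
    rw [hY']; exact sum_filter_le_beta Y _ _ heX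
  have s2 : ∑ w ∈ Y', eX hat α e1 (ζ w) ≤ ∑ x ∈ Y, eX hat α e1 x := by
    rw [hY']; exact sum_shift_le_beta Y ζ _ heX
  have s3 : ∑ w ∈ Y', 𝔼 s, ind (α s w ∉ Y) ≤ ∑ x ∈ Y, 𝔼 s, ind (α s x ∉ Y) := by
    rw [hY']; exact sum_filter_le_beta Y _ (fun x => 𝔼 s, ind (α s x ∉ Y)) hEi
  have s4 : ∑ w ∈ Y', 𝔼 s, ind (α s (ζ w) ∉ Y) ≤ ∑ x ∈ Y, 𝔼 s, ind (α s x ∉ Y) := by
    rw [hY']; exact sum_shift_le_beta Y ζ (fun x => 𝔼 s, ind (α s x ∉ Y)) hEi
  have s5 : ∑ w ∈ Y', cmS α ζ w ≤ ∑ x ∈ Y, cmS α ζ x := by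
    rw [hY']; exact sum_filter_le_beta Y _ _ hcm
  linarith

end Pool.Agent.Lib_MP_3a79a1_b
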