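import Pool.Agent.Lib_MP_3a79a1_b.Defs

/-!
# [RM-CH] The chain lemma

`pz ζ = ζ 0 * ζ 1 * ... * ζ (n-1)` (composition, `ζ (n-1)` is applied first).

`chain`, by induction on `n` (`Y` fixed).  `n = 0`: both sides are `0` (`pz ζ w = w ∈ Y`,
`Fin.last 0 = 0`).  Step: apply the induction hypothesis to `ζ' j = ζ j.succ`,
`Λ' j = Λ j.succ`.  If `w ∈ Y` is good for it, i.e. `w' = pz ζ' w ∈ Y` and
`Λ (last) w = Λ 1 w'`, and moreover `ζ 0 w' ∈ Y` and `Λ 1 w' = Λ 0 (ζ 0 w')`, then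
`pz ζ w = ζ 0 w' ∈ Y` and `Λ (last) w = Λ 0 (pz ζ w)`.  Since `w ↦ w' = pz ζ' w` is injective,
`∑_{w ∈ Y, pz ζ' w ∈ Y} g (pz ζ' w) ≤ ∑_{w' ∈ Y} g w'` for `g ≥ 0`.  `Fin.sum_univ_succ`.

`chain_comm` ([RM-CC], same file): by induction on `n` as above.  If `w' = pz ζ' w ∈ Y`,
`τ w' = pz ζ' (τ w)`, `ζ 0 w' ∈ Y`, `τ (ζ 0 w') = ζ 0 (τ w')` then `pz ζ w = ζ 0 w' ∈ Y` and
`τ (pz ζ w) = τ (ζ 0 w') = ζ 0 (τ w') = ζ 0 (pz ζ' (τ w)) = pz ζ (τ w)`.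
-/

set_option linter.unusedSectionVars false

namespace Pool.Agent.Lib_MP_3a79a1_b

open Finset
open scoped BigOperators

/-- `ζ 0 * ζ 1 * ... * ζ (n-1)` -/
noncomputable def pz {X : Type} {n : ℕ} (ζ : Fin n → Equiv.Perm X) : Equiv.Perm X :=
  (List.ofFn ζ).prod

theorem pz_zero {X : Type} (ζ : Fin 0 → Equiv.Perm X) : pz ζ = 1 := by
  simp [pz]

theorem pz_succ {X : Type} {n : ℕ} (ζ : Fin (n + 1) → Equiv.Perm X) :
    pz ζ = ζ 0 * pz (fun j => ζ j.succ) := by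
  simp [pz, List.ofFn_succ]

/-- substitution of a permutation -/
private theorem push_chain {X : Type} (σ : Equiv.Perm X) (Q : X → Prop) (Y : Finset X) :
    ∑ w ∈ Y, ind (σ w ∈ Y ∧ Q (σ w)) ≤ ∑ w ∈ Y, ind (Q w) := by
  classical
  have h1 : ∑ w ∈ Y, ind (σ w ∈ Y ∧ Q (σ w)) = ∑ w ∈ Y.filter (fun w => σ w ∈ Y), ind (Q (σ w)) := by
    rw [Finset.sum_filter]
    refine Finset.sum_congr rfl fun w _ => ?_
    by_cases h : σ w ∈ Y
    · rw [if_pos h]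
      exact ind_congr ⟨fun h' => h'.2, fun h' => ⟨h, h'⟩⟩
    · rw [if_neg h]
      exact ind_false (fun h' => h h'.1)
  have h2 : ∑ w ∈ Y.filter (fun w => σ w ∈ Y), ind (Q (σ w)) =
      ∑ v ∈ (Y.filter (fun w => σ w ∈ Y)).map σ.toEmbedding, ind (Q v) := by
    rw [Finset.sum_map]
    rfl
  rw [h1, h2]
  refine Finset.sum_le_sum_of_subset_of_nonneg ?_ (fun v _ _ => ind_nonneg _)
  intro v hv
  obtain ⟨w, hw, rfl⟩ := Finset.mem_map.1 hv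
  exact (Finset.mem_filter.1 hw).2

theorem chain {X : Type} (n : ℕ) (ζ : Fin n → Equiv.Perm X)
    (Λ : Fin (n + 1) → Equiv.Perm X) (Y : Finset X) :
    ∑ w ∈ Y, ind (¬ (pz ζ w ∈ Y ∧ Λ (Fin.last n) w = Λ 0 (pz ζ w))) ≤
      ∑ j : Fin n, ∑ w ∈ Y, ind (Λ j.succ w ≠ Λ j.castSucc (ζ j w)) +
      ∑ j : Fin n, ∑ w ∈ Y, ind (ζ j w ∉ Y) := by
  induction n with
  | zero =>
    simp only [Finset.univ_eq_empty, Finset.sum_empty, add_zero]
    refine le_of_eq (Finset.sum_eq_zero fun w hw => ind_false ?_)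
    rw [pz_zero, not_not]
    exact ⟨hw, rfl⟩
  | succ n ih =>
    have h1 := ih (fun j => ζ j.succ) (fun j => Λ j.succ)
    have h2 := push_chain (pz fun j => ζ j.succ) (fun v => Λ 1 v ≠ Λ 0 (ζ 0 v)) Y
    have h3 := push_chain (pz fun j => ζ j.succ) (fun v => ζ 0 v ∉ Y) Y
    have h4 : ∑ w ∈ Y, ind (¬ (pz ζ w ∈ Y ∧ Λ (Fin.last (n + 1)) w = Λ 0 (pz ζ w))) ≤
        ∑ w ∈ Y, ind (¬ (pz (fun j => ζ j.succ) w ∈ Y ∧
          Λ (Fin.last n).succ w = Λ (Fin.succ 0) (pz (fun j => ζ j.succ) w))) +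
        (∑ w ∈ Y, ind (pz (fun j => ζ j.succ) w ∈ Y ∧
          Λ 1 (pz (fun j => ζ j.succ) w) ≠ Λ 0 (ζ 0 (pz (fun j => ζ j.succ) w))) +
        ∑ w ∈ Y, ind (pz (fun j => ζ j.succ) w ∈ Y ∧ ζ 0 (pz (fun j => ζ j.succ) w) ∉ Y)) := by
      rw [← Finset.sum_add_distrib, ← Finset.sum_add_distrib]
      refine Finset.sum_le_sum fun w _ => ?_
      have hz : pz ζ w = ζ 0 (pz (fun j => ζ j.succ) w) := by
        rw [pz_succ]
        rfl
      refine (ind_le_add (q := ¬ (pz (fun j => ζ j.succ) w ∈ Y ∧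
          Λ (Fin.last n).succ w = Λ (Fin.succ 0) (pz (fun j => ζ j.succ) w)))
        (r := (pz (fun j => ζ j.succ) w ∈ Y ∧
          Λ 1 (pz (fun j => ζ j.succ) w) ≠ Λ 0 (ζ 0 (pz (fun j => ζ j.succ) w))) ∨
          (pz (fun j => ζ j.succ) w ∈ Y ∧ ζ 0 (pz (fun j => ζ j.succ) w) ∉ Y)) ?_).trans
        (add_le_add le_rfl (ind_le_add fun h => h))
      intro hn
      by_contra hcon
      rw [not_or, not_not, not_or, not_and, not_and, not_not, not_not] at hcon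
      obtain ⟨⟨c1, c2⟩, c3, c4⟩ := hcon
      apply hn
      rw [hz]
      refine ⟨c4 c1, ?_⟩
      rw [← c3 c1]
      exact c2
    rw [Fin.sum_univ_succ, Fin.sum_univ_succ (fun j : Fin (n + 1) => ∑ w ∈ Y, ind (ζ j w ∉ Y))]
    refine h4.trans ?_
    refine (add_le_add h1 (add_le_add h2 h3)).trans (le_of_eq ?_)
    simp only [Fin.succ_castSucc, Fin.castSucc_zero, Fin.succ_zero_eq_one]
    ring

theorem chain_comm {X : Type} (n : ℕ) (ζ : Fin n → Equiv.Perm X)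
    (τ : Equiv.Perm X) (Y : Finset X) :
    ∑ w ∈ Y, ind (¬ (pz ζ w ∈ Y ∧ τ (pz ζ w) = pz ζ (τ w))) ≤
      ∑ j : Fin n, ∑ w ∈ Y, ind (τ (ζ j w) ≠ ζ j (τ w)) +
      ∑ j : Fin n, ∑ w ∈ Y, ind (ζ j w ∉ Y) := by
  induction n with
  | zero =>
    simp only [Finset.univ_eq_empty, Finset.sum_empty, add_zero]
    refine le_of_eq (Finset.sum_eq_zero fun w hw => ind_false ?_)
    rw [pz_zero, not_not]
    exact ⟨hw, rfl⟩
  | succ n ih =>
    have h1 := ih (fun j => ζ j.succ)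
    have h2 := push_chain (pz fun j => ζ j.succ) (fun v => τ (ζ 0 v) ≠ ζ 0 (τ v)) Y
    have h3 := push_chain (pz fun j => ζ j.succ) (fun v => ζ 0 v ∉ Y) Y
    have h4 : ∑ w ∈ Y, ind (¬ (pz ζ w ∈ Y ∧ τ (pz ζ w) = pz ζ (τ w))) ≤
        ∑ w ∈ Y, ind (¬ (pz (fun j => ζ j.succ) w ∈ Y ∧
          τ (pz (fun j => ζ j.succ) w) = pz (fun j => ζ j.succ) (τ w))) +
        (∑ w ∈ Y, ind (pz (fun j => ζ j.succ) w ∈ Y ∧
          τ (ζ 0 (pz (fun j => ζ j.succ) w)) ≠ ζ 0 (τ (pz (fun j => ζ j.succ) w))) +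
        ∑ w ∈ Y, ind (pz (fun j => ζ j.succ) w ∈ Y ∧ ζ 0 (pz (fun j => ζ j.succ) w) ∉ Y)) := by
      rw [← Finset.sum_add_distrib, ← Finset.sum_add_distrib]
      refine Finset.sum_le_sum fun w _ => ?_
      have hz : ∀ v, pz ζ v = ζ 0 (pz (fun j => ζ j.succ) v) := by
        intro v
        rw [pz_succ]
        rfl
      refine (ind_le_add (q := ¬ (pz (fun j => ζ j.succ) w ∈ Y ∧
          τ (pz (fun j => ζ j.succ) w) = pz (fun j => ζ j.succ) (τ w)))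
        (r := (pz (fun j => ζ j.succ) w ∈ Y ∧
          τ (ζ 0 (pz (fun j => ζ j.succ) w)) ≠ ζ 0 (τ (pz (fun j => ζ j.succ) w))) ∨
          (pz (fun j => ζ j.succ) w ∈ Y ∧ ζ 0 (pz (fun j => ζ j.succ) w) ∉ Y)) ?_).trans
        (add_le_add le_rfl (ind_le_add fun h => h))
      intro hn
      by_contra hcon
      rw [not_or, not_not, not_or, not_and, not_and, not_not, not_not] at hcon
      obtain ⟨⟨c1, c2⟩, c3, c4⟩ := hcon
      apply hn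
      rw [hz, hz]
      refine ⟨c4 c1, ?_⟩
      rw [c3 c1, c2]
    rw [Fin.sum_univ_succ, Fin.sum_univ_succ (fun j : Fin (n + 1) => ∑ w ∈ Y, ind (ζ j w ∉ Y))]
    refine h4.trans ?_
    refine (add_le_add h1 (add_le_add h2 h3)).trans (le_of_eq ?_)
    ring

end Pool.Agent.Lib_MP_3a79a1_b
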