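import Pool.Agent.Lib_MP_3a79a1_b.CleanDefs

/-!
# [RM-CA] Cleaning: lengths, sizes, masses

* `norm_liftC`: `toC val s` has norm `≤ 1` (`FreeGroup.norm_one`, `norm_of`); for every `w`
  `(liftC val w).norm ≤ w.norm`: `w = mk L` with `L = w.toWord`, `|L| = w.norm`, and `lift f (mk L)` is the
  product over `L` of `f x` or `(f x)⁻¹` (`FreeGroup.lift_mk`), `norm_mul_le`, `norm_inv_eq`; induction
  on `L`.
* `card_SC`: `g ↦` a chosen preimage is injective.
* `card_relC`: `Finset.card_filter_le`, `card_imW`.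
* sums: `∑ g : SC val, ∑ s, μ s ind (val s = g.1) f g.1 = ∑ s, μ s ind (val s ≠ 1) f (val s)`
  (exchange; for `s` with `val s ≠ 1` exactly one `g` has `g.1 = val s`, for `val s = 1` none).
* `spreadC`: with `x = ∑ s μ s ind (val s = 1)`, `∑ s μ s ind (val s ≠ 1) = 1 - x > 0` and
  `1 ∈ H`: left side `= (∑ s μ s ind (val s ∈ H) - x)/(1 - x) ≤ (c - x)/(1 - x) ≤ c` as `c ≤ 1`, `x ≥ 0`.
-/

set_option linter.unusedSectionVars false

namespace Pool.Agent.Lib_MP_3a79a1_b

open Finset
open scoped BigOperators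

variable {S I G : Type} [Fintype S] [DecidableEq S] [Fintype I] [Group G]

/-- the value of a word given by a list -/
private theorem norm_list_cleana {T U : Type} [DecidableEq U] (f : T → FreeGroup U)
    (hf : ∀ t, (f t).norm ≤ 1) (L : List (T × Bool)) :
    (FreeGroup.lift f (FreeGroup.mk L)).norm ≤ L.length := by
  induction L with
  | nil =>
    rw [FreeGroup.lift_mk]
    simp
  | cons x L ih =>
    rw [FreeGroup.lift_mk] at ih ⊢
    rw [List.map_cons, List.prod_cons, List.length_cons]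
    refine (FreeGroup.norm_mul_le _ _).trans ?_
    have h1 : (cond x.2 (f x.1) (f x.1)⁻¹).norm ≤ 1 := by
      cases x.2
      · simp only [cond_false, FreeGroup.norm_inv_eq]
        exact hf _
      · simp only [cond_true]
        exact hf _
    omega

theorem norm_liftC (val : S → G) (w : FreeGroup S) : (liftC val w).norm ≤ w.norm := by
  have h1 : ∀ s, (toC val s).norm ≤ 1 := by
    intro s
    unfold toC
    split_ifs with h
    · rw [FreeGroup.norm_one]
      exact Nat.zero_le _
    · rw [FreeGroup.norm_of]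
  have h2 := norm_list_cleana (toC val) h1 w.toWord
  rw [FreeGroup.mk_toWord] at h2
  exact h2

theorem card_SC (val : S → G) : Fintype.card (SC val) ≤ Fintype.card S := by
  refine Fintype.card_le_of_injective (fun g : SC val => g.2.2.choose) (fun a b hab => ?_)
  apply Subtype.ext
  rw [← a.2.2.choose_spec, ← b.2.2.choose_spec]
  exact congrArg val hab

theorem card_relC (val : S → G) (w : I → FreeGroup S) : (relC val w).card ≤ Fintype.card I :=
  (Finset.card_filter_le _ _).trans (card_imW _)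

private theorem sum_ind_cleana (val : S → G) (f : G → ℝ) (s : S) :
    ∑ g : SC val, ind (val s = g.1) * f g.1 = ind (val s ≠ 1) * f (val s) := by
  classical
  by_cases h : val s = 1
  · rw [ind_false (not_not.2 h), zero_mul]
    refine Finset.sum_eq_zero fun g _ => ?_
    rw [ind_false, zero_mul]
    intro h2
    exact g.2.1 (h2.symm.trans h)
  · rw [ind_true h, one_mul]
    have hmem : ∀ a : SC val, a ∈ (Finset.univ : Finset (SC val)) := Finset.mem_univ
    refine (Finset.sum_eq_single (⟨val s, h, s, rfl⟩ : SC val) ?_ ?_).trans ?_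
    · intro g _ hg
      rw [ind_false, zero_mul]
      intro h2
      exact hg (Subtype.ext h2.symm)
    · intro h2
      exact absurd (hmem _) h2
    · show ind (val s = val s) * f (val s) = f (val s)
      rw [ind_true rfl, one_mul]

theorem sum_muC_mul (val : S → G) (μ : S → ℝ) (f : G → ℝ) :
    ∑ g : SC val, muC val μ g * f g.1 =
      (∑ s, μ s * (ind (val s ≠ 1) * f (val s))) / ∑ s, μ s * ind (val s ≠ 1) := by
  have h1 : ∀ g : SC val, muC val μ g * f g.1 =
      (∑ s, μ s * (ind (val s = g.1) * f g.1)) / ∑ s, μ s * ind (val s ≠ 1) := by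
    intro g
    unfold muC
    rw [div_mul_eq_mul_div, Finset.sum_mul]
    congr 1
    exact Finset.sum_congr rfl fun s _ => by ring
  rw [Finset.sum_congr rfl fun g _ => h1 g, ← Finset.sum_div]
  congr 1
  rw [Finset.sum_comm]
  refine Finset.sum_congr rfl fun s _ => ?_
  rw [← Finset.mul_sum, sum_ind_cleana]

private theorem den_pos_cleana (val : S → G) (μ : S → ℝ) (hμ : ∀ s, 0 < μ s) {s₀ : S}
    (h : val s₀ ≠ 1) : 0 < ∑ s, μ s * ind (val s ≠ 1) := by
  refine Finset.sum_pos' (fun s _ => mul_nonneg (hμ s).le (ind_nonneg _))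
    ⟨s₀, Finset.mem_univ _, ?_⟩
  rw [ind_true h, mul_one]
  exact hμ s₀

theorem muC_pos (val : S → G) (μ : S → ℝ) (hμ : ∀ s, 0 < μ s) (g : SC val) : 0 < muC val μ g := by
  obtain ⟨s₀, hs₀⟩ := g.2.2
  have h1 : val s₀ ≠ 1 := by rw [hs₀]; exact g.2.1
  refine div_pos ?_ (den_pos_cleana val μ hμ h1)
  refine Finset.sum_pos' (fun s _ => mul_nonneg (hμ s).le (ind_nonneg _))
    ⟨s₀, Finset.mem_univ _, ?_⟩
  rw [ind_true hs₀, mul_one]
  exact hμ s₀

theorem sum_muC (val : S → G) (μ : S → ℝ) (hμ : ∀ s, 0 < μ s)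
    (h : 0 < ∑ s, μ s * ind (val s ≠ 1)) : ∑ g : SC val, muC val μ g = 1 := by
  have h1 := sum_muC_mul val μ (fun _ => 1)
  simp only [mul_one] at h1
  rw [h1, div_self h.ne']

theorem sum_muRC_mul (val : S → G) (w : I → FreeGroup S) (m : I → ℝ)
    (f : FreeGroup (SC val) → ℝ) :
    ∑ r ∈ relC val w, muRC val w m r * f r =
      (∑ i, m i * (ind (liftC val (w i) ≠ 1) * f (liftC val (w i)))) /
        ∑ i, m i * ind (liftC val (w i) ≠ 1) := by
  classical
  have h1 : ∀ r, muRC val w m r * f r =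
      (∑ i, m i * (ind (liftC val (w i) = r) * f r)) / ∑ i, m i * ind (liftC val (w i) ≠ 1) := by
    intro r
    unfold muRC
    rw [div_mul_eq_mul_div, Finset.sum_mul]
    congr 1
    exact Finset.sum_congr rfl fun s _ => by ring
  rw [Finset.sum_congr rfl fun g _ => h1 g, ← Finset.sum_div]
  congr 1
  rw [Finset.sum_comm]
  refine Finset.sum_congr rfl fun i _ => ?_
  rw [← Finset.mul_sum]
  congr 1
  by_cases h : liftC val (w i) = 1
  · rw [ind_false (not_not.2 h), zero_mul]
    refine Finset.sum_eq_zero fun r hr => ?_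
    rw [ind_false, zero_mul]
    intro h2
    exact ((mem_relC val w r).1 hr).2 (h2.symm.trans h)
  · rw [ind_true h, one_mul]
    rw [Finset.sum_eq_single (liftC val (w i))]
    · rw [ind_true rfl, one_mul]
    · intro g _ hg
      rw [ind_false, zero_mul]
      intro h2
      exact hg h2.symm
    · intro h2
      exact absurd ((mem_relC val w _).2 ⟨⟨i, rfl⟩, h⟩) h2

private theorem denR_pos_cleana (val : S → G) (w : I → FreeGroup S) (m : I → ℝ)
    (hm : ∀ i, 0 < m i) {i₀ : I} (h : liftC val (w i₀) ≠ 1) :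
    0 < ∑ i, m i * ind (liftC val (w i) ≠ 1) := by
  refine Finset.sum_pos' (fun s _ => mul_nonneg (hm s).le (ind_nonneg _))
    ⟨i₀, Finset.mem_univ _, ?_⟩
  rw [ind_true h, mul_one]
  exact hm i₀

theorem muRC_pos (val : S → G) (w : I → FreeGroup S) (m : I → ℝ) (hm : ∀ i, 0 < m i)
    {r : FreeGroup (SC val)} (hr : r ∈ relC val w) : 0 < muRC val w m r := by
  obtain ⟨⟨i₀, hi₀⟩, hr1⟩ := (mem_relC val w r).1 hr
  have h1 : liftC val (w i₀) ≠ 1 := by rw [hi₀]; exact hr1
  refine div_pos ?_ (denR_pos_cleana val w m hm h1)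
  refine Finset.sum_pos' (fun s _ => mul_nonneg (hm s).le (ind_nonneg _))
    ⟨i₀, Finset.mem_univ _, ?_⟩
  rw [ind_true hi₀, mul_one]
  exact hm i₀

theorem sum_muRC (val : S → G) (w : I → FreeGroup S) (m : I → ℝ) (hm : ∀ i, 0 < m i)
    (h : ∃ i, liftC val (w i) ≠ 1) : ∑ r ∈ relC val w, muRC val w m r = 1 := by
  obtain ⟨i₀, hi₀⟩ := h
  have h1 := sum_muRC_mul val w m (fun _ => 1)
  simp only [mul_one] at h1
  rw [h1, div_self (denR_pos_cleana val w m hm hi₀).ne']

theorem spreadC (val : S → G) (μ : S → ℝ) (hμ : ∀ s, 0 < μ s) (h1 : ∑ s, μ s = 1)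
    (h : 0 < ∑ s, μ s * ind (val s ≠ 1)) (H : Subgroup G) (c : ℝ) (hc : c ≤ 1)
    (hH : ∑ s, μ s * ind (val s ∈ H) ≤ c) :
    ∑ g : SC val, muC val μ g * ind (g.1 ∈ H) ≤ c := by
  rw [sum_muC_mul val μ (fun g => ind (g ∈ H)), div_le_iff₀ h]
  have h2 : ∑ s, μ s * ind (val s ≠ 1) = 1 - ∑ s, μ s * ind (val s = 1) := by
    rw [← h1, ← Finset.sum_sub_distrib]
    refine Finset.sum_congr rfl fun s _ => ?_
    have h3 : ind (val s ≠ 1) = 1 - ind (val s = 1) := ind_not _
    rw [h3]
    ring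
  have h4 : ∑ s, μ s * (ind (val s ≠ 1) * ind (val s ∈ H)) =
      ∑ s, μ s * ind (val s ∈ H) - ∑ s, μ s * ind (val s = 1) := by
    rw [← Finset.sum_sub_distrib]
    refine Finset.sum_congr rfl fun s _ => ?_
    by_cases h5 : val s = 1
    · have h6 : val s ∈ H := by rw [h5]; exact H.one_mem
      rw [ind_false (not_not.2 h5), ind_true h6, ind_true h5]
      ring
    · rw [ind_true h5, ind_false h5]
      ring
  have h5 : 0 ≤ ∑ s, μ s * ind (val s = 1) :=
    Finset.sum_nonneg fun s _ => mul_nonneg (hμ s).le (ind_nonneg _)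
  have h6 : ∑ s, μ s * (ind (val s ≠ 1) * ind (val s ∈ H)) ≤ c - ∑ s, μ s * ind (val s = 1) := by
    rw [h4]
    linarith
  rw [h2]
  nlinarith

end Pool.Agent.Lib_MP_3a79a1_b
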