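import Pool.Agent.Lib_MP_3a79a1_b.CleanDefs

/-!
# [RM-CB] Cleaning: the presented group

`π' : PresentedGroup (relC val w) →* G`, `of g ↦ g.1`: relation check
`lift (Subtype.val) (liftC val (w i)) = lift val (w i)` (both are homomorphisms on `FreeGroup S`,
compare on generators: `toC val s` is `1` or `of ⟨val s, _⟩`), and `lift val (w i) = e (mk (w i)) = 1`.
`σ : PresentedGroup (Set.range w) →* PresentedGroup (relC val w)`, `of s ↦ mk (toC val s)`: relations:
`mk (liftC val (w i)) = 1` since `liftC val (w i)` is `1` or belongs to `relC`.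
Inverse of `π'`: `σ ∘ e.symm`.  `π' ∘ σ = e` on generators, `σ (e.symm (g.1)) = of g` for
`g = ⟨val s, _⟩` since `e.symm (val s) = of s`, `σ (of s) = mk (toC val s) = of g`.
-/

set_option linter.unusedSectionVars false

namespace Pool.Agent.Lib_MP_3a79a1_b

open Finset
open scoped BigOperators

variable {S I G : Type} [Fintype I] [Group G]

theorem iso_clean (w : I → FreeGroup S) (val : S → G)
    (e : PresentedGroup (Set.range w) ≃* G) (hval : ∀ s, e (PresentedGroup.of s) = val s) :
    ∃ e' : PresentedGroup (relC val w : Set (FreeGroup (SC val))) ≃* G,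
      ∀ g : SC val, e' (PresentedGroup.of g) = g.1 := by
  classical
  -- the evaluation of words
  have hlift : ∀ x : FreeGroup S, FreeGroup.lift val x = e (PresentedGroup.mk (Set.range w) x) := by
    intro x
    have h : FreeGroup.lift val = (e.toMonoidHom).comp (PresentedGroup.mk (Set.range w)) := by
      ext s
      rw [FreeGroup.lift_apply_of]
      exact (hval s).symm
    rw [h]
    rfl
  have hw1 : ∀ i, FreeGroup.lift val (w i) = 1 := by
    intro i
    have h : PresentedGroup.mk (Set.range w) (w i) = 1 :=
      (QuotientGroup.eq_one_iff _).2 (Subgroup.subset_normalClosure ⟨i, rfl⟩)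
    rw [hlift, h, map_one]
  have htoC : ∀ s, FreeGroup.lift (fun g : SC val => g.1) (toC val s) = val s := by
    intro s
    unfold toC
    split_ifs with h
    · rw [map_one, h]
    · rw [FreeGroup.lift_apply_of]
  have hcomp : ∀ x : FreeGroup S,
      FreeGroup.lift (fun g : SC val => g.1) (liftC val x) = FreeGroup.lift val x := by
    intro x
    have h : (FreeGroup.lift (fun g : SC val => g.1)).comp (FreeGroup.lift (toC val)) =
        FreeGroup.lift val := by
      ext s
      rw [MonoidHom.comp_apply, FreeGroup.lift_apply_of, FreeGroup.lift_apply_of]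
      exact htoC s
    exact DFunLike.congr_fun h x
  have hrel : ∀ r ∈ (relC val w : Set (FreeGroup (SC val))),
      FreeGroup.lift (fun g : SC val => g.1) r = 1 := by
    intro r hr
    obtain ⟨⟨i, rfl⟩, _⟩ := (mem_relC val w r).1 (Finset.mem_coe.1 hr)
    rw [hcomp, hw1]
  have hmk : ∀ x : FreeGroup S,
      FreeGroup.lift (fun s => PresentedGroup.mk (relC val w : Set (FreeGroup (SC val)))
        (toC val s)) x = PresentedGroup.mk (relC val w : Set (FreeGroup (SC val)))
          (liftC val x) := by
    intro x
    have h : FreeGroup.lift (fun s => PresentedGroup.mk (relC val w : Set (FreeGroup (SC val)))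
        (toC val s)) = (PresentedGroup.mk (relC val w : Set (FreeGroup (SC val)))).comp
          (FreeGroup.lift (toC val)) := by
      ext s
      rw [MonoidHom.comp_apply, FreeGroup.lift_apply_of, FreeGroup.lift_apply_of]
    exact DFunLike.congr_fun h x
  have hrel2 : ∀ r ∈ Set.range w,
      FreeGroup.lift (fun s => PresentedGroup.mk (relC val w : Set (FreeGroup (SC val)))
        (toC val s)) r = 1 := by
    rintro _ ⟨i, rfl⟩
    rw [hmk]
    by_cases h : liftC val (w i) = 1
    · rw [h, map_one]
    · exact (QuotientGroup.eq_one_iff _).2 (Subgroup.subset_normalClosure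
        (Finset.mem_coe.2 ((mem_relC val w _).2 ⟨⟨i, rfl⟩, h⟩)))
  obtain ⟨π, hπ⟩ : ∃ π : PresentedGroup (relC val w : Set (FreeGroup (SC val))) →* G,
      ∀ x, π (PresentedGroup.mk _ x) = FreeGroup.lift (fun g : SC val => g.1) x :=
    ⟨PresentedGroup.toGroup hrel, fun x => rfl⟩
  obtain ⟨σ, hσ⟩ : ∃ σ : PresentedGroup (Set.range w) →*
      PresentedGroup (relC val w : Set (FreeGroup (SC val))),
      ∀ s, σ (PresentedGroup.of s) = PresentedGroup.mk _ (toC val s) :=
    ⟨PresentedGroup.toGroup hrel2, fun s => PresentedGroup.toGroup.of hrel2⟩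
  have h1 : (σ.comp e.symm.toMonoidHom).comp π = MonoidHom.id _ := by
    apply PresentedGroup.ext
    intro g
    obtain ⟨g, hg, s, rfl⟩ := g
    show σ (e.symm (π (PresentedGroup.mk _ (FreeGroup.of _)))) = _
    rw [hπ, FreeGroup.lift_apply_of]
    have h3 : e.symm (val s) = PresentedGroup.of s := by
      rw [← hval s, e.symm_apply_apply]
    show σ (e.symm (val s)) = _
    rw [h3, hσ, MonoidHom.id_apply]
    unfold toC
    rw [dif_neg hg]
    rfl
  have h2 : π.comp (σ.comp e.symm.toMonoidHom) = MonoidHom.id _ := by
    ext x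
    obtain ⟨y, rfl⟩ := e.surjective x
    show π (σ (e.symm (e y))) = e y
    rw [e.symm_apply_apply]
    have h3 : π.comp σ = e.toMonoidHom := by
      apply PresentedGroup.ext
      intro s
      show π (σ (PresentedGroup.of s)) = e (PresentedGroup.of s)
      rw [hσ, hπ, htoC, hval]
    exact DFunLike.congr_fun h3 y
  refine ⟨MonoidHom.toMulEquiv π (σ.comp e.symm.toMonoidHom) h1 h2, fun g => ?_⟩
  show π (PresentedGroup.mk _ (FreeGroup.of g)) = g.1
  rw [hπ, FreeGroup.lift_apply_of]

end Pool.Agent.Lib_MP_3a79a1_b
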