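import Pool.Agent.Lib_MP_3a79a1_b.CleanA
import Pool.Agent.Lib_MP_3a79a1_b.CleanB

/-!
# [RM-CC2] Cleaning: stability

`α s = lift α' (toC val s)`; `lift α w = lift α' (liftC val w)` for all words `w`.
Given `β` with `lift β (w i) = 1` for all `i` let `γ : G →* Perm (Fin N)` be
`(PresentedGroup.toGroup β) ∘ e.symm`, so `γ (val s) = β s`; put `β' g = γ g.1`.  Then
`lift β' (liftC val v) = lift β v` for all words `v` (compare on generators: `val s = 1` gives
`β s = γ 1 = 1`), so `lift β' r = 1` for `r ∈ relC`.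
`∑ g, muC g * hDist (α' g) (β' g)`: as in `sum_muC_mul` (or directly) it equals
`(∑ s, μ s * (ind (val s ≠ 1) * hDist (α s) (β s))) / Z`, `Z = ∑ s μ s ind (val s ≠ 1)`, because
`α' ⟨val s, _⟩ = α s`, `β' ⟨val s, _⟩ = β s`.  (To use `sum_muC_mul` take
`f g = if h : ∃ g' : SC val, g'.1 = g then hDist (α' _) (β' _) else 0`.)  It is
`≤ (C/Z) ∑ i m i * hDist (lift α (w i)) 1`, and
`∑ i m i * hDist (lift α (w i)) 1 = ∑ i m i * (ind (liftC val (w i) ≠ 1) * hDist (lift α' (liftC val (w i))) 1)`
since `hDist 1 1 = 0` (`hDist_one_eq`, `0 < n`), which is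
`(∑ i m i ind (liftC val (w i) ≠ 1)) * ∑ r ∈ relC, muRC r * hDist (lift α' r) 1` (`sum_muRC_mul`; if the
mass is `0` then no `i` has `liftC val (w i) ≠ 1` and both sides are `0`).
-/

set_option linter.unusedSectionVars false

namespace Pool.Agent.Lib_MP_3a79a1_b

open Finset
open scoped BigOperators

variable {S I G : Type} [Fintype S] [DecidableEq S] [Fintype I] [Group G]

private def mkSC_cleanc (val : S → G) (g : G) (h : g ≠ 1 ∧ ∃ s, val s = g) : SC val := ⟨g, h⟩

private theorem mkSC_val_cleanc (val : S → G) (g : SC val) : mkSC_cleanc val g.1 g.2 = g := rfl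

theorem stab_clean (w : I → FreeGroup S) (val : S → G)
    (e : PresentedGroup (Set.range w) ≃* G) (hval : ∀ s, e (PresentedGroup.of s) = val s)
    (μ : S → ℝ) (hμ : ∀ s, 0 < μ s) (h : 0 < ∑ s, μ s * ind (val s ≠ 1))
    (m : I → ℝ) (hm : ∀ i, 0 < m i) (C : ℝ) {n N : ℕ} (hn : 0 < n)
    (α' : SC val → Equiv.Perm (Fin n)) (β : S → Equiv.Perm (Fin N))
    (hβ : ∀ i, FreeGroup.lift β (w i) = 1)
    (hC : ∑ s, μ s * hDist (FreeGroup.lift α' (toC val s)) (β s) ≤
      C * ∑ i, m i * hDist (FreeGroup.lift (fun s => FreeGroup.lift α' (toC val s)) (w i))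
        (1 : Equiv.Perm (Fin n))) :
    ∃ β' : SC val → Equiv.Perm (Fin N), (∀ r ∈ relC val w, FreeGroup.lift β' r = 1) ∧
      ∑ g, muC val μ g * hDist (α' g) (β' g) ≤
        C * (∑ i, m i * ind (liftC val (w i) ≠ 1)) / (∑ s, μ s * ind (val s ≠ 1)) *
          ∑ r ∈ relC val w, muRC val w m r * hDist (FreeGroup.lift α' r)
            (1 : Equiv.Perm (Fin n)) := by
  classical
  have hrel : ∀ r ∈ Set.range w, FreeGroup.lift β r = 1 := by
    rintro _ ⟨i, rfl⟩
    exact hβ i
  obtain ⟨γ, hγ⟩ : ∃ γ : G →* Equiv.Perm (Fin N), ∀ s, γ (val s) = β s := by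
    refine ⟨(PresentedGroup.toGroup hrel).comp e.symm.toMonoidHom, fun s => ?_⟩
    show PresentedGroup.toGroup hrel (e.symm (val s)) = β s
    rw [← hval s, MulEquiv.symm_apply_apply, PresentedGroup.toGroup.of]
  obtain ⟨β', hβ'⟩ : ∃ β' : SC val → Equiv.Perm (Fin N), ∀ g, β' g = γ g.1 :=
    ⟨fun g => γ g.1, fun _ => rfl⟩
  have h1 : ∀ v, FreeGroup.lift β' (liftC val v) = FreeGroup.lift β v := by
    intro v
    have h : (FreeGroup.lift β').comp (FreeGroup.lift (toC val)) = FreeGroup.lift β := by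
      apply FreeGroup.ext_hom
      intro s
      rw [MonoidHom.comp_apply, FreeGroup.lift_apply_of, FreeGroup.lift_apply_of]
      by_cases h : val s = 1
      · rw [toC, dif_pos h, map_one, ← hγ s, h, map_one]
      · rw [toC, dif_neg h, FreeGroup.lift_apply_of, hβ']
        exact hγ s
    exact DFunLike.congr_fun h v
  have h2 : ∀ v, FreeGroup.lift (fun s => FreeGroup.lift α' (toC val s)) v =
      FreeGroup.lift α' (liftC val v) := by
    intro v
    have h : FreeGroup.lift (fun s => FreeGroup.lift α' (toC val s)) =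
        (FreeGroup.lift α').comp (FreeGroup.lift (toC val)) := by
      apply FreeGroup.ext_hom
      intro s
      rw [MonoidHom.comp_apply, FreeGroup.lift_apply_of, FreeGroup.lift_apply_of]
    exact DFunLike.congr_fun h v
  refine ⟨β', ?_, ?_⟩
  · intro r hr
    obtain ⟨⟨i, rfl⟩, _⟩ := (mem_relC val w r).1 hr
    rw [h1, hβ]
  · rw [sum_muRC_mul val w m (fun r => hDist (FreeGroup.lift α' r) (1 : Equiv.Perm (Fin n)))]
    obtain ⟨f, hf⟩ : ∃ f : G → ℝ, ∀ g : SC val, f g.1 = hDist (α' g) (β' g) := by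
      refine ⟨fun g => if h : g ≠ 1 ∧ ∃ s, val s = g then hDist (α' (mkSC_cleanc val g h)) (γ g)
        else 0, fun g => ?_⟩
      have h3 : g.1 ≠ 1 ∧ ∃ s, val s = g.1 := g.2
      refine (dif_pos h3).trans ?_
      rw [hβ', mkSC_val_cleanc]
    have h4 : ∑ g, muC val μ g * hDist (α' g) (β' g) =
        (∑ s, μ s * (ind (val s ≠ 1) * f (val s))) / ∑ s, μ s * ind (val s ≠ 1) := by
      rw [← sum_muC_mul val μ f]
      exact Finset.sum_congr rfl fun g _ => by rw [hf]
    have h5 : ∀ s, μ s * (ind (val s ≠ 1) * f (val s)) ≤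
        μ s * hDist (FreeGroup.lift α' (toC val s)) (β s) := by
      intro s
      refine mul_le_mul_of_nonneg_left ?_ (hμ s).le
      by_cases h : val s = 1
      · rw [ind_false (not_not.2 h), zero_mul]
        exact hDist_nonneg' _ _
      · rw [ind_true h, one_mul, toC, dif_neg h, FreeGroup.lift_apply_of]
        have h6 := hf (mkSC_cleanc val (val s) ⟨h, s, rfl⟩)
        rw [hβ'] at h6
        have h7 : f (val s) = hDist (α' (mkSC_cleanc val (val s) ⟨h, s, rfl⟩)) (γ (val s)) := h6
        rw [h7, hγ]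
        exact le_rfl
    have h6 : ∀ i, m i * hDist (FreeGroup.lift (fun s => FreeGroup.lift α' (toC val s)) (w i))
        (1 : Equiv.Perm (Fin n)) = m i * (ind (liftC val (w i) ≠ 1) *
          hDist (FreeGroup.lift α' (liftC val (w i))) (1 : Equiv.Perm (Fin n))) := by
      intro i
      rw [h2]
      by_cases h : liftC val (w i) = 1
      · rw [h, ind_false (not_not.2 rfl), zero_mul, map_one, hDist_one_eq hn]
        rw [Finset.sum_eq_zero fun x _ => ind_false (by simp), zero_div]
      · rw [ind_true h, one_mul]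
    rw [Finset.sum_congr rfl fun i _ => h6 i] at hC
    rw [h4]
    have h7 : (∑ s, μ s * (ind (val s ≠ 1) * f (val s))) ≤
        C * ∑ i, m i * (ind (liftC val (w i) ≠ 1) *
          hDist (FreeGroup.lift α' (liftC val (w i))) (1 : Equiv.Perm (Fin n))) :=
      (Finset.sum_le_sum fun s _ => h5 s).trans hC
    generalize (∑ s, μ s * (ind (val s ≠ 1) * f (val s))) = X at h7 ⊢
    by_cases hM : ∑ i, m i * ind (liftC val (w i) ≠ 1) = 0
    · have h8 : ∀ i, m i * ind (liftC val (w i) ≠ 1) = 0 := fun i =>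
        (Finset.sum_eq_zero_iff_of_nonneg fun i _ =>
          mul_nonneg (hm i).le (ind_nonneg _)).1 hM i (Finset.mem_univ i)
      rw [Finset.sum_eq_zero fun i _ => by rw [← mul_assoc, h8, zero_mul], mul_zero] at h7
      rw [hM, mul_zero, zero_div, zero_mul]
      exact div_nonpos_of_nonpos_of_nonneg h7 h.le
    · have h9 : C * (∑ i, m i * ind (liftC val (w i) ≠ 1)) / (∑ s, μ s * ind (val s ≠ 1)) *
          ((∑ i, m i * (ind (liftC val (w i) ≠ 1) *
            hDist (FreeGroup.lift α' (liftC val (w i))) (1 : Equiv.Perm (Fin n)))) /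
              ∑ i, m i * ind (liftC val (w i) ≠ 1)) =
          (C * ∑ i, m i * (ind (liftC val (w i) ≠ 1) *
            hDist (FreeGroup.lift α' (liftC val (w i))) (1 : Equiv.Perm (Fin n)))) /
              ∑ s, μ s * ind (val s ≠ 1) := by
        generalize (∑ i, m i * (ind (liftC val (w i) ≠ 1) *
            hDist (FreeGroup.lift α' (liftC val (w i))) (1 : Equiv.Perm (Fin n)))) = T
        field_simp
      rw [h9]
      exact div_le_div_of_nonneg_right h7 h.le

end Pool.Agent.Lib_MP_3a79a1_b
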