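import Pool.Agent.Lib_MP_3a79a1_b.Defs

/-!
# [RM-HD] The Hamming distance with errors

`hDist_eq_ind`: for `n ≤ N` the number of `i` with `σ i = τ i` is
`∑ x : Fin n, ind (τ (castLE x) = castLE (σ x)) = n - ∑ x ind (≠)`, `max n N = N`.
`hDist_self_one`: `N = n`.
-/

set_option linter.unusedSectionVars false

namespace Pool.Agent.Lib_MP_3a79a1_b

open Finset
open scoped BigOperators

/-- Normalised Hamming distance with errors between permutations of `{0,…,n-1}` and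
`{0,…,N-1}`: one minus the number of common points `i` with `σ i = τ i`, divided by `max n N`. -/
noncomputable def hDist {n N : ℕ} (σ : Equiv.Perm (Fin n)) (τ : Equiv.Perm (Fin N)) : ℝ :=
  1 - (Nat.card {i : Fin n // ∃ h : (i : ℕ) < N, (σ i : ℕ) = (τ ⟨i, h⟩ : ℕ)} : ℝ) / (max n N : ℕ)

private theorem card_hd {n : ℕ} (Q : Fin n → Prop) : (Nat.card {i : Fin n // Q i} : ℝ) = n - ∑ x, ind (¬ Q x) := by
  classical
  have h1 : ∀ x, ind (¬ Q x) = 1 - (if Q x then (1 : ℝ) else 0) := by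
    intro x
    by_cases h : Q x
    · rw [if_pos h, ind_false (not_not.2 h), sub_self]
    · rw [if_neg h, ind_true h, sub_zero]
  rw [Finset.sum_congr rfl fun x _ => h1 x, Finset.sum_sub_distrib, Finset.sum_const, Finset.card_univ,
    Fintype.card_fin, nsmul_eq_mul, mul_one, sub_sub_cancel, Finset.sum_boole, Nat.card_eq_fintype_card,
    Fintype.card_subtype]

theorem hDist_eq_ind {n N : ℕ} (hN : n ≤ N) (h0 : 0 < N) (σ : Equiv.Perm (Fin n))
    (τ : Equiv.Perm (Fin N)) :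
    hDist σ τ = (((N : ℝ) - n) + ∑ x, ind (τ (Fin.castLE hN x) ≠ Fin.castLE hN (σ x))) / N := by
  have hN' : (N : ℝ) ≠ 0 := by exact_mod_cast h0.ne'
  have h1 : ∀ x : Fin n, (∃ h : (x : ℕ) < N, (σ x : ℕ) = (τ ⟨x, h⟩ : ℕ)) ↔
      τ (Fin.castLE hN x) = Fin.castLE hN (σ x) := by
    intro x
    constructor
    · rintro ⟨h, h2⟩
      exact Fin.ext h2.symm
    · intro h
      exact ⟨lt_of_lt_of_le x.2 hN, (congrArg Fin.val h).symm⟩
  have h2 : ∀ x : Fin n, ind (¬ ∃ h : (x : ℕ) < N, (σ x : ℕ) = (τ ⟨x, h⟩ : ℕ)) =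
      ind (τ (Fin.castLE hN x) ≠ Fin.castLE hN (σ x)) := fun x => ind_congr (not_congr (h1 x))
  unfold hDist
  rw [card_hd, max_eq_right hN, Finset.sum_congr rfl fun x _ => h2 x]
  field_simp
  ring

theorem hDist_one_eq {n : ℕ} (h0 : 0 < n) (σ : Equiv.Perm (Fin n)) :
    hDist σ (1 : Equiv.Perm (Fin n)) = (∑ x, ind (σ x ≠ x)) / n := by
  rw [hDist_eq_ind le_rfl h0, sub_self, zero_add]
  congr 1
  refine Finset.sum_congr rfl fun x _ => ind_congr ?_
  rw [Equiv.Perm.one_apply]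
  exact ne_comm

theorem hDist_nonneg' {n N : ℕ} (σ : Equiv.Perm (Fin n)) (τ : Equiv.Perm (Fin N)) :
    0 ≤ hDist σ τ := by
  unfold hDist
  have h1 : Nat.card {i : Fin n // ∃ h : (i : ℕ) < N, (σ i : ℕ) = (τ ⟨i, h⟩ : ℕ)} ≤ n := by
    have := Nat.card_le_card_of_injective
      (fun i : {i : Fin n // ∃ h : (i : ℕ) < N, (σ i : ℕ) = (τ ⟨i, h⟩ : ℕ)} => i.1)
      Subtype.val_injective
    simpa using this
  have h2 : (Nat.card {i : Fin n // ∃ h : (i : ℕ) < N, (σ i : ℕ) = (τ ⟨i, h⟩ : ℕ)} : ℝ) ≤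
      (max n N : ℕ) := by
    exact_mod_cast le_trans h1 (le_max_left _ _)
  have h3 : (Nat.card {i : Fin n // ∃ h : (i : ℕ) < N, (σ i : ℕ) = (τ ⟨i, h⟩ : ℕ)} : ℝ) /
    (max n N : ℕ) ≤ 1 := div_le_one_of_le₀ h2 (by positivity)
  linarith

end Pool.Agent.Lib_MP_3a79a1_b
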