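import Pool.Agent.Lib_MP_3a79a1_b.Trans2
import Pool.Agent.Lib_MP_3a79a1_b.Hd

/-!
# Cleaning a presentation: definitions

`val : S → G` the values of the generators in the presented group.  The clean generating set is the
set of non-identity values; a generator with value `1` is replaced by the empty word, generators
with the same value are identified.
-/

set_option linter.unusedSectionVars false

namespace Pool.Agent.Lib_MP_3a79a1_b

open Finset
open scoped BigOperators

/-- the set of non-identity values of the generators -/
def SC {S G : Type} [Group G] (val : S → G) : Type := {g : G // g ≠ 1 ∧ ∃ s, val s = g}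

noncomputable instance {S G : Type} [Fintype S] [Group G] (val : S → G) : Fintype (SC val) := by
  classical
  exact Fintype.ofInjective (β := S) (fun g : SC val => g.2.2.choose) (fun a b hab => by
    apply Subtype.ext
    rw [← a.2.2.choose_spec, ← b.2.2.choose_spec]
    exact congrArg val hab)

noncomputable instance {S G : Type} [Group G] (val : S → G) : DecidableEq (SC val) :=
  Classical.decEq _

open Classical in
/-- a generator as a word in the clean generators -/
noncomputable def toC {S G : Type} [Group G] (val : S → G) (s : S) : FreeGroup (SC val) :=
  if h : val s = 1 then 1 else FreeGroup.of ⟨val s, h, s, rfl⟩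

/-- a word as a word in the clean generators -/
noncomputable def liftC {S G : Type} [Group G] (val : S → G) (w : FreeGroup S) :
    FreeGroup (SC val) := FreeGroup.lift (toC val) w

/-- weights of the clean generators -/
noncomputable def muC {S G : Type} [Fintype S] [Group G] (val : S → G) (μ : S → ℝ) (g : SC val) :
    ℝ :=
  (∑ s, μ s * ind (val s = g.1)) / ∑ s, μ s * ind (val s ≠ 1)

open Classical in
/-- the clean relations: the nontrivial images of the relations -/
noncomputable def relC {S I G : Type} [Fintype I] [Group G] (val : S → G) (w : I → FreeGroup S) :
    Finset (FreeGroup (SC val)) :=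
  (imW (fun i => liftC val (w i))).filter (fun r => r ≠ 1)

/-- weights of the clean relations -/
noncomputable def muRC {S I G : Type} [Fintype I] [Group G] (val : S → G) (w : I → FreeGroup S)
    (m : I → ℝ) (r : FreeGroup (SC val)) : ℝ :=
  (∑ i, m i * ind (liftC val (w i) = r)) / ∑ i, m i * ind (liftC val (w i) ≠ 1)

theorem mem_relC {S I G : Type} [Fintype I] [Group G] (val : S → G) (w : I → FreeGroup S)
    (r : FreeGroup (SC val)) : r ∈ relC val w ↔ (∃ i, liftC val (w i) = r) ∧ r ≠ 1 := by
  classical
  rw [relC, Finset.mem_filter, mem_imW]

end Pool.Agent.Lib_MP_3a79a1_b
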