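import Pool.Agent.Lib_MP_3a79a1_b.Defs

/-!
# [RM-SE2] Sections

Conventions: `D = dom y = {γ | y γ ≠ none}`; a section satisfies `Pr_s [OK y γ s] ≥ 99/100` at every
`γ ∈ D` and is nonempty.

* `max_unique`: both inclusions from the definition of `MaxSec`; then `funext`.
* `extension`: if `y` is a maximal section, `y γ = none`, then for every `w` the inequality
  `Pr_s [y (γ + hat s) ≠ some (α s w)] ≤ 1/100` fails: otherwise `y⁺ = Function.update y γ (some w)`
  is a section (at `γ`: `OK y⁺ γ s` holds as soon as `y (γ + hat s) = some (α s w)`, note that then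
  `hat s ≠ 0` since `y γ = none`; at other `γ' ∈ D`: `OK y γ' s → OK y⁺ γ' s`) which agrees with `y`
  somewhere (`y` is nonempty), so `y γ = some w` by maximality, contradiction.
* the `tr` lemmas: substitution `γ ↦ γ + g` in averages (`Fintype.expect_equiv`,
  `Equiv.addRight g`).
-/

set_option linter.unusedSectionVars false

namespace Pool.Agent.Lib_MP_3a79a1_b

open Finset
open scoped BigOperators

variable {V P X : Type} [AddCommGroup V] [Fintype V] [Fintype P] [Nonempty P] [Fintype X]
  {hat : P → V} {α : P → Equiv.Perm X}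

theorem max_unique {y y' : V → Option X} (hy : MaxSec hat α y) (hy' : MaxSec hat α y') {γ : V}
    {x : X} (h : y γ = some x) (h' : y' γ = some x) : y = y' := by
  funext δ
  refine Option.ext fun a => ⟨fun ha => ?_, fun ha => ?_⟩
  · exact hy'.2 y hy.1 ⟨γ, x, h', h⟩ δ a ha
  · exact hy.2 y' hy'.1 ⟨γ, x, h, h'⟩ δ a ha

theorem extension {y : V → Option X} (hy : MaxSec hat α y) {γ : V} (hγ : y γ = none) (w : X) :
    1 / 100 < 𝔼 s, ind (y (γ + hat s) ≠ some (α s w)) := by
  classical
  by_contra hle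
  rw [not_lt] at hle
  obtain ⟨z, hz⟩ : ∃ z : V → Option X, z = Function.update y γ (some w) := ⟨_, rfl⟩
  have hzγ : z γ = some w := by rw [hz, Function.update_self]
  have hzn : ∀ δ x, y δ = some x → z δ = some x := by
    intro δ x hδ
    have hne : δ ≠ γ := by
      rintro rfl
      rw [hγ] at hδ
      exact absurd hδ (by simp)
    rw [hz, Function.update_of_ne hne, hδ]
  have hsec : IsSec hat α z := by
    obtain ⟨⟨γ0, x0, h0⟩, h1⟩ := hy.1
    refine ⟨⟨γ, w, hzγ⟩, fun δ x hδ => ?_⟩
    by_cases hd : δ = γ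
    · subst hd
      refine le_trans (Finset.expect_le_expect fun s _ => ind_mono ?_) hle
      intro hno h2
      exact hno ⟨w, hzγ, hzn _ _ h2⟩
    · have h2 : y δ = some x := by
        rw [hz, Function.update_of_ne hd] at hδ
        exact hδ
      refine le_trans (Finset.expect_le_expect fun s _ => ind_mono ?_) (h1 δ x h2)
      rintro hno ⟨x', h3, h4⟩
      exact hno ⟨x', hzn _ _ h3, hzn _ _ h4⟩
  obtain ⟨⟨γ0, x0, h0⟩, -⟩ := hy.1
  have h5 := hy.2 z hsec ⟨γ0, x0, h0, hzn _ _ h0⟩ γ w hzγ
  rw [hγ] at h5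
  exact absurd h5 (by simp)

theorem OK_tr (g : V) (y : V → Option X) (γ : V) (s : P) :
    OK hat α (tr g y) γ s ↔ OK hat α y (γ + g) s := by
  unfold OK tr
  rw [add_right_comm]

theorem eL_tr (g : V) (y : V → Option X) (γ : V) : eL hat α (tr g y) γ = eL hat α y (γ + g) := by
  unfold eL
  exact Finset.expect_congr rfl fun s _ => ind_congr (not_congr (OK_tr g y γ s))

theorem En_tr (g : V) (y : V → Option X) : En hat α (tr g y) = En hat α y := by
  unfold En
  exact Fintype.expect_equiv (Equiv.addRight g) _ _ fun γ => eL_tr g y γ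

theorem IsSec_tr (g : V) (y : V → Option X) : IsSec hat α (tr g y) ↔ IsSec hat α y := by
  unfold IsSec
  constructor
  · rintro ⟨⟨γ, x, h⟩, h1⟩
    refine ⟨⟨γ + g, x, h⟩, fun δ x hδ => ?_⟩
    have h2 := h1 (δ + -g) x (by unfold tr; rw [neg_add_cancel_right]; exact hδ)
    rwa [eL_tr, neg_add_cancel_right] at h2
  · rintro ⟨⟨γ, x, h⟩, h1⟩
    refine ⟨⟨γ + -g, x, by unfold tr; rw [neg_add_cancel_right]; exact h⟩, fun δ x hδ => ?_⟩
    rw [eL_tr]
    exact h1 (δ + g) x hδ

private theorem MaxSec_tr_secb (g : V) (y : V → Option X) (h : MaxSec hat α y) :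
    MaxSec hat α (tr g y) := by
  refine ⟨(IsSec_tr g y).2 h.1, ?_⟩
  rintro y' hy' ⟨γ, x, h1, h2⟩ δ a ha
  refine h.2 (tr (-g) y') ((IsSec_tr (-g) y').2 hy') ⟨γ + g, x, h1, ?_⟩ (δ + g) a ?_
  · unfold tr
    rw [add_neg_cancel_right]
    exact h2
  · unfold tr
    rw [add_neg_cancel_right]
    exact ha

theorem MaxSec_tr (g : V) (y : V → Option X) : MaxSec hat α (tr g y) ↔ MaxSec hat α y := by
  refine ⟨fun h => ?_, MaxSec_tr_secb g y⟩
  have h1 := MaxSec_tr_secb (-g) (tr g y) h
  have h2 : tr (-g) (tr g y) = y := by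
    funext γ
    unfold tr
    rw [neg_add_cancel_right]
  rwa [h2] at h1

theorem Exc_tr (e1 : ℝ) (g : V) (y : V → Option X) : Exc hat α e1 (tr g y) ↔ Exc hat α e1 y := by
  unfold Exc
  rw [MaxSec_tr, En_tr]

theorem tr_zero (y : V → Option X) : tr 0 y = y := by
  funext γ
  unfold tr
  rw [add_zero]

theorem tr_add (g h : V) (y : V → Option X) : tr (g + h) y = tr g (tr h y) := by
  funext γ
  unfold tr
  rw [add_assoc]

/-- `En` is the average of the `bs` -/
theorem En_eq_bs (y : V → Option X) : En hat α y = 𝔼 s, bs hat α y s := by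
  unfold En bs eL
  exact Finset.expect_comm _ _ _

theorem miss_le_bs (y : V → Option X) (s : P) : miss y ≤ bs hat α y s := by
  unfold miss bs
  refine Finset.expect_le_expect fun γ _ => ind_mono ?_
  rintro h ⟨x, h1, h2⟩
  rw [h] at h1
  exact absurd h1 (by simp)

theorem miss_le_En (y : V → Option X) : miss y ≤ En hat α y := by
  rw [En_eq_bs (hat := hat) (α := α)]
  have h1 : miss y = 𝔼 s : P, miss y := (Finset.expect_const Finset.univ_nonempty _).symm
  rw [h1]
  exact Finset.expect_le_expect fun s _ => miss_le_bs y s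

end Pool.Agent.Lib_MP_3a79a1_b
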