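import Pool.Agent.Lib_MP_3a79a1_b.Prune
import Pool.Agent.Lib_MP_3a79a1_b.SecB

/-!
# [RM-CO] The core lemma

`core`: if `En f > e1/700` the right hand side is `≥ 1`.  Otherwise
`En f ≤ e1/700 ≤ 1/1400000 ≤ 1/240000`; take `y0` from `prune` and the maximal section `y ⊇ y0`
(`exists_max`).  `En y ≤ 2 miss y0 + En f ≤ 601 En f ≤ 700 En f ≤ e1`
(if `y0 γ` and `y0 (γ + hat s)` are defined and `OK f γ s` then `OK y γ s`; the average over `γ` of
`ind (y0 (γ + hat s) = none)` is `miss y0`).  So `y` is excellent.  If `y0 γ = some x` then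
`f γ = some x`, `(tr γ y) 0 = some x` and `tr γ y` is excellent (`Exc_tr`), so `x ∈ GG`.  Hence the
left hand side is `≤ miss y0 ≤ 300 En f ≤ (700/e1) En f`.
-/

set_option linter.unusedSectionVars false

namespace Pool.Agent.Lib_MP_3a79a1_b

open Finset
open scoped BigOperators

variable {V P X : Type} [AddCommGroup V] [Fintype V] [Fintype P] [Nonempty P] [Fintype X]
  {hat : P → V} {α : P → Equiv.Perm X}

private lemma miss_shift_core (y : V → Option X) (g : V) :
    𝔼 γ, ind (y (γ + g) = none) = miss y := by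
  unfold miss
  exact Fintype.expect_equiv (Equiv.addRight g) _ _ fun γ => rfl

private lemma En_nonneg_core (f : V → Option X) : 0 ≤ En hat α f := by
  unfold En eL
  exact Finset.expect_nonneg fun γ _ => Finset.expect_nonneg fun s _ => ind_nonneg _

private lemma En_le_core {f y0 y : V → Option X} (h1 : ∀ γ x, y0 γ = some x → f γ = some x)
    (h2 : ∀ γ x, y0 γ = some x → y γ = some x) :
    En hat α y ≤ 2 * miss y0 + En hat α f := by
  have hpt : ∀ γ s, ind (¬ OK hat α y γ s) ≤
      ind (y0 γ = none) + ind (y0 (γ + hat s) = none) + ind (¬ OK hat α f γ s) := by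
    intro γ s
    by_cases a1 : y0 γ = none
    · rw [ind_true a1]
      linarith [ind_nonneg (y0 (γ + hat s) = none), ind_nonneg (¬ OK hat α f γ s),
        ind_le_one (¬ OK hat α y γ s)]
    by_cases a2 : y0 (γ + hat s) = none
    · rw [ind_true a2]
      linarith [ind_nonneg (y0 γ = none), ind_nonneg (¬ OK hat α f γ s),
        ind_le_one (¬ OK hat α y γ s)]
    have h3 : ind (¬ OK hat α y γ s) ≤ ind (¬ OK hat α f γ s) := by
      refine ind_mono ?_
      rintro hno ⟨x, hx, hx'⟩
      obtain ⟨b, hb⟩ := Option.ne_none_iff_exists'.1 a1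
      obtain ⟨c, hc⟩ := Option.ne_none_iff_exists'.1 a2
      have e1 := h1 _ _ hb
      have e2 := h1 _ _ hc
      rw [hx] at e1
      rw [hx'] at e2
      obtain rfl := Option.some.inj e1
      obtain rfl := Option.some.inj e2
      exact hno ⟨_, h2 _ _ hb, h2 _ _ hc⟩
    linarith [ind_nonneg (y0 γ = none), ind_nonneg (y0 (γ + hat s) = none)]
  have hsum : En hat α y ≤ 𝔼 γ, 𝔼 s, (ind (y0 γ = none) + ind (y0 (γ + hat s) = none) +
      ind (¬ OK hat α f γ s)) := by
    unfold En eL
    exact Finset.expect_le_expect fun γ _ => Finset.expect_le_expect fun s _ => hpt γ s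
  refine hsum.trans (le_of_eq ?_)
  have e1 : 𝔼 γ, 𝔼 s, (ind (y0 γ = none) + ind (y0 (γ + hat s) = none) +
      ind (¬ OK hat α f γ s)) = 𝔼 γ, 𝔼 _s : P, ind (y0 γ = none) +
      𝔼 γ, 𝔼 s, ind (y0 (γ + hat s) = none) + 𝔼 γ, 𝔼 s, ind (¬ OK hat α f γ s) := by
    simp_rw [Finset.expect_add_distrib]
  rw [e1]
  have e2 : 𝔼 γ, 𝔼 _s : P, ind (y0 γ = none) = miss y0 := by
    unfold miss
    exact Finset.expect_congr rfl fun γ _ => Fintype.expect_const _
  have e3 : 𝔼 γ, 𝔼 s, ind (y0 (γ + hat s) = none) = miss y0 := by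
    rw [Finset.expect_comm]
    simp_rw [miss_shift_core]
    exact Fintype.expect_const _
  rw [e2, e3]
  unfold En eL
  ring

theorem core (hm : Mix hat) {e1 : ℝ} (he0 : 0 < e1) (he1 : e1 ≤ 1 / 2000) (f : V → Option X) :
    𝔼 γ, ind (¬ ∃ x ∈ GG hat α e1, f γ = some x) ≤ 700 / e1 * En hat α f := by
  by_cases h : e1 / 700 < En hat α f
  · have h1 : 𝔼 γ, ind (¬ ∃ x ∈ GG hat α e1, f γ = some x) ≤ 1 := by
      have : (1 : ℝ) = 𝔼 _γ : V, (1 : ℝ) := by rw [Fintype.expect_const]
      rw [this]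
      exact Finset.expect_le_expect fun γ _ => ind_le_one _
    refine h1.trans ?_
    rw [div_lt_iff₀ (by norm_num)] at h
    rw [div_mul_eq_mul_div, le_div_iff₀ he0]
    linarith
  · rw [not_lt] at h
    have hsmall : En hat α f ≤ 1 / 240000 := by
      refine h.trans ?_
      rw [div_le_iff₀ (by norm_num)]
      linarith
    obtain ⟨y0, hs, hsub, hmiss⟩ := prune hm f hsmall
    obtain ⟨y, hy, hy0⟩ := exists_max hm hs
    have hEn := En_le_core (hat := hat) (α := α) hsub hy0
    have hn := En_nonneg_core (hat := hat) (α := α) f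
    have hexc : Exc hat α e1 y := by
      refine ⟨hy, ?_⟩
      have h7 : En hat α f * 700 ≤ e1 := (le_div_iff₀ (by norm_num)).1 h
      linarith
    have hle : 𝔼 γ, ind (¬ ∃ x ∈ GG hat α e1, f γ = some x) ≤ miss y0 := by
      unfold miss
      refine Finset.expect_le_expect fun γ _ => ind_mono ?_
      intro hno
      by_contra hne
      obtain ⟨x, hx⟩ := Option.ne_none_iff_exists'.1 hne
      refine hno ⟨x, ⟨tr γ y, (Exc_tr e1 γ y).2 hexc, ?_⟩, hsub γ x hx⟩
      unfold tr
      rw [zero_add]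
      exact hy0 γ x hx
    have h3 : 300 ≤ 700 / e1 := by
      rw [le_div_iff₀ he0]
      linarith
    calc _ ≤ miss y0 := hle
      _ ≤ 300 * En hat α f := hmiss
      _ ≤ 700 / e1 * En hat α f := mul_le_mul_of_nonneg_right h3 hn

end Pool.Agent.Lib_MP_3a79a1_b
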