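import Mathlib

/-!
# MP_3a79a1_al, second hand-in: definitions

Generic theory (a finite abelian group `V`, a finite family `hat : P → V` of shifts with a
spectral gap, permutations `α : P → Perm X`) and the recursive systems `sysm m`.
-/

set_option linter.unusedSectionVars false

namespace Pool.Agent.Lib_MP_3a79a1_b

open Finset
open scoped BigOperators

/-- real indicator of a proposition -/
noncomputable def ind (p : Prop) : ℝ := by
  classical exact if p then 1 else 0

lemma ind_true {p : Prop} (h : p) : ind p = 1 := by simp [ind, h]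
lemma ind_false {p : Prop} (h : ¬ p) : ind p = 0 := by simp [ind, h]
lemma ind_nonneg (p : Prop) : 0 ≤ ind p := by
  by_cases h : p
  · rw [ind_true h]; norm_num
  · rw [ind_false h]
lemma ind_le_one (p : Prop) : ind p ≤ 1 := by
  by_cases h : p
  · rw [ind_true h]
  · rw [ind_false h]; norm_num
lemma ind_mono {p q : Prop} (h : p → q) : ind p ≤ ind q := by
  by_cases hp : p
  · rw [ind_true hp, ind_true (h hp)]
  · rw [ind_false hp]; exact ind_nonneg q
lemma ind_congr {p q : Prop} (h : p ↔ q) : ind p = ind q :=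
  le_antisymm (ind_mono h.1) (ind_mono h.2)
/-- union bound -/
lemma ind_le_add {p q r : Prop} (h : p → q ∨ r) : ind p ≤ ind q + ind r := by
  by_cases hp : p
  · rw [ind_true hp]
    rcases h hp with h | h
    · rw [ind_true h]; linarith [ind_nonneg r]
    · rw [ind_true h]; linarith [ind_nonneg q]
  · rw [ind_false hp]; linarith [ind_nonneg q, ind_nonneg r]
lemma ind_not (p : Prop) : ind (¬ p) = 1 - ind p := by
  by_cases h : p
  · rw [ind_true h, ind_false (not_not.2 h)]; norm_num
  · rw [ind_true h, ind_false h]; norm_num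

section generic

variable {V P X : Type} [AddCommGroup V] [Fintype V] [Fintype P] [Fintype X]

/-- Spectral gap of the averaging operator `h ↦ 𝔼 s, h (· + hat s)` with the fixed
constant `1/10000`. -/
def Mix (hat : P → V) : Prop :=
  ∀ h : V → ℝ, 𝔼 γ, (𝔼 s, h (γ + hat s) - 𝔼 δ, h δ) ^ 2 ≤ (1 / 10000) ^ 2 * 𝔼 γ, (h γ) ^ 2

/-- the partial function `y` is defined at `γ` and at `γ + hat s` and transported by `α s` -/
def OK (hat : P → V) (α : P → Equiv.Perm X) (y : V → Option X) (γ : V) (s : P) : Prop :=
  ∃ x, y γ = some x ∧ y (γ + hat s) = some (α s x)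

/-- local error at `γ` (equal to `1` where `y` is undefined) -/
noncomputable def eL (hat : P → V) (α : P → Equiv.Perm X) (y : V → Option X) (γ : V) : ℝ :=
  𝔼 s, ind (¬ OK hat α y γ s)

/-- density of the set `b_s` of positions where `s` is not transported -/
noncomputable def bs (hat : P → V) (α : P → Equiv.Perm X) (y : V → Option X) (s : P) : ℝ :=
  𝔼 γ, ind (¬ OK hat α y γ s)

/-- average error -/
noncomputable def En (hat : P → V) (α : P → Equiv.Perm X) (y : V → Option X) : ℝ :=
  𝔼 γ, eL hat α y γ

/-- density of the complement of the domain -/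
noncomputable def miss (y : V → Option X) : ℝ := 𝔼 γ, ind (y γ = none)

/-- translation of a partial function -/
def tr (g : V) (y : V → Option X) : V → Option X := fun γ => y (γ + g)

/-- average of `h` over the values of `y` (`0` where `y` is undefined) -/
noncomputable def pull (h : X → ℝ) (y : V → Option X) : ℝ := 𝔼 γ, (y γ).elim 0 h

/-- sections -/
def IsSec (hat : P → V) (α : P → Equiv.Perm X) (y : V → Option X) : Prop :=
  (∃ γ x, y γ = some x) ∧ ∀ γ x, y γ = some x → eL hat α y γ ≤ 1 / 100

/-- maximal sections: they contain every section which agrees with them somewhere -/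
def MaxSec (hat : P → V) (α : P → Equiv.Perm X) (y : V → Option X) : Prop :=
  IsSec hat α y ∧ ∀ y', IsSec hat α y' → (∃ γ x, y γ = some x ∧ y' γ = some x) →
    ∀ γ x, y' γ = some x → y γ = some x

/-- excellent sections -/
def Exc (hat : P → V) (α : P → Equiv.Perm X) (e1 : ℝ) (y : V → Option X) : Prop :=
  MaxSec hat α y ∧ En hat α y ≤ e1

/-- the points lying on an excellent section -/
def GG (hat : P → V) (α : P → Equiv.Perm X) (e1 : ℝ) : Set X :=
  {x | ∃ y, Exc hat α e1 y ∧ y 0 = some x}

/-- local commutation defect -/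
noncomputable def cmX (α : P → Equiv.Perm X) (x : X) : ℝ :=
  𝔼 s, 𝔼 t, ind (α s (α t x) ≠ α t (α s x))

/-- local commutation defect with a fixed permutation -/
noncomputable def cmS (α : P → Equiv.Perm X) (ζ : Equiv.Perm X) (x : X) : ℝ :=
  𝔼 t, ind (α t (ζ x) ≠ ζ (α t x))

/-- local involution defect -/
noncomputable def ivX (α : P → Equiv.Perm X) (x : X) : ℝ :=
  𝔼 s, ind (α s (α s x) ≠ x)

/-- the excellent section through `x` at `0` (nowhere defined if there is none) -/
noncomputable def secAt (hat : P → V) (α : P → Equiv.Perm X) (e1 : ℝ) (x : X) : V → Option X := by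
  classical exact if h : ∃ y, Exc hat α e1 y ∧ y 0 = some x then h.choose else fun _ => none

/-- the local error of the excellent section through `x` -/
noncomputable def eX (hat : P → V) (α : P → Equiv.Perm X) (e1 : ℝ) (x : X) : ℝ :=
  eL hat α (secAt hat α e1 x) 0

end generic

/-! ### Systems -/

/-- A level of the recursive construction: the group `V`, the set `U` of points, the set `L` of
lines; `pt` the vector of a point, `lpt ℓ t` the `t`-th point of the line `ℓ`, `lin ℓ` the
embedding of the line space. -/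
structure Sys (F : Type) [Field F] (d : ℕ) where
  V : Type
  U : Type
  L : Type
  [gV : AddCommGroup V]
  [mV : Module F V]
  [fV : Fintype V]
  [dV : DecidableEq V]
  [fU : Fintype U]
  [dU : DecidableEq U]
  [nU : Nonempty U]
  [fL : Fintype L]
  [dL : DecidableEq L]
  pt : U → V
  lpt : L → F → U
  lin : L → (Fin (d + 1) → F) → V

attribute [instance] Sys.gV Sys.mV Sys.fV Sys.dV Sys.fU Sys.dU Sys.nU Sys.fL Sys.dL

section systems

variable {F : Type} [Field F] [Fintype F] [DecidableEq F] {d : ℕ} {X : Type} [Fintype X]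

/-- `e(c) = (1, c, …, c^d)` -/
def evec (F : Type) [Field F] (d : ℕ) (c : F) : Fin (d + 1) → F := fun k => c ^ (k : ℕ)

/-- `w ⊗ e(c)` -/
def ten {V : Type} [AddCommGroup V] [Module F V] (d : ℕ) (c : F) (w : V) : Fin (d + 1) → V :=
  fun k => c ^ (k : ℕ) • w

/-- level zero: `V = F`, one point, no line -/
def base (F : Type) [Field F] [Fintype F] [DecidableEq F] (d : ℕ) : Sys F d where
  V := F
  U := Unit
  L := Empty
  pt := fun _ => 1
  lpt := fun l => l.elim
  lin := fun l => l.elim

/-- the next level -/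
def next (S : Sys F d) : Sys F d where
  V := Fin (d + 1) → S.V
  U := S.U × F
  L := (S.L × F) ⊕ S.U
  pt := fun u => ten d u.2 (S.pt u.1)
  lpt := fun l t => match l with
    | Sum.inl lc => (S.lpt lc.1 t, lc.2)
    | Sum.inr u => (u, t)
  lin := fun l γ => match l with
    | Sum.inl lc => ten d lc.2 (S.lin lc.1 γ)
    | Sum.inr u => fun k => γ k • S.pt u

/-- the systems -/
def sysm (F : Type) [Field F] [Fintype F] [DecidableEq F] (d : ℕ) : ℕ → Sys F d
  | 0 => base F d
  | m + 1 => next (sysm F d m)

/-- point generators `a(u,b)` and line generators `l(ℓ,γ)` -/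
abbrev Gen (S : Sys F d) : Type := (S.U × F) ⊕ (S.L × (Fin (d + 1) → F))

/-- the vector of a point generator -/
def hatS (S : Sys F d) (s : S.U × F) : S.V := s.2 • S.pt s.1

/-- the vector of a generator -/
def vecS (S : Sys F d) : Gen S → S.V
  | Sum.inl s => hatS S s
  | Sum.inr l => S.lin l.1 l.2

/-- the point generators of `A` -/
def ptA {S : Sys F d} (A : Gen S → Equiv.Perm X) (s : S.U × F) : Equiv.Perm X := A (Sum.inl s)

/-- the inclusion of the generators of the slice `c` -/
def sl (S : Sys F d) (c : F) : Gen S → Gen (next S)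
  | Sum.inl s => Sum.inl ((s.1, c), s.2)
  | Sum.inr l => Sum.inr (Sum.inl (l.1, c), l.2)

/-- the restriction of `A` to the slice `c` -/
def slice {S : Sys F d} (A : Gen (next S) → Equiv.Perm X) (c : F) : Gen S → Equiv.Perm X :=
  fun g => A (sl S c g)

/-- local defect of the table relations `a(u,b) a(u,b') = a(u,b+b')` at the point `u` -/
noncomputable def tbU {S : Sys F d} (A : Gen S → Equiv.Perm X) (u : S.U) (x : X) : ℝ :=
  𝔼 b : F, 𝔼 b' : F, ind (A (Sum.inl (u, b)) (A (Sum.inl (u, b')) x) ≠ A (Sum.inl (u, b + b')) x)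

/-- local defect of the table relations -/
noncomputable def tbX {S : Sys F d} (A : Gen S → Equiv.Perm X) (x : X) : ℝ :=
  𝔼 u : S.U, tbU A u x

/-- local defect of the consistency relations `l(ℓ,γ + b e(t)) = l(ℓ,γ) a(lpt ℓ t, b)` of the
line `ℓ` at the parameter `t` -/
noncomputable def cnL {S : Sys F d} (A : Gen S → Equiv.Perm X) (l : S.L) (t : F) (x : X) : ℝ :=
  𝔼 b : F, 𝔼 γ : Fin (d + 1) → F,
    ind (A (Sum.inr (l, γ + b • evec F d t)) x ≠ A (Sum.inr (l, γ)) (A (Sum.inl (S.lpt l t, b)) x))

/-- local defect of the consistency relations; total mass is `m` at level `m` -/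
noncomputable def cnX {S : Sys F d} (A : Gen S → Equiv.Perm X) (x : X) : ℝ :=
  (Fintype.card F : ℝ) / Fintype.card S.U * ∑ l : S.L, 𝔼 t : F, cnL A l t x

/-- own local defect of a level -/
noncomputable def ownX {S : Sys F d} (A : Gen S → Equiv.Perm X) (x : X) : ℝ :=
  ivX (ptA A) x + tbX A x + cmX (ptA A) x + cnX A x

/-- own defect of a level -/
noncomputable def own {S : Sys F d} (A : Gen S → Equiv.Perm X) : ℝ := ∑ x, ownX A x

/-- total defect -/
noncomputable def Dfn : (m : ℕ) → (Gen (sysm F d m) → Equiv.Perm X) → ℝ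
  | 0, A => own A
  | m + 1, A => own A + 𝔼 c : F, Dfn m (slice (S := sysm F d m) A c)

/-- combinatorial properties of a level -/
structure Good (S : Sys F d) (m : ℕ) : Prop where
  lin_add : ∀ (l : S.L) (γ γ' : Fin (d + 1) → F), S.lin l (γ + γ') = S.lin l γ + S.lin l γ'
  lin_e : ∀ (l : S.L) (t b : F), S.lin l (b • evec F d t) = b • S.pt (S.lpt l t)
  /-- every point lies on `m` lines -/
  inc : ∀ g : S.U → ℝ, ∑ l : S.L, ∑ t : F, g (S.lpt l t) = m * ∑ u, g u
  /-- isoperimetry -/
  ham : ∀ B : S.U → Prop,
    (Fintype.card S.U : ℝ) / Fintype.card F * ((𝔼 u, ind (B u)) * (1 - 𝔼 u, ind (B u))) ≤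
      ∑ l : S.L, (𝔼 t : F, ind (B (S.lpt l t))) * (1 - 𝔼 t : F, ind (B (S.lpt l t)))
  /-- a nontrivial character is rarely trivial on the line of a point -/
  chr : ∀ χ : AddChar S.V ℂ, χ ≠ 1 →
    𝔼 u : S.U, ind (∀ b : F, χ (b • S.pt u) = 1) ≤ m * d / Fintype.card F

end systems

end Pool.Agent.Lib_MP_3a79a1_b
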