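import Pool.Agent.Lib_MP_3a79a1_b.Defs

/-!
# [RM-EA] Elementary abelian groups

`V` finite with `v + v = 0`: it is a `ZMod 2`-module (`AddCommGroup.zmodModule`), finite
dimensional, so `V ≃ₗ Fin (finrank) → ZMod 2` and `2 ^ finrank = |V| = 2 ^ k`
(`Module.card_eq_pow_finrank`, `ZMod.card`).
-/

set_option linter.unusedSectionVars false

namespace Pool.Agent.Lib_MP_3a79a1_b

open Finset
open scoped BigOperators

theorem ea_equiv {V : Type} [AddCommGroup V] [Fintype V] (h : ∀ v : V, v + v = 0) (k : ℕ)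
    (hk : Fintype.card V = 2 ^ k) : Nonempty (V ≃+ (Fin k → ZMod 2)) := by
  haveI : Fact (Nat.Prime 2) := ⟨Nat.prime_two⟩
  letI : Module (ZMod 2) V :=
    AddCommGroup.zmodModule (n := 2) (fun v => by rw [two_nsmul]; exact h v)
  haveI : Module.Finite (ZMod 2) V := Module.Finite.of_finite
  have hc := Module.card_eq_pow_finrank (K := ZMod 2) (V := V)
  rw [hk, ZMod.card] at hc
  have hf : Module.finrank (ZMod 2) V = k := (Nat.pow_right_injective le_rfl hc).symm
  exact ⟨(LinearEquiv.ofFinrankEq V (Fin k → ZMod 2)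
    (by rw [hf, Module.finrank_fin_fun])).toAddEquiv⟩

end Pool.Agent.Lib_MP_3a79a1_b
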