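import Pool.Agent.Lib_MP_3a79a1_b.Perc
import Pool.Agent.Lib_MP_3a79a1_b.Orbit

/-!
# [RM-EB] The total error of the excellent sections

`Etot = ∑ y ∈ excF, En y` (`sum_En`), `En y ≤ P pull (ownX A) y` (`selfimp`) for `y ∈ excF`
(`mem_excF`), `∑ y ∈ excF, pull (ownX A) y = ∑ x, ind (x ∈ GG) ownX A x ≤ own A` (`sum_pull`,
`ownX ≥ 0`).
-/

set_option linter.unusedSectionVars false

namespace Pool.Agent.Lib_MP_3a79a1_b

open Finset
open scoped BigOperators

variable {F : Type} [Field F] [Fintype F] [DecidableEq F] {d : ℕ}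

variable {X : Type} [Fintype X]

theorem ownX_nonneg {S : Sys F d} (A : Gen S → Equiv.Perm X) (x : X) : 0 ≤ ownX A x := by
  have h1 : 0 ≤ ivX (ptA A) x := expect_nonneg fun s _ => ind_nonneg _
  have h2 : 0 ≤ tbX A x := expect_nonneg fun u _ => expect_nonneg fun b _ =>
    expect_nonneg fun b' _ => ind_nonneg _
  have h3 : 0 ≤ cmX (ptA A) x := expect_nonneg fun s _ => expect_nonneg fun t _ => ind_nonneg _
  have h4 : 0 ≤ cnX A x := by
    unfold cnX
    refine mul_nonneg (by positivity) (sum_nonneg fun l _ => expect_nonneg fun t _ => ?_)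
    exact expect_nonneg fun b _ => expect_nonneg fun γ _ => ind_nonneg _
  unfold ownX
  linarith

theorem Etot_le {S : Sys F d} {m : ℕ} (hS : Good S m) (hd : 1 ≤ d)
    (hq : (m : ℝ) * d / Fintype.card F ≤ 1 / 10000) (A : Gen S → Equiv.Perm X) :
    Etot (hatS S) (ptA A) (1 / (1000 * (d + 1))) ≤ 500 * (m + 1) * (d + 1) * own A := by
  have hP : (0 : ℝ) ≤ 500 * (m + 1) * (d + 1) := by positivity
  have hne : Nonempty (S.U × F) := ⟨(Classical.arbitrary _, 0)⟩
  rw [← sum_En]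
  have h1 : ∑ y ∈ excF (hatS S) (ptA A) (1 / (1000 * (d + 1))), En (hatS S) (ptA A) y ≤
      ∑ y ∈ excF (hatS S) (ptA A) (1 / (1000 * (d + 1))),
        500 * (m + 1) * (d + 1) * pull (ownX A) y :=
    sum_le_sum fun y hy => selfimp hS hd hq A (mem_excF.1 hy)
  refine h1.trans ?_
  rw [← mul_sum, sum_pull]
  refine mul_le_mul_of_nonneg_left ?_ hP
  unfold own
  refine sum_le_sum fun x _ => ?_
  calc ind (x ∈ GG (hatS S) (ptA A) (1 / (1000 * (d + 1)))) * ownX A x
      ≤ 1 * ownX A x := mul_le_mul_of_nonneg_right (ind_le_one _) (ownX_nonneg A x)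
    _ = ownX A x := one_mul _

end Pool.Agent.Lib_MP_3a79a1_b
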