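import Pool.Agent.Lib_MP_3a79a1_b.RegB
import Pool.Agent.Lib_MP_3a79a1_b.Core

/-!
# [RM-RC] Region lemma

For `x ∈ Y` and every `v`: `fReg x v = some x'` implies `x' ∈ Y` (`cmp_mem`), and for fixed `v` the
map `x ↦ fReg x v` is injective on `Y` (`cmp_inj` with `secAt_inj`).  So for every `v`
`#{x ∈ Y | ∃ x' ∈ GG', fReg x v = some x'} ≤ #{x' ∈ Y | x' ∈ GG'}`, i.e.
`∑ x ∈ Y ind (x ∉ GG') ≤ ∑ x ∈ Y ind (¬ ∃ x' ∈ GG', fReg x v = some x')`.  Average over `v` and use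
`core` for every `f = fReg x`.
-/

set_option linter.unusedSectionVars false

namespace Pool.Agent.Lib_MP_3a79a1_b

open Finset
open scoped BigOperators

variable {F : Type} [Field F] [Fintype F] [DecidableEq F] {d : ℕ}

variable {X : Type} [Fintype X]

private lemma sum_ind_regc {X : Type} (Y : Finset X) (p : X → Prop) [DecidablePred p] :
    ∑ x ∈ Y, ind (p x) = ((Y.filter p).card : ℝ) := by
  rw [Finset.card_filter]
  push_cast
  refine Finset.sum_congr rfl fun x _ => ?_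
  by_cases h : p x
  · rw [ind_true h, if_pos h]
  · rw [ind_false h, if_neg h]

private lemma count_regc {X : Type} (Y : Finset X) (P Q : X → Prop) (R : X → X → Prop)
    (h1 : ∀ x ∈ Y, P x → ∃ x' ∈ Y, Q x' ∧ R x x')
    (h2 : ∀ x1 ∈ Y, ∀ x2 ∈ Y, ∀ x', R x1 x' → R x2 x' → x1 = x2) :
    ∑ x ∈ Y, ind (¬ Q x) ≤ ∑ x ∈ Y, ind (¬ P x) := by
  classical
  have e : ∀ p : X → Prop, ∑ x ∈ Y, ind (¬ p x) = (Y.card : ℝ) - ((Y.filter p).card : ℝ) := by
    intro p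
    rw [← sum_ind_regc Y p]
    simp_rw [ind_not]
    rw [Finset.sum_sub_distrib, Finset.sum_const, nsmul_eq_mul, mul_one]
  rw [e, e]
  have hc : (Y.filter P).card ≤ (Y.filter Q).card := by
    choose! φ hφ using h1
    refine Finset.card_le_card_of_injOn φ ?_ ?_
    · intro x hx
      have hx' := Finset.mem_filter.1 (Finset.mem_coe.1 hx)
      exact Finset.mem_coe.2 (Finset.mem_filter.2 ⟨(hφ x hx'.1 hx'.2).1, (hφ x hx'.1 hx'.2).2.1⟩)
    · intro x hx y hy hxy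
      have hx' := Finset.mem_filter.1 (Finset.mem_coe.1 hx)
      have hy' := Finset.mem_filter.1 (Finset.mem_coe.1 hy)
      refine h2 x hx'.1 y hy'.1 (φ x) (hφ x hx'.1 hx'.2).2.2 ?_
      rw [hxy]
      exact (hφ y hy'.1 hy'.2).2.2
  have hc' : ((Y.filter P).card : ℝ) ≤ (Y.filter Q).card := by exact_mod_cast hc
  linarith

theorem region {S : Sys F d} (hm : Mix (hatS S)) (hm' : Mix (hatS (next S)))
    (A : Gen (next S) → Equiv.Perm X) {e1 : ℝ} (he0 : 0 < e1) (he1 : e1 ≤ 1 / 2000)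
    (c : Fin (d + 1) → F) (hc : Function.Injective c) (Y : Finset X)
    (hY : ∀ x ∈ Y, ∀ j, x ∈ GG (hatS S) (ptA (slice A (c j))) e1) :
    ∑ x ∈ Y, ind (x ∉ GG (hatS (next S)) (ptA A) e1) ≤
      700 / e1 * ∑ x ∈ Y, En (hatS (next S)) (ptA A) (fReg A e1 c hc Y x) := by
  have hpt : ∀ v, ∑ x ∈ Y, ind (¬ (x ∈ GG (hatS (next S)) (ptA A) e1)) ≤
      ∑ x ∈ Y, ind (¬ ∃ x' ∈ GG (hatS (next S)) (ptA A) e1, fReg A e1 c hc Y x v = some x') := by
    intro v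
    refine count_regc Y (fun x => ∃ x' ∈ GG (hatS (next S)) (ptA A) e1,
      fReg A e1 c hc Y x v = some x') (fun x => x ∈ GG (hatS (next S)) (ptA A) e1)
      (fun x x' => fReg A e1 c hc Y x v = some x') ?_ ?_
    · rintro x hx ⟨x', hx', h⟩
      exact ⟨x', cmp_mem Y (d + 1) _ _ hx h, hx', h⟩
    · intro x1 h1 x2 h2 x' g1 g2
      refine cmp_inj Y (d + 1) _ ?_ _ h1 h2 g1 g2
      intro j γ y1 y2 w hy1 hy2 k1 k2
      exact secAt_inj (hY y1 hy1 j) (hY y2 hy2 j) k1 k2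
  calc ∑ x ∈ Y, ind (x ∉ GG (hatS (next S)) (ptA A) e1)
      = 𝔼 _v : (next S).V, ∑ x ∈ Y, ind (x ∉ GG (hatS (next S)) (ptA A) e1) :=
        (Fintype.expect_const _).symm
    _ ≤ 𝔼 v, ∑ x ∈ Y, ind (¬ ∃ x' ∈ GG (hatS (next S)) (ptA A) e1,
          fReg A e1 c hc Y x v = some x') := Finset.expect_le_expect fun v _ => hpt v
    _ = ∑ x ∈ Y, 𝔼 v, ind (¬ ∃ x' ∈ GG (hatS (next S)) (ptA A) e1,
          fReg A e1 c hc Y x v = some x') := Finset.expect_sum_comm _ _ _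
    _ ≤ ∑ x ∈ Y, 700 / e1 * En (hatS (next S)) (ptA A) (fReg A e1 c hc Y x) :=
        Finset.sum_le_sum fun x _ => core hm' he0 he1 _
    _ = 700 / e1 * ∑ x ∈ Y, En (hatS (next S)) (ptA A) (fReg A e1 c hc Y x) :=
        (Finset.mul_sum _ _ _).symm

end Pool.Agent.Lib_MP_3a79a1_b
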