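import Pool.Agent.Lib_MP_3a79a1_b.StepA
import Pool.Agent.Lib_MP_3a79a1_b.RegC

/-!
# [RM-SC] Points lying in many slices

`G`, `K`, `α` as in `StepB`; `q = |F|`.  Partition `{x | |K x| ≥ d+1}` into `Y_κ = {x | K x = κ}`,
`κ : Finset F`, `|κ| ≥ d+1`.  For such `κ` choose an injective `c : Fin (d+1) → F` with values in `κ`
and use `region` and `reg_energy` for `Y_κ`.  Bounds for the five terms, for one `κ`, and their sums
over all `κ` (`∑_κ ∑_{x ∈ Y_κ} = ∑_x` restricted to `|K x| ≥ d+1`; all terms are `≥ 0`):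
1. `∑ j ∑ x ∈ Y eX_{c_j} x ≤ ∑ c ∑ x ∈ Y ind (x ∈ GG_c) eX_c x`; total
   `≤ ∑ c ∑ x ind (x ∈ GG_c) eX_c x ≤ ∑ c Etot_c` (`Etot_eq`).
2. `∑ j ∑ x ∈ Y 𝔼 s ind (slice_{c_j} s x ∉ Y) ≤ ∑ c ∑ x ∈ Y 𝔼 s ind (A (inl ((s.1,c),s.2)) x ∉ Y)
   = q ∑ x ∈ Y 𝔼 s' ind (α s' x ∉ Y_κ) `, and `α s' x ∉ Y_κ ↔ K (α s' x) ≠ K x` for `x ∈ Y_κ`; total
   `≤ q ∑ x 𝔼 s' ind (K (α s' x) ≠ K x)`.
3. `∑ j ∑ k ∑ x ∈ Y 𝔼 s 𝔼 t ind (..) ≤ ∑ c ∑ c' (same) = q^2 ∑ x ∈ Y cmX (ptA A) x`; total
   `≤ q^2 ∑ x cmX (ptA A) x`.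
4. `∑ j ∑ x ∈ Y 𝔼 u cnL A (inr u) (c j) x ≤ ∑ t ∑ x ∈ Y 𝔼 u cnL A (inr u) t x
   = q ∑ x ∈ Y 𝔼 t 𝔼 u cnL A (inr u) t x ≤ q ∑ x ∈ Y cnX A x`, since
   `cnX A x = (q/|S.U × F|) ∑ l 𝔼 t cnL A l t x ≥ (1/|S.U|) ∑ u 𝔼 t cnL A (inr u) t x`; total
   `≤ q ∑ x cnX A x`.
5. `∑ x ∈ Y 𝔼 t 𝔼 u cnL A (inr u) t x ≤ ∑ x ∈ Y cnX A x`; total `≤ ∑ x cnX A x`.
-/

set_option linter.unusedSectionVars false

namespace Pool.Agent.Lib_MP_3a79a1_b

open Finset
open scoped BigOperators

variable {F : Type} [Field F] [Fintype F] [DecidableEq F] {d : ℕ}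

variable {X : Type} [Fintype X]

/-! ### auxiliary lemmas -/

private theorem sum_inj_le_stepc {ι κ : Type} [Fintype ι] [Fintype κ] (c : ι → κ)
    (hc : Function.Injective c) (g : κ → ℝ) (hg : ∀ k, 0 ≤ g k) : ∑ j, g (c j) ≤ ∑ k, g k := by
  classical
  calc ∑ j, g (c j) = ∑ k ∈ Finset.univ.map ⟨c, hc⟩, g k := by rw [Finset.sum_map]; rfl
    _ ≤ ∑ k, g k := Finset.sum_le_sum_of_subset_of_nonneg (Finset.subset_univ _) fun k _ _ => hg k

private theorem expect_next_stepc {S : Sys F d} (f : (next S).U × F → ℝ) :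
    𝔼 s : (next S).U × F, f s = 𝔼 c : F, 𝔼 s : S.U × F, f ((s.1, c), s.2) := by
  let e : F × (S.U × F) ≃ (next S).U × F :=
    { toFun := fun p => ((p.2.1, p.1), p.2.2)
      invFun := fun s => (s.1.2, (s.1.1, s.2))
      left_inv := fun _ => rfl
      right_inv := fun _ => rfl }
  rw [← Finset.expect_product' Finset.univ Finset.univ
    (fun (c : F) (s : S.U × F) => f ((s.1, c), s.2)), Finset.univ_product_univ]
  exact (Fintype.expect_equiv e _ _ fun _ => rfl).symm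

/-- the sum over all `c` of an average over the slice `c` -/
private theorem sum_slice_stepc {S : Sys F d} (f : (next S).U × F → ℝ) :
    ∑ c : F, 𝔼 s : S.U × F, f ((s.1, c), s.2) = Fintype.card F * 𝔼 s : (next S).U × F, f s := by
  rw [expect_next_stepc, Fintype.card_mul_expect]

private theorem cnL_nonneg_stepc {S : Sys F d} (A : Gen S → Equiv.Perm X) (l : S.L) (t : F) (x : X) :
    0 ≤ cnL A l t x :=
  Finset.expect_nonneg fun _ _ => Finset.expect_nonneg fun _ _ => ind_nonneg _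

private theorem cnX_nonneg_stepc {S : Sys F d} (A : Gen S → Equiv.Perm X) (x : X) : 0 ≤ cnX A x :=
  mul_nonneg (div_nonneg (Nat.cast_nonneg _) (Nat.cast_nonneg _))
    (Finset.sum_nonneg fun _ _ => Finset.expect_nonneg fun _ _ => cnL_nonneg_stepc _ _ _ _)

private theorem cmX_nonneg_stepc {P : Type} [Fintype P] (α : P → Equiv.Perm X) (x : X) :
    0 ≤ cmX α x :=
  Finset.expect_nonneg fun _ _ => Finset.expect_nonneg fun _ _ => ind_nonneg _

/-- the new lines give at most the total consistency defect -/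
private theorem new_lines_stepc {S : Sys F d} (A : Gen (next S) → Equiv.Perm X) (x : X) :
    𝔼 t : F, 𝔼 u : S.U, cnL A (Sum.inr u) t x ≤ cnX A x := by
  have h1 : (Fintype.card F : ℝ) / Fintype.card (next S).U = 1 / Fintype.card S.U := by
    have h2 : Fintype.card (next S).U = Fintype.card S.U * Fintype.card F :=
      Fintype.card_prod S.U F
    rw [h2, Nat.cast_mul]
    have h3 : (Fintype.card F : ℝ) ≠ 0 := Nat.cast_ne_zero.2 Fintype.card_ne_zero
    have h4 : (Fintype.card S.U : ℝ) ≠ 0 := Nat.cast_ne_zero.2 Fintype.card_ne_zero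
    field_simp
  have h5 : ∑ u : S.U, 𝔼 t : F, cnL A (Sum.inr u) t x ≤ ∑ l : (next S).L, 𝔼 t : F, cnL A l t x := by
    have h6 : ∑ l : (next S).L, 𝔼 t : F, cnL A l t x =
        ∑ l : S.L × F, (𝔼 t : F, cnL A (Sum.inl l) t x) + ∑ u : S.U, 𝔼 t : F, cnL A (Sum.inr u) t x :=
      Fintype.sum_sum_type (fun l : (S.L × F) ⊕ S.U => 𝔼 t : F, cnL A l t x)
    rw [h6]
    have h7 : 0 ≤ ∑ l : S.L × F, (𝔼 t : F, cnL A (Sum.inl l) t x) :=
      Finset.sum_nonneg fun _ _ => Finset.expect_nonneg fun _ _ => cnL_nonneg_stepc _ _ _ _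
    linarith
  unfold cnX
  rw [h1, Finset.expect_comm]
  have h8 : 𝔼 u : S.U, 𝔼 t : F, cnL A (Sum.inr u) t x =
      1 / Fintype.card S.U * ∑ u : S.U, 𝔼 t : F, cnL A (Sum.inr u) t x := by
    rw [Finset.expect_eq_sum_div_card, Finset.card_univ]
    ring
  rw [h8]
  exact mul_le_mul_of_nonneg_left h5 (by positivity)

/-- the bound for one region `{x | K x = κ}` -/
private theorem one_region_stepc {S : Sys F d} (hm : Mix (hatS S)) (hm' : Mix (hatS (next S)))
    (A : Gen (next S) → Equiv.Perm X) {e1 : ℝ} (he0 : 0 < e1) (he1 : e1 ≤ 1 / 2000)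
    (κ : Finset F) (hκ : d + 1 ≤ κ.card) (Y : Finset X)
    (hYm : ∀ x, x ∈ Y ↔ Kx (fun c x => x ∈ GG (hatS S) (ptA (slice A c)) e1) x = κ) :
    ∑ x ∈ Y, ind (x ∉ GG (hatS (next S)) (ptA A) e1) ≤
      700 / e1 * ∑ x ∈ Y,
        (5 * (∑ c : F, ind (x ∈ GG (hatS S) (ptA (slice A c)) e1) *
            eX (hatS S) (ptA (slice A c)) e1 x) +
          (3 * (d + 1) + 5) * (Fintype.card F * 𝔼 s : (next S).U × F,
            ind (Kx (fun c x => x ∈ GG (hatS S) (ptA (slice A c)) e1) (ptA A s x) ≠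
              Kx (fun c x => x ∈ GG (hatS S) (ptA (slice A c)) e1) x)) +
          3 * ((Fintype.card F : ℝ) ^ 2 * cmX (ptA A) x) +
          (Fintype.card F + 1) * cnX A x) := by
  classical
  -- the nodes
  obtain ⟨c, hc, hcκ⟩ : ∃ c : Fin (d + 1) → F, Function.Injective c ∧ ∀ j, c j ∈ κ := by
    obtain ⟨κ', hκ', hcard⟩ := Finset.exists_subset_card_eq hκ
    let e := κ'.equivFinOfCardEq hcard
    exact ⟨fun j => (e.symm j : F), fun i j hij => e.symm.injective (Subtype.ext hij),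
      fun j => hκ' (e.symm j).2⟩
  have hG : ∀ x ∈ Y, ∀ j, x ∈ GG (hatS S) (ptA (slice A (c j))) e1 := by
    intro x hx j
    have h1 : c j ∈ Kx (fun c x => x ∈ GG (hatS S) (ptA (slice A c)) e1) x := by
      rw [(hYm x).1 hx]
      exact hcκ j
    exact (mem_Kx (G := fun c x => x ∈ GG (hatS S) (ptA (slice A c)) e1)).1 h1
  have h700 : 0 ≤ 700 / e1 := by positivity
  refine (region hm hm' A he0 he1 c hc Y hG).trans (mul_le_mul_of_nonneg_left ?_ h700)
  refine (reg_energy hm A e1 c hc Y hG).trans ?_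
  have hd : (0 : ℝ) ≤ 3 * (d + 1) + 5 := by positivity
  -- term 1
  have t1 : ∑ j, ∑ x ∈ Y, eX (hatS S) (ptA (slice A (c j))) e1 x ≤
      ∑ x ∈ Y, ∑ c : F, ind (x ∈ GG (hatS S) (ptA (slice A c)) e1) *
            eX (hatS S) (ptA (slice A c)) e1 x := by
    rw [Finset.sum_comm]
    refine Finset.sum_le_sum fun x hx => ?_
    have h1 : ∀ j, eX (hatS S) (ptA (slice A (c j))) e1 x =
        ind (x ∈ GG (hatS S) (ptA (slice A (c j))) e1) * eX (hatS S) (ptA (slice A (c j))) e1 x := by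
      intro j
      rw [ind_true (hG x hx j), one_mul]
    rw [Finset.sum_congr rfl fun j _ => h1 j]
    exact sum_inj_le_stepc c hc
      (fun c => ind (x ∈ GG (hatS S) (ptA (slice A c)) e1) * eX (hatS S) (ptA (slice A c)) e1 x)
      fun c => mul_nonneg (ind_nonneg _) (Finset.expect_nonneg fun _ _ => ind_nonneg _)
  -- term 2
  have t2 : ∑ j, ∑ x ∈ Y, 𝔼 s : S.U × F, ind (ptA (slice A (c j)) s x ∉ Y) ≤
      ∑ x ∈ Y, (Fintype.card F * 𝔼 s : (next S).U × F,
            ind (Kx (fun c x => x ∈ GG (hatS S) (ptA (slice A c)) e1) (ptA A s x) ≠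
              Kx (fun c x => x ∈ GG (hatS S) (ptA (slice A c)) e1) x)) := by
    rw [Finset.sum_comm]
    refine Finset.sum_le_sum fun x hx => ?_
    have h1 : ∀ y : X, ind (y ∉ Y) = ind (Kx (fun c x => x ∈ GG (hatS S) (ptA (slice A c)) e1) y ≠
        Kx (fun c x => x ∈ GG (hatS S) (ptA (slice A c)) e1) x) := by
      intro y
      refine ind_congr ?_
      rw [hYm y, (hYm x).1 hx]
    refine (sum_inj_le_stepc c hc (fun c => 𝔼 s : S.U × F, ind (ptA (slice A c) s x ∉ Y))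
      fun c => Finset.expect_nonneg fun _ _ => ind_nonneg _).trans ?_
    rw [← sum_slice_stepc]
    refine le_of_eq (Finset.sum_congr rfl fun c _ => Finset.expect_congr rfl fun s _ => ?_)
    rw [h1]
    rfl
  -- term 3
  have t3 : ∑ j, ∑ k, ∑ x ∈ Y, 𝔼 s : S.U × F, 𝔼 t : S.U × F,
        ind (ptA (slice A (c j)) t (ptA (slice A (c k)) s x) ≠
          ptA (slice A (c k)) s (ptA (slice A (c j)) t x)) ≤
      ∑ x ∈ Y, ((Fintype.card F : ℝ) ^ 2 * cmX (ptA A) x) := by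
    have h0 : ∑ j, ∑ k, ∑ x ∈ Y, 𝔼 s : S.U × F, 𝔼 t : S.U × F,
        ind (ptA (slice A (c j)) t (ptA (slice A (c k)) s x) ≠
          ptA (slice A (c k)) s (ptA (slice A (c j)) t x)) =
        ∑ x ∈ Y, ∑ j, ∑ k, 𝔼 s : S.U × F, 𝔼 t : S.U × F,
        ind (ptA (slice A (c j)) t (ptA (slice A (c k)) s x) ≠
          ptA (slice A (c k)) s (ptA (slice A (c j)) t x)) := by
      rw [Finset.sum_comm]
      rw [Finset.sum_congr rfl fun j _ => Finset.sum_comm]
      rw [Finset.sum_comm]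
      exact Finset.sum_congr rfl fun x _ => Finset.sum_comm
    rw [h0]
    refine Finset.sum_le_sum fun x hx => ?_
    have hnn : ∀ a b : F, 0 ≤ 𝔼 s : S.U × F, 𝔼 t : S.U × F,
        ind (ptA (slice A a) t (ptA (slice A b) s x) ≠ ptA (slice A b) s (ptA (slice A a) t x)) :=
      fun a b => Finset.expect_nonneg fun _ _ => Finset.expect_nonneg fun _ _ => ind_nonneg _
    have h1 : ∑ j, ∑ k, 𝔼 s : S.U × F, 𝔼 t : S.U × F,
        ind (ptA (slice A (c j)) t (ptA (slice A (c k)) s x) ≠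
          ptA (slice A (c k)) s (ptA (slice A (c j)) t x)) ≤
        ∑ a : F, ∑ b : F, 𝔼 s : S.U × F, 𝔼 t : S.U × F,
        ind (ptA (slice A a) t (ptA (slice A b) s x) ≠ ptA (slice A b) s (ptA (slice A a) t x)) := by
      refine (Finset.sum_le_sum fun j _ => sum_inj_le_stepc c hc (fun b => 𝔼 s : S.U × F,
        𝔼 t : S.U × F, ind (ptA (slice A (c j)) t (ptA (slice A b) s x) ≠
          ptA (slice A b) s (ptA (slice A (c j)) t x))) fun b => hnn (c j) b).trans ?_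
      exact sum_inj_le_stepc c hc (fun a => ∑ b : F, 𝔼 s : S.U × F, 𝔼 t : S.U × F,
        ind (ptA (slice A a) t (ptA (slice A b) s x) ≠ ptA (slice A b) s (ptA (slice A a) t x)))
        fun a => Finset.sum_nonneg fun b _ => hnn a b
    refine h1.trans (le_of_eq ?_)
    have h2 : cmX (ptA A) x = 𝔼 t : (next S).U × F, 𝔼 s : (next S).U × F,
        ind (ptA A t (ptA A s x) ≠ ptA A s (ptA A t x)) := rfl
    rw [h2, sq, mul_assoc, ← sum_slice_stepc, Finset.mul_sum]
    refine Finset.sum_congr rfl fun a _ => ?_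
    rw [Finset.mul_expect]
    rw [Finset.expect_congr rfl fun t _ => (sum_slice_stepc
      (fun s : (next S).U × F => ind (ptA A ((t.1, a), t.2) (ptA A s x) ≠
        ptA A s (ptA A ((t.1, a), t.2) x)))).symm]
    rw [Finset.expect_sum_comm]
    refine Finset.sum_congr rfl fun b _ => ?_
    rw [Finset.expect_comm]
    rfl
  -- terms 4 and 5
  have t5 : ∑ x ∈ Y, 𝔼 t : F, 𝔼 u : S.U, cnL A (Sum.inr u) t x ≤ ∑ x ∈ Y, cnX A x :=
    Finset.sum_le_sum fun x _ => new_lines_stepc A x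
  have t4 : ∑ j, ∑ x ∈ Y, 𝔼 u : S.U, cnL A (Sum.inr u) (c j) x ≤
      ∑ x ∈ Y, (Fintype.card F * cnX A x) := by
    rw [Finset.sum_comm]
    refine Finset.sum_le_sum fun x _ => ?_
    refine (sum_inj_le_stepc c hc (fun t => 𝔼 u : S.U, cnL A (Sum.inr u) t x)
      fun t => Finset.expect_nonneg fun _ _ => cnL_nonneg_stepc _ _ _ _).trans ?_
    rw [← Fintype.card_mul_expect]
    exact mul_le_mul_of_nonneg_left (new_lines_stepc A x) (Nat.cast_nonneg _)
  have hfin : ∑ x ∈ Y,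
        (5 * (∑ c : F, ind (x ∈ GG (hatS S) (ptA (slice A c)) e1) *
            eX (hatS S) (ptA (slice A c)) e1 x) +
          (3 * (d + 1) + 5) * (Fintype.card F * 𝔼 s : (next S).U × F,
            ind (Kx (fun c x => x ∈ GG (hatS S) (ptA (slice A c)) e1) (ptA A s x) ≠
              Kx (fun c x => x ∈ GG (hatS S) (ptA (slice A c)) e1) x)) +
          3 * ((Fintype.card F : ℝ) ^ 2 * cmX (ptA A) x) +
          (Fintype.card F + 1) * cnX A x) =
      5 * (∑ x ∈ Y, ∑ c : F, ind (x ∈ GG (hatS S) (ptA (slice A c)) e1) *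
            eX (hatS S) (ptA (slice A c)) e1 x) +
        (3 * (d + 1) + 5) * (∑ x ∈ Y, (Fintype.card F * 𝔼 s : (next S).U × F,
            ind (Kx (fun c x => x ∈ GG (hatS S) (ptA (slice A c)) e1) (ptA A s x) ≠
              Kx (fun c x => x ∈ GG (hatS S) (ptA (slice A c)) e1) x))) +
        3 * (∑ x ∈ Y, ((Fintype.card F : ℝ) ^ 2 * cmX (ptA A) x)) +
        (∑ x ∈ Y, (Fintype.card F * cnX A x) + ∑ x ∈ Y, cnX A x) := by
    rw [Finset.mul_sum, Finset.mul_sum, Finset.mul_sum, ← Finset.sum_add_distrib,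
      ← Finset.sum_add_distrib, ← Finset.sum_add_distrib, ← Finset.sum_add_distrib]
    exact Finset.sum_congr rfl fun x _ => by ring
  rw [hfin]
  have u2 := mul_le_mul_of_nonneg_left t2 hd
  linarith

theorem high_mult {S : Sys F d} (hm : Mix (hatS S)) (hm' : Mix (hatS (next S)))
    (A : Gen (next S) → Equiv.Perm X) {e1 : ℝ} (he0 : 0 < e1) (he1 : e1 ≤ 1 / 2000) :
    ∑ x, ind (d + 1 ≤ (Kx (fun c x => x ∈ GG (hatS S) (ptA (slice A c)) e1) x).card ∧
        x ∉ GG (hatS (next S)) (ptA A) e1) ≤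
      700 / e1 * (5 * ∑ c : F, Etot (hatS S) (ptA (slice A c)) e1 +
        (3 * (d + 1) + 5) * (Fintype.card F * ∑ x, 𝔼 s : (next S).U × F,
          ind (Kx (fun c x => x ∈ GG (hatS S) (ptA (slice A c)) e1) (ptA A s x) ≠
            Kx (fun c x => x ∈ GG (hatS S) (ptA (slice A c)) e1) x)) +
        3 * ((Fintype.card F : ℝ) ^ 2 * ∑ x, cmX (ptA A) x) +
        (Fintype.card F + 1) * ∑ x, cnX A x) := by
  classical
  set K : X → Finset F := fun x => Kx (fun c x => x ∈ GG (hatS S) (ptA (slice A c)) e1) x with hK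
  have h700 : 0 ≤ 700 / e1 := by positivity
  have hd : (0 : ℝ) ≤ 3 * (d + 1) + 5 := by positivity
  let B : X → ℝ := fun x => 5 * (∑ c : F, ind (x ∈ GG (hatS S) (ptA (slice A c)) e1) *
            eX (hatS S) (ptA (slice A c)) e1 x) +
          (3 * (d + 1) + 5) * (Fintype.card F * 𝔼 s : (next S).U × F,
            ind (Kx (fun c x => x ∈ GG (hatS S) (ptA (slice A c)) e1) (ptA A s x) ≠
              Kx (fun c x => x ∈ GG (hatS S) (ptA (slice A c)) e1) x)) +
          3 * ((Fintype.card F : ℝ) ^ 2 * cmX (ptA A) x) +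
          (Fintype.card F + 1) * cnX A x
  have hB : ∀ x, 0 ≤ B x := by
    intro x
    have b1 : 0 ≤ ∑ c : F, ind (x ∈ GG (hatS S) (ptA (slice A c)) e1) *
            eX (hatS S) (ptA (slice A c)) e1 x :=
      Finset.sum_nonneg fun c _ => mul_nonneg (ind_nonneg _)
        (Finset.expect_nonneg fun _ _ => ind_nonneg _)
    have b2 : 0 ≤ 𝔼 s : (next S).U × F,
            ind (Kx (fun c x => x ∈ GG (hatS S) (ptA (slice A c)) e1) (ptA A s x) ≠
              Kx (fun c x => x ∈ GG (hatS S) (ptA (slice A c)) e1) x) :=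
      Finset.expect_nonneg fun _ _ => ind_nonneg _
    have b3 := cmX_nonneg_stepc (ptA A) x
    have b4 := cnX_nonneg_stepc A x
    show 0 ≤ 5 * _ + (3 * ((d : ℝ) + 1) + 5) * (Fintype.card F * _) +
      3 * ((Fintype.card F : ℝ) ^ 2 * _) + (Fintype.card F + 1) * _
    positivity
  have hfib : ∀ f : X → ℝ, ∑ x, f x = ∑ κ : Finset F, ∑ x ∈ Finset.univ.filter (fun x => K x = κ), f x :=
    fun f => (Finset.sum_fiberwise _ _ _).symm
  have hmain : ∑ x, ind (d + 1 ≤ (K x).card ∧ x ∉ GG (hatS (next S)) (ptA A) e1) ≤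
      700 / e1 * ∑ x, B x := by
    rw [hfib, hfib B, Finset.mul_sum]
    refine Finset.sum_le_sum fun κ _ => ?_
    by_cases hκ : d + 1 ≤ κ.card
    · have h1 := one_region_stepc hm hm' A he0 he1 κ hκ (Finset.univ.filter (fun x => K x = κ))
        (fun x => by simp [hK])
      refine le_trans (Finset.sum_le_sum fun x _ => ind_mono fun h => h.2) h1
    · have h1 : ∑ x ∈ Finset.univ.filter (fun x => K x = κ),
          ind (d + 1 ≤ (K x).card ∧ x ∉ GG (hatS (next S)) (ptA A) e1) = 0 := by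
        refine Finset.sum_eq_zero fun x hx => ind_false fun h => hκ ?_
        rw [Finset.mem_filter] at hx
        rw [← hx.2]
        exact h.1
      rw [h1]
      exact mul_nonneg h700 (Finset.sum_nonneg fun x _ => hB x)
  refine hmain.trans (mul_le_mul_of_nonneg_left ?_ h700)
  have hEt : ∑ x, ∑ c : F, ind (x ∈ GG (hatS S) (ptA (slice A c)) e1) *
            eX (hatS S) (ptA (slice A c)) e1 x ≤ ∑ c : F, Etot (hatS S) (ptA (slice A c)) e1 := by
    rw [Finset.sum_comm]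
    refine Finset.sum_le_sum fun c _ => ?_
    rw [Etot_eq]
    have h1 : 0 ≤ ∑ y ∈ excF (hatS S) (ptA (slice A c)) e1, ind (y 0 = none) :=
      Finset.sum_nonneg fun _ _ => ind_nonneg _
    linarith
  have hsum : ∑ x, B x = 5 * (∑ x, ∑ c : F, ind (x ∈ GG (hatS S) (ptA (slice A c)) e1) *
            eX (hatS S) (ptA (slice A c)) e1 x) +
        (3 * (d + 1) + 5) * (Fintype.card F * ∑ x, 𝔼 s : (next S).U × F,
          ind (Kx (fun c x => x ∈ GG (hatS S) (ptA (slice A c)) e1) (ptA A s x) ≠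
            Kx (fun c x => x ∈ GG (hatS S) (ptA (slice A c)) e1) x)) +
        3 * ((Fintype.card F : ℝ) ^ 2 * ∑ x, cmX (ptA A) x) +
        (Fintype.card F + 1) * ∑ x, cnX A x := by
    simp only [Finset.mul_sum, ← Finset.sum_add_distrib]
    refine Finset.sum_congr rfl fun x _ => ?_
    simp only [B, Finset.mul_sum]
  rw [hsum]
  linarith

end Pool.Agent.Lib_MP_3a79a1_b
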