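import Pool.Agent.Lib_MP_3a79a1_b.StepB
import Pool.Agent.Lib_MP_3a79a1_b.StepC
import Pool.Agent.Lib_MP_3a79a1_b.EtotB
import Pool.Agent.Lib_MP_3a79a1_b.GoodAll

/-!
# [RM-ST] The step

`e1 = 1/(1000 (d+1))`, `K = 700/e1 = 700000 (d+1)`, `P = 500 (m+1) (d+1)`, `q = |F|`, `own' = own A`,
`Eown = 𝔼 c own (slice A c)`, so `∑ c own (slice A c) = q Eown`.  `Mix (hatS S)` and
`Mix (hatS (next S))` by `mix_sys` (`m d/q ≤ (m+1) d / q ≤ 1/10000`).
`x ∉ GG'` implies `|K x| ≤ d` or (`|K x| ≥ d+1` and `x ∉ GG'`): `low_mult` (`d < q` since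
`(m+1) d / q ≤ 1/10000`, `d ≥ 1`) and `high_mult`.
`∑ c Etot_c ≤ P q Eown` (`Etot_le`), `∑ x cmX ≤ own'`, `∑ x cnX ≤ own'` (all parts of `ownX` are
`≥ 0`), `bdry_sum`: total boundary `≤ 2 K (P q Eown + q own')`.  So the second part is
`≤ K (5 P q Eown + (3(d+1)+5) q 2K (P q Eown + q own') + 3 q^2 own' + (q+1) own')`.
With `3(d+1)+5 ≤ 6 (d+1)`, `q ≥ 10000`, `P ≥ 1`, `K ≥ 1400000`:
`≤ K^2 q^2 (d+1) (12 + 1) P (own' + Eown)`.
-/

set_option linter.unusedSectionVars false

namespace Pool.Agent.Lib_MP_3a79a1_b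

open Finset
open scoped BigOperators

variable {F : Type} [Field F] [Fintype F] [DecidableEq F] {d : ℕ}

variable {X : Type} [Fintype X]

/-- the number of points outside the excellent part -/
noncomputable def nG {V P X : Type} [AddCommGroup V] [Fintype V] [Fintype P] [Fintype X]
    (hat : P → V) (α : P → Equiv.Perm X) (e1 : ℝ) : ℝ := ∑ x, ind (x ∉ GG hat α e1)

theorem own_nonneg {S : Sys F d} (A : Gen S → Equiv.Perm X) : 0 ≤ own A :=
  Finset.sum_nonneg fun x _ => ownX_nonneg A x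

private lemma cmX_nonneg_step {P : Type} [Fintype P] (α : P → Equiv.Perm X) (x : X) :
    0 ≤ cmX α x :=
  Finset.expect_nonneg fun _ _ => Finset.expect_nonneg fun _ _ => ind_nonneg _

private lemma ivX_nonneg_step {P : Type} [Fintype P] (α : P → Equiv.Perm X) (x : X) :
    0 ≤ ivX α x :=
  Finset.expect_nonneg fun _ _ => ind_nonneg _

private lemma tbX_nonneg_step {S : Sys F d} (A : Gen S → Equiv.Perm X) (x : X) : 0 ≤ tbX A x :=
  Finset.expect_nonneg fun _ _ => Finset.expect_nonneg fun _ _ =>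
    Finset.expect_nonneg fun _ _ => ind_nonneg _

private lemma cnX_nonneg_step {S : Sys F d} (A : Gen S → Equiv.Perm X) (x : X) : 0 ≤ cnX A x := by
  unfold cnX
  refine mul_nonneg (by positivity) (Finset.sum_nonneg fun _ _ => ?_)
  exact Finset.expect_nonneg fun _ _ => Finset.expect_nonneg fun _ _ =>
    Finset.expect_nonneg fun _ _ => ind_nonneg _

private lemma cm_le_step {S : Sys F d} (A : Gen S → Equiv.Perm X) :
    ∑ x, cmX (ptA A) x ≤ own A := by
  unfold own
  refine Finset.sum_le_sum fun x _ => ?_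
  unfold ownX
  linarith [ivX_nonneg_step (ptA A) x, tbX_nonneg_step A x, cnX_nonneg_step A x]

private lemma cn_le_step {S : Sys F d} (A : Gen S → Equiv.Perm X) :
    ∑ x, cnX A x ≤ own A := by
  unfold own
  refine Finset.sum_le_sum fun x _ => ?_
  unfold ownX
  linarith [ivX_nonneg_step (ptA A) x, tbX_nonneg_step A x, cmX_nonneg_step (ptA A) x]

private lemma arith_step {K P D q T B E o cm cn : ℝ} (hK : 1400000 ≤ K) (hP : 1 ≤ P) (hD : 2 ≤ D)
    (hq : 10000 ≤ q) (hE : 0 ≤ E) (ho : 0 ≤ o) (hT : T ≤ P * (q * E)) (hcm : cm ≤ o)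
    (hcn : cn ≤ o) (hB : B ≤ 2 * K * (T + q * cm)) :
    K * (5 * T + (3 * D + 5) * (q * B) + 3 * (q ^ 2 * cm) + (q + 1) * cn) ≤
      13 * D * q ^ 2 * K ^ 2 * P * (o + E) := by
  have hK0 : 0 < K := by linarith
  have hq0 : 0 < q := by linarith
  have hP0 : 0 < P := by linarith
  have hD0 : 0 < D := by linarith
  have hB1 : B ≤ 2 * K * (P * (q * E) + q * o) := by
    refine hB.trans (mul_le_mul_of_nonneg_left ?_ (by positivity))
    have := mul_le_mul_of_nonneg_left hcm hq0.le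
    linarith
  have hB2 : B ≤ 2 * K * q * P * (E + o) := by
    refine hB1.trans ?_
    have h1 : q * o ≤ q * P * o := by
      have := mul_le_mul_of_nonneg_left (mul_le_mul_of_nonneg_right hP ho) hq0.le
      nlinarith
    have h2 : P * (q * E) + q * o ≤ q * P * (E + o) := by nlinarith
    have := mul_le_mul_of_nonneg_left h2 (by positivity : 0 ≤ 2 * K)
    nlinarith
  have t2 : (3 * D + 5) * (q * B) ≤ 12 * (D * K * q ^ 2 * P * (E + o)) := by
    have h1 : q * B ≤ q * (2 * K * q * P * (E + o)) := mul_le_mul_of_nonneg_left hB2 hq0.le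
    have h2 : (3 * D + 5) * (q * B) ≤ (3 * D + 5) * (q * (2 * K * q * P * (E + o))) :=
      mul_le_mul_of_nonneg_left h1 (by positivity)
    have h3 : (3 * D + 5) * (q * (2 * K * q * P * (E + o))) ≤
        (6 * D) * (q * (2 * K * q * P * (E + o))) :=
      mul_le_mul_of_nonneg_right (by linarith) (by positivity)
    calc _ ≤ _ := h2
      _ ≤ _ := h3
      _ = _ := by ring
  have t1 : 5 * T ≤ D * K * q ^ 2 * P * E := by
    have h1 : 5 * T ≤ 5 * (P * (q * E)) := by linarith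
    have h2 : (5 : ℝ) ≤ D * K * q := by
      have : (2 : ℝ) * 1400000 * 10000 ≤ D * K * q := by gcongr
      linarith
    have h3 : 5 * (P * (q * E)) ≤ (D * K * q) * (P * (q * E)) :=
      mul_le_mul_of_nonneg_right h2 (by positivity)
    calc _ ≤ _ := h1
      _ ≤ _ := h3
      _ = _ := by ring
  have t3 : 3 * (q ^ 2 * cm) + (q + 1) * cn ≤ D * K * q ^ 2 * P * o := by
    have h1 : 3 * (q ^ 2 * cm) ≤ 3 * (q ^ 2 * o) := by
      have := mul_le_mul_of_nonneg_left hcm (by positivity : 0 ≤ q ^ 2)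
      linarith
    have h2 : (q + 1) * cn ≤ (q + 1) * o := mul_le_mul_of_nonneg_left hcn (by positivity)
    have h3 : (q + 1) * o ≤ q ^ 2 * o := mul_le_mul_of_nonneg_right (by nlinarith) ho
    have h4 : (4 : ℝ) ≤ D * K * P := by
      have : (2 : ℝ) * 1400000 * 1 ≤ D * K * P := by gcongr
      linarith
    have h5 : 4 * (q ^ 2 * o) ≤ (D * K * P) * (q ^ 2 * o) :=
      mul_le_mul_of_nonneg_right h4 (by positivity)
    nlinarith
  have t : 5 * T + (3 * D + 5) * (q * B) + 3 * (q ^ 2 * cm) + (q + 1) * cn ≤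
      13 * (D * K * q ^ 2 * P * (E + o)) := by nlinarith
  calc _ ≤ K * (13 * (D * K * q ^ 2 * P * (E + o))) := mul_le_mul_of_nonneg_left t hK0.le
    _ = _ := by ring

theorem step {S : Sys F d} {m : ℕ} (hS : Good S m) (hd : 1 ≤ d)
    (hq : ((m + 1 : ℕ) : ℝ) * d / Fintype.card F ≤ 1 / 10000)
    (A : Gen (next S) → Equiv.Perm X) :
    nG (hatS (next S)) (ptA A) (1 / (1000 * (d + 1))) ≤
      (1 - (d : ℝ) / Fintype.card F)⁻¹ *
        𝔼 c : F, nG (hatS S) (ptA (slice A c)) (1 / (1000 * (d + 1))) +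
      13 * (d + 1) * (Fintype.card F : ℝ) ^ 2 * (700000 * (d + 1)) ^ 2 *
        (500 * (m + 1) * (d + 1)) * (own A + 𝔼 c : F, own (slice A c)) := by
  have hq0 : (0 : ℝ) < Fintype.card F := by exact_mod_cast Fintype.card_pos
  have hdR : (1 : ℝ) ≤ d := by exact_mod_cast hd
  have hm0 : (0 : ℝ) ≤ m := Nat.cast_nonneg m
  have hq1 : 10000 * (((m : ℝ) + 1) * d) ≤ Fintype.card F := by
    have h := hq
    rw [div_le_iff₀ hq0] at h
    push_cast at h
    linarith
  have hdm : (d : ℝ) ≤ ((m : ℝ) + 1) * d := by nlinarith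
  have hdq : (d : ℝ) < Fintype.card F := by linarith
  have hdq' : d < Fintype.card F := by exact_mod_cast hdq
  have hmq : (m : ℝ) * d / Fintype.card F ≤ 1 / 10000 := by
    refine le_trans ?_ hq
    apply div_le_div_of_nonneg_right _ hq0.le
    push_cast
    nlinarith
  have hmix : Mix (hatS S) := mix_sys hS hmq
  have hmix' : Mix (hatS (next S)) := mix_sys (good_next hS) hq
  have hD : (2 : ℝ) ≤ (d : ℝ) + 1 := by linarith
  obtain ⟨e1, he⟩ : ∃ e1 : ℝ, e1 = 1 / (1000 * ((d : ℝ) + 1)) := ⟨_, rfl⟩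
  have he0 : 0 < e1 := by rw [he]; positivity
  have he1 : e1 ≤ 1 / 2000 := by
    rw [he]
    exact one_div_le_one_div_of_le (by norm_num) (by linarith)
  have hK : 700 / e1 = 700000 * ((d : ℝ) + 1) := by
    rw [he]
    field_simp
    ring
  have hlow := low_mult (fun c x => x ∈ GG (hatS S) (ptA (slice A c)) e1) d hdq'
  have hhigh := high_mult hmix hmix' A he0 he1
  have hb := bdry_sum hmix A he0 he1
  have hEt : ∑ c : F, Etot (hatS S) (ptA (slice A c)) e1 ≤
      (500 * (m + 1) * (d + 1)) * (Fintype.card F * 𝔼 c : F, own (slice A c)) := by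
    have h1 : (Fintype.card F : ℝ) * 𝔼 c : F, own (slice A c) = ∑ c : F, own (slice A c) := by
      rw [Fintype.card_mul_expect]
    rw [h1, Finset.mul_sum]
    refine Finset.sum_le_sum fun c _ => ?_
    rw [he]
    exact Etot_le hS hd hmq (slice A c)
  have hsplit : nG (hatS (next S)) (ptA A) e1 ≤
      ∑ x, ind ((Kx (fun c x => x ∈ GG (hatS S) (ptA (slice A c)) e1) x).card ≤ d) +
      ∑ x, ind (d + 1 ≤ (Kx (fun c x => x ∈ GG (hatS S) (ptA (slice A c)) e1) x).card ∧
        x ∉ GG (hatS (next S)) (ptA A) e1) := by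
    unfold nG
    rw [← Finset.sum_add_distrib]
    refine Finset.sum_le_sum fun x _ => ind_le_add fun hx => ?_
    rcases Nat.lt_or_ge d (Kx (fun c x => x ∈ GG (hatS S) (ptA (slice A c)) e1) x).card with h | h
    · exact Or.inr ⟨h, hx⟩
    · exact Or.inl h
  have har := arith_step (K := 700 / e1) (P := 500 * ((m : ℝ) + 1) * ((d : ℝ) + 1))
    (D := (d : ℝ) + 1) (q := (Fintype.card F : ℝ))
    (E := 𝔼 c : F, own (slice A c)) (o := own A) (by rw [hK]; linarith) (by nlinarith) hD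
    (by nlinarith) (Finset.expect_nonneg fun c _ => own_nonneg _) (own_nonneg A) hEt
    (cm_le_step A) (cn_le_step A) hb
  rw [← he]
  refine hsplit.trans (add_le_add hlow (hhigh.trans (har.trans (le_of_eq ?_))))
  rw [hK]

end Pool.Agent.Lib_MP_3a79a1_b
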