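import Pool.Agent.Lib_MP_3a79a1_b.Orbit
import Pool.Agent.Lib_MP_3a79a1_b.Step

/-!
# [RM-FA] The nearby action

`Z = excF ⊕ {x // x ∉ GG}` (as a finite type).  `|Z| = #excF + n - #GG = n + #{y ∈ excF | y 0 = none}`
(`card_excF`), so `N := |Z| ≥ n` and `N - n = ∑ y ∈ excF ind (y 0 = none)`.
`emb : Fin n → Z`, `x ∈ GG ↦ secAt x`, `x ∉ GG ↦ x`, is injective (`secAt x 0 = some x`).
Choose a bijection `Z ≃ Fin N` with `emb x ↦ Fin.castLE hN x` (both `emb` and `castLE` are injections
into sets with `N` elements, so the complements have the same size; e.g.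
`Equiv.extendSubtype`/`Fintype.card` argument).
`V` acts on `Z`: `g • y = tr g y`, `g • x = x` (`tr_add`, `Exc_tr`, `tr_zero`); transport to `Fin N`:
`ρ (g + h) = ρ g * ρ h`.
For `x ∈ GG` with `OK (secAt x) 0 s`: `tr (hat s) (secAt x)` is excellent with value `α s x` at `0`,
so it is `secAt (α s x)`, `α s x ∈ GG`, i.e. `ρ (hat s) (emb x) = emb (α s x)`.  Hence
`∑ x ind (ρ (hat s) (castLE x) ≠ castLE (α s x)) ≤ ∑ x ind (x ∉ GG) + ∑ x ind (x ∈ GG) ind (¬ OK (secAt x) 0 s)`,
average over `s`: `≤ nG + ∑ x ind (x ∈ GG) eX x`; add `N - n` and use `Etot_eq`.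
-/

set_option linter.unusedSectionVars false

namespace Pool.Agent.Lib_MP_3a79a1_b

open Finset
open scoped BigOperators

/-- two injections of `Fin n` into sets with `N` elements agree up to a bijection -/
private theorem exists_equiv_fina {n : ℕ} {Z : Type} [Fintype Z] (emb : Fin n → Z)
    (hemb : Function.Injective emb) (hN : n ≤ Fintype.card Z) :
    ∃ e : Z ≃ Fin (Fintype.card Z), ∀ x, e (emb x) = Fin.castLE hN x := by
  classical
  let e0 : Z ≃ Fin (Fintype.card Z) := Fintype.equivFin Z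
  let f1 : Fin n → Fin (Fintype.card Z) := fun x => e0 (emb x)
  have h1 : Function.Injective f1 := e0.injective.comp hemb
  let f2 : Fin n → Fin (Fintype.card Z) := Fin.castLE hN
  have h2 : Function.Injective f2 := Fin.castLE_injective hN
  let g : {z // z ∈ Set.range f1} ≃ {z // z ∈ Set.range f2} :=
    (Equiv.ofInjective f1 h1).symm.trans (Equiv.ofInjective f2 h2)
  refine ⟨e0.trans g.extendSubtype, fun x => ?_⟩
  have h3 : g.extendSubtype (f1 x) = g ⟨f1 x, x, rfl⟩ := g.extendSubtype_apply_of_mem (f1 x) ⟨x, rfl⟩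
  show g.extendSubtype (f1 x) = Fin.castLE hN x
  rw [h3]
  show ((Equiv.ofInjective f2 h2) ((Equiv.ofInjective f1 h1).symm ⟨f1 x, x, rfl⟩) : Fin (Fintype.card Z)) = _
  have h4 : (Equiv.ofInjective f1 h1).symm ⟨f1 x, x, rfl⟩ = x := by
    rw [Equiv.symm_apply_eq]
    rfl
  rw [h4]
  rfl

theorem fin_action (e1 : ℝ) {n : ℕ} {V P : Type} [AddCommGroup V] [Fintype V] [Fintype P]
    [Nonempty P] (hat : P → V) (α : P → Equiv.Perm (Fin n)) :
    ∃ (N : ℕ) (hN : n ≤ N) (ρ : V → Equiv.Perm (Fin N)), (∀ g h, ρ (g + h) = ρ g * ρ h) ∧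
      ((N : ℝ) - n) + 𝔼 s, ∑ x : Fin n, ind (ρ (hat s) (Fin.castLE hN x) ≠ Fin.castLE hN (α s x)) ≤
        nG hat α e1 + Etot hat α e1 := by
  classical
  let Z : Type := {y // y ∈ excF hat α e1} ⊕ {x : Fin n // x ∉ GG hat α e1}
  let emb : Fin n → Z := fun x =>
    if h : x ∈ GG hat α e1 then Sum.inl ⟨secAt hat α e1 x, mem_excF.2 (secAt_spec h).1⟩
    else Sum.inr ⟨x, h⟩
  have embT : ∀ x (h : x ∈ GG hat α e1),
      emb x = Sum.inl ⟨secAt hat α e1 x, mem_excF.2 (secAt_spec h).1⟩ := fun x h => dif_pos h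
  have embF : ∀ x (h : x ∉ GG hat α e1), emb x = Sum.inr ⟨x, h⟩ := fun x h => dif_neg h
  have hemb : Function.Injective emb := by
    intro x x' hxx
    by_cases h : x ∈ GG hat α e1
    · by_cases h' : x' ∈ GG hat α e1
      · rw [embT x h, embT x' h'] at hxx
        have h1 : secAt hat α e1 x = secAt hat α e1 x' := congrArg Subtype.val (Sum.inl.inj hxx)
        have h2 := (secAt_spec h).2
        rw [h1, (secAt_spec h').2] at h2
        exact (Option.some.inj h2).symm
      · rw [embT x h, embF x' h'] at hxx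
        exact absurd hxx (by simp)
    · by_cases h' : x' ∈ GG hat α e1
      · rw [embF x h, embT x' h'] at hxx
        exact absurd hxx (by simp)
      · rw [embF x h, embF x' h'] at hxx
        exact congrArg Subtype.val (Sum.inr.inj hxx)
  have hN : n ≤ Fintype.card Z := by
    have h := Fintype.card_le_of_injective emb hemb
    rwa [Fintype.card_fin] at h
  obtain ⟨e, he⟩ := exists_equiv_fina emb hemb hN
  have he' : ∀ x, e.symm (Fin.castLE hN x) = emb x := by
    intro x
    rw [← he x, e.symm_apply_apply]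
  -- the action on `Z`
  let actE : V → Equiv.Perm {y // y ∈ excF hat α e1} := fun g =>
    { toFun := fun y => ⟨tr g y.1, mem_excF.2 ((Exc_tr e1 g y.1).2 (mem_excF.1 y.2))⟩
      invFun := fun y => ⟨tr (-g) y.1, mem_excF.2 ((Exc_tr e1 (-g) y.1).2 (mem_excF.1 y.2))⟩
      left_inv := fun y => Subtype.ext (by
        show tr (-g) (tr g y.1) = y.1
        rw [← tr_add, neg_add_cancel, tr_zero])
      right_inv := fun y => Subtype.ext (by
        show tr g (tr (-g) y.1) = y.1
        rw [← tr_add, add_neg_cancel, tr_zero]) }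
  let act : V → Equiv.Perm Z := fun g => Equiv.sumCongr (actE g) (Equiv.refl _)
  have hact : ∀ g h z, act (g + h) z = act g (act h z) := by
    intro g h z
    rcases z with y | x
    · show (Sum.inl (actE (g + h) y) : Z) = Sum.inl (actE g (actE h y))
      congr 1
      exact Subtype.ext (tr_add g h y.1)
    · rfl
  let ρ : V → Equiv.Perm (Fin (Fintype.card Z)) := fun g => e.symm.trans ((act g).trans e)
  have hρ : ∀ g z, ρ g z = e (act g (e.symm z)) := fun g z => rfl
  refine ⟨Fintype.card Z, hN, ρ, fun g h => ?_, ?_⟩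
  · ext z
    rw [Equiv.Perm.mul_apply, hρ, hρ, hρ, hact, e.symm_apply_apply]
  -- the good points
  have hgood : ∀ (s : P) (x : Fin n), x ∈ GG hat α e1 → OK hat α (secAt hat α e1 x) 0 s →
      ρ (hat s) (Fin.castLE hN x) = Fin.castLE hN (α s x) := by
    intro s x hx hok
    obtain ⟨x', h1, h2⟩ := hok
    have h3 := secAt_spec hx
    rw [h3.2] at h1
    have h4 : x' = x := (Option.some.inj h1).symm
    rw [h4] at h2
    have h5 : Exc hat α e1 (tr (hat s) (secAt hat α e1 x)) := (Exc_tr e1 _ _).2 h3.1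
    have h6 : tr (hat s) (secAt hat α e1 x) 0 = some (α s x) := h2
    have h7 : α s x ∈ GG hat α e1 := ⟨_, h5, h6⟩
    have h8 : secAt hat α e1 (α s x) = tr (hat s) (secAt hat α e1 x) := secAt_eq h5 h6
    rw [hρ, he', ← he (α s x), embT x hx, embT _ h7]
    congr 1
    show (Sum.inl (actE (hat s) ⟨secAt hat α e1 x, _⟩) : Z) = _
    congr 1
    exact Subtype.ext h8.symm
  have hpt : ∀ (s : P) (x : Fin n), ind (ρ (hat s) (Fin.castLE hN x) ≠ Fin.castLE hN (α s x)) ≤
      ind (x ∉ GG hat α e1) + ind (x ∈ GG hat α e1) * ind (¬ OK hat α (secAt hat α e1 x) 0 s) := by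
    intro s x
    by_cases hx : x ∈ GG hat α e1
    · rw [ind_true hx, one_mul]
      have h1 : ind (ρ (hat s) (Fin.castLE hN x) ≠ Fin.castLE hN (α s x)) ≤
          ind (¬ OK hat α (secAt hat α e1 x) 0 s) :=
        ind_mono fun h hok => h (hgood s x hx hok)
      linarith [ind_nonneg (x ∉ GG hat α e1)]
    · rw [ind_true hx, ind_false hx, zero_mul, add_zero]
      exact ind_le_one _
  have hsum : 𝔼 s, ∑ x : Fin n, ind (ρ (hat s) (Fin.castLE hN x) ≠ Fin.castLE hN (α s x)) ≤
      nG hat α e1 + ∑ x, ind (x ∈ GG hat α e1) * eX hat α e1 x := by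
    have h1 : 𝔼 s, ∑ x : Fin n, ind (ρ (hat s) (Fin.castLE hN x) ≠ Fin.castLE hN (α s x)) ≤
        𝔼 s, ∑ x : Fin n, (ind (x ∉ GG hat α e1) +
          ind (x ∈ GG hat α e1) * ind (¬ OK hat α (secAt hat α e1 x) 0 s)) :=
      Finset.expect_le_expect fun s _ => Finset.sum_le_sum fun x _ => hpt s x
    refine h1.trans (le_of_eq ?_)
    rw [Finset.expect_sum_comm]
    unfold nG
    rw [← Finset.sum_add_distrib]
    refine Finset.sum_congr rfl fun x _ => ?_
    rw [Finset.expect_add_distrib, Fintype.expect_const, ← Finset.mul_expect]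
    rfl
  have hcard : ((Fintype.card Z : ℕ) : ℝ) - n = ∑ y ∈ excF hat α e1, ind (y 0 = none) := by
    have h1 : Fintype.card Z = (excF hat α e1).card + Fintype.card {x : Fin n // x ∉ GG hat α e1} := by
      show Fintype.card ({y // y ∈ excF hat α e1} ⊕ {x : Fin n // x ∉ GG hat α e1}) = _
      rw [Fintype.card_sum, Fintype.card_coe]
    have h2 : ((Fintype.card {x : Fin n // x ∉ GG hat α e1} : ℕ) : ℝ) =
        ∑ x : Fin n, ind (x ∉ GG hat α e1) := by
      rw [Fintype.card_subtype, Finset.card_filter, Nat.cast_sum]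
      refine Finset.sum_congr rfl fun x _ => ?_
      by_cases hx : x ∈ GG hat α e1
      · rw [if_neg (not_not.2 hx), ind_false (not_not.2 hx), Nat.cast_zero]
      · rw [if_pos hx, ind_true hx, Nat.cast_one]
    have h3 : ∑ x : Fin n, ind (x ∉ GG hat α e1) + ∑ x : Fin n, ind (x ∈ GG hat α e1) = n := by
      rw [← Finset.sum_add_distrib]
      have h4 : ∀ x : Fin n, ind (x ∉ GG hat α e1) + ind (x ∈ GG hat α e1) = 1 := by
        intro x
        rw [ind_not]
        ring
      rw [Finset.sum_congr rfl fun x _ => h4 x]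
      simp
    rw [h1, Nat.cast_add, card_excF, h2]
    linarith
  rw [hcard, Etot_eq]
  linarith

end Pool.Agent.Lib_MP_3a79a1_b
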