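import Pool.Agent.Lib_MP_3a79a1_b.Chain
import Pool.Agent.Lib_MP_3a79a1_b.Alg

/-!
# [RM-FB] The line generators

`dP = 𝔼 s ∑ x ind (ρ (hatS S s) (castLE x) ≠ castLE (A (inl s) x))`, `c` injective nodes.
`γ = ∑ j b_j • evec (c j)` (`exists_coef`; `b ↦ γ` is a bijection `F^{d+1} → F^{d+1}`: `PhiE` for
`V = F`, `ten d (c j) (b j) = b j • evec F d (c j)`), `l` a line, `γ0` uniform.
`ζ j = A (inl (lpt l (c j), b_j))`.  `chain` with `n = d+1`, `Y = univ`,
`Λ j = A (inr (l, γ0 + partial sum of the first j terms b_i • evec (c i)))` gives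
`A (inr (l, γ0+γ)) x = A (inr (l, γ0)) (pz ζ x)` except for `≤ ∑ j #{cons (l; c j, b_j, γ0 + ..) fails}`
values of `x`; average over `γ0, b`: `∑ j ∑ x cnL A l (c j) x ≤ ∑ t ∑ x cnL A l t x`.
With the table relation `A (inr (l,γ0+γ)) x = A (inr (l,γ0)) (A (inr (l,γ)) x)` we get
`A (inr (l,γ)) x = pz ζ x`.
`ρ 0 = 1`, `ρ (∑ j g_j) = pz (fun j => ρ (g_j))`, `lin l γ = ∑ j hatS S (lpt l (c j), b_j)` (`lin_add`,
`lin_e`); by induction on the number of factors
`∑ x ind (pz (ρ ∘ g) (castLE x) ≠ castLE (pz ζ x)) ≤ ∑ j ∑ x ind (ρ g_j (castLE x) ≠ castLE (ζ j x))`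
(the map `x ↦` partial product is a bijection of `Fin n`).  Average over `b`:
`∑ j g (lpt l (c j)) ≤ ∑ t g (lpt l t)`, `g u = 𝔼 b ∑ x ind (ρ (hatS S (u,b)) .. ≠ ..)`.
Average over `l`: `Good.inc` with `g = 1`: `|L| q = m |U|`, `|L| > 0`.
`(1/|L|) ∑ l ∑ t g (lpt l t) = (m/|L|) ∑ u g u = q 𝔼 u g u = q dP`;
`(1/|L|) ∑ l ∑ t ∑ x cnL A l t x = (q/|L|) (|U|/q) ∑ x cnX A x = (q/m) ∑ x cnX A x ≤ q own A`.
-/

set_option linter.unusedSectionVars false

namespace Pool.Agent.Lib_MP_3a79a1_b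

open Finset
open scoped BigOperators

variable {F : Type} [Field F] [Fintype F] [DecidableEq F] {d : ℕ}

/-- defect of the line tables `l(ℓ,γ+γ') = l(ℓ,γ) l(ℓ,γ')` -/
noncomputable def t5 {S : Sys F d} {X : Type} [Fintype X] (A : Gen S → Equiv.Perm X) : ℝ :=
  𝔼 l : S.L, 𝔼 γ : Fin (d + 1) → F, 𝔼 γ' : Fin (d + 1) → F,
    ∑ x, ind (A (Sum.inr (l, γ + γ')) x ≠ A (Sum.inr (l, γ)) (A (Sum.inr (l, γ')) x))

/-- average over a product -/
private theorem avg_prod_finb {P Q : Type} [Fintype P] [Fintype Q] (f : P → Q → ℝ) :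
    𝔼 l : P × Q, f l.1 l.2 = 𝔼 p, 𝔼 q, f p q := by
  have h := Finset.expect_product' (Finset.univ : Finset P) (Finset.univ : Finset Q) f
  rw [Finset.univ_product_univ] at h
  exact h

private theorem avg_shift_finb {W : Type} [Fintype W] [AddCommGroup W] (h : W → ℝ) (w : W) :
    𝔼 v, h (v + w) = 𝔼 v, h v :=
  Fintype.expect_equiv (Equiv.addRight w) _ _ (fun _ => rfl)

private theorem avg_coord_finb {k : ℕ} (f : F → ℝ) (j : Fin k) :
    𝔼 b : Fin k → F, f (b j) = 𝔼 β, f β := by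
  have h1 : ∀ β : F, 𝔼 b : Fin k → F, f (b j + β) = 𝔼 b : Fin k → F, f (b j) := by
    intro β
    have h := avg_shift_finb (W := Fin k → F) (fun b => f (b j)) (Pi.single j β)
    simpa using h
  have h2 : 𝔼 β : F, 𝔼 b : Fin k → F, f (b j + β) = 𝔼 b : Fin k → F, f (b j) := by
    rw [Finset.expect_congr rfl (fun β _ => h1 β)]
    exact Fintype.expect_const _
  rw [← h2, Finset.expect_comm]
  have h3 : ∀ b : Fin k → F, 𝔼 β : F, f (b j + β) = 𝔼 β, f β := by
    intro b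
    rw [← avg_shift_finb f (b j)]
    exact Finset.expect_congr rfl fun β _ => by rw [add_comm]
  rw [Finset.expect_congr rfl (fun b _ => h3 b)]
  exact Fintype.expect_const _

private theorem sum_inj_finb {c : Fin (d + 1) → F} (hc : Function.Injective c) (h : F → ℝ)
    (h0 : ∀ t, 0 ≤ h t) : ∑ j, h (c j) ≤ ∑ t, h t := by
  have h1 : ∑ j, h (c j) = ∑ t ∈ Finset.univ.map ⟨c, hc⟩, h t := by
    rw [Finset.sum_map]
    rfl
  rw [h1]
  exact Finset.sum_le_sum_of_subset_of_nonneg (Finset.subset_univ _) (fun t _ _ => h0 t)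

/-- comparison of products of permutations -/
private theorem pz_cast_finb {n N : ℕ} (hN : n ≤ N) (k : ℕ) (R : Fin k → Equiv.Perm (Fin N))
    (ζ : Fin k → Equiv.Perm (Fin n)) :
    ∑ x, ind (pz R (Fin.castLE hN x) ≠ Fin.castLE hN (pz ζ x)) ≤
      ∑ j, ∑ x, ind (R j (Fin.castLE hN x) ≠ Fin.castLE hN (ζ j x)) := by
  induction k with
  | zero =>
    rw [pz_zero, pz_zero]
    simp only [Finset.univ_eq_empty, Finset.sum_empty]
    exact le_of_eq (Finset.sum_eq_zero fun x _ => ind_false (not_not.2 rfl))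
  | succ k ih =>
    have h1 := ih (fun j => R j.succ) (fun j => ζ j.succ)
    have h2 : ∑ x, ind (R 0 (Fin.castLE hN (pz (fun j => ζ j.succ) x)) ≠
        Fin.castLE hN (ζ 0 (pz (fun j => ζ j.succ) x))) =
        ∑ x, ind (R 0 (Fin.castLE hN x) ≠ Fin.castLE hN (ζ 0 x)) :=
      Equiv.sum_comp (pz fun j => ζ j.succ)
        (fun x => ind (R 0 (Fin.castLE hN x) ≠ Fin.castLE hN (ζ 0 x)))
    have h3 : ∑ j, ∑ x, ind (R j (Fin.castLE hN x) ≠ Fin.castLE hN (ζ j x)) =
        (∑ j : Fin k, ∑ x, ind (R j.succ (Fin.castLE hN x) ≠ Fin.castLE hN (ζ j.succ x))) +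
        ∑ x, ind (R 0 (Fin.castLE hN (pz (fun j => ζ j.succ) x)) ≠
        Fin.castLE hN (ζ 0 (pz (fun j => ζ j.succ) x))) := by
      rw [Fin.sum_univ_succ, h2]
      exact add_comm _ _
    rw [h3]
    refine le_trans ?_ (add_le_add h1 le_rfl)
    rw [← Finset.sum_add_distrib]
    refine Finset.sum_le_sum fun x _ => ind_le_add fun hn => ?_
    by_contra hcon
    rw [not_or, not_not, not_not] at hcon
    apply hn
    have e1 : pz R (Fin.castLE hN x) = R 0 (pz (fun j => R j.succ) (Fin.castLE hN x)) := by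
      rw [pz_succ]
      rfl
    have e2 : pz ζ x = ζ 0 (pz (fun j => ζ j.succ) x) := by
      rw [pz_succ]
      rfl
    rw [e1, e2, hcon.1, hcon.2]

private theorem rho_sum_finb {W : Type} [AddCommGroup W] {N : ℕ} (ρ : W → Equiv.Perm (Fin N))
    (hρ : ∀ g h, ρ (g + h) = ρ g * ρ h) (k : ℕ) (g : Fin k → W) :
    ρ (∑ j, g j) = pz (fun j => ρ (g j)) := by
  induction k with
  | zero =>
    rw [pz_zero, Finset.univ_eq_empty, Finset.sum_empty]
    have h := hρ 0 0
    rw [add_zero] at h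
    exact (mul_eq_left.1 h.symm)
  | succ k ih => rw [Fin.sum_univ_succ, hρ, ih, pz_succ]

/-- the defect of the consistency relation -/
private noncomputable def consD {S : Sys F d} {n : ℕ} (A : Gen S → Equiv.Perm (Fin n)) (l : S.L) (t β : F)
    (γ : Fin (d + 1) → F) : ℝ :=
  ∑ x, ind (A (Sum.inr (l, γ + β • evec F d t)) x ≠ A (Sum.inr (l, γ)) (A (Sum.inl (S.lpt l t, β)) x))

private noncomputable def tabD {S : Sys F d} {n : ℕ} (A : Gen S → Equiv.Perm (Fin n)) (l : S.L)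
    (γ γ' : Fin (d + 1) → F) : ℝ :=
  ∑ x, ind (A (Sum.inr (l, γ + γ')) x ≠ A (Sum.inr (l, γ)) (A (Sum.inr (l, γ')) x))

private noncomputable def ptD {S : Sys F d} {n N : ℕ} (hN : n ≤ N) (A : Gen S → Equiv.Perm (Fin n))
    (ρ : S.V → Equiv.Perm (Fin N)) (s : S.U × F) : ℝ :=
  ∑ x, ind (ρ (hatS S s) (Fin.castLE hN x) ≠ Fin.castLE hN (A (Sum.inl s) x))

private noncomputable def lnD {S : Sys F d} {n N : ℕ} (hN : n ≤ N) (A : Gen S → Equiv.Perm (Fin n))
    (ρ : S.V → Equiv.Perm (Fin N)) (l : S.L) (γ : Fin (d + 1) → F) : ℝ :=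
  ∑ x, ind (ρ (S.lin l γ) (Fin.castLE hN x) ≠ Fin.castLE hN (A (Sum.inr (l, γ)) x))

private theorem ptD_nonneg {S : Sys F d} {n N : ℕ} (hN : n ≤ N) (A : Gen S → Equiv.Perm (Fin n))
    (ρ : S.V → Equiv.Perm (Fin N)) (s : S.U × F) : 0 ≤ ptD hN A ρ s :=
  Finset.sum_nonneg fun _ _ => ind_nonneg _

private theorem lin_sum_finb {S : Sys F d} {m : ℕ} (hS : Good S m) (l : S.L) (c b : Fin (d + 1) → F) :
    S.lin l (∑ j, b j • evec F d (c j)) = ∑ j, hatS S (S.lpt l (c j), b j) := by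
  have h1 := map_sum (AddMonoidHom.mk' (S.lin l) (hS.lin_add l)) (fun j => b j • evec F d (c j)) Finset.univ
  refine h1.trans (Finset.sum_congr rfl fun j _ => ?_)
  exact hS.lin_e l (c j) (b j)

/-- the inequality for fixed parameters -/
private theorem point_finb {S : Sys F d} {m : ℕ} (hS : Good S m) {n N : ℕ} (hN : n ≤ N)
    (A : Gen S → Equiv.Perm (Fin n)) (ρ : S.V → Equiv.Perm (Fin N))
    (hρ : ∀ g h, ρ (g + h) = ρ g * ρ h) (c : Fin (d + 1) → F) (l : S.L) (b γ : Fin (d + 1) → F) :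
    lnD hN A ρ l (∑ j, b j • evec F d (c j)) ≤
      tabD A l γ (∑ j, b j • evec F d (c j)) +
      ∑ j, consD A l (c j) (b j) (γ + Fin.partialSum (fun i => b i • evec F d (c i)) j.castSucc) +
      ∑ j, ptD hN A ρ (S.lpt l (c j), b j) := by
  classical
  set f : Fin (d + 1) → (Fin (d + 1) → F) := fun i => b i • evec F d (c i) with hf
  set ζ : Fin (d + 1) → Equiv.Perm (Fin n) := fun j => A (Sum.inl (S.lpt l (c j), b j)) with hζ
  set Λ : Fin (d + 2) → Equiv.Perm (Fin n) := fun j => A (Sum.inr (l, γ + Fin.partialSum f j)) with hΛ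
  have hlast : Fin.partialSum f (Fin.last (d + 1)) = ∑ j, f j := by
    rw [Fin.partialSum]
    have h1 : (List.ofFn f).take (Fin.last (d + 1) : ℕ) = List.ofFn f := by
      apply List.take_of_length_le
      rw [List.length_ofFn]
      exact le_rfl
    rw [h1, List.sum_ofFn]
  have h1 := chain (d + 1) ζ Λ Finset.univ
  have h2 : ∑ j : Fin (d + 1), ∑ w ∈ (Finset.univ : Finset (Fin n)), ind (ζ j w ∉ (Finset.univ : Finset (Fin n))) = 0 :=
    Finset.sum_eq_zero fun j _ => Finset.sum_eq_zero fun w _ => ind_false (not_not.2 (Finset.mem_univ _))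
  have h3 : ∑ j : Fin (d + 1), ∑ w, ind (Λ j.succ w ≠ Λ j.castSucc (ζ j w)) =
      ∑ j, consD A l (c j) (b j) (γ + Fin.partialSum f j.castSucc) := by
    refine Finset.sum_congr rfl fun j _ => ?_
    unfold consD
    refine Finset.sum_congr rfl fun w _ => ?_
    simp only [hΛ, hζ]
    rw [Fin.partialSum_succ, ← add_assoc]
  rw [h2, add_zero, h3] at h1
  have h4 := pz_cast_finb hN (d + 1) (fun j => ρ (hatS S (S.lpt l (c j), b j))) ζ
  rw [← rho_sum_finb ρ hρ, ← lin_sum_finb hS l c b] at h4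
  have h5 : lnD hN A ρ l (∑ j, f j) ≤ tabD A l γ (∑ j, f j) +
      ∑ w, ind (¬ (pz ζ w ∈ (Finset.univ : Finset (Fin n)) ∧ Λ (Fin.last (d + 1)) w = Λ 0 (pz ζ w))) +
      ∑ x, ind (ρ (S.lin l (∑ j, f j)) (Fin.castLE hN x) ≠ Fin.castLE hN (pz ζ x)) := by
    unfold lnD tabD
    rw [← Finset.sum_add_distrib, ← Finset.sum_add_distrib]
    refine Finset.sum_le_sum fun x _ => ?_
    refine (ind_le_add (q := A (Sum.inr (l, γ + ∑ j, f j)) x ≠ A (Sum.inr (l, γ)) (A (Sum.inr (l, ∑ j, f j)) x) ∨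
        ¬ (pz ζ x ∈ (Finset.univ : Finset (Fin n)) ∧ Λ (Fin.last (d + 1)) x = Λ 0 (pz ζ x)))
      (r := ρ (S.lin l (∑ j, f j)) (Fin.castLE hN x) ≠ Fin.castLE hN (pz ζ x)) ?_).trans
      (add_le_add (ind_le_add fun h => h) le_rfl)
    intro hn
    by_contra hcon
    rw [not_or, not_or, not_not, not_not, not_not] at hcon
    obtain ⟨⟨c1, c2, c3⟩, c4⟩ := hcon
    apply hn
    rw [c4]
    congr 1
    have e1 : Λ (Fin.last (d + 1)) x = A (Sum.inr (l, γ + ∑ j, f j)) x := by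
      simp only [hΛ]
      rw [hlast]
    have e2 : Λ 0 (pz ζ x) = A (Sum.inr (l, γ)) (pz ζ x) := by
      simp only [hΛ]
      rw [Fin.partialSum_zero, add_zero]
    rw [e1, e2, c1] at c3
    exact ((A (Sum.inr (l, γ))).injective c3).symm
  exact h5.trans (add_le_add (add_le_add le_rfl h1) h4)

private theorem avg_phi_finb {c : Fin (d + 1) → F} (hc : Function.Injective c) (f : (Fin (d + 1) → F) → ℝ) :
    𝔼 b : Fin (d + 1) → F, f (∑ j, b j • evec F d (c j)) = 𝔼 γ, f γ := by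
  refine Fintype.expect_equiv (PhiE (V := F) c hc).toEquiv _ _ fun b => ?_
  congr 1
  show _ = PhiE (V := F) c hc b
  rw [PhiE_apply]
  refine Finset.sum_congr rfl fun j _ => ?_
  funext k
  show b j * c j ^ (k : ℕ) = c j ^ (k : ℕ) • b j
  rw [smul_eq_mul, mul_comm]

/-- the inequality for one line -/
private theorem line_finb {S : Sys F d} {m : ℕ} (hS : Good S m) {n N : ℕ} (hN : n ≤ N)
    (A : Gen S → Equiv.Perm (Fin n)) (ρ : S.V → Equiv.Perm (Fin N))
    (hρ : ∀ g h, ρ (g + h) = ρ g * ρ h) (c : Fin (d + 1) → F) (hc : Function.Injective c) (l : S.L) :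
    𝔼 γ, lnD hN A ρ l γ ≤ 𝔼 γ, 𝔼 γ', tabD A l γ γ' + ∑ t, 𝔼 β, 𝔼 γ, consD A l t β γ +
      ∑ t, 𝔼 β, ptD hN A ρ (S.lpt l t, β) := by
  rw [← avg_phi_finb hc (fun γ => lnD hN A ρ l γ)]
  -- average over `γ`
  have h1 : ∀ b : Fin (d + 1) → F, lnD hN A ρ l (∑ j, b j • evec F d (c j)) ≤
      𝔼 γ, tabD A l γ (∑ j, b j • evec F d (c j)) + ∑ j, 𝔼 γ, consD A l (c j) (b j) γ +
      ∑ j, ptD hN A ρ (S.lpt l (c j), b j) := by
    intro b
    have h2 := Finset.expect_le_expect (s := Finset.univ) (fun γ _ => point_finb hS hN A ρ hρ c l b γ)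
    have h3 : 𝔼 _γ : Fin (d + 1) → F, lnD hN A ρ l (∑ j, b j • evec F d (c j)) =
      lnD hN A ρ l (∑ j, b j • evec F d (c j)) := Fintype.expect_const _
    have h4 : 𝔼 _γ : Fin (d + 1) → F, ∑ j, ptD hN A ρ (S.lpt l (c j), b j) =
      ∑ j, ptD hN A ρ (S.lpt l (c j), b j) := Fintype.expect_const _
    rw [h3, Finset.expect_add_distrib, Finset.expect_add_distrib, h4, Finset.expect_sum_comm] at h2
    refine h2.trans (le_of_eq ?_)
    congr 2
    refine Finset.sum_congr rfl fun j _ => ?_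
    exact avg_shift_finb (fun γ => consD A l (c j) (b j) γ) _
  have h2 := Finset.expect_le_expect (s := Finset.univ) (fun b _ => h1 b)
  refine h2.trans ?_
  rw [Finset.expect_add_distrib, Finset.expect_add_distrib, Finset.expect_sum_comm, Finset.expect_sum_comm]
  refine add_le_add (add_le_add ?_ ?_) ?_
  · rw [avg_phi_finb hc (fun γ' => 𝔼 γ, tabD A l γ γ'), Finset.expect_comm]
  · have h3 : ∀ j, 𝔼 b : Fin (d + 1) → F, 𝔼 γ, consD A l (c j) (b j) γ = 𝔼 β, 𝔼 γ, consD A l (c j) β γ := fun j =>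
      avg_coord_finb (fun β => 𝔼 γ, consD A l (c j) β γ) j
    rw [Finset.sum_congr rfl fun j _ => h3 j]
    exact sum_inj_finb hc (fun t => 𝔼 β, 𝔼 γ, consD A l t β γ) fun t =>
      Finset.expect_nonneg fun β _ => Finset.expect_nonneg fun γ _ => Finset.sum_nonneg fun _ _ => ind_nonneg _
  · have h3 : ∀ j, 𝔼 b : Fin (d + 1) → F, ptD hN A ρ (S.lpt l (c j), b j) = 𝔼 β, ptD hN A ρ (S.lpt l (c j), β) := fun j =>
      avg_coord_finb (fun β => ptD hN A ρ (S.lpt l (c j), β)) j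
    rw [Finset.sum_congr rfl fun j _ => h3 j]
    exact sum_inj_finb hc (fun t => 𝔼 β, ptD hN A ρ (S.lpt l t, β)) fun t =>
      Finset.expect_nonneg fun β _ => ptD_nonneg hN A ρ _

private theorem cn_le_own_finb {S : Sys F d} {X : Type} [Fintype X] (A : Gen S → Equiv.Perm X) :
    ∑ x, cnX A x ≤ own A := by
  unfold own
  refine Finset.sum_le_sum fun x _ => ?_
  unfold ownX
  have h1 : 0 ≤ ivX (ptA A) x := Finset.expect_nonneg fun _ _ => ind_nonneg _
  have h2 : 0 ≤ tbX A x := Finset.expect_nonneg fun _ _ => Finset.expect_nonneg fun _ _ =>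
    Finset.expect_nonneg fun _ _ => ind_nonneg _
  have h3 : 0 ≤ cmX (ptA A) x := Finset.expect_nonneg fun _ _ => Finset.expect_nonneg fun _ _ => ind_nonneg _
  linarith

private theorem cn_nonneg_finb {S : Sys F d} {X : Type} [Fintype X] (A : Gen S → Equiv.Perm X) :
    0 ≤ ∑ x, cnX A x := by
  refine Finset.sum_nonneg fun x _ => ?_
  unfold cnX
  refine mul_nonneg (by positivity) (Finset.sum_nonneg fun l _ => Finset.expect_nonneg fun t _ => ?_)
  exact Finset.expect_nonneg fun _ _ => Finset.expect_nonneg fun _ _ => ind_nonneg _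

private theorem cons_sum_finb {S : Sys F d} {n : ℕ} (A : Gen S → Equiv.Perm (Fin n)) :
    ∑ l : S.L, ∑ t, 𝔼 β, 𝔼 γ, consD A l t β γ = Fintype.card S.U * ∑ x, cnX A x := by
  have hq : (Fintype.card F : ℝ) ≠ 0 := by exact_mod_cast Fintype.card_ne_zero
  have hU : (Fintype.card S.U : ℝ) ≠ 0 := by exact_mod_cast Fintype.card_ne_zero
  have h1 : ∀ x, Fintype.card S.U * cnX A x = ∑ l : S.L, ∑ t : F, cnL A l t x := by
    intro x
    unfold cnX
    have h2 : ∀ l : S.L, (Fintype.card F : ℝ) * 𝔼 t : F, cnL A l t x = ∑ t : F, cnL A l t x := fun l =>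
      Fintype.card_mul_expect _
    rw [← Finset.sum_congr rfl fun l _ => h2 l, ← Finset.mul_sum]
    field_simp
  rw [Finset.mul_sum, Finset.sum_congr rfl fun x _ => h1 x]
  conv_rhs => rw [Finset.sum_comm]
  refine Finset.sum_congr rfl fun l _ => ?_
  conv_rhs => rw [Finset.sum_comm]
  refine Finset.sum_congr rfl fun t _ => ?_
  unfold cnL consD
  refine Eq.trans ?_ (Finset.expect_sum_comm _ _ _)
  refine Finset.expect_congr rfl fun β _ => ?_
  exact Finset.expect_sum_comm _ _ _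

theorem fin_lines {S : Sys F d} {m : ℕ} (hS : Good S m) (hm : 1 ≤ m) {n N : ℕ} (hN : n ≤ N)
    (A : Gen S → Equiv.Perm (Fin n)) (ρ : S.V → Equiv.Perm (Fin N))
    (hρ : ∀ g h, ρ (g + h) = ρ g * ρ h) (c : Fin (d + 1) → F) (hc : Function.Injective c) :
    𝔼 l : S.L × (Fin (d + 1) → F),
      ∑ x, ind (ρ (S.lin l.1 l.2) (Fin.castLE hN x) ≠ Fin.castLE hN (A (Sum.inr l) x)) ≤
      t5 A + Fintype.card F * own A +
      Fintype.card F * 𝔼 s : S.U × F,
        ∑ x, ind (ρ (hatS S s) (Fin.castLE hN x) ≠ Fin.castLE hN (A (Sum.inl s) x)) := by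
  have hq : (0 : ℝ) < Fintype.card F := by exact_mod_cast Fintype.card_pos
  have hU : (0 : ℝ) < Fintype.card S.U := by exact_mod_cast Fintype.card_pos
  have hm' : (1 : ℝ) ≤ m := by exact_mod_cast hm
  -- the number of lines
  have hcount : (Fintype.card S.L : ℝ) * Fintype.card F = m * Fintype.card S.U := by
    have h := hS.inc fun _ => 1
    simp only [Finset.sum_const, Finset.card_univ, nsmul_eq_mul, mul_one] at h
    exact h
  have hL : (0 : ℝ) < Fintype.card S.L := by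
    have h1 : 0 < (Fintype.card S.L : ℝ) * Fintype.card F := by
      rw [hcount]
      positivity
    exact pos_of_mul_pos_left h1 hq.le
  have hleft : 𝔼 l : S.L × (Fin (d + 1) → F),
      ∑ x, ind (ρ (S.lin l.1 l.2) (Fin.castLE hN x) ≠ Fin.castLE hN (A (Sum.inr l) x)) =
      𝔼 l, 𝔼 γ, lnD hN A ρ l γ := avg_prod_finb (fun l γ => lnD hN A ρ l γ)
  have hright : 𝔼 s : S.U × F,
        ∑ x, ind (ρ (hatS S s) (Fin.castLE hN x) ≠ Fin.castLE hN (A (Sum.inl s) x)) =
      𝔼 u, 𝔼 β, ptD hN A ρ (u, β) := avg_prod_finb (fun u β => ptD hN A ρ (u, β))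
  rw [hleft, hright]
  have h1 := Finset.expect_le_expect (s := Finset.univ) (fun l _ => line_finb hS hN A ρ hρ c hc l)
  refine h1.trans ?_
  rw [Finset.expect_add_distrib, Finset.expect_add_distrib]
  refine add_le_add (add_le_add le_rfl ?_) ?_
  · -- consistency
    rw [Finset.expect_eq_sum_div_card, cons_sum_finb A, Finset.card_univ, div_le_iff₀ hL]
    have h2 := cn_le_own_finb A
    have h3 := cn_nonneg_finb A
    calc (Fintype.card S.U : ℝ) * ∑ x, cnX A x ≤ (m * Fintype.card S.U) * ∑ x, cnX A x := by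
          refine mul_le_mul_of_nonneg_right ?_ h3
          nlinarith
      _ = (Fintype.card S.L * Fintype.card F) * ∑ x, cnX A x := by rw [hcount]
      _ ≤ (Fintype.card S.L * Fintype.card F) * own A :=
          mul_le_mul_of_nonneg_left h2 (by positivity)
      _ = Fintype.card F * own A * Fintype.card S.L := by ring
  · -- points
    rw [Finset.expect_eq_sum_div_card, hS.inc (fun u => 𝔼 β, ptD hN A ρ (u, β)), Finset.card_univ,
      div_le_iff₀ hL, Finset.expect_eq_sum_div_card, Finset.card_univ]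
    apply le_of_eq
    have h2 : (m : ℝ) = Fintype.card S.L * Fintype.card F / Fintype.card S.U := by
      rw [hcount]
      field_simp
    rw [h2]
    field_simp

end Pool.Agent.Lib_MP_3a79a1_b
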