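import Pool.Agent.Lib_MP_3a79a1_b.PresDefs
import Pool.Agent.Lib_MP_3a79a1_b.EtotB
import Pool.Agent.Lib_MP_3a79a1_b.GoodAll

/-!
# [RM-PC] Counting the violated relations

`viol A w = ∑ x, ind (FreeGroup.lift A w x ≠ x)`.
* `viol_div`: for `w = w1 * w2⁻¹`: `viol = ∑ x ind (lift A w1 x ≠ lift A w2 x)`
  (substitute `x = lift A w2 x'`).
* `own_count`: `∑ r, ownM r * viol A (ownW r) = own A`: four sums; write every nested average as
  `(∑ ..)/card` (`Fintype.expect_eq_sum_div_card`); commute with `∑ x`.  (`own A = ∑ x ownX A x`,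
  `ownX = ivX + tbX + cmX + cnX`.)
* `own_mass`: `∑ r ownM r = 3 + m` for `Good S m`: the first three families have mass `1` each, the
  last `|L| (q/|U|)`, and `|L| q = m |U|` by `Good.inc` with `g = 1`.
* `rel_count`: induction on `m`: `lift A (FreeGroup.map (sl c) w) = lift (slice A c) w`.
* `rel_mass`: `∑ r relM r ≤ 3 (m+1)^2`: induction, `3 + m + mass(m-1)`; and `≥ 3`.
* `top_count`, `top_mass` (`m ≥ 1`, so `|L| > 0`: `|L| q = m |U| > 0`).
* `topM_pos`: all weights are positive.
-/

set_option linter.unusedSectionVars false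

namespace Pool.Agent.Lib_MP_3a79a1_b

open Finset
open scoped BigOperators

variable {F : Type} [Field F] [Fintype F] [DecidableEq F] {d : ℕ}

variable {X : Type} [Fintype X]

/-- number of points at which the relation `w` fails -/
noncomputable def viol {G : Type} (A : G → Equiv.Perm X) (w : FreeGroup G) : ℝ :=
  ∑ x, ind (FreeGroup.lift A w x ≠ x)

theorem viol_div {G : Type} (A : G → Equiv.Perm X) (w1 w2 : FreeGroup G) :
    viol A (w1 * w2⁻¹) = ∑ x, ind (FreeGroup.lift A w1 x ≠ FreeGroup.lift A w2 x) := by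
  unfold viol
  rw [← Equiv.sum_comp (FreeGroup.lift A w2) (fun x => ind (FreeGroup.lift A (w1 * w2⁻¹) x ≠ x))]
  refine Finset.sum_congr rfl fun x _ => ?_
  rw [map_mul, map_inv, Equiv.Perm.mul_apply, Equiv.Perm.inv_def, Equiv.symm_apply_apply]

private theorem viol_map_pcount {G H : Type} (A : H → Equiv.Perm X) (f : G → H) (w : FreeGroup G) :
    viol A (FreeGroup.map f w) = viol (fun g => A (f g)) w := by
  have h : (FreeGroup.lift A).comp (FreeGroup.map f) = FreeGroup.lift (fun g => A (f g)) := by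
    ext g : 1
    simp
  unfold viol
  refine Finset.sum_congr rfl fun x _ => ?_
  rw [← h]
  rfl

private theorem expand1_pcount {P1 : Type} [Fintype P1] (h : P1 → ℝ) :
    𝔼 a, h a = ∑ p : P1, 1 / (Fintype.card P1 : ℝ) * h p := by
  rw [Fintype.expect_eq_sum_div_card, ← Finset.mul_sum]
  ring

private theorem expand2_pcount {P1 P2 : Type} [Fintype P1] [Fintype P2] (h : P1 → P2 → ℝ) :
    𝔼 a, 𝔼 b, h a b =
      ∑ p : P1 × P2, 1 / ((Fintype.card P1 : ℝ) * Fintype.card P2) * h p.1 p.2 := by
  rw [← Finset.mul_sum, Fintype.sum_prod_type]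
  simp only [Fintype.expect_eq_sum_div_card, ← Finset.sum_div]
  ring

private theorem expand3_pcount {P1 P2 P3 : Type} [Fintype P1] [Fintype P2] [Fintype P3]
    (h : P1 → P2 → P3 → ℝ) :
    𝔼 a, 𝔼 b, 𝔼 c, h a b c = ∑ p : P1 × P2 × P3,
      1 / ((Fintype.card P1 : ℝ) * (Fintype.card P2 * Fintype.card P3)) * h p.1 p.2.1 p.2.2 := by
  rw [← Finset.mul_sum, Fintype.sum_prod_type]
  simp only [Fintype.sum_prod_type, Fintype.expect_eq_sum_div_card, ← Finset.sum_div]
  ring

private theorem expand4_pcount {P1 P2 P3 P4 : Type} [Fintype P1] [Fintype P2] [Fintype P3]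
    [Fintype P4] (k : ℝ) (h : P1 → P2 → P3 → P4 → ℝ) :
    k * ∑ l, 𝔼 a, 𝔼 b, 𝔼 c, h l a b c = ∑ p : P1 × P2 × P3 × P4,
      k / ((Fintype.card P2 : ℝ) * (Fintype.card P3 * Fintype.card P4)) *
        h p.1 p.2.1 p.2.2.1 p.2.2.2 := by
  rw [← Finset.mul_sum, Fintype.sum_prod_type]
  simp only [Fintype.sum_prod_type, Fintype.expect_eq_sum_div_card, ← Finset.sum_div]
  ring

private theorem own1_pcount (S : Sys F d) (A : Gen S → Equiv.Perm X) :
    ∑ s : S.U × F, ownM S (Sum.inl s) * viol A (ownW S (Sum.inl s)) = ∑ x, ivX (ptA A) x := by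
  unfold ivX
  simp only [expand1_pcount]
  rw [Finset.sum_comm]
  refine Finset.sum_congr rfl fun s _ => ?_
  rw [← Finset.mul_sum]
  congr 1

private theorem own2_pcount (S : Sys F d) (A : Gen S → Equiv.Perm X) :
    ∑ s : S.U × F × F, ownM S (Sum.inr (Sum.inl s)) * viol A (ownW S (Sum.inr (Sum.inl s))) =
      ∑ x, tbX A x := by
  unfold tbX tbU
  simp only [expand3_pcount]
  rw [Finset.sum_comm]
  refine Finset.sum_congr rfl fun s _ => ?_
  rw [← Finset.mul_sum]
  congr 1
  rw [ownW, viol_div]
  refine Finset.sum_congr rfl fun x _ => ?_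
  simp only [map_mul, FreeGroup.lift_apply_of, Equiv.Perm.mul_apply]

private theorem own3_pcount (S : Sys F d) (A : Gen S → Equiv.Perm X) :
    ∑ s : (S.U × F) × (S.U × F), ownM S (Sum.inr (Sum.inr (Sum.inl s))) *
      viol A (ownW S (Sum.inr (Sum.inr (Sum.inl s)))) = ∑ x, cmX (ptA A) x := by
  unfold cmX
  simp only [expand2_pcount]
  rw [Finset.sum_comm]
  refine Finset.sum_congr rfl fun s _ => ?_
  rw [← Finset.mul_sum]
  congr 1
  rw [ownW, viol_div]
  refine Finset.sum_congr rfl fun x _ => ?_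
  simp only [map_mul, FreeGroup.lift_apply_of, Equiv.Perm.mul_apply, ptA]

private theorem own4_pcount (S : Sys F d) (A : Gen S → Equiv.Perm X) :
    ∑ s : S.L × F × F × (Fin (d + 1) → F), ownM S (Sum.inr (Sum.inr (Sum.inr s))) *
      viol A (ownW S (Sum.inr (Sum.inr (Sum.inr s)))) = ∑ x, cnX A x := by
  unfold cnX cnL
  simp only [expand4_pcount]
  rw [Finset.sum_comm]
  refine Finset.sum_congr rfl fun s _ => ?_
  rw [← Finset.mul_sum]
  congr 1
  rw [ownW, viol_div]
  refine Finset.sum_congr rfl fun x _ => ?_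
  simp only [map_mul, FreeGroup.lift_apply_of, Equiv.Perm.mul_apply]

theorem own_count (S : Sys F d) (A : Gen S → Equiv.Perm X) :
    ∑ r, ownM S r * viol A (ownW S r) = own A := by
  rw [Fintype.sum_sum_type, Fintype.sum_sum_type, Fintype.sum_sum_type, own1_pcount, own2_pcount,
    own3_pcount, own4_pcount]
  unfold own ownX
  simp only [Finset.sum_add_distrib]
  ring

theorem own_mass {S : Sys F d} {m : ℕ} (hS : Good S m) : ∑ r, ownM S r = 3 + m := by
  have hF : (0 : ℝ) < Fintype.card F := by exact_mod_cast Fintype.card_pos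
  have hU : (0 : ℝ) < Fintype.card S.U := by exact_mod_cast Fintype.card_pos
  have hG : (0 : ℝ) < Fintype.card (Fin (d + 1) → F) := by exact_mod_cast Fintype.card_pos
  have hinc := hS.inc (fun _ => 1)
  simp only [Finset.sum_const, Finset.card_univ, nsmul_eq_mul, mul_one] at hinc
  rw [Fintype.sum_sum_type, Fintype.sum_sum_type, Fintype.sum_sum_type]
  simp only [ownM, Finset.sum_const, Finset.card_univ, nsmul_eq_mul, Fintype.card_prod,
    Nat.cast_mul]
  have h4 : (Fintype.card S.L : ℝ) * (Fintype.card F * (Fintype.card F *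
      Fintype.card (Fin (d + 1) → F))) * ((Fintype.card F : ℝ) / Fintype.card S.U /
        (Fintype.card F * (Fintype.card F * Fintype.card (Fin (d + 1) → F)))) = m := by
    rw [show (Fintype.card S.L : ℝ) * (Fintype.card F * (Fintype.card F *
      Fintype.card (Fin (d + 1) → F))) * ((Fintype.card F : ℝ) / Fintype.card S.U /
        (Fintype.card F * (Fintype.card F * Fintype.card (Fin (d + 1) → F)))) =
        (Fintype.card S.L : ℝ) * Fintype.card F / Fintype.card S.U by field_simp]
    rw [hinc]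
    field_simp
  rw [h4]
  have h1 : (Fintype.card S.U : ℝ) * Fintype.card F *
      (1 / ((Fintype.card S.U : ℝ) * Fintype.card F)) = 1 := by field_simp
  have h2 : (Fintype.card S.U : ℝ) * (Fintype.card F * Fintype.card F) *
      (1 / ((Fintype.card S.U : ℝ) * (Fintype.card F * Fintype.card F))) = 1 := by field_simp
  have h3 : (Fintype.card S.U : ℝ) * Fintype.card F * ((Fintype.card S.U : ℝ) * Fintype.card F) *
      (1 / ((Fintype.card S.U : ℝ) * Fintype.card F *
        ((Fintype.card S.U : ℝ) * Fintype.card F))) = 1 := by field_simp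
  rw [h1, h2, h3]
  ring

private theorem sum_rel_succ_pcount (m : ℕ) (f : RelT F d (m + 1) → ℝ) :
    ∑ r, f r = ∑ r : OwnT (sysm F d (m + 1)), f (Sum.inl r) +
      ∑ c : F, ∑ r : RelT F d m, f (Sum.inr (c, r)) := by
  have h : ∑ r, f r = ∑ r : OwnT (sysm F d (m + 1)) ⊕ (F × RelT F d m), f r := rfl
  rw [h, Fintype.sum_sum_type, Fintype.sum_prod_type]

theorem rel_count (m : ℕ) (A : Gen (sysm F d m) → Equiv.Perm X) :
    ∑ r, relM F d m r * viol A (relW F d m r) = Dfn m A := by
  induction m with
  | zero => exact own_count (sysm F d 0) A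
  | succ m ih =>
    rw [sum_rel_succ_pcount]
    show ∑ r, ownM (sysm F d (m + 1)) r * viol A (ownW (sysm F d (m + 1)) r) +
      ∑ c : F, ∑ r : RelT F d m, relM F d m r / Fintype.card F *
        viol A (FreeGroup.map (sl (sysm F d m) c) (relW F d m r)) =
      own A + 𝔼 c : F, Dfn m (slice (S := sysm F d m) A c)
    rw [own_count, expand1_pcount]
    congr 1
    refine Finset.sum_congr rfl fun c _ => ?_
    rw [← ih, Finset.mul_sum]
    refine Finset.sum_congr rfl fun r _ => ?_
    have e : viol A (FreeGroup.map (sl (sysm F d m) c) (relW F d m r)) =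
        viol (slice (S := sysm F d m) A c) (relW F d m r) := viol_map_pcount A _ _
    rw [e]
    ring

theorem rel_mass (m : ℕ) : 3 ≤ ∑ r, relM F d m r ∧ ∑ r, relM F d m r ≤ 3 * ((m : ℝ) + 1) ^ 2 := by
  induction m with
  | zero =>
    have h : ∑ r, relM F d 0 r = 3 := by
      have := own_mass (good_sysm (F := F) (d := d) 0)
      rw [Nat.cast_zero, add_zero] at this
      exact this
    rw [h]
    norm_num
  | succ m ih =>
    have hF : (0 : ℝ) < Fintype.card F := by exact_mod_cast Fintype.card_pos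
    have h : ∑ r, relM F d (m + 1) r = (3 + ((m + 1 : ℕ) : ℝ)) + ∑ r, relM F d m r := by
      rw [sum_rel_succ_pcount]
      show ∑ r, ownM (sysm F d (m + 1)) r + ∑ _c : F, ∑ r : RelT F d m,
        relM F d m r / Fintype.card F = _
      rw [own_mass (good_sysm (F := F) (d := d) (m + 1)), ← Finset.sum_div, Finset.sum_const,
        Finset.card_univ, nsmul_eq_mul, mul_div_cancel₀ _ hF.ne']
    rw [h]
    push_cast
    obtain ⟨h1, h2⟩ := ih
    have hm : (0 : ℝ) ≤ m := Nat.cast_nonneg m
    constructor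
    · linarith
    · nlinarith

theorem top_count (m : ℕ) (A : Gen (sysm F d m) → Equiv.Perm X) :
    ∑ r, topM F d m r * viol A (topW F d m r) = Dfn m A + t5 A := by
  rw [Fintype.sum_sum_type]
  congr 1
  · exact rel_count m A
  · unfold t5
    rw [expand3_pcount]
    refine Finset.sum_congr rfl fun p _ => ?_
    show 1 / _ * viol A (_ * (_ * _)⁻¹) = _
    rw [viol_div]
    congr 1

theorem top_mass (m : ℕ) (hm : 1 ≤ m) :
    1 ≤ ∑ r, topM F d m r ∧ ∑ r, topM F d m r ≤ 4 * ((m : ℝ) + 1) ^ 2 := by
  rw [Fintype.sum_sum_type]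
  obtain ⟨h1, h2⟩ := rel_mass (F := F) (d := d) m
  have h3 : 0 ≤ ∑ p : (sysm F d m).L × (Fin (d + 1) → F) × (Fin (d + 1) → F),
      topM F d m (Sum.inr p) := by
    refine Finset.sum_nonneg fun p _ => ?_
    simp only [topM]
    positivity
  have h4 : ∑ p : (sysm F d m).L × (Fin (d + 1) → F) × (Fin (d + 1) → F),
      topM F d m (Sum.inr p) ≤ 1 := by
    simp only [topM, Finset.sum_const, Finset.card_univ, nsmul_eq_mul, Fintype.card_prod,
      Nat.cast_mul]
    rw [mul_one_div]
    exact div_self_le_one _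
  have e : ∀ r, topM F d m (Sum.inl r) = relM F d m r := fun r => rfl
  simp_rw [e]
  have hm' : (1 : ℝ) ≤ m := by exact_mod_cast hm
  constructor
  · linarith
  · nlinarith

private theorem ownM_pos_pcount (S : Sys F d) (r : OwnT S) : 0 < ownM S r := by
  have hF : (0 : ℝ) < Fintype.card F := by exact_mod_cast Fintype.card_pos
  have hU : (0 : ℝ) < Fintype.card S.U := by exact_mod_cast Fintype.card_pos
  have hUF : (0 : ℝ) < Fintype.card (S.U × F) := by exact_mod_cast Fintype.card_pos
  have hG : (0 : ℝ) < Fintype.card (Fin (d + 1) → F) := by exact_mod_cast Fintype.card_pos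
  rcases r with r | r | r | r
  · simp only [ownM]
    positivity
  · simp only [ownM]
    positivity
  · simp only [ownM]
    positivity
  · simp only [ownM]
    positivity

private theorem relM_pos_pcount (m : ℕ) (r : RelT F d m) : 0 < relM F d m r := by
  induction m with
  | zero => exact ownM_pos_pcount _ r
  | succ m ih =>
    have hF : (0 : ℝ) < Fintype.card F := by exact_mod_cast Fintype.card_pos
    rcases r with r | r
    · exact ownM_pos_pcount _ r
    · exact div_pos (ih r.2) hF

theorem topM_pos (m : ℕ) (r : TopT F d m) : 0 < topM F d m r := by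
  rcases r with r | p
  · exact relM_pos_pcount m r
  · have hL : (0 : ℝ) < Fintype.card (sysm F d m).L := by
      haveI : Nonempty (sysm F d m).L := ⟨p.1⟩
      exact_mod_cast Fintype.card_pos
    have hG : (0 : ℝ) < Fintype.card (Fin (d + 1) → F) := by exact_mod_cast Fintype.card_pos
    simp only [topM]
    positivity

end Pool.Agent.Lib_MP_3a79a1_b
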