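import Pool.Agent.Lib_MP_3a79a1_b.PUniv

/-!
# [RM-PI] The presented group

`rel_vec`: `FreeGroup.lift (fun g => Multiplicative.ofAdd (vecS g)) (topW r) = 1`: induction on the
level for `relW` (`vecS (next S) (sl S c g) = ten d c (vecS S g)`, an additive map, so
`lift (ofAdd ∘ vecS) ∘ map (sl c) = (ofAdd ∘ ten c) ∘ lift (ofAdd ∘ vecS)`); own relations: in
characteristic `2` `v + v = 0` (`V` is an `F`-module), `add_smul`, commutativity, `lin_add` + `lin_e`
of `good_sysm m`.
`pres_iso`: let `P = PresentedGroup (Set.range (topW F d m))`.  In `P` write `a(s), l(l,γ)` for the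
generators.  The own relations of the top level hold in `P` (for `m = 0` they are all of `RelT`; for
`m+1` they are the `Sum.inl`), so: the `a(s)` commute pairwise, `a(u,b+b') = a(u,b) a(u,b')`,
`l(l,γ + b e(t)) = l(l,γ) a(lpt l t, b)`, and `l(l,γ+γ') = l(l,γ) l(l,γ')`.  From the last,
`l(l,0) = 1`, `l(l, b e(t)) = a(lpt l t, b)`, and `l(l,γ) = ∏ j a(lpt l (c j), b_j)` for
`γ = ∑ j b_j e(c j)`.  So all generators lie in the subgroup generated by the commuting `a(s)`; hence
`P` is commutative.  Apply `univ_prop` with `H = Additive P`: `φ : V →+ Additive P` with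
`φ (vecS g) = of g`; and `π : P →* Multiplicative V`, `π (of g) = ofAdd (vecS g)`
(`PresentedGroup.toGroup`, `rel_vec`).  `φ ∘ π = id` on generators, `π ∘ φ = id` by `gen_unique`.
-/

set_option linter.unusedSectionVars false

namespace Pool.Agent.Lib_MP_3a79a1_b

open Finset
open scoped BigOperators

variable {F : Type} [Field F] [Fintype F] [DecidableEq F] {d : ℕ}

/-- `w ↦ ten d c w` as a homomorphism -/
private def tenHom_piso (S : Sys F d) (c : F) : S.V →+ (next S).V where
  toFun w := ten d c w
  map_zero' := by
    funext k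
    exact smul_zero _
  map_add' v w := by
    funext k
    exact smul_add _ _ _

private theorem vec_sl_piso (S : Sys F d) (c : F) (g : Gen S) :
    vecS (next S) (sl S c g) = ten d c (vecS S g) := by
  rcases g with s | l
  · funext k
    show s.2 • (c ^ (k : ℕ) • S.pt s.1) = c ^ (k : ℕ) • (s.2 • S.pt s.1)
    rw [smul_smul, smul_smul, mul_comm]
  · rfl

private theorem own_vec_piso [CharP F 2] {S : Sys F d} {m : ℕ} (hS : Good S m) (r : OwnT S) :
    FreeGroup.lift (fun g => Multiplicative.ofAdd (vecS S g)) (ownW S r) = 1 := by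
  rcases r with s | p | p | p
  · simp only [ownW, map_mul, FreeGroup.lift_apply_of]
    rw [← ofAdd_add, ← ofAdd_zero]
    congr 1
    show s.2 • S.pt s.1 + s.2 • S.pt s.1 = 0
    rw [← add_smul, CharTwo.add_self_eq_zero, zero_smul]
  · simp only [ownW, map_mul, map_inv, FreeGroup.lift_apply_of]
    rw [← ofAdd_add, ← ofAdd_neg, ← ofAdd_add, ← ofAdd_zero]
    congr 1
    show p.2.1 • S.pt p.1 + p.2.2 • S.pt p.1 + -((p.2.1 + p.2.2) • S.pt p.1) = 0
    rw [← add_smul, add_neg_cancel]
  · simp only [ownW, map_mul, map_inv, FreeGroup.lift_apply_of]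
    rw [mul_inv_eq_one]
    exact mul_comm _ _
  · simp only [ownW, map_mul, map_inv, FreeGroup.lift_apply_of]
    rw [mul_inv_eq_one, ← ofAdd_add]
    congr 1
    show S.lin p.1 (p.2.2.2 + p.2.2.1 • evec F d p.2.1) =
      S.lin p.1 p.2.2.2 + p.2.2.1 • S.pt (S.lpt p.1 p.2.1)
    rw [hS.lin_add, hS.lin_e]

private theorem lift_sl_piso (S : Sys F d) (c : F) (w : FreeGroup (Gen S)) :
    FreeGroup.lift (fun g => Multiplicative.ofAdd (vecS (next S) g)) (FreeGroup.map (sl S c) w) =
      AddMonoidHom.toMultiplicative (tenHom_piso S c)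
        (FreeGroup.lift (fun g => Multiplicative.ofAdd (vecS S g)) w) := by
  have h1 : (FreeGroup.lift (fun g => Multiplicative.ofAdd (vecS (next S) g))).comp
      (FreeGroup.map (sl S c)) =
      (AddMonoidHom.toMultiplicative (tenHom_piso S c)).comp
        (FreeGroup.lift (fun g => Multiplicative.ofAdd (vecS S g))) := by
    refine FreeGroup.ext_hom _ _ fun g => ?_
    rw [MonoidHom.comp_apply, MonoidHom.comp_apply, FreeGroup.map.of, FreeGroup.lift_apply_of,
      FreeGroup.lift_apply_of]
    exact congrArg Multiplicative.ofAdd (vec_sl_piso S c g)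
  exact DFunLike.congr_fun h1 w

private theorem relW_vec_piso [CharP F 2] : ∀ (m : ℕ) (r : RelT F d m),
    FreeGroup.lift (fun g => Multiplicative.ofAdd (vecS (sysm F d m) g)) (relW F d m r) = 1
  | 0, r => own_vec_piso (good_sysm 0) r
  | m + 1, Sum.inl r => own_vec_piso (good_sysm (m + 1)) r
  | m + 1, Sum.inr (c, r) => by
    have ih := relW_vec_piso m r
    have h2 := lift_sl_piso (sysm F d m) c (relW F d m r)
    rw [ih, map_one] at h2
    exact h2

theorem rel_vec [CharP F 2] (m : ℕ) (r : TopT F d m) :
    FreeGroup.lift (fun g => Multiplicative.ofAdd (vecS (sysm F d m) g)) (topW F d m r) = 1 := by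
  rcases r with r | p
  · exact relW_vec_piso m r
  · simp only [topW, map_mul, map_inv, FreeGroup.lift_apply_of]
    rw [mul_inv_eq_one, ← ofAdd_add]
    congr 1
    exact (good_sysm m).lin_add _ _ _

/-- the own relations are among the relations of a level -/
private theorem own_mem_piso (m : ℕ) (r : OwnT (sysm F d m)) :
    ∃ r' : TopT F d m, topW F d m r' = ownW (sysm F d m) r := by
  cases m with
  | zero => exact ⟨Sum.inl r, rfl⟩
  | succ m => exact ⟨Sum.inl (Sum.inl r), rfl⟩

private theorem of_mul_piso (m : ℕ) (r : TopT F d m) :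
    PresentedGroup.mk (Set.range (topW F d m)) (topW F d m r) = 1 :=
  PresentedGroup.mk_eq_one_iff.2 (Subgroup.subset_normalClosure ⟨r, rfl⟩)

private theorem own_one_piso (m : ℕ) (r : OwnT (sysm F d m)) :
    PresentedGroup.mk (Set.range (topW F d m)) (ownW (sysm F d m) r) = 1 := by
  obtain ⟨r', hr'⟩ := own_mem_piso m r
  rw [← hr']
  exact of_mul_piso m r'

section group

variable (m : ℕ)

private theorem comm_piso (s t : (sysm F d m).U × F) :
    (PresentedGroup.of (Sum.inl s) * PresentedGroup.of (Sum.inl t) :
      PresentedGroup (Set.range (topW F d m))) =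
      PresentedGroup.of (Sum.inl t) * PresentedGroup.of (Sum.inl s) := by
  have h := own_one_piso m (Sum.inr (Sum.inr (Sum.inl (s, t))))
  simp only [ownW, map_mul, map_inv] at h
  exact mul_inv_eq_one.1 h

private theorem tab_piso (u : (sysm F d m).U) (b b' : F) :
    (PresentedGroup.of (Sum.inl (u, b + b')) : PresentedGroup (Set.range (topW F d m))) =
      PresentedGroup.of (Sum.inl (u, b)) * PresentedGroup.of (Sum.inl (u, b')) := by
  have h := own_one_piso m (Sum.inr (Sum.inl (u, b, b')))
  simp only [ownW, map_mul, map_inv] at h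
  exact (mul_inv_eq_one.1 h).symm

private theorem cons_piso (l : (sysm F d m).L) (t b : F) (γ : Fin (d + 1) → F) :
    (PresentedGroup.of (Sum.inr (l, γ + b • evec F d t)) : PresentedGroup (Set.range (topW F d m))) =
      PresentedGroup.of (Sum.inr (l, γ)) * PresentedGroup.of (Sum.inl ((sysm F d m).lpt l t, b)) := by
  have h := own_one_piso m (Sum.inr (Sum.inr (Sum.inr (l, t, b, γ))))
  simp only [ownW, map_mul, map_inv] at h
  exact mul_inv_eq_one.1 h

private theorem lt_piso (l : (sysm F d m).L) (γ γ' : Fin (d + 1) → F) :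
    (PresentedGroup.of (Sum.inr (l, γ + γ')) : PresentedGroup (Set.range (topW F d m))) =
      PresentedGroup.of (Sum.inr (l, γ)) * PresentedGroup.of (Sum.inr (l, γ')) := by
  have h := of_mul_piso (F := F) (d := d) m (Sum.inr (l, γ, γ'))
  simp only [topW, map_mul, map_inv] at h
  exact mul_inv_eq_one.1 h

private theorem zero_piso (l : (sysm F d m).L) :
    (PresentedGroup.of (Sum.inr (l, 0)) : PresentedGroup (Set.range (topW F d m))) = 1 := by
  have h := lt_piso m l 0 0
  rw [add_zero] at h
  exact left_eq_mul.1 h

/-- all elements lie in the subgroup generated by the point generators -/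
private theorem mem_piso (c : Fin (d + 1) → F) (hc : Function.Injective c)
    (x : PresentedGroup (Set.range (topW F d m))) :
    x ∈ Subgroup.closure (Set.range fun s : (sysm F d m).U × F =>
      (PresentedGroup.of (Sum.inl s) : PresentedGroup (Set.range (topW F d m)))) := by
  set K := Subgroup.closure (Set.range fun s : (sysm F d m).U × F =>
      (PresentedGroup.of (Sum.inl s) : PresentedGroup (Set.range (topW F d m)))) with hK
  have hle : Subgroup.closure (Set.range (PresentedGroup.of (rels := Set.range (topW F d m)))) ≤ K := by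
    rw [Subgroup.closure_le]
    rintro _ ⟨g, rfl⟩
    rcases g with s | ⟨l, γ⟩
    · exact Subgroup.subset_closure ⟨s, rfl⟩
    · obtain ⟨b, hb⟩ := exists_coef hc γ
      have h1 : ∀ s : Finset (Fin (d + 1)),
          (PresentedGroup.of (Sum.inr (l, ∑ j ∈ s, b j • evec F d (c j))) :
            PresentedGroup (Set.range (topW F d m))) ∈ K := by
        intro s
        classical
        induction s using Finset.induction_on with
        | empty =>
          rw [Finset.sum_empty, zero_piso]
          exact K.one_mem
        | insert a s ha ih =>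
          rw [Finset.sum_insert ha, add_comm (b a • evec F d (c a)), cons_piso]
          exact K.mul_mem ih (Subgroup.subset_closure ⟨_, rfl⟩)
      rw [hb]
      exact h1 Finset.univ
  have h2 : x ∈ Subgroup.closure (Set.range (PresentedGroup.of (rels := Set.range (topW F d m)))) := by
    rw [PresentedGroup.closure_range_of]
    trivial
  exact hle h2

private theorem mul_comm_piso (c : Fin (d + 1) → F) (hc : Function.Injective c)
    (x y : PresentedGroup (Set.range (topW F d m))) : x * y = y * x := by
  have hx := mem_piso m c hc x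
  have hy := mem_piso m c hc y
  have h := Subgroup.isMulCommutative_closure (k := Set.range fun s : (sysm F d m).U × F =>
      (PresentedGroup.of (Sum.inl s) : PresentedGroup (Set.range (topW F d m)))) (by
    rintro _ ⟨s, rfl⟩ _ ⟨t, rfl⟩
    exact comm_piso m s t)
  exact setLike_mul_comm hx hy

end group

theorem pres_iso [CharP F 2] (c : Fin (d + 1) → F) (hc : Function.Injective c) (m : ℕ) :
    ∃ e : PresentedGroup (Set.range (topW F d m)) ≃* Multiplicative (sysm F d m).V,
      ∀ g, e (PresentedGroup.of g) = Multiplicative.ofAdd (vecS (sysm F d m) g) := by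
  let _ : CommGroup (PresentedGroup (Set.range (topW F d m))) :=
    { (inferInstance : Group (PresentedGroup (Set.range (topW F d m)))) with
      mul_comm := mul_comm_piso m c hc }
  obtain ⟨φ, hφ⟩ := univ_prop c hc m
    (H := Additive (PresentedGroup (Set.range (topW F d m))))
    (fun g => Additive.ofMul (PresentedGroup.of g))
    (fun u b b' => congrArg Additive.ofMul (tab_piso m u b b'))
    (fun l t b γ => congrArg Additive.ofMul (cons_piso m l t b γ))
    (fun l γ γ' => congrArg Additive.ofMul (lt_piso m l γ γ'))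
  have hrel : ∀ r ∈ Set.range (topW F d m),
      FreeGroup.lift (fun g => Multiplicative.ofAdd (vecS (sysm F d m) g)) r = 1 := by
    rintro _ ⟨r, rfl⟩
    exact rel_vec m r
  let π : PresentedGroup (Set.range (topW F d m)) →* Multiplicative (sysm F d m).V :=
    PresentedGroup.toGroup hrel
  have hπ : ∀ g, π (PresentedGroup.of g) = Multiplicative.ofAdd (vecS (sysm F d m) g) := fun g =>
    PresentedGroup.toGroup.of hrel
  let ψ : Multiplicative (sysm F d m).V →* PresentedGroup (Set.range (topW F d m)) :=
    AddMonoidHom.toMultiplicativeLeft φ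
  have hψ : ∀ g, ψ (Multiplicative.ofAdd (vecS (sysm F d m) g)) = PresentedGroup.of g := by
    intro g
    show Additive.toMul (φ (vecS (sysm F d m) g)) = _
    rw [hφ]
    rfl
  have h1 : ψ.comp π = MonoidHom.id _ := by
    refine PresentedGroup.ext fun g => ?_
    rw [MonoidHom.comp_apply, hπ, hψ]
    rfl
  have h2 : π.comp ψ = MonoidHom.id _ := by
    have h3 : (AddMonoidHom.toMultiplicative.symm (π.comp ψ) : (sysm F d m).V →+ (sysm F d m).V) =
        AddMonoidHom.id _ := by
      refine gen_unique c hc m _ _ fun s => ?_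
      show Multiplicative.toAdd (π (ψ (Multiplicative.ofAdd (vecS (sysm F d m) (Sum.inl s))))) = _
      rw [hψ, hπ]
      rfl
    have h4 := congrArg AddMonoidHom.toMultiplicative h3
    rw [Equiv.apply_symm_apply] at h4
    rw [h4]
    rfl
  refine ⟨MonoidHom.toMulEquiv π ψ h1 h2, fun g => ?_⟩
  exact hπ g

end Pool.Agent.Lib_MP_3a79a1_b
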