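import Pool.Agent.Lib_MP_3a79a1_b.Rec
import Pool.Agent.Lib_MP_3a79a1_b.FinA
import Pool.Agent.Lib_MP_3a79a1_b.FinB
import Pool.Agent.Lib_MP_3a79a1_b.PCount
import Pool.Agent.Lib_MP_3a79a1_b.PIso

/-!
# [RM-MS2] Main stability estimate (finite form)

`d = M`, `q = |F|`, `1 ≤ M`, `M M / q ≤ 1/10000`.  `D = Dfn M A`, `Pi = PiC F M M ≥ 1`.
`fin_action` for `hatS`, `ptA A`, `e1 = 1/(1000 (M+1))` gives `N, hN, ρ`; put
`β g = ρ (vecS g)`.  `lift β (topW r) = 1`: `ρ` is a homomorphism `Multiplicative V →* Perm (Fin N)`,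
`lift β = ρ ∘ lift (ofAdd ∘ vecS)`, `rel_vec`.
`(N - n) + dP ≤ 5 Pi D` (`main_count`); `fin_lines` (`c` exists as `q ≥ 10000 M^2 ≥ M+1`):
`dL ≤ t5 A + q own A + q dP`.  So
`(N-n) + dP/2 + dL/2 ≤ (1 + q) 5 Pi D + t5 A + q D ≤ 12 q Pi (D + t5 A)` (`own A ≤ D`), and
`D + t5 A = ∑ r topM r * viol A (topW r)` (`top_count`).
-/

set_option linter.unusedSectionVars false

namespace Pool.Agent.Lib_MP_3a79a1_b

open Finset
open scoped BigOperators

variable {F : Type} [Field F] [Fintype F] [DecidableEq F] {d : ℕ}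

theorem main_stab [CharP F 2] (M : ℕ) (hM : 1 ≤ M)
    (hq : (M : ℝ) * M / Fintype.card F ≤ 1 / 10000) {n : ℕ}
    (A : Gen (sysm F M M) → Equiv.Perm (Fin n)) :
    ∃ (N : ℕ) (hN : n ≤ N) (β : Gen (sysm F M M) → Equiv.Perm (Fin N)),
      (∀ r, FreeGroup.lift β (topW F M M r) = 1) ∧
      ((N : ℝ) - n) +
        1 / 2 * 𝔼 s, ∑ x, ind (β (Sum.inl s) (Fin.castLE hN x) ≠ Fin.castLE hN (A (Sum.inl s) x)) +
        1 / 2 * 𝔼 l, ∑ x, ind (β (Sum.inr l) (Fin.castLE hN x) ≠ Fin.castLE hN (A (Sum.inr l) x)) ≤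
      12 * Fintype.card F * PiC F M M * ∑ r, topM F M M r * viol A (topW F M M r) := by
  classical
  have hc0 : (0 : ℝ) < Fintype.card F := by exact_mod_cast Fintype.card_pos
  have hc1 : (1 : ℝ) ≤ Fintype.card F := by exact_mod_cast Fintype.card_pos
  have hM1 : (1 : ℝ) ≤ M := by exact_mod_cast hM
  -- enough elements
  have hcard : M + 1 ≤ Fintype.card F := by
    have h1 : (M : ℝ) * M ≤ 1 / 10000 * Fintype.card F := (div_le_iff₀ hc0).1 hq
    have h2 : ((M + 1 : ℕ) : ℝ) ≤ Fintype.card F := by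
      push_cast
      nlinarith
    exact_mod_cast h2
  obtain ⟨c, hc⟩ : ∃ c : Fin (M + 1) → F, Function.Injective c := by
    have h1 : Fintype.card (Fin (M + 1)) ≤ Fintype.card F := by rwa [Fintype.card_fin]
    obtain ⟨f⟩ := Function.Embedding.nonempty_of_card_le h1
    exact ⟨f, f.injective⟩
  obtain ⟨N, hN, ρ, hρ, hcount⟩ := fin_action (1 / (1000 * ((M : ℝ) + 1))) (hatS (sysm F M M)) (ptA A)
  have hρ0 : ρ 0 = 1 := by
    have h1 := hρ 0 0
    rw [add_zero] at h1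
    exact (mul_eq_left.1 h1.symm)
  refine ⟨N, hN, fun g => ρ (vecS (sysm F M M) g), fun r => ?_, ?_⟩
  · let φ : Multiplicative (sysm F M M).V →* Equiv.Perm (Fin N) :=
      { toFun := fun v => ρ v.toAdd
        map_one' := hρ0
        map_mul' := fun v w => hρ _ _ }
    have h1 : FreeGroup.lift (fun g => ρ (vecS (sysm F M M) g)) =
        φ.comp (FreeGroup.lift fun g => Multiplicative.ofAdd (vecS (sysm F M M) g)) := by
      refine FreeGroup.ext_hom _ _ fun g => ?_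
      rw [FreeGroup.lift_apply_of, MonoidHom.comp_apply, FreeGroup.lift_apply_of]
      rfl
    rw [h1, MonoidHom.comp_apply, rel_vec, map_one]
  · have hmain := main_count (F := F) (d := M) M hM hq A
    have hlines := fin_lines (good_sysm (F := F) (d := M) M) hM hN A ρ hρ c hc
    have hNn : (0 : ℝ) ≤ (N : ℝ) - n := by
      have : (n : ℝ) ≤ N := by exact_mod_cast hN
      linarith
    obtain ⟨dP, hdP⟩ : ∃ dP : ℝ, dP = 𝔼 s : (sysm F M M).U × F,
        ∑ x, ind (ρ (hatS (sysm F M M) s) (Fin.castLE hN x) ≠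
          Fin.castLE hN (A (Sum.inl s) x)) := ⟨_, rfl⟩
    obtain ⟨dL, hdL⟩ : ∃ dL : ℝ, dL = 𝔼 l : (sysm F M M).L × (Fin (M + 1) → F),
        ∑ x, ind (ρ ((sysm F M M).lin l.1 l.2) (Fin.castLE hN x) ≠
          Fin.castLE hN (A (Sum.inr l) x)) := ⟨_, rfl⟩
    have hdP0 : 0 ≤ dP := by
      rw [hdP]
      exact Finset.expect_nonneg fun s _ => Finset.sum_nonneg fun x _ => ind_nonneg _
    have ht5 : 0 ≤ t5 A :=
      Finset.expect_nonneg fun l _ => Finset.expect_nonneg fun γ _ =>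
        Finset.expect_nonneg fun γ' _ => Finset.sum_nonneg fun x _ => ind_nonneg _
    have hown : 0 ≤ own A := own_nonneg (S := sysm F M M) A
    have hoD : own A ≤ Dfn M A := own_le_Dfn M A
    have hP1 : 1 ≤ PiC F M M := by
      have a1 : (1 : ℝ) ≤ 13 * (M + 1) := by linarith
      have a2 : (1 : ℝ) ≤ (Fintype.card F : ℝ) ^ 2 := one_le_pow₀ hc1
      have a3 : (1 : ℝ) ≤ (700000 * ((M : ℝ) + 1)) ^ 2 := one_le_pow₀ (by linarith)
      have a4 : (1 : ℝ) ≤ 500 * (M + 1) * (M + 1) :=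
        one_le_mul_of_one_le_of_one_le (by linarith) (by linarith)
      unfold PiC
      exact one_le_mul_of_one_le_of_one_le (one_le_mul_of_one_le_of_one_le
        (one_le_mul_of_one_le_of_one_le a1 a2) a3) a4
    have hcount' : ((N : ℝ) - n) + dP ≤ 5 * PiC F M M * Dfn M A := by
      rw [hdP]
      exact hcount.trans hmain
    rw [← hdP] at hlines
    rw [← hdL] at hlines
    have hgoal : ((N : ℝ) - n) + 1 / 2 * dP + 1 / 2 * dL ≤
        12 * Fintype.card F * PiC F M M * (Dfn M A + t5 A) := by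
      obtain ⟨q, hqq⟩ : ∃ q : ℝ, q = Fintype.card F := ⟨_, rfl⟩
      obtain ⟨D, hD⟩ : ∃ D : ℝ, D = Dfn M A := ⟨_, rfl⟩
      obtain ⟨Pi, hPi⟩ : ∃ Pi : ℝ, Pi = PiC F M M := ⟨_, rfl⟩
      rw [← hqq] at hlines hc1 ⊢
      rw [← hD] at hcount' hoD ⊢
      rw [← hPi] at hcount' hP1 ⊢
      have hD0 : 0 ≤ D := hown.trans hoD
      have b1 : (1 + q) / 2 * (((N : ℝ) - n) + dP) ≤ (1 + q) / 2 * (5 * Pi * D) :=
        mul_le_mul_of_nonneg_left hcount' (by linarith)
      have b2 : ((N : ℝ) - n) + 1 / 2 * dP + 1 / 2 * (q * dP) ≤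
          (1 + q) / 2 * (((N : ℝ) - n) + dP) := by
        nlinarith
      have b3 : (1 + q) / 2 * (5 * Pi * D) ≤ q * (5 * Pi * D) :=
        mul_le_mul_of_nonneg_right (by linarith) (by positivity)
      have b4 : q * own A ≤ q * D := mul_le_mul_of_nonneg_left hoD (by linarith)
      have b5 : q * D ≤ q * Pi * D := by
        have : q * 1 * D ≤ q * Pi * D :=
          mul_le_mul_of_nonneg_right (mul_le_mul_of_nonneg_left hP1 (by linarith)) hD0
        linarith
      have b6 : t5 A ≤ q * Pi * t5 A := by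
        have h1 : (1 : ℝ) ≤ q * Pi := one_le_mul_of_one_le_of_one_le hc1 hP1
        exact le_mul_of_one_le_left ht5 h1
      have b7 : 0 ≤ q * Pi * D := by positivity
      have b8 : 0 ≤ q * Pi * t5 A := by positivity
      have b9 : 12 * q * Pi * (D + t5 A) = 12 * (q * Pi * D) + 12 * (q * Pi * t5 A) := by ring
      rw [b9]
      linarith
    rw [top_count]
    rw [hdP, hdL] at hgoal
    exact hgoal

end Pool.Agent.Lib_MP_3a79a1_b
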