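import Pool.Agent.Lib_MP_3a79a1_b.Defs

/-!
# [RM-NU] Numerics

`exists_s`: the least `s` with `10000 M^2 ≤ 2^s`.
`numerics`: put `q = 2^s ≤ 20000 M^2 ≤ (M+1)^17` (`20000 ≤ 2^15 ≤ (M+1)^15`, `M ≥ 1`),
`L = log (2^(s (M+1)^M)) = s (M+1)^M log 2`.  As `2^s ≥ 10000`, `s log 2 ≥ log 10000 ≥ 9.2`, so
`L ≥ 9.2 (M+1)^M ≥ (M+1)^M ≥ 1` and `log L ≥ log 9.2 + M log (M+1) ≥ 2.2 + 0.69 M ≥ (M+1)/2`, `≥ 1`.
* `(M+1) q^(2M) ≤ (M+1)^(1+34M) ≤ ((M+1)^M)^35 ≤ L^35 ≤ 10^35 L^(10^35)`;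
* `(M+3)^2 q^(4M) ≤ (M+1)^4 (M+1)^(68M) ≤ L^72` (`M+3 ≤ (M+1)^2`);
* the third left side is `12*13*700000^2*500*4 * q^3 (M+1)^7 ≤ 1.53*10^17 * 8*10^12 * (M+1)^13
  ≤ 1.23*10^30 (M+1)^13 ≤ 1.23*10^30 * 8192 * (log L)^13 ≤ 10^35 (log L)^(10^35)`.
(`x^(a:ℝ) ≥ x^k` for `x ≥ 1`, `k ≤ a`: `Real.rpow_natCast`, `Real.rpow_le_rpow_of_exponent_le`.)
-/

set_option linter.unusedSectionVars false

namespace Pool.Agent.Lib_MP_3a79a1_b

open Finset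
open scoped BigOperators

theorem exists_s (M : ℕ) (hM : 1 ≤ M) : ∃ s : ℕ, 10000 * M ^ 2 ≤ 2 ^ s ∧ 2 ^ s ≤ 20000 * M ^ 2 := by
  have hM2 : 1 ≤ M ^ 2 := Nat.one_le_pow _ _ hM
  have hx : 1 < 10000 * M ^ 2 := by omega
  refine ⟨Nat.clog 2 (10000 * M ^ 2), Nat.le_pow_clog (by norm_num) _, ?_⟩
  have h := Nat.pow_pred_clog_lt_self (b := 2) (by norm_num) hx
  have hpos : 0 < Nat.clog 2 (10000 * M ^ 2) := Nat.clog_pos (by norm_num) hx
  have e : 2 ^ Nat.clog 2 (10000 * M ^ 2) = 2 ^ (Nat.clog 2 (10000 * M ^ 2)).pred * 2 := by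
    rw [← pow_succ]
    congr 1
    exact (Nat.succ_pred_eq_of_pos hpos).symm
  rw [e]
  omega

private lemma pow_big_numer {x : ℝ} (hx : 1 ≤ x) (k : ℕ) (hk : (k : ℝ) ≤ (10 : ℝ) ^ 35) :
    x ^ k ≤ x ^ ((10 : ℝ) ^ 35) := by
  rw [← Real.rpow_natCast]
  exact Real.rpow_le_rpow_of_exponent_le hx hk

private lemma scale_numer {y : ℝ} (hy : 0 ≤ y) : y ≤ 10 ^ 35 * y := by
  have : (1 : ℝ) ≤ 10 ^ 35 := by norm_num
  nlinarith

theorem numerics (M s : ℕ) (hM : 1 ≤ M) (h1 : 10000 * M ^ 2 ≤ 2 ^ s)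
    (h2 : 2 ^ s ≤ 20000 * M ^ 2) :
    ((M : ℝ) + 1) * ((2 : ℝ) ^ s) ^ (2 * M) ≤
      10 ^ 35 * Real.log (2 ^ (s * (M + 1) ^ M)) ^ ((10 : ℝ) ^ 35) ∧
    ((M : ℝ) + 3) ^ 2 * ((2 : ℝ) ^ s) ^ (4 * M) ≤
      10 ^ 35 * Real.log (2 ^ (s * (M + 1) ^ M)) ^ ((10 : ℝ) ^ 35) ∧
    3 * (12 * ((2 : ℝ) ^ s) * (13 * (M + 1) * ((2 : ℝ) ^ s) ^ 2 * (700000 * (M + 1)) ^ 2 *
        (500 * (M + 1) * (M + 1))) * (4 * ((M : ℝ) + 1) ^ 2)) ≤
      10 ^ 35 * Real.log (Real.log (2 ^ (s * (M + 1) ^ M))) ^ ((10 : ℝ) ^ 35) := by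
  have hMR : (1 : ℝ) ≤ M := by exact_mod_cast hM
  have hM2 : 1 ≤ M ^ 2 := Nat.one_le_pow _ _ hM
  -- `14 ≤ s`
  have hs : 14 ≤ s := by
    by_contra h
    have h3 : s ≤ 13 := by omega
    have h4 : 2 ^ s ≤ 2 ^ 13 := Nat.pow_le_pow_right (by norm_num) h3
    have h5 : (2 : ℕ) ^ 13 = 8192 := by norm_num
    omega
  have hsR : (14 : ℝ) ≤ s := by exact_mod_cast hs
  obtain ⟨q, hq⟩ : ∃ q : ℝ, q = (2 : ℝ) ^ s := ⟨_, rfl⟩
  have hq0 : 0 < q := by rw [hq]; positivity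
  have hq2 : q ≤ 20000 * (M : ℝ) ^ 2 := by
    rw [hq]
    exact_mod_cast h2
  obtain ⟨a, ha⟩ : ∃ a : ℝ, a = (M : ℝ) + 1 := ⟨_, rfl⟩
  have ha2 : 2 ≤ a := by rw [ha]; linarith
  have ha1 : 1 ≤ a := by linarith
  have ha0 : 0 < a := by linarith
  have hMa : (M : ℝ) ≤ a := by rw [ha]; linarith
  have hMa2 : (M : ℝ) ^ 2 ≤ a ^ 2 := by
    exact pow_le_pow_left₀ (by linarith) hMa 2
  have hqa : q ≤ a ^ 17 := by
    have h3 : (20000 : ℝ) ≤ a ^ 15 := by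
      have h4 : (2 : ℝ) ^ 15 ≤ a ^ 15 := pow_le_pow_left₀ (by norm_num) ha2 15
      have h5 : (20000 : ℝ) ≤ 2 ^ 15 := by norm_num
      linarith
    calc q ≤ 20000 * (M : ℝ) ^ 2 := hq2
      _ ≤ a ^ 15 * a ^ 2 := mul_le_mul h3 hMa2 (by positivity) (by positivity)
      _ = a ^ 17 := by ring
  -- the logarithm
  obtain ⟨L, hL⟩ : ∃ L : ℝ, L = Real.log (2 ^ (s * (M + 1) ^ M)) := ⟨_, rfl⟩
  have hLe : L = (s : ℝ) * Real.log 2 * a ^ M := by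
    rw [hL, Real.log_pow, ha]
    push_cast
    ring
  have hl2 : (0.6931471803 : ℝ) < Real.log 2 := Real.log_two_gt_d9
  have hsl : Real.exp 1 ≤ (s : ℝ) * Real.log 2 := by
    have h3 := Real.exp_one_lt_d9
    nlinarith
  have haM : 1 ≤ a ^ M := one_le_pow₀ ha1
  have hLa : a ^ M ≤ L := by
    rw [hLe]
    have h3 : (1 : ℝ) ≤ (s : ℝ) * Real.log 2 := by nlinarith
    nlinarith
  have hL1 : 1 ≤ L := haM.trans hLa
  have hL0 : 0 < L := by linarith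
  -- the iterated logarithm
  have hlogL : 1 + (M : ℝ) * Real.log 2 ≤ Real.log L := by
    have h3 : Real.exp 1 * a ^ M ≤ L := by
      rw [hLe]
      exact mul_le_mul_of_nonneg_right hsl (by positivity)
    have h4 : Real.log (Real.exp 1 * a ^ M) ≤ Real.log L := Real.log_le_log (by positivity) h3
    rw [Real.log_mul (Real.exp_pos 1).ne' (by positivity), Real.log_exp, Real.log_pow] at h4
    have h5 : Real.log 2 ≤ Real.log a := Real.log_le_log (by norm_num) ha2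
    have h6 : (M : ℝ) * Real.log 2 ≤ (M : ℝ) * Real.log a :=
      mul_le_mul_of_nonneg_left h5 (by linarith)
    linarith
  have hl1 : 1 ≤ Real.log L := by nlinarith
  have hla : a ≤ 2 * Real.log L := by
    rw [ha]
    nlinarith
  rw [← hq, ← hL, ← ha]
  refine ⟨?_, ?_, ?_⟩
  · have h3 : a * q ^ (2 * M) ≤ L ^ 35 := by
      calc a * q ^ (2 * M) ≤ a * (a ^ 17) ^ (2 * M) := by gcongr
        _ = a ^ (1 + 34 * M) := by
          rw [← pow_mul, pow_add, pow_one]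
          congr 2
          ring
        _ ≤ a ^ (M * 35) := pow_le_pow_right₀ ha1 (by omega)
        _ = (a ^ M) ^ 35 := by rw [pow_mul]
        _ ≤ L ^ 35 := by gcongr
    refine h3.trans ((pow_big_numer hL1 35 (by norm_num)).trans (scale_numer ?_))
    exact Real.rpow_nonneg hL0.le _
  · have hM3 : (M : ℝ) + 3 ≤ a ^ 2 := by
      rw [ha]
      nlinarith
    have h3 : ((M : ℝ) + 3) ^ 2 * q ^ (4 * M) ≤ L ^ 72 := by
      calc ((M : ℝ) + 3) ^ 2 * q ^ (4 * M) ≤ (a ^ 2) ^ 2 * (a ^ 17) ^ (4 * M) := by gcongr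
        _ = a ^ (4 + 68 * M) := by
          rw [← pow_mul, ← pow_mul, pow_add]
          congr 2
          ring
        _ ≤ a ^ (M * 72) := pow_le_pow_right₀ ha1 (by omega)
        _ = (a ^ M) ^ 72 := by rw [pow_mul]
        _ ≤ L ^ 72 := by gcongr
    refine h3.trans ((pow_big_numer hL1 72 (by norm_num)).trans (scale_numer ?_))
    exact Real.rpow_nonneg hL0.le _
  · have hqa2 : q ≤ 20000 * a ^ 2 := hq2.trans (by linarith)
    have h3 : 3 * (12 * q * (13 * a * q ^ 2 * (700000 * a) ^ 2 * (500 * a * a)) * (4 * a ^ 2)) ≤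
        10 ^ 35 * Real.log L ^ 13 := by
      calc 3 * (12 * q * (13 * a * q ^ 2 * (700000 * a) ^ 2 * (500 * a * a)) * (4 * a ^ 2))
          = 458640000000000000 * q ^ 3 * a ^ 7 := by ring
        _ ≤ 458640000000000000 * (20000 * a ^ 2) ^ 3 * a ^ 7 := by gcongr
        _ = 3669120000000000000000000000000 * a ^ 13 := by ring
        _ ≤ 3669120000000000000000000000000 * (2 * Real.log L) ^ 13 := by gcongr
        _ = 30057431040000000000000000000000000 * Real.log L ^ 13 := by ring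
        _ ≤ 10 ^ 35 * Real.log L ^ 13 := by
          gcongr
          norm_num
    refine h3.trans (mul_le_mul_of_nonneg_left (pow_big_numer hl1 13 (by norm_num)) (by norm_num))

end Pool.Agent.Lib_MP_3a79a1_b
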