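import Pool.Agent.Lib_MP_3a79a1_b.PresDefs

/-!
# [RM-PN] Cardinalities and lengths

`q = |F|`.
* `card_U`: `q^m`; `card_L`: `|L_{m+1}| = (m+1) q^m` (induction: `|L'| = |L| q + |U|`);
  `card_V`: `q^((d+1)^m)` (`|V'| = |V|^(d+1)`).
* `card_gen` (`m ≥ 1`, `d = m`): `|Gen| = q^(m+1) + m q^(m-1) q^(m+1) ≤ (m+1) q^(2m)`.
* `card_top` (`m ≥ 1`, `d = m`): level `j` has at most `(3+j) q^(2j+2) q^(m-j)`... In detail
  `|OwnT (sysm j)| = q^(j+1) + q^(j+2) + q^(2j+2) + |L_j| q^2 q^(m+1)`, `|L_j| ≤ j q^(j-1)`; multiplied by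
  `q^(m-j)` each term is `≤ q^(2m+2)` resp. `j q^(2m+2)`.  So `|RelT m| ≤ (m+1)(m+3) q^(2m+2)`, and
  `|TopT| ≤ (m+1)(m+3) q^(2m+2) + m q^(m-1) q^(2m+2) ≤ (m+3)^2 q^(4m)` (`q ≥ 2`).
  (For the induction over the level prove `|RelT F d j| ≤ (j+1)(j+3) q^(j+d+2)` for all `j ≤ d`,
  `1 ≤ d`.)
* `norm_top`: every word is a product of at most four letters and their inverses; `FreeGroup.map`
  does not increase the norm (prove `(FreeGroup.map f w).norm ≤ w.norm` or, simpler, show by
  induction that `relW m r` is of the form `mk L` with `L.length ≤ 4`; `FreeGroup.norm_mk_le`).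
-/

set_option linter.unusedSectionVars false

namespace Pool.Agent.Lib_MP_3a79a1_b

open Finset
open scoped BigOperators

variable {F : Type} [Field F] [Fintype F] [DecidableEq F] {d : ℕ}

private theorem natU_pcard (m : ℕ) : Nat.card (sysm F d m).U = Nat.card F ^ m := by
  induction m with
  | zero =>
    show Nat.card Unit = _
    simp
  | succ m ih =>
    show Nat.card ((sysm F d m).U × F) = _
    rw [Nat.card_prod, ih, pow_succ]

private theorem natL_pcard (m : ℕ) : Nat.card (sysm F d (m + 1)).L = (m + 1) * Nat.card F ^ m := by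
  induction m with
  | zero =>
    show Nat.card ((Empty × F) ⊕ Unit) = _
    simp
  | succ m ih =>
    show Nat.card (((sysm F d (m + 1)).L × F) ⊕ (sysm F d (m + 1)).U) = _
    rw [Nat.card_sum, Nat.card_prod, ih, natU_pcard]
    ring

private theorem natV_pcard (m : ℕ) : Nat.card (sysm F d m).V = Nat.card F ^ ((d + 1) ^ m) := by
  induction m with
  | zero =>
    show Nat.card F = _
    simp
  | succ m ih =>
    show Nat.card (Fin (d + 1) → (sysm F d m).V) = _
    rw [Nat.card_fun, ih, Nat.card_fin, ← pow_mul, ← pow_succ]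

private theorem natF_pcard : Nat.card (Fin (d + 1) → F) = Nat.card F ^ (d + 1) := by
  rw [Nat.card_fun, Nat.card_fin]

private theorem pos_pcard : 1 ≤ Nat.card F := Nat.card_pos

private theorem own_pcard (S : Sys F d) : Nat.card (OwnT S) = Nat.card S.U * Nat.card F +
    (Nat.card S.U * (Nat.card F * Nat.card F) + ((Nat.card S.U * Nat.card F) * (Nat.card S.U * Nat.card F) +
      Nat.card S.L * (Nat.card F * (Nat.card F * Nat.card F ^ (d + 1))))) := by
  unfold OwnT
  rw [Nat.card_sum, Nat.card_sum, Nat.card_sum, Nat.card_prod, Nat.card_prod, Nat.card_prod, Nat.card_prod,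
    Nat.card_prod, Nat.card_prod, Nat.card_prod, Nat.card_prod, natF_pcard]

private theorem rel_pcard (j : ℕ) (hj : j ≤ d) (hd : 1 ≤ d) :
    Nat.card (RelT F d j) ≤ (j + 1) * (j + 3) * Nat.card F ^ (j + d + 2) := by
  have hq := pos_pcard (F := F)
  induction j with
  | zero =>
    have h0 : Nat.card (RelT F d 0) = Nat.card (OwnT (sysm F d 0)) := rfl
    have hL : Nat.card (sysm F d 0).L = 0 := by
      show Nat.card Empty = 0
      simp
    rw [h0, own_pcard, natU_pcard, hL]
    set q := Nat.card F with hqd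
    have h1 : q ^ 1 ≤ q ^ (0 + d + 2) := Nat.pow_le_pow_right hq (by omega)
    have h2 : q ^ 2 ≤ q ^ (0 + d + 2) := Nat.pow_le_pow_right hq (by omega)
    calc q ^ 0 * q + (q ^ 0 * (q * q) + (q ^ 0 * q * (q ^ 0 * q) + 0 * (q * (q * q ^ (d + 1))))) =
        q ^ 1 + q ^ 2 + q ^ 2 := by ring
      _ ≤ (0 + 1) * (0 + 3) * q ^ (0 + d + 2) := by omega
  | succ j ih =>
    have h0 : Nat.card (RelT F d (j + 1)) = Nat.card (OwnT (sysm F d (j + 1)) ⊕ (F × RelT F d j)) := rfl
    have ih' := ih (by omega)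
    rw [h0, Nat.card_sum, Nat.card_prod, own_pcard, natU_pcard, natL_pcard]
    set q := Nat.card F with hqd
    set r := Nat.card (RelT F d j) with hr
    set T := q ^ (j + 1 + d + 2) with hT
    have h1 : q ^ (j + 2) ≤ T := Nat.pow_le_pow_right hq (by omega)
    have h2 : q ^ (j + 3) ≤ T := Nat.pow_le_pow_right hq (by omega)
    have h3 : q ^ (2 * j + 4) ≤ T := Nat.pow_le_pow_right hq (by omega)
    have h4 : q * r ≤ (j + 1) * (j + 3) * T := by
      calc q * r ≤ q * ((j + 1) * (j + 3) * q ^ (j + d + 2)) := Nat.mul_le_mul_left _ ih'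
        _ = (j + 1) * (j + 3) * T := by rw [hT]; ring
    calc q ^ (j + 1) * q + (q ^ (j + 1) * (q * q) + (q ^ (j + 1) * q * (q ^ (j + 1) * q) +
          (j + 1) * q ^ j * (q * (q * q ^ (d + 1))))) + q * r =
        q ^ (j + 2) + q ^ (j + 3) + q ^ (2 * j + 4) + (j + 1) * T + q * r := by rw [hT]; ring
      _ ≤ T + T + T + (j + 1) * T + (j + 1) * (j + 3) * T := by
        have := Nat.add_le_add (Nat.add_le_add (Nat.add_le_add h1 h2) h3) h4
        omega
      _ ≤ (j + 1 + 1) * (j + 1 + 3) * T := by nlinarith [Nat.zero_le T, Nat.zero_le (j * T)]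

private theorem map_pcard {A B : Type} [DecidableEq A] [DecidableEq B] (f : A → B) (w : FreeGroup A) :
    (FreeGroup.map f w).norm ≤ w.norm := by
  conv_lhs => rw [← FreeGroup.mk_toWord (x := w)]
  rw [FreeGroup.map.mk]
  refine (FreeGroup.norm_mk_le).trans ?_
  rw [List.length_map]
  exact le_rfl

private theorem n2_pcard {A : Type} [DecidableEq A] (x y : FreeGroup A) {a b : ℕ} (hx : x.norm ≤ a) (hy : y.norm ≤ b) :
    (x * y).norm ≤ a + b := (FreeGroup.norm_mul_le x y).trans (Nat.add_le_add hx hy)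

private theorem n1_pcard {A : Type} [DecidableEq A] (a : A) : (FreeGroup.of a).norm ≤ 1 :=
  (FreeGroup.norm_of a).le

private theorem ni_pcard {A : Type} [DecidableEq A] {x : FreeGroup A} {a : ℕ} (hx : x.norm ≤ a) :
    (x⁻¹).norm ≤ a := by
  rw [FreeGroup.norm_inv_eq]
  exact hx

private theorem ownW_pcard (S : Sys F d) (r : OwnT S) : (ownW S r).norm ≤ 4 := by
  rcases r with s | p | p | p
  · exact (n2_pcard _ _ (n1_pcard _) (n1_pcard _)).trans (by norm_num)
  · exact (n2_pcard _ _ (n2_pcard _ _ (n1_pcard _) (n1_pcard _)) (ni_pcard (n1_pcard _))).trans (by norm_num)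
  · exact (n2_pcard _ _ (n2_pcard _ _ (n1_pcard _) (n1_pcard _))
      (ni_pcard (n2_pcard _ _ (n1_pcard _) (n1_pcard _)))).trans (by norm_num)
  · exact (n2_pcard _ _ (n1_pcard _) (ni_pcard (n2_pcard _ _ (n1_pcard _) (n1_pcard _)))).trans (by norm_num)

private theorem relW_pcard (m : ℕ) (r : RelT F d m) : (relW F d m r).norm ≤ 4 := by
  induction m with
  | zero => exact ownW_pcard (sysm F d 0) r
  | succ m ih =>
    rcases r with r | p
    · exact ownW_pcard (sysm F d (m + 1)) r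
    · exact (map_pcard (sl (sysm F d m) p.1) (relW F d m p.2)).trans (ih p.2)

theorem card_U (m : ℕ) : Fintype.card (sysm F d m).U = Fintype.card F ^ m := by
  rw [Fintype.card_eq_nat_card, Fintype.card_eq_nat_card, natU_pcard]

theorem card_L (m : ℕ) :
    Fintype.card (sysm F d (m + 1)).L = (m + 1) * Fintype.card F ^ m := by
  rw [Fintype.card_eq_nat_card, Fintype.card_eq_nat_card, natL_pcard]

theorem card_V (m : ℕ) : Fintype.card (sysm F d m).V = Fintype.card F ^ ((d + 1) ^ m) := by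
  rw [Fintype.card_eq_nat_card, Fintype.card_eq_nat_card, natV_pcard]

theorem card_gen (m : ℕ) (hm : 1 ≤ m) :
    Fintype.card (Gen (sysm F m m)) ≤ (m + 1) * Fintype.card F ^ (2 * m) := by
  obtain ⟨n, rfl⟩ : ∃ n, m = n + 1 := ⟨m - 1, by omega⟩
  rw [Fintype.card_eq_nat_card, Fintype.card_eq_nat_card]
  unfold Gen
  rw [Nat.card_sum, Nat.card_prod, Nat.card_prod, natU_pcard, natL_pcard, natF_pcard]
  have hq := pos_pcard (F := F)
  set q := Nat.card F with hqd
  have h1 : q ^ (n + 2) ≤ q ^ (2 * (n + 1)) := Nat.pow_le_pow_right hq (by omega)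
  calc q ^ (n + 1) * q + (n + 1) * q ^ n * q ^ (n + 1 + 1) = q ^ (n + 2) + (n + 1) * q ^ (2 * (n + 1)) := by ring
    _ ≤ q ^ (2 * (n + 1)) + (n + 1) * q ^ (2 * (n + 1)) := Nat.add_le_add_right h1 _
    _ = (n + 1 + 1) * q ^ (2 * (n + 1)) := by ring

theorem card_top (m : ℕ) (hm : 1 ≤ m) :
    Fintype.card (TopT F m m) ≤ (m + 3) ^ 2 * Fintype.card F ^ (4 * m) := by
  rw [Fintype.card_eq_nat_card, Fintype.card_eq_nat_card]
  unfold TopT
  rw [Nat.card_sum, Nat.card_prod, Nat.card_prod, natF_pcard]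
  have h0 := rel_pcard (F := F) (d := m) m le_rfl hm
  obtain ⟨n, hn⟩ : ∃ n, m = n + 1 := ⟨m - 1, by omega⟩
  have hL : Nat.card (sysm F m m).L = m * Nat.card F ^ n := by
    have := natL_pcard (F := F) (d := m) n
    rw [← hn] at this
    exact this
  rw [hL]
  have hq := pos_pcard (F := F)
  set q := Nat.card F with hqd
  have h1 : q ^ (m + m + 2) ≤ q ^ (4 * m) := Nat.pow_le_pow_right hq (by omega)
  have h2 : q ^ (3 * m + 1) ≤ q ^ (4 * m) := Nat.pow_le_pow_right hq (by omega)
  have h3 : m * q ^ n * (q ^ (m + 1) * q ^ (m + 1)) = m * q ^ (3 * m + 1) := by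
    rw [mul_assoc, ← pow_add, ← pow_add]
    congr 2
    omega
  rw [h3]
  set T := q ^ (4 * m) with hT
  calc Nat.card (RelT F m m) + m * q ^ (3 * m + 1) ≤ (m + 1) * (m + 3) * T + m * T :=
        Nat.add_le_add (h0.trans (Nat.mul_le_mul_left _ h1)) (Nat.mul_le_mul_left _ h2)
    _ ≤ (m + 3) ^ 2 * T := by nlinarith [Nat.zero_le T, Nat.zero_le (m * T)]

theorem norm_top (m : ℕ) (r : TopT F d m) : (topW F d m r).norm ≤ 4 := by
  rcases r with r | p
  · exact relW_pcard m r
  · exact (n2_pcard _ _ (n1_pcard _) (ni_pcard (n2_pcard _ _ (n1_pcard _) (n1_pcard _)))).trans (by norm_num)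

end Pool.Agent.Lib_MP_3a79a1_b
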