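import Pool.Agent.Lib_MP_3a79a1_b.GoodAll

/-!
# [RM-SP] No proper subgroup contains much of the generators

`H` a proper subgroup of `V`: the finite abelian group `V/H` is nontrivial, so it has a nontrivial
character (`AddChar.exists_apply_ne_zero` or similar); composing, a character `χ ≠ 1` of `V` which is
`1` on `H`.  For `v : V` the set `{b : F | χ (b • v) = 1}` is a subgroup of `F`: all of `F` or of
size `≤ q/2`.  So `𝔼 b ind (χ (b • v) = 1) ≤ 1/2 + 1/2 ind (∀ b, χ (b • v) = 1)`.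
* points: average over `u`, `Good.chr`.
* lines: the kernel of `γ ↦ χ (lin l γ)` is all of `F^{d+1}` or at most half of it, so
  `𝔼 γ ind (χ (lin l γ) = 1) ≤ 1/2 + 1/2 ind (∀ γ, χ (lin l γ) = 1)`; if `χ ∘ lin l` is trivial then
  for every `t`: `∀ b, χ (b • pt (lpt l t)) = 1` (`lin_e`).  So
  `ind (∀ γ, χ (lin l γ) = 1) ≤ 𝔼 t ind (∀ b, χ (b • pt (lpt l t)) = 1)` and the average over `l` is
  `(1/(|L| q)) ∑ l ∑ t .. = 𝔼 u ind (∀ b, χ (b • pt u) = 1) ≤ m d/q` (`Good.inc`; `|L| q = m |U|`).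
-/

set_option linter.unusedSectionVars false

namespace Pool.Agent.Lib_MP_3a79a1_b

open Finset
open scoped BigOperators

variable {F : Type} [Field F] [Fintype F] [DecidableEq F] {d : ℕ}

/-- a character is trivial on everything or on at most one half -/
private theorem half_pspread {W : Type} [AddCommGroup W] [Fintype W] (ψ : W → ℂ)
    (hψ : ∀ a b, ψ (a + b) = ψ a * ψ b) :
    𝔼 b, ind (ψ b = 1) ≤ 1 / 2 + 1 / 2 * ind (∀ b, ψ b = 1) := by
  by_cases h : ∀ b, ψ b = 1
  · rw [ind_true h]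
    calc 𝔼 b, ind (ψ b = 1) ≤ 𝔼 _b : W, (1 : ℝ) :=
          Finset.expect_le_expect fun b _ => ind_le_one _
      _ = 1 / 2 + 1 / 2 * 1 := by rw [Fintype.expect_const]; norm_num
  · rw [ind_false h]
    push Not at h
    obtain ⟨b0, hb0⟩ := h
    have h1 : 𝔼 b, ind (ψ (b + b0) = 1) = 𝔼 b, ind (ψ b = 1) :=
      Fintype.expect_equiv (Equiv.addRight b0) _ _ fun b => rfl
    have h2 : 𝔼 b, (ind (ψ b = 1) + ind (ψ (b + b0) = 1)) ≤ 𝔼 _b : W, (1 : ℝ) := by
      refine Finset.expect_le_expect fun b _ => ?_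
      by_cases hb : ψ b = 1
      · have h3 : ψ (b + b0) ≠ 1 := by rwa [hψ, hb, one_mul]
        rw [ind_true hb, ind_false h3, add_zero]
      · rw [ind_false hb, zero_add]
        exact ind_le_one _
    rw [Finset.expect_add_distrib, h1, Fintype.expect_const] at h2
    linarith

/-- a nontrivial character which is trivial on `H` -/
private theorem exists_char_pspread {V : Type} [AddCommGroup V] [Finite V] (H : AddSubgroup V)
    (hH : H ≠ ⊤) : ∃ χ : AddChar V ℂ, χ ≠ 1 ∧ ∀ v ∈ H, χ v = 1 := by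
  obtain ⟨v, hv⟩ : ∃ v, v ∉ H := by
    by_contra h
    push Not at h
    exact hH ((AddSubgroup.eq_top_iff' H).2 h)
  have h1 : (QuotientAddGroup.mk' H v : V ⧸ H) ≠ 0 := fun h =>
    hv ((QuotientAddGroup.eq_zero_iff v).1 h)
  have : Finite (V ⧸ H) := inferInstance
  obtain ⟨ψ, hψ⟩ := AddChar.exists_apply_ne_zero.2 h1
  refine ⟨ψ.compAddMonoidHom (QuotientAddGroup.mk' H), fun h => hψ ?_, fun w hw => ?_⟩
  · have h2 := DFunLike.congr_fun h v
    exact h2
  · have h2 : (QuotientAddGroup.mk' H w : V ⧸ H) = 0 := (QuotientAddGroup.eq_zero_iff w).2 hw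
    change ψ (QuotientAddGroup.mk' H w) = 1
    rw [h2, AddChar.map_zero_eq_one]

/-- `𝔼` over a product -/
private theorem expect_prod_pspread {A B : Type} [Fintype A] [Fintype B] (f : A × B → ℝ) :
    𝔼 p, f p = 𝔼 a, 𝔼 b, f (a, b) := by
  rw [← Finset.univ_product_univ, Finset.expect_product]

theorem spread_pts {S : Sys F d} {m : ℕ} (hS : Good S m) (H : AddSubgroup S.V) (hH : H ≠ ⊤) :
    𝔼 s : S.U × F, ind (hatS S s ∈ H) ≤ 1 / 2 + 1 / 2 * (m * d / Fintype.card F) := by
  obtain ⟨χ, hχ, hχH⟩ := exists_char_pspread H hH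
  rw [expect_prod_pspread]
  calc 𝔼 u : S.U, 𝔼 b : F, ind (hatS S (u, b) ∈ H)
      ≤ 𝔼 u : S.U, (1 / 2 + 1 / 2 * ind (∀ b : F, χ (b • S.pt u) = 1)) := by
        refine Finset.expect_le_expect fun u _ => ?_
        refine le_trans (Finset.expect_le_expect fun b _ =>
          ind_mono (q := χ (b • S.pt u) = 1) fun h => hχH _ h) ?_
        exact half_pspread (fun b : F => χ (b • S.pt u)) fun a b => by
          rw [add_smul, AddChar.map_add_eq_mul]
    _ = 1 / 2 + 1 / 2 * 𝔼 u : S.U, ind (∀ b : F, χ (b • S.pt u) = 1) := by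
        rw [Finset.expect_add_distrib, Fintype.expect_const, Finset.mul_expect]
    _ ≤ 1 / 2 + 1 / 2 * (m * d / Fintype.card F) := by
        have := hS.chr χ hχ
        linarith

theorem spread_lines {S : Sys F d} {m : ℕ} (hS : Good S m) (hm : 1 ≤ m) (H : AddSubgroup S.V)
    (hH : H ≠ ⊤) :
    𝔼 l : S.L × (Fin (d + 1) → F), ind (S.lin l.1 l.2 ∈ H) ≤
      1 / 2 + 1 / 2 * (m * d / Fintype.card F) := by
  obtain ⟨χ, hχ, hχH⟩ := exists_char_pspread H hH
  -- the count
  have hq : (0 : ℝ) < Fintype.card F := Nat.cast_pos.2 Fintype.card_pos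
  have hU : (0 : ℝ) < Fintype.card S.U := Nat.cast_pos.2 Fintype.card_pos
  have hcount : (Fintype.card S.L : ℝ) * Fintype.card F = m * Fintype.card S.U := by
    have h := hS.inc fun _ => 1
    simpa using h
  have hL : (0 : ℝ) < Fintype.card S.L := by
    have h1 : (0 : ℝ) < m * Fintype.card S.U := mul_pos (Nat.cast_pos.2 hm) hU
    rw [← hcount] at h1
    exact pos_of_mul_pos_left h1 hq.le
  have : Nonempty S.L := Fintype.card_pos_iff.1 (by exact_mod_cast hL)
  have hav : ∀ g : S.U → ℝ, 𝔼 l : S.L, 𝔼 t : F, g (S.lpt l t) = 𝔼 u, g u := by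
    intro g
    have h1 : 𝔼 l : S.L, 𝔼 t : F, g (S.lpt l t)
        = (∑ l : S.L, ∑ t : F, g (S.lpt l t)) / (Fintype.card S.L * Fintype.card F) := by
      simp only [Fintype.expect_eq_sum_div_card]
      rw [← Finset.sum_div, div_div, mul_comm]
    rw [h1, hS.inc g, hcount, Fintype.expect_eq_sum_div_card]
    have hm' : (m : ℝ) ≠ 0 := by
      have : (0 : ℝ) < m := Nat.cast_pos.2 hm
      exact this.ne'
    rw [mul_div_mul_left _ _ hm']
  rw [expect_prod_pspread]
  calc 𝔼 l : S.L, 𝔼 γ : Fin (d + 1) → F, ind (S.lin (l, γ).1 (l, γ).2 ∈ H)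
      ≤ 𝔼 l : S.L, (1 / 2 + 1 / 2 * ind (∀ γ, χ (S.lin l γ) = 1)) := by
        refine Finset.expect_le_expect fun l _ => ?_
        refine le_trans (Finset.expect_le_expect fun γ _ =>
          ind_mono (q := χ (S.lin l γ) = 1) fun h => hχH _ h) ?_
        exact half_pspread (fun γ : Fin (d + 1) → F => χ (S.lin l γ)) fun a b => by
          rw [hS.lin_add, AddChar.map_add_eq_mul]
    _ = 1 / 2 + 1 / 2 * 𝔼 l : S.L, ind (∀ γ, χ (S.lin l γ) = 1) := by
        rw [Finset.expect_add_distrib, Fintype.expect_const, Finset.mul_expect]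
    _ ≤ 1 / 2 + 1 / 2 * 𝔼 l : S.L, 𝔼 t : F, ind (∀ b : F, χ (b • S.pt (S.lpt l t)) = 1) := by
        have h1 : 𝔼 l : S.L, ind (∀ γ, χ (S.lin l γ) = 1)
            ≤ 𝔼 l : S.L, 𝔼 t : F, ind (∀ b : F, χ (b • S.pt (S.lpt l t)) = 1) := by
          refine Finset.expect_le_expect fun l _ => ?_
          by_cases h : ∀ γ, χ (S.lin l γ) = 1
          · have h2 : ∀ t : F, ind (∀ b : F, χ (b • S.pt (S.lpt l t)) = 1) = 1 := fun t =>
              ind_true fun b => by rw [← hS.lin_e]; exact h _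
            simp only [h2]
            rw [Fintype.expect_const, ind_true h]
          · rw [ind_false h]
            exact Finset.expect_nonneg fun t _ => ind_nonneg _
        linarith
    _ = 1 / 2 + 1 / 2 * 𝔼 u : S.U, ind (∀ b : F, χ (b • S.pt u) = 1) := by
        rw [hav fun u => ind (∀ b : F, χ (b • S.pt u) = 1)]
    _ ≤ 1 / 2 + 1 / 2 * (m * d / Fintype.card F) := by
        have := hS.chr χ hχ
        linarith

end Pool.Agent.Lib_MP_3a79a1_b
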