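import Pool.Agent.Lib_MP_3a79a1_b.Defs

/-!
# [RM-TF] From indexed relations to a set of relations

`R = univ.image w`, `μ r = (∑ i with w i = r, m i) / ∑ i, m i`; `Finset.sum_fiberwise` /
`Finset.sum_image` / `Finset.sum_comm'`.
-/

set_option linter.unusedSectionVars false

namespace Pool.Agent.Lib_MP_3a79a1_b

open Finset
open scoped BigOperators

open Classical in
/-- push-forward of the weights `m` along `w`, normalised -/
noncomputable def pushW {I G : Type} [Fintype I] (w : I → G) (m : I → ℝ) (r : G) : ℝ :=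
  (∑ i ∈ Finset.univ.filter (fun i => w i = r), m i) / ∑ i, m i

open Classical in
/-- the set of values of `w` -/
noncomputable def imW {I G : Type} [Fintype I] (w : I → G) : Finset G := Finset.univ.image w

theorem mem_imW {I G : Type} [Fintype I] (w : I → G) (r : G) : r ∈ imW w ↔ ∃ i, w i = r := by
  classical
  rw [imW, Finset.mem_image]
  exact ⟨fun ⟨i, _, h⟩ => ⟨i, h⟩, fun ⟨i, h⟩ => ⟨i, Finset.mem_univ _, h⟩⟩

theorem coe_imW {I G : Type} [Fintype I] (w : I → G) : (imW w : Set G) = Set.range w := by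
  ext r
  rw [Finset.mem_coe, mem_imW]
  rfl

theorem card_imW {I G : Type} [Fintype I] (w : I → G) : (imW w).card ≤ Fintype.card I := by
  classical
  rw [imW]
  exact Finset.card_image_le

theorem pushW_pos {I G : Type} [Fintype I] (w : I → G) (m : I → ℝ) (hm : ∀ i, 0 < m i) {r : G}
    (hr : r ∈ imW w) : 0 < pushW w m r := by
  classical
  obtain ⟨i, hi⟩ := (mem_imW w r).1 hr
  rw [pushW]
  refine div_pos (Finset.sum_pos (fun j _ => hm j) ⟨i, ?_⟩)
    (Finset.sum_pos (fun j _ => hm j) ⟨i, Finset.mem_univ _⟩)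
  rw [Finset.mem_filter]
  exact ⟨Finset.mem_univ _, hi⟩

theorem sum_pushW {I G : Type} [Fintype I] (w : I → G) (m : I → ℝ) (f : G → ℝ) :
    ∑ r ∈ imW w, pushW w m r * f r = (∑ i, m i * f (w i)) / ∑ i, m i := by
  classical
  have h1 : ∀ r, pushW w m r * f r
      = (∑ i ∈ Finset.univ.filter (fun i => w i = r), m i * f (w i)) / ∑ i, m i := by
    intro r
    rw [pushW, div_mul_eq_mul_div, Finset.sum_mul]
    congr 1
    refine Finset.sum_congr (by ext i; simp) fun i hi => ?_
    rw [Finset.mem_filter] at hi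
    rw [hi.2]
  rw [Finset.sum_congr rfl fun r _ => h1 r, ← Finset.sum_div]
  congr 1
  exact Finset.sum_fiberwise_of_maps_to (fun i _ => (mem_imW w (w i)).2 ⟨i, rfl⟩)
    fun i => m i * f (w i)

theorem sum_pushW_one {I G : Type} [Fintype I] [Nonempty I] (w : I → G) (m : I → ℝ)
    (hm : ∀ i, 0 < m i) : ∑ r ∈ imW w, pushW w m r = 1 := by
  have h := sum_pushW w m fun _ => 1
  simp only [mul_one] at h
  rw [h]
  exact div_self (Finset.sum_pos (fun i _ => hm i) Finset.univ_nonempty).ne'

end Pool.Agent.Lib_MP_3a79a1_b
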