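import Pool.Agent.Lib_MP_3a79a1_b.StabDefs
import Pool.Agent.Lib_MP_3a79a1_b.MainS
import Pool.Agent.Lib_MP_3a79a1_b.PSpread
import Pool.Agent.Lib_MP_3a79a1_b.PCard
import Pool.Agent.Lib_MP_3a79a1_b.Numer
import Pool.Agent.Lib_MP_3a79a1_b.EAeq
import Pool.Agent.Lib_MP_3a79a1_b.Trans2
import Pool.Agent.Lib_MP_3a79a1_b.Hd
import Pool.Agent.Lib_MP_3a79a1_b.CleanC

/-!
# The family of presentations
-/

set_option linter.unusedSectionVars false

namespace Pool.Agent.Lib_MP_3a79a1_b.Stab

open Pool.Agent.Lib_MP_3a79a1_b Finset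
open scoped BigOperators

lemma hDist_eq {n N : ℕ} (σ : Equiv.Perm (Fin n)) (τ : Equiv.Perm (Fin N)) :
    hDist σ τ = Lib_MP_3a79a1_b.hDist σ τ := rfl

lemma distHom_le {S : Type} [Fintype S] (R : Finset (FreeGroup S)) (μS : S → ℝ)
    (hμ : ∀ s, 0 ≤ μS s) {n N : ℕ}
    (α : S → Equiv.Perm (Fin n)) (hN : 2 ≤ N) (β : S → Equiv.Perm (Fin N))
    (hβ : ∀ r ∈ R, FreeGroup.lift β r = 1) :
    distHom R μS α ≤ ∑ s, μS s * hDist (α s) (β s) := by
  refine csInf_le ⟨0, ?_⟩ ⟨N, β, hN, hβ, rfl⟩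
  rintro t ⟨N, β, _, _, rfl⟩
  exact Finset.sum_nonneg (fun s _ => mul_nonneg (hμ s) (by rw [hDist_eq]; exact hDist_nonneg' _ _))

/-- the distribution on the generators: half uniform on the points, half uniform on the lines -/
noncomputable def muS {P L : Type} [Fintype P] [Fintype L] : P ⊕ L → ℝ
  | Sum.inl _ => 1 / 2 * (1 / Fintype.card P)
  | Sum.inr _ => 1 / 2 * (1 / Fintype.card L)

lemma sum_muS {P L : Type} [Fintype P] [Fintype L] (f : P ⊕ L → ℝ) :
    ∑ s, muS s * f s = 1 / 2 * 𝔼 p : P, f (Sum.inl p) + 1 / 2 * 𝔼 l : L, f (Sum.inr l) := by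
  rw [Fintype.sum_sum_type, Fintype.expect_eq_sum_div_card, Fintype.expect_eq_sum_div_card]
  congr 1
  · simp only [muS]
    rw [← Finset.mul_sum]
    ring
  · simp only [muS]
    rw [← Finset.mul_sum]
    ring

lemma muS_pos {P L : Type} [Fintype P] [Fintype L] (s : P ⊕ L) : 0 < muS s := by
  rcases s with p | l
  · have : 0 < Fintype.card P := Fintype.card_pos_iff.2 ⟨p⟩
    simp only [muS]
    positivity
  · have : 0 < Fintype.card L := Fintype.card_pos_iff.2 ⟨l⟩
    simp only [muS]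
    positivity

lemma muS_sum {P L : Type} [Fintype P] [Fintype L] [Nonempty P] [Nonempty L] :
    ∑ s : P ⊕ L, muS s = 1 := by
  have := sum_muS (fun _ : P ⊕ L => (1 : ℝ))
  simp only [mul_one, Fintype.expect_const] at this
  rw [this]
  norm_num

/-- additive equivalence `V ≃+ (Fin k → ZMod 2)` to a multiplicative one with `EA k` -/
def toEA {V : Type} [AddCommGroup V] {k : ℕ} (f : V ≃+ (Fin k → ZMod 2)) :
    Multiplicative V ≃* EA k where
  toFun v := fun i => Multiplicative.ofAdd (f (Multiplicative.toAdd v) i)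
  invFun v := Multiplicative.ofAdd (f.symm (fun i => Multiplicative.toAdd (v i)))
  left_inv v := by simp
  right_inv v := by
    funext i
    simp
  map_mul' v w := by
    funext i
    simp

/-- the additive subgroup of `V` corresponding to a subgroup of `EA k` -/
def pullSub {V : Type} [AddCommGroup V] {k : ℕ} (f : Multiplicative V ≃* EA k)
    (H : Subgroup (EA k)) : AddSubgroup V where
  carrier := {v | f (Multiplicative.ofAdd v) ∈ H}
  zero_mem' := by
    simp only [Set.mem_setOf_eq, ofAdd_zero, map_one]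
    exact H.one_mem
  add_mem' {a b} ha hb := by
    simp only [Set.mem_setOf_eq] at ha hb ⊢
    rw [ofAdd_add, map_mul]
    exact H.mul_mem ha hb
  neg_mem' {a} ha := by
    simp only [Set.mem_setOf_eq] at ha ⊢
    rw [ofAdd_neg, map_inv]
    exact H.inv_mem ha

lemma mem_pullSub {V : Type} [AddCommGroup V] {k : ℕ} (f : Multiplicative V ≃* EA k)
    (H : Subgroup (EA k)) (v : V) :
    v ∈ pullSub f H ↔ f (Multiplicative.ofAdd v) ∈ H := Iff.rfl

lemma pullSub_ne_top {V : Type} [AddCommGroup V] {k : ℕ} (f : Multiplicative V ≃* EA k)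
    (H : Subgroup (EA k)) (hH : H ≠ ⊤) : pullSub f H ≠ ⊤ := by
  intro h
  apply hH
  rw [Subgroup.eq_top_iff']
  intro x
  have h1 : Multiplicative.toAdd (f.symm x) ∈ pullSub f H := by
    rw [h]
    exact AddSubgroup.mem_top _
  rw [mem_pullSub, ofAdd_toAdd, MulEquiv.apply_symm_apply] at h1
  exact h1

lemma add_self_zero {F V : Type} [Field F] [CharP F 2] [AddCommGroup V] [Module F V] (v : V) :
    v + v = 0 := by
  have h : (1 : F) + 1 = 0 := CharTwo.add_self_eq_zero 1
  have : ((1 : F) + 1) • v = v + v := by rw [add_smul, one_smul]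
  rw [← this, h, zero_smul]

lemma of_mul_of_ne {T : Type} (g : T) : FreeGroup.of g * FreeGroup.of g ≠ 1 := by
  intro h
  let φ : FreeGroup T →* Multiplicative ℤ :=
    FreeGroup.lift (fun _ : T => (Multiplicative.ofAdd (1 : ℤ)))
  have h1 : φ (FreeGroup.of g * FreeGroup.of g) = φ 1 := by rw [h]
  have h2 : φ (FreeGroup.of g) = Multiplicative.ofAdd (1 : ℤ) := FreeGroup.lift_apply_of
  rw [MonoidHom.map_mul φ, MonoidHom.map_one φ, h2] at h1
  have h3 : (1 : ℤ) + 1 = 0 := h1
  omega

theorem exists_fam (M : ℕ) (hM : 1 ≤ M) : ∃ k ≥ M,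
    ∃ (S : Type) (_ : Fintype S) (_ : DecidableEq S) (R : Finset (FreeGroup S)) (μS : S → ℝ)
      (μR : FreeGroup S → ℝ) (e : PresentedGroup (R : Set (FreeGroup S)) ≃* EA k),
      (∀ s t, e (PresentedGroup.of s) = e (PresentedGroup.of t) → s = t) ∧
      (∀ s, e (PresentedGroup.of s) ≠ 1) ∧
      (∀ s, 0 < μS s) ∧ ∑ s, μS s = 1 ∧ (∀ r ∈ R, 0 < μR r) ∧ ∑ r ∈ R, μR r = 1 ∧
      (Fintype.card S : ℝ) ≤ 10 ^ 35 * Real.log (Nat.card (EA k)) ^ ((10 : ℝ) ^ 35) ∧
      (R.card : ℝ) ≤ 10 ^ 35 * Real.log (Nat.card (EA k)) ^ ((10 : ℝ) ^ 35) ∧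
      (∀ r ∈ R, r.norm ≤ 4) ∧
      (∀ H : Subgroup (EA k), H ≠ ⊤ →
        ∑ s, μS s * ind (e (PresentedGroup.of s) ∈ H) ≤ 51 / 100) ∧
      IsStable R μS μR (fun ε =>
        10 ^ 35 * Real.log (Real.log (Nat.card (EA k))) ^ ((10 : ℝ) ^ 35) * ε) := by
  classical
  obtain ⟨s, hs1, hs2⟩ := exists_s M hM
  have hs0 : s ≠ 0 := by
    rintro rfl
    have : 1 ≤ M ^ 2 := Nat.one_le_pow _ _ hM
    omega
  haveI : Fact (Nat.Prime 2) := ⟨Nat.prime_two⟩
  let F := GaloisField 2 s
  letI : Fintype F := Fintype.ofFinite F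
  have hcF : Fintype.card F = 2 ^ s := by
    rw [← Nat.card_eq_fintype_card]
    exact GaloisField.card 2 s hs0
  have hcFR : (Fintype.card F : ℝ) = 2 ^ s := by
    rw [hcF]
    push_cast
    rfl
  have hqpos : (0 : ℝ) < 2 ^ s := by positivity
  have hs1R : (10000 : ℝ) * (M : ℝ) ^ 2 ≤ 2 ^ s := by exact_mod_cast hs1
  have hq : (M : ℝ) * M / Fintype.card F ≤ 1 / 10000 := by
    rw [hcFR, div_le_iff₀ hqpos]
    nlinarith
  have hcard : Fintype.card (Fin (M + 1)) ≤ Fintype.card F := by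
    rw [Fintype.card_fin, hcF]
    nlinarith
  obtain ⟨c⟩ := Function.Embedding.nonempty_of_card_le hcard
  obtain ⟨e0, he0⟩ := pres_iso (F := F) (d := M) c c.injective M
  have hcV : Fintype.card (sysm F M M).V = 2 ^ (s * (M + 1) ^ M) := by
    rw [card_V, hcF, ← pow_mul]
  obtain ⟨f⟩ := ea_equiv (V := (sysm F M M).V) (fun v => add_self_zero (F := F) v) _ hcV
  have hcG : Nat.card (EA (s * (M + 1) ^ M)) = 2 ^ (s * (M + 1) ^ M) := by
    rw [Nat.card_eq_fintype_card, Fintype.card_fun, Fintype.card_fin]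
    rfl
  have hcGR : ((Nat.card (EA (s * (M + 1) ^ M)) : ℕ) : ℝ) = 2 ^ (s * (M + 1) ^ M) := by
    rw [hcG]
    push_cast
    rfl
  obtain ⟨hn1, hn2, hn3⟩ := numerics M s hM hs1 hs2
  have hkM : M ≤ s * (M + 1) ^ M := by
    have h1 : M ≤ (M + 1) ^ M := by
      calc M ≤ M + 1 := Nat.le_succ _
        _ = (M + 1) ^ 1 := (pow_one _).symm
        _ ≤ (M + 1) ^ M := Nat.pow_le_pow_right (by omega) hM
    calc M ≤ (M + 1) ^ M := h1
      _ ≤ s * (M + 1) ^ M := Nat.le_mul_of_pos_left _ (Nat.pos_of_ne_zero hs0)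
  -- the value of a generator
  set e : PresentedGroup (Set.range (topW F M M)) ≃* EA (s * (M + 1) ^ M) :=
    e0.trans (toEA f) with he
  let val : Gen (sysm F M M) → EA (s * (M + 1) ^ M) := fun g => e (PresentedGroup.of g)
  have hof : ∀ g, val g = toEA f (Multiplicative.ofAdd (vecS (sysm F M M) g)) := by
    intro g
    show e (PresentedGroup.of g) = _
    rw [he, MulEquiv.trans_apply, he0]
  have hLne : Nonempty (sysm F M M).L := by
    obtain ⟨m, rfl⟩ : ∃ m, M = m + 1 := ⟨M - 1, by omega⟩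
    rw [← Fintype.card_pos_iff, card_L]
    have : 0 < Fintype.card F ^ m := Nat.pow_pos (by rw [hcF]; positivity)
    positivity
  have htp := topM_pos (F := F) (d := M) M
  have hmass := top_mass (F := F) (d := M) M hM
  have hμ : ∀ g : Gen (sysm F M M), 0 < muS g := fun g => muS_pos g
  have hμ1 : ∑ g : Gen (sysm F M M), muS g = 1 := muS_sum
  have hgood := good_sysm (F := F) (d := M) M
  -- spread
  have hspread : ∀ H : Subgroup (EA (s * (M + 1) ^ M)), H ≠ ⊤ →
      ∑ g, muS g * ind (val g ∈ H) ≤ 51 / 100 := by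
    intro H hH
    have h1 := spread_pts hgood (pullSub (toEA f) H) (pullSub_ne_top _ H hH)
    have h2 := spread_lines hgood hM (pullSub (toEA f) H) (pullSub_ne_top _ H hH)
    have h3 : ∑ g, muS g * ind (val g ∈ H) =
        1 / 2 * 𝔼 p : (sysm F M M).U × F, ind (hatS (sysm F M M) p ∈ pullSub (toEA f) H) +
        1 / 2 * 𝔼 l : (sysm F M M).L × (Fin (M + 1) → F),
          ind ((sysm F M M).lin l.1 l.2 ∈ pullSub (toEA f) H) := by
      rw [sum_muS (fun g => ind (val g ∈ H))]
      congr 2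
      · refine Finset.expect_congr rfl (fun p _ => ?_)
        exact ind_congr (by rw [hof, mem_pullSub]; rfl)
      · refine Finset.expect_congr rfl (fun p _ => ?_)
        exact ind_congr (by rw [hof, mem_pullSub]; rfl)
    rw [h3]
    linarith
  have hnt : (⊥ : Subgroup (EA (s * (M + 1) ^ M))) ≠ ⊤ := by
    intro h
    have h1 : Nat.card (⊤ : Subgroup (EA (s * (M + 1) ^ M))) = 1 := by
      rw [← h]
      exact Subgroup.card_bot
    rw [Subgroup.card_top, hcG] at h1
    have h2 : 2 ^ 1 ≤ 2 ^ (s * (M + 1) ^ M) := Nat.pow_le_pow_right (by norm_num) (by omega)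
    omega
  have hZ : 49 / 100 ≤ ∑ g, muS g * ind (val g ≠ 1) := by
    have h1 := hspread ⊥ hnt
    have h2 : ∑ g, muS g * ind (val g ≠ 1) = 1 - ∑ g, muS g * ind (val g ∈ (⊥ : Subgroup _)) := by
      rw [← hμ1, ← Finset.sum_sub_distrib]
      refine Finset.sum_congr rfl (fun g _ => ?_)
      rw [ind_not, ind_congr (Subgroup.mem_bot (x := val g))]
      ring
    rw [h2]
    linarith
  have hZ0 : 0 < ∑ g, muS g * ind (val g ≠ 1) := by linarith
  -- a nontrivial relation
  have hex : ∃ i, liftC val (topW F M M i) ≠ 1 := by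
    obtain ⟨p, hp⟩ : ∃ p : (sysm F M M).U × F, val (Sum.inl p) ≠ 1 := by
      by_contra hcon
      push Not at hcon
      have h1 := spread_pts hgood (pullSub (toEA f) ⊥) (pullSub_ne_top _ ⊥ hnt)
      have h2 : 𝔼 p : (sysm F M M).U × F, ind (hatS (sysm F M M) p ∈ pullSub (toEA f) ⊥) = 1 := by
        rw [Finset.expect_congr rfl (fun p _ => ind_true (p := hatS (sysm F M M) p ∈
          pullSub (toEA f) ⊥) ?_)]
        · exact Fintype.expect_const _
        · rw [mem_pullSub, Subgroup.mem_bot]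
          have := hcon p
          rw [hof] at this
          exact this
      rw [h2] at h1
      linarith
    obtain ⟨m, rfl⟩ : ∃ m, M = m + 1 := ⟨M - 1, by omega⟩
    refine ⟨Sum.inl (Sum.inl (Sum.inl p) : OwnT (sysm F (m + 1) (m + 1)) ⊕
      (F × RelT F (m + 1) m)), ?_⟩
    have h3 : topW F (m + 1) (m + 1) (Sum.inl (Sum.inl (Sum.inl p) :
        OwnT (sysm F (m + 1) (m + 1)) ⊕ (F × RelT F (m + 1) m))) =
        FreeGroup.of (Sum.inl p) * FreeGroup.of (Sum.inl p) := rfl
    rw [h3]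
    unfold liftC
    rw [map_mul, FreeGroup.lift_apply_of]
    have h4 : toC val (Sum.inl p) = FreeGroup.of ⟨val (Sum.inl p), hp, Sum.inl p, rfl⟩ := by
      unfold toC
      rw [dif_neg hp]
    rw [h4]
    exact of_mul_of_ne _
  obtain ⟨e', he'⟩ := iso_clean (topW F M M) val e (fun _ => rfl)
  refine ⟨s * (M + 1) ^ M, hkM, SC val, inferInstance, inferInstance,
    relC val (topW F M M), muC val muS, muRC val (topW F M M) (topM F M M), e', ?_, ?_, ?_, ?_,
    ?_, ?_, ?_, ?_, ?_, ?_, ?_⟩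
  · intro g h hgh
    rw [he', he'] at hgh
    exact Subtype.ext hgh
  · intro g
    rw [he']
    exact g.2.1
  · exact fun g => muC_pos val muS hμ g
  · exact sum_muC val muS hμ hZ0
  · exact fun r hr => muRC_pos val _ _ htp hr
  · exact sum_muRC val _ _ htp hex
  · rw [hcGR]
    refine le_trans ?_ hn1
    have h1 := card_gen (F := F) M hM
    have h2 := card_SC val
    rw [← hcFR]
    exact_mod_cast le_trans h2 h1
  · rw [hcGR]
    refine le_trans ?_ hn2
    have h1 := card_top (F := F) M hM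
    have h2 := card_relC val (topW F M M)
    rw [← hcFR]
    exact_mod_cast le_trans h2 h1
  · intro r hr
    obtain ⟨⟨i, rfl⟩, _⟩ := (mem_relC _ _ _).1 hr
    exact le_trans (norm_liftC val _) (norm_top M i)
  · intro H hH
    have h1 := spreadC val muS hμ hμ1 hZ0 H (51 / 100) (by norm_num) (hspread H hH)
    refine le_trans (le_of_eq ?_) h1
    refine Finset.sum_congr rfl (fun g _ => ?_)
    rw [he']
  · intro n hn α'
    have hn0 : 0 < n := by omega
    obtain ⟨N, hN, β, hβ, hmain⟩ := main_stab (F := F) M hM hq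
      (fun g => FreeGroup.lift α' (toC val g))
    have hN0 : 0 < N := by omega
    have hnR : (0 : ℝ) < n := by exact_mod_cast hn0
    have hNR : (0 : ℝ) < N := by exact_mod_cast hN0
    have hnN : (n : ℝ) ≤ N := by exact_mod_cast hN
    set α : Gen (sysm F M M) → Equiv.Perm (Fin n) := fun g => FreeGroup.lift α' (toC val g)
      with hα
    set T : ℝ := ∑ r, topM F M M r * viol α (topW F M M r) with hT
    have hTn : ∑ i, topM F M M i * Lib_MP_3a79a1_b.hDist (FreeGroup.lift α (topW F M M i))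
        (1 : Equiv.Perm (Fin n)) = T / n := by
      rw [hT, Finset.sum_div]
      refine Finset.sum_congr rfl (fun i _ => ?_)
      rw [hDist_one_eq hn0]
      simp only [viol]
      ring
    have hT0 : 0 ≤ T := by
      refine Finset.sum_nonneg (fun i _ => mul_nonneg (htp i).le ?_)
      exact Finset.sum_nonneg (fun x _ => ind_nonneg _)
    have h2 : ∑ g, muS g * Lib_MP_3a79a1_b.hDist (α g) (β g) =
        (((N : ℝ) - n) +
        1 / 2 * 𝔼 s, ∑ x, ind (β (Sum.inl s) (Fin.castLE hN x) ≠ Fin.castLE hN (α (Sum.inl s) x)) +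
        1 / 2 * 𝔼 l, ∑ x, ind (β (Sum.inr l) (Fin.castLE hN x) ≠
          Fin.castLE hN (α (Sum.inr l) x))) / N := by
      rw [sum_muS (fun g => Lib_MP_3a79a1_b.hDist (α g) (β g))]
      have e1 : ∀ g, Lib_MP_3a79a1_b.hDist (α g) (β g) = ((N : ℝ) - n) / N +
          (∑ x, ind (β g (Fin.castLE hN x) ≠ Fin.castLE hN (α g x))) / N := by
        intro g
        rw [hDist_eq_ind hN hN0, add_div]
      have e2 : 𝔼 p : (sysm F M M).U × F,
            Lib_MP_3a79a1_b.hDist (α (Sum.inl p)) (β (Sum.inl p)) =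
          ((N : ℝ) - n) / N + (𝔼 s, ∑ x, ind (β (Sum.inl s) (Fin.castLE hN x) ≠
            Fin.castLE hN (α (Sum.inl s) x))) / N := by
        rw [Finset.expect_div, ← Fintype.expect_const (ι := (sysm F M M).U × F)
          (((N : ℝ) - n) / N), ← Finset.expect_add_distrib]
        exact Finset.expect_congr rfl (fun p _ => e1 _)
      have e3 : 𝔼 l : (sysm F M M).L × (Fin (M + 1) → F),
            Lib_MP_3a79a1_b.hDist (α (Sum.inr l)) (β (Sum.inr l)) =
          ((N : ℝ) - n) / N + (𝔼 l, ∑ x, ind (β (Sum.inr l) (Fin.castLE hN x) ≠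
            Fin.castLE hN (α (Sum.inr l) x))) / N := by
        rw [Finset.expect_div, ← Fintype.expect_const (ι := (sysm F M M).L × (Fin (M + 1) → F))
          (((N : ℝ) - n) / N), ← Finset.expect_add_distrib]
        exact Finset.expect_congr rfl (fun p _ => e1 _)
      rw [e2, e3]
      ring
    have hPC0 : 0 ≤ PiC F M M := by
      unfold PiC
      positivity
    have h3 : ∑ g, muS g * Lib_MP_3a79a1_b.hDist (α g) (β g) ≤
        12 * Fintype.card F * PiC F M M * ∑ i, topM F M M i *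
          Lib_MP_3a79a1_b.hDist (FreeGroup.lift α (topW F M M i)) (1 : Equiv.Perm (Fin n)) := by
      rw [h2, hTn]
      have h4 : 0 ≤ 12 * Fintype.card F * PiC F M M * T := by positivity
      calc _ ≤ 12 * Fintype.card F * PiC F M M * T / N := by
            exact div_le_div_of_nonneg_right hmain hNR.le
        _ ≤ 12 * Fintype.card F * PiC F M M * T / n :=
            div_le_div_of_nonneg_left h4 hnR hnN
        _ = _ := by ring
    obtain ⟨β', hβ', hfin⟩ := stab_clean (topW F M M) val e (fun _ => rfl) muS hμ hZ0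
      (topM F M M) htp (12 * Fintype.card F * PiC F M M) hn0 α' β hβ h3
    have h1 := distHom_le (relC val (topW F M M)) (muC val muS)
      (fun g => (muC_pos val muS hμ g).le) α' (by omega : 2 ≤ N) β' hβ'
    have hmassC : ∑ i, topM F M M i * ind (liftC val (topW F M M i) ≠ 1) ≤
        4 * ((M : ℝ) + 1) ^ 2 := by
      refine le_trans (Finset.sum_le_sum (fun i _ => ?_)) hmass.2
      calc topM F M M i * ind (liftC val (topW F M M i) ≠ 1) ≤ topM F M M i * 1 :=
            mul_le_mul_of_nonneg_left (ind_le_one _) (htp i).le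
        _ = topM F M M i := mul_one _
    have hmassC0 : 0 ≤ ∑ i, topM F M M i * ind (liftC val (topW F M M i) ≠ 1) :=
      Finset.sum_nonneg (fun i _ => mul_nonneg (htp i).le (ind_nonneg _))
    have hd0 : 0 ≤ defect (relC val (topW F M M)) (muRC val (topW F M M) (topM F M M)) α' := by
      refine Finset.sum_nonneg (fun r hr => mul_nonneg (muRC_pos val _ _ htp hr).le ?_)
      rw [hDist_eq]
      exact hDist_nonneg' _ _
    set D : ℝ := defect (relC val (topW F M M)) (muRC val (topW F M M) (topM F M M)) α' with hD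
    have hfin' : ∑ g, muC val muS g * hDist (α' g) (β' g) ≤
        12 * Fintype.card F * PiC F M M *
          (∑ i, topM F M M i * ind (liftC val (topW F M M i) ≠ 1)) /
          (∑ g, muS g * ind (val g ≠ 1)) * D := hfin
    show distHom (relC val (topW F M M)) (muC val muS) α' ≤
      10 ^ 35 * Real.log (Real.log (Nat.card (EA (s * (M + 1) ^ M)))) ^ ((10 : ℝ) ^ 35) * D
    rw [hcGR]
    have hP : PiC F M M = 13 * ((M : ℝ) + 1) * ((2 : ℝ) ^ s) ^ 2 * (700000 * ((M : ℝ) + 1)) ^ 2 *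
        (500 * ((M : ℝ) + 1) * ((M : ℝ) + 1)) := by
      unfold PiC
      rw [hcFR]
    have hbd : 12 * (Fintype.card F : ℝ) * PiC F M M *
        (∑ i, topM F M M i * ind (liftC val (topW F M M i) ≠ 1)) /
        (∑ g, muS g * ind (val g ≠ 1)) ≤
        3 * (12 * 2 ^ s * PiC F M M * (4 * ((M : ℝ) + 1) ^ 2)) := by
      rw [hcFR, div_le_iff₀ hZ0]
      have h5 : 12 * (2 : ℝ) ^ s * PiC F M M *
          (∑ i, topM F M M i * ind (liftC val (topW F M M i) ≠ 1)) ≤
          12 * 2 ^ s * PiC F M M * (4 * ((M : ℝ) + 1) ^ 2) :=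
        mul_le_mul_of_nonneg_left hmassC (by positivity)
      have h6 : 0 ≤ 12 * (2 : ℝ) ^ s * PiC F M M * (4 * ((M : ℝ) + 1) ^ 2) := by positivity
      nlinarith
    calc distHom (relC val (topW F M M)) (muC val muS) α' ≤ _ := le_trans h1 hfin'
      _ ≤ 3 * (12 * 2 ^ s * PiC F M M * (4 * ((M : ℝ) + 1) ^ 2)) * D :=
          mul_le_mul_of_nonneg_right hbd hd0
      _ ≤ _ := by
          refine mul_le_mul_of_nonneg_right ?_ hd0
          rw [hP]
          exact hn3

end Pool.Agent.Lib_MP_3a79a1_b.Stab
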