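import Pool.Agent.Lib_MP_3a79a1_b.Defs

/-!
# [RM-GL] Level zero, linearity and incidence at the next level

* `good_base`: `V = F`, `U = Unit`, `L = Empty`.  `inc`, `lin_*`: trivial.  `ham`: the average over
  `Unit` of an indicator is `0` or `1`, so the left side is `0`.  `chr`: `χ ≠ 1` gives `b` with
  `χ b ≠ 1`, and `b • (1 : F) = b`; so the indicator is `0`.
* `next_lin_add`, `next_lin_e`: `lin (inl (l,c)) γ = ten d c (S.lin l γ)` is additive in `γ`;
  `lin (inl (l,c)) (b • e t) = ten d c (b • pt (lpt l t)) = b • ten d c (pt (lpt l t))`;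
  `lin (inr u) (b • e t) = (k ↦ (b t^k) • pt u) = b • ten d t (pt u)`.
* `next_inc`: `∑_{(l,c)} ∑ t g (lpt l t, c) = ∑ c m ∑ u g (u,c)` and `∑ u ∑ t g (u,t)`: total
  `(m+1) ∑_{(u,c)} g (u,c)`.
-/

set_option linter.unusedSectionVars false

namespace Pool.Agent.Lib_MP_3a79a1_b

open Finset
open scoped BigOperators

variable {F : Type} [Field F] [Fintype F] [DecidableEq F] {d : ℕ}

theorem good_base : Good (base F d) 0 where
  lin_add := fun l => l.elim
  lin_e := fun l => l.elim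
  inc := by
    intro g
    rw [Nat.cast_zero, zero_mul]
    exact Finset.sum_eq_zero fun l _ => Empty.elim l
  ham := by
    intro B
    have h1 : (𝔼 u : (base F d).U, ind (B u)) = ind (B ()) := by
      show (𝔼 u : Unit, ind (B u)) = ind (B ())
      simp
    have h2 : ind (B ()) * (1 - ind (B ())) = 0 := by
      by_cases h : B ()
      · rw [ind_true h]; ring
      · rw [ind_false h]; ring
    rw [h1, h2, mul_zero]
    exact Finset.sum_nonneg fun l _ => Empty.elim l
  chr := by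
    intro χ hχ
    obtain ⟨b, hb⟩ := AddChar.ne_one_iff.1 hχ
    have h1 : (𝔼 u : (base F d).U, ind (∀ b : F, χ (b • (base F d).pt u) = 1)) = 0 := by
      show (𝔼 u : Unit, ind (∀ b : F, χ (b • (1 : F)) = 1)) = 0
      have h2 : ind (∀ b : F, χ (b • (1 : F)) = 1) = 0 := by
        refine ind_false fun h => hb ?_
        have h3 := h b
        rwa [smul_eq_mul, mul_one] at h3
      rw [h2]
      simp
    rw [h1, Nat.cast_zero, zero_mul, zero_div]

theorem next_lin_add {S : Sys F d} {m : ℕ} (hS : Good S m) (l : (next S).L)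
    (γ γ' : Fin (d + 1) → F) :
    (next S).lin l (γ + γ') = (next S).lin l γ + (next S).lin l γ' := by
  rcases l with lc | u
  · show ten d lc.2 (S.lin lc.1 (γ + γ')) = ten d lc.2 (S.lin lc.1 γ) + ten d lc.2 (S.lin lc.1 γ')
    rw [hS.lin_add]
    funext k
    show lc.2 ^ (k : ℕ) • (S.lin lc.1 γ + S.lin lc.1 γ') = _
    rw [smul_add]
    rfl
  · funext k
    show (γ k + γ' k) • S.pt u = γ k • S.pt u + γ' k • S.pt u
    rw [add_smul]

theorem next_lin_e {S : Sys F d} {m : ℕ} (hS : Good S m) (l : (next S).L) (t b : F) :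
    (next S).lin l (b • evec F d t) = b • (next S).pt ((next S).lpt l t) := by
  rcases l with lc | u
  · show ten d lc.2 (S.lin lc.1 (b • evec F d t)) = b • ten d lc.2 (S.pt (S.lpt lc.1 t))
    rw [hS.lin_e]
    funext k
    show lc.2 ^ (k : ℕ) • b • S.pt (S.lpt lc.1 t) = b • lc.2 ^ (k : ℕ) • S.pt (S.lpt lc.1 t)
    rw [smul_smul, smul_smul, mul_comm]
  · funext k
    show (b * t ^ (k : ℕ)) • S.pt u = b • t ^ (k : ℕ) • S.pt u
    rw [smul_smul]

theorem next_inc {S : Sys F d} {m : ℕ} (hS : Good S m) (g : (next S).U → ℝ) :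
    ∑ l : (next S).L, ∑ t : F, g ((next S).lpt l t) = ((m + 1 : ℕ) : ℝ) * ∑ u, g u := by
  have h0 : ∑ u : (next S).U, g u = ∑ u : S.U, ∑ c : F, g (u, c) :=
    Fintype.sum_prod_type (fun u : S.U × F => g u)
  have h1 : ∑ l : (next S).L, ∑ t : F, g ((next S).lpt l t) =
      ∑ lc : S.L × F, ∑ t : F, g (S.lpt lc.1 t, lc.2) + ∑ u : S.U, ∑ t : F, g (u, t) :=
    Fintype.sum_sum_type (fun l : (S.L × F) ⊕ S.U => ∑ t : F, g ((next S).lpt l t))
  have h2 : ∑ lc : S.L × F, ∑ t : F, g (S.lpt lc.1 t, lc.2) = (m : ℝ) * ∑ u : S.U, ∑ c : F, g (u, c) := by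
    rw [Fintype.sum_prod_type_right]
    have h3 : ∀ c : F, ∑ l : S.L, ∑ t : F, g (S.lpt l t, c) = (m : ℝ) * ∑ u : S.U, g (u, c) :=
      fun c => hS.inc fun u => g (u, c)
    calc ∑ c : F, ∑ l : S.L, ∑ t : F, g (S.lpt l t, c) = ∑ c : F, (m : ℝ) * ∑ u : S.U, g (u, c) :=
          Finset.sum_congr rfl fun c _ => h3 c
      _ = (m : ℝ) * ∑ c : F, ∑ u : S.U, g (u, c) := by rw [Finset.mul_sum]
      _ = (m : ℝ) * ∑ u : S.U, ∑ c : F, g (u, c) := by rw [Finset.sum_comm]
  rw [h0, h1, h2]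
  push_cast
  ring

end Pool.Agent.Lib_MP_3a79a1_b
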