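import Pool.Agent.Lib_MP_3a79a1_b.Vert

/-!
# [RM-LN] Transport along a line

Apply `vert` to `X' = S.V × X`, `A' g = Equiv.prodCongr (Equiv.addRight (vecS S g)) (A g)`, i.e.
`A' g (γ, x) = (γ + vecS S g, A g x)`, and `Y = {(γ, x) | y γ = some x}` (graph of `y`, a `Finset`
by classical choice; `DecidableEq`, `Fintype` of `S.V × X` from classical).
For `w = (γ, x) ∈ Y` and `s = (u, b)`: `A' (inl s) w ∈ Y ↔ OK (hatS S) (ptA A) y γ s`.
`cnL A' l t (γ, x) = cnL A l t x`, because the first coordinates agree: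
`lin l (γ' + b • evec t) = lin l γ' + b • pt (lpt l t)` (`Good.lin_add`, `Good.lin_e`).
If `pz .. w ∈ Y` and `pz .. w = A' (inl (lpt l t, b)) w` then `OK y γ (lpt l t, b)`.  So
`∑_{(γ,x) ∈ Y} 𝔼 b ind (¬ OK y γ (lpt l t, b)) ≤ ∑ j ∑_{Y} cnL A l (c j) x + ∑_Y cnL A l t x
   + ∑ j ∑_{(γ,x) ∈ Y} 𝔼 b ind (¬ OK y γ (lpt l (c j), b))`.
Divide by `|V|` and add the positions where `y` is undefined: they contribute `miss y` to the left
hand side of the theorem and `(d+1) miss y` to the right hand side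
(`bs y s = miss y + (1/|V|) ∑_{(γ,x) ∈ Y} ind (¬ OK y γ s)`,
`pull h y = (1/|V|) ∑_{(γ,x) ∈ Y} h x`).
-/

set_option linter.unusedSectionVars false

namespace Pool.Agent.Lib_MP_3a79a1_b

open Finset
open scoped BigOperators

variable {F : Type} [Field F] [Fintype F] [DecidableEq F] {d : ℕ}

variable {X : Type} [Fintype X]

/-- the graph of `y` -/
private noncomputable def gr_line {V : Type} [Fintype V] (y : V → Option X) : Finset (V × X) := by
  classical exact univ.filter (fun w => y w.1 = some w.2)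

private lemma mem_gr_line {V : Type} [Fintype V] (y : V → Option X) (w : V × X) :
    w ∈ gr_line y ↔ y w.1 = some w.2 := by
  classical
  simp [gr_line]

private lemma sum_gr_line {V : Type} [Fintype V] (y : V → Option X) (g : V → X → ℝ) :
    ∑ w ∈ gr_line y, g w.1 w.2 = ∑ γ, (y γ).elim 0 (g γ) := by
  classical
  unfold gr_line
  rw [Finset.sum_filter, Fintype.sum_prod_type]
  refine Finset.sum_congr rfl fun γ _ => ?_
  cases h : y γ with
  | none => simp only [h, Option.elim_none, reduceCtorEq, if_false, Finset.sum_const_zero]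
  | some x =>
    simp only [h, Option.some.injEq, Option.elim_some]
    rw [Finset.sum_ite_eq]
    simp

private lemma pull_line {V : Type} [Fintype V] (h : X → ℝ) (y : V → Option X) :
    ∑ w ∈ gr_line y, h w.2 = (Fintype.card V : ℝ) * pull h y := by
  rw [sum_gr_line y (fun _ x => h x)]
  unfold pull
  rw [Fintype.card_mul_expect]

private lemma bs_line {V P : Type} [AddCommGroup V] [Fintype V] [Fintype P] (hat : P → V)
    (α : P → Equiv.Perm X) (y : V → Option X) (s : P) :
    (Fintype.card V : ℝ) * bs hat α y s =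
      (Fintype.card V : ℝ) * miss y + ∑ w ∈ gr_line y, ind (¬ OK hat α y w.1 s) := by
  rw [sum_gr_line y (fun γ _ => ind (¬ OK hat α y γ s))]
  unfold bs miss
  rw [Fintype.card_mul_expect, Fintype.card_mul_expect, ← Finset.sum_add_distrib]
  refine Finset.sum_congr rfl fun γ _ => ?_
  cases h : y γ with
  | none =>
    have h1 : ¬ OK hat α y γ s := by
      rintro ⟨x, hx, _⟩
      rw [h] at hx
      simp at hx
    rw [ind_true h1, ind_true rfl, Option.elim_none, add_zero]
  | some x =>
    rw [ind_false (p := some x = none) (by simp), Option.elim_some, zero_add]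

/-- the action on `V × X` -/
private noncomputable def lft_line {S : Sys F d} (A : Gen S → Equiv.Perm X) (g : Gen S) :
    Equiv.Perm (S.V × X) :=
  Equiv.prodCongr (Equiv.addRight (vecS S g)) (A g)

private lemma lft_line_apply {S : Sys F d} (A : Gen S → Equiv.Perm X) (g : Gen S) (w : S.V × X) :
    lft_line A g w = (w.1 + vecS S g, A g w.2) := rfl

private lemma cnL_line {S : Sys F d} {m : ℕ} (hS : Good S m) (A : Gen S → Equiv.Perm X) (l : S.L)
    (t : F) (w : S.V × X) : cnL (lft_line A) l t w = cnL A l t w.2 := by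
  unfold cnL
  refine Finset.expect_congr rfl fun b _ => Finset.expect_congr rfl fun γ _ => ?_
  refine ind_congr (not_congr ?_)
  simp only [lft_line_apply, Prod.mk.injEq]
  constructor
  · exact fun h => h.2
  · intro h
    refine ⟨?_, h⟩
    simp only [vecS, hatS]
    rw [hS.lin_add, hS.lin_e]
    abel

private lemma OK_line {S : Sys F d} (A : Gen S → Equiv.Perm X) (y : S.V → Option X)
    (s : S.U × F) (w : S.V × X) (hw : w ∈ gr_line y) :
    OK (hatS S) (ptA A) y w.1 s ↔ lft_line A (Sum.inl s) w ∈ gr_line y := by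
  rw [mem_gr_line] at hw ⊢
  simp only [lft_line_apply, vecS]
  constructor
  · rintro ⟨x, hx, h⟩
    rw [hw] at hx
    rw [Option.some.inj hx]
    exact h
  · intro h
    exact ⟨w.2, hw, h⟩

theorem line_bs {S : Sys F d} {m : ℕ} (hS : Good S m) (A : Gen S → Equiv.Perm X)
    (y : S.V → Option X) (l : S.L) (c : Fin (d + 1) → F) (hc : Function.Injective c) (t : F)
    (ht : ∀ j, c j ≠ t) :
    𝔼 b : F, bs (hatS S) (ptA A) y (S.lpt l t, b) ≤
      ∑ j, 𝔼 b : F, bs (hatS S) (ptA A) y (S.lpt l (c j), b) +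
      ∑ j, pull (cnL A l (c j)) y + pull (cnL A l t) y := by
  classical
  set N : ℝ := (Fintype.card S.V : ℝ) with hN
  have hNp : 0 < N := by
    rw [hN]
    exact_mod_cast Fintype.card_pos_iff.2 ⟨0⟩
  set Y := gr_line y with hY
  have hmiss : 0 ≤ miss y := Finset.expect_nonneg fun γ _ => ind_nonneg _
  -- the averages of `bs`
  have hbs : ∀ u : S.U, N * 𝔼 b : F, bs (hatS S) (ptA A) y (u, b) =
      N * miss y + ∑ w ∈ Y, 𝔼 b : F, ind (¬ OK (hatS S) (ptA A) y w.1 (u, b)) := by
    intro u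
    rw [Finset.mul_expect, Finset.expect_congr rfl (fun b _ => bs_line (hatS S) (ptA A) y (u, b)),
      Finset.expect_add_distrib, Finset.expect_sum_comm, Fintype.expect_const]
  have hv := vert (lft_line A) l c hc t ht Y
  -- left hand side
  have h1 : ∑ w ∈ Y, 𝔼 b : F, ind (¬ OK (hatS S) (ptA A) y w.1 (S.lpt l t, b)) ≤
      ∑ w ∈ Y, 𝔼 b : F,
        ind (¬ (pz (fun j => lft_line A (Sum.inl (S.lpt l (c j), lag c t j * b))) w ∈ Y ∧
          pz (fun j => lft_line A (Sum.inl (S.lpt l (c j), lag c t j * b))) w =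
            lft_line A (Sum.inl (S.lpt l t, b)) w)) := by
    refine Finset.sum_le_sum fun w hw => Finset.expect_le_expect fun b _ => ind_mono ?_
    intro h h2
    refine h ((OK_line A y _ w hw).2 ?_)
    rw [← h2.2]
    exact h2.1
  have h2 : ∀ t' : F, ∑ w ∈ Y, cnL (lft_line A) l t' w = N * pull (cnL A l t') y := by
    intro t'
    rw [Finset.sum_congr rfl (fun w _ => cnL_line hS A l t' w)]
    exact pull_line (cnL A l t') y
  have h3 : ∀ j, ∑ w ∈ Y, 𝔼 b : F, ind (lft_line A (Sum.inl (S.lpt l (c j), b)) w ∉ Y) =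
      ∑ w ∈ Y, 𝔼 b : F, ind (¬ OK (hatS S) (ptA A) y w.1 (S.lpt l (c j), b)) := by
    intro j
    refine Finset.sum_congr rfl fun w hw => Finset.expect_congr rfl fun b _ => ?_
    exact ind_congr (not_congr (OK_line A y _ w hw)).symm
  rw [Finset.sum_congr rfl (fun j _ => h2 (c j)), h2 t, Finset.sum_congr rfl (fun j _ => h3 j)] at hv
  have h4 : ∀ j, ∑ w ∈ Y, 𝔼 b : F, ind (¬ OK (hatS S) (ptA A) y w.1 (S.lpt l (c j), b)) =
      N * 𝔼 b : F, bs (hatS S) (ptA A) y (S.lpt l (c j), b) - N * miss y := by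
    intro j
    linarith [hbs (S.lpt l (c j))]
  rw [Finset.sum_congr rfl (fun j _ => h4 j), Finset.sum_sub_distrib, Finset.sum_const,
    Finset.card_univ, Fintype.card_fin, nsmul_eq_mul, ← Finset.mul_sum, ← Finset.mul_sum] at hv
  have h5 := hbs (S.lpt l t)
  have h6 : 0 ≤ (d : ℝ) * (N * miss y) := by positivity
  push_cast at hv
  have h7 : N * 𝔼 b : F, bs (hatS S) (ptA A) y (S.lpt l t, b) ≤
      N * (∑ j, 𝔼 b : F, bs (hatS S) (ptA A) y (S.lpt l (c j), b) +
      ∑ j, pull (cnL A l (c j)) y + pull (cnL A l t) y) := by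
    rw [h5]
    nlinarith [h1, hv, h6]
  exact le_of_mul_le_mul_left h7 hNp

end Pool.Agent.Lib_MP_3a79a1_b
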