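import Pool.Agent.Lib_MP_3a79a1_b.MixCor
import Pool.Agent.Lib_MP_3a79a1_b.SecB

/-!
# [RM-MI] Missing positions

`miss_le` ([RM-MI]): `y` maximal section, `En y ≤ 1/800`.  Let `D = dom y`,
`e γ = eL y γ` (`= 1` off `D`), `T e γ = 𝔼 s, e (γ + hat s)`.
For `γ ∉ D` and every `t` with `y (γ + hat t)` defined put `w_t = α t (y (γ + hat t))`.
By `extension` `Pr_s [y (γ + hat s) ≠ some (α s w_t)] > 1/100`.  But
`α s w_t = α s α t z`, `z = y (γ + hat t)`, equals `α t α s z` unless `s,t` do not commute at `z`;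
`α s z = y (γ + hat t + hat s)` unless `¬ OK y (γ + hat t) s`;
`y (γ + hat s + hat t) = α t (y (γ + hat s))` unless `¬ OK y (γ + hat s) t`; and
`α t (α t (y (γ + hat s))) = y (γ + hat s)` unless the involution relation of `t` fails at
`y (γ + hat s)`.  So for `γ ∉ D` and all `t` (if `y (γ + hat t)` is undefined then `¬ OK y (γ + hat t) s`
for all `s` and the following is clear)
`1/100 ≤ 𝔼 s [ind ¬OK y (γ+hat t) s + ind ¬OK y (γ+hat s) t + ind (comm fails at y (γ+hat t))
          + ind (inv_t fails at y (γ+hat s))]`.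
Average over `t`: `1/100 ≤ 2 T e γ + c γ + i γ` for `γ ∉ D`, with
`c γ = 𝔼 t, (y (γ + hat t)).elim 0 (cmS' t)`, `cmS' t x = 𝔼 s, ind (α s (α t x) ≠ α t (α s x))`,
`i γ = 𝔼 s, (y (γ + hat s)).elim 0 (ivX α)`; `𝔼 γ, c γ = pull (cmX α) y`,
`𝔼 γ, i γ = pull (ivX α) y`.
Hence `γ ∉ D` implies `T e γ ≥ 1/400` or `c γ + i γ ≥ 1/200`.  By `mix_dev` with `h = e`,
`a = 1/800`, `b = 1/800` the first has measure `≤ (1/10000)^2 * 800^2 * En y = 0.0064 En y`, by
Markov the second `≤ 200 (pull cmX + pull ivX)`.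
-/

set_option linter.unusedSectionVars false

namespace Pool.Agent.Lib_MP_3a79a1_b

open Finset
open scoped BigOperators

variable {V P X : Type} [AddCommGroup V] [Fintype V] [Fintype P] [Nonempty P] [Fintype X]
  {hat : P → V} {α : P → Equiv.Perm X}

private theorem shift_miss {h : V → ℝ} (g : V) : 𝔼 γ, h (γ + g) = 𝔼 γ, h γ :=
  Fintype.expect_equiv (Equiv.addRight g) _ _ fun γ => rfl

/-- the pointwise implication -/
private theorem point_miss {y : V → Option X} {γ : V} {s t : P} {z : X}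
    (hz : y (γ + hat t) = some z) :
    ind (y (γ + hat s) ≠ some (α s (α t z))) ≤
      ind (¬ OK hat α y (γ + hat t) s) + ind (¬ OK hat α y (γ + hat s) t)
        + ind (α s (α t z) ≠ α t (α s z))
        + (y (γ + hat s)).elim 0 (fun x => ind (α t (α t x) ≠ x)) := by
  have hnn : 0 ≤ (y (γ + hat s)).elim 0 (fun x => ind (α t (α t x) ≠ x)) := by
    cases y (γ + hat s) with
    | none => exact le_refl _
    | some x => exact ind_nonneg _
  by_cases h1 : OK hat α y (γ + hat t) s
  swap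
  · rw [ind_true h1]
    linarith [ind_le_one (y (γ + hat s) ≠ some (α s (α t z))),
      ind_nonneg (¬ OK hat α y (γ + hat s) t), ind_nonneg (α s (α t z) ≠ α t (α s z))]
  by_cases h2 : OK hat α y (γ + hat s) t
  swap
  · rw [ind_true h2]
    linarith [ind_le_one (y (γ + hat s) ≠ some (α s (α t z))),
      ind_nonneg (¬ OK hat α y (γ + hat t) s), ind_nonneg (α s (α t z) ≠ α t (α s z))]
  by_cases h3 : α s (α t z) = α t (α s z)
  swap
  · rw [ind_true (p := α s (α t z) ≠ α t (α s z)) h3]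
    linarith [ind_le_one (y (γ + hat s) ≠ some (α s (α t z))),
      ind_nonneg (¬ OK hat α y (γ + hat t) s), ind_nonneg (¬ OK hat α y (γ + hat s) t)]
  obtain ⟨z', hz1, hz2⟩ := h1
  obtain ⟨x, hx1, hx2⟩ := h2
  have e1 : z' = z := by
    rw [hz] at hz1
    exact (Option.some.inj hz1).symm
  rw [e1] at hz2
  have e2 : α t x = α s z := by
    rw [add_right_comm, hz2] at hx2
    exact (Option.some.inj hx2).symm
  rw [hx1, Option.elim_some]
  by_cases h4 : α t (α t x) = x
  · rw [ind_false (p := some x ≠ some (α s (α t z)))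
      (by rw [h3, ← e2, h4]; exact fun h => h rfl)]
    have := ind_nonneg (¬ OK hat α y (γ + hat t) s)
    have := ind_nonneg (¬ OK hat α y (γ + hat s) t)
    have := ind_nonneg (α s (α t z) ≠ α t (α s z))
    have := ind_nonneg (α t (α t x) ≠ x)
    linarith
  · rw [ind_true (p := α t (α t x) ≠ x) h4]
    have := ind_nonneg (¬ OK hat α y (γ + hat t) s)
    have := ind_nonneg (¬ OK hat α y (γ + hat s) t)
    have := ind_nonneg (α s (α t z) ≠ α t (α s z))
    have := ind_le_one (some x ≠ some (α s (α t z)))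
    linarith

/-- the average over `s` for fixed `t` -/
private theorem avg_miss {y : V → Option X} (hy : MaxSec hat α y) {γ : V} (hγ : y γ = none)
    (t : P) :
    1 / 100 ≤ eL hat α y (γ + hat t) + 𝔼 s, ind (¬ OK hat α y (γ + hat s) t)
      + (y (γ + hat t)).elim 0 (fun z => 𝔼 s, ind (α s (α t z) ≠ α t (α s z)))
      + 𝔼 s, (y (γ + hat s)).elim 0 (fun x => ind (α t (α t x) ≠ x)) := by
  have hnn : 0 ≤ 𝔼 s, (y (γ + hat s)).elim 0 (fun x => ind (α t (α t x) ≠ x)) := by
    refine Finset.expect_nonneg fun s _ => ?_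
    cases y (γ + hat s) with
    | none => exact le_refl _
    | some x => exact ind_nonneg _
  have hn2 : 0 ≤ 𝔼 s, ind (¬ OK hat α y (γ + hat s) t) :=
    Finset.expect_nonneg fun s _ => ind_nonneg _
  rcases hz : y (γ + hat t) with _ | z
  · have h1 : eL hat α y (γ + hat t) = 1 := by
      unfold eL
      have : ∀ s, ind (¬ OK hat α y (γ + hat t) s) = 1 := by
        intro s
        refine ind_true ?_
        rintro ⟨x, h1, -⟩
        rw [hz] at h1
        exact absurd h1 (by simp)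
      simp_rw [this]
      exact Fintype.expect_const _
    rw [h1, Option.elim_none]
    linarith
  · have h1 := extension hy hγ (α t z)
    have h2 : 𝔼 s, ind (y (γ + hat s) ≠ some (α s (α t z))) ≤
        𝔼 s, (ind (¬ OK hat α y (γ + hat t) s) + ind (¬ OK hat α y (γ + hat s) t)
        + ind (α s (α t z) ≠ α t (α s z))
        + (y (γ + hat s)).elim 0 (fun x => ind (α t (α t x) ≠ x))) :=
      Finset.expect_le_expect fun s _ => point_miss hz
    rw [Finset.expect_add_distrib, Finset.expect_add_distrib, Finset.expect_add_distrib] at h2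
    rw [Option.elim_some]
    unfold eL
    linarith

/-- the inequality at a missing position -/
private theorem key_miss {y : V → Option X} (hy : MaxSec hat α y) {γ : V} (hγ : y γ = none) :
    1 / 100 ≤ 2 * (𝔼 s, eL hat α y (γ + hat s))
      + (𝔼 t, (y (γ + hat t)).elim 0 (fun z => 𝔼 s, ind (α s (α t z) ≠ α t (α s z))))
      + 𝔼 s, (y (γ + hat s)).elim 0 (ivX α) := by
  have h1 : (1 / 100 : ℝ) ≤ 𝔼 t, (eL hat α y (γ + hat t) + 𝔼 s, ind (¬ OK hat α y (γ + hat s) t)
      + (y (γ + hat t)).elim 0 (fun z => 𝔼 s, ind (α s (α t z) ≠ α t (α s z)))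
      + 𝔼 s, (y (γ + hat s)).elim 0 (fun x => ind (α t (α t x) ≠ x))) := by
    have h0 : (1 / 100 : ℝ) = 𝔼 _t : P, (1 / 100 : ℝ) := (Fintype.expect_const _).symm
    rw [h0]
    exact Finset.expect_le_expect fun t _ => avg_miss hy hγ t
  rw [Finset.expect_add_distrib, Finset.expect_add_distrib, Finset.expect_add_distrib] at h1
  have h2 : 𝔼 t, 𝔼 s, ind (¬ OK hat α y (γ + hat s) t) = 𝔼 s, eL hat α y (γ + hat s) := by
    rw [Finset.expect_comm]
    rfl
  have h3 : 𝔼 t : P, 𝔼 s, (y (γ + hat s)).elim 0 (fun x => ind (α t (α t x) ≠ x))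
      = 𝔼 s, (y (γ + hat s)).elim 0 (ivX α) := by
    rw [Finset.expect_comm]
    refine Finset.expect_congr rfl fun s _ => ?_
    cases y (γ + hat s) with
    | none => simp
    | some x => rfl
  rw [h2, h3] at h1
  linarith

private theorem markov_miss {f : V → ℝ} (hf : ∀ γ, 0 ≤ f γ) :
    𝔼 γ, ind (1 / 200 ≤ f γ) ≤ 200 * 𝔼 γ, f γ := by
  rw [Finset.mul_expect]
  refine Finset.expect_le_expect fun γ _ => ?_
  by_cases h : 1 / 200 ≤ f γ
  · rw [ind_true h]
    linarith
  · rw [ind_false h]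
    linarith [hf γ]

/-- [RM-MI] -/
theorem miss_le (hm : Mix hat) {y : V → Option X} (hy : MaxSec hat α y)
    (he : En hat α y ≤ 1 / 800) :
    miss y ≤ 1 / 100 * En hat α y + 200 * (pull (cmX α) y + pull (ivX α) y) := by
  have he0 : ∀ γ, 0 ≤ eL hat α y γ := fun γ => Finset.expect_nonneg fun s _ => ind_nonneg _
  have he1 : ∀ γ, eL hat α y γ ≤ 1 := by
    intro γ
    have h0 : (1 : ℝ) = 𝔼 _t : P, (1 : ℝ) := (Fintype.expect_const _).symm
    rw [h0]
    exact Finset.expect_le_expect fun t _ => ind_le_one _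
  have hdev := mix_dev hm (eL hat α y) he0 he1 (a := 1 / 800) (b := 1 / 800) he (by norm_num)
  -- the two error functions
  obtain ⟨c, hc⟩ : ∃ c : V → ℝ, ∀ γ, c γ =
      𝔼 t, (y (γ + hat t)).elim 0 (fun z => 𝔼 s, ind (α s (α t z) ≠ α t (α s z))) :=
    ⟨_, fun γ => rfl⟩
  obtain ⟨i, hi⟩ : ∃ i : V → ℝ, ∀ γ, i γ = 𝔼 s, (y (γ + hat s)).elim 0 (ivX α) :=
    ⟨_, fun γ => rfl⟩
  have hc0 : ∀ γ, 0 ≤ c γ := by
    intro γ
    rw [hc]
    refine Finset.expect_nonneg fun t _ => ?_
    cases y (γ + hat t) with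
    | none => exact le_refl _
    | some x => exact Finset.expect_nonneg fun s _ => ind_nonneg _
  have hi0 : ∀ γ, 0 ≤ i γ := by
    intro γ
    rw [hi]
    refine Finset.expect_nonneg fun t _ => ?_
    cases y (γ + hat t) with
    | none => exact le_refl _
    | some x => exact Finset.expect_nonneg fun s _ => ind_nonneg _
  have hcE : 𝔼 γ, c γ = pull (cmX α) y := by
    simp_rw [hc]
    rw [Finset.expect_comm]
    have h1 : ∀ t : P, 𝔼 γ, (y (γ + hat t)).elim 0 (fun z => 𝔼 s, ind (α s (α t z) ≠ α t (α s z)))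
        = 𝔼 γ, (y γ).elim 0 (fun z => 𝔼 s, ind (α s (α t z) ≠ α t (α s z))) := fun t =>
      shift_miss (h := fun γ => (y γ).elim 0 (fun z => 𝔼 s, ind (α s (α t z) ≠ α t (α s z)))) (hat t)
    simp_rw [h1]
    rw [Finset.expect_comm]
    unfold pull
    refine Finset.expect_congr rfl fun γ _ => ?_
    cases y γ with
    | none => simp
    | some x =>
      simp only [Option.elim_some]
      unfold cmX
      exact Finset.expect_comm _ _ _
  have hiE : 𝔼 γ, i γ = pull (ivX α) y := by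
    simp_rw [hi]
    rw [Finset.expect_comm]
    have h1 : ∀ s : P, 𝔼 γ, (y (γ + hat s)).elim 0 (ivX α) = 𝔼 γ, (y γ).elim 0 (ivX α) := fun s =>
      shift_miss (h := fun γ => (y γ).elim 0 (ivX α)) (hat s)
    simp_rw [h1]
    exact Fintype.expect_const _
  have hstep : miss y ≤ 𝔼 γ, (ind (1 / 800 + 1 / 800 ≤ 𝔼 s, eL hat α y (γ + hat s))
      + ind (1 / 200 ≤ c γ + i γ)) := by
    unfold miss
    refine Finset.expect_le_expect fun γ _ => ind_le_add fun hγ => ?_
    have h1 := key_miss hy hγ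
    rw [← hc γ, ← hi γ] at h1
    by_cases h2 : 1 / 200 ≤ c γ + i γ
    · exact Or.inr h2
    · left
      push Not at h2
      linarith
  rw [Finset.expect_add_distrib] at hstep
  have h5 := markov_miss (f := fun γ => c γ + i γ) fun γ => add_nonneg (hc0 γ) (hi0 γ)
  rw [Finset.expect_add_distrib, hcE, hiE] at h5
  have h6 : (0 : ℝ) ≤ En hat α y := Finset.expect_nonneg fun γ _ => he0 γ
  have h7 : 𝔼 γ, eL hat α y γ = En hat α y := rfl
  rw [h7] at hdev
  have h8 : ((1 : ℝ) / 10000) ^ 2 / (1 / 800) ^ 2 = 64 / 10000 := by norm_num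
  rw [h8] at hdev
  linarith

end Pool.Agent.Lib_MP_3a79a1_b
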