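import Pool.Agent.Lib_MP_3a79a1_b.Defs

/-!
# [RM-MX] The spectral gap from characters

`mix_of_chr`: if every nontrivial character `χ` of the finite abelian group `V` has
`‖𝔼 s, χ (hat s)‖ ≤ 1/10000`, then `Mix hat`.

Proof.  Parseval.  The characters form a basis of `V → ℂ` (`AddChar.complexBasis`) which is
orthonormal for `⟪f,g⟫ = 𝔼 γ, conj (f γ) * g γ` (`AddChar.wInner_cWeight_eq_boole` or
`AddChar.sum_eq_ite`).  Write `h = ∑ χ, a χ • χ`.  Then `𝔼 δ, h δ = a 1`,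
`𝔼 s, h (γ + hat s) = ∑ χ, a χ * (𝔼 s, χ (hat s)) * χ γ`, hence
`𝔼 γ ‖𝔼 s, h (γ + hat s) - 𝔼 δ, h δ‖^2 = ∑_{χ ≠ 1} ‖a χ‖^2 ‖𝔼 s χ (hat s)‖^2
  ≤ (1/10000)^2 ∑ χ ‖a χ‖^2 = (1/10000)^2 𝔼 γ ‖h γ‖^2`.
-/

set_option linter.unusedSectionVars false

namespace Pool.Agent.Lib_MP_3a79a1_b

open Finset
open scoped BigOperators ComplexConjugate

/-- orthogonality of characters -/
private theorem orth_mixchr {V : Type} [AddCommGroup V] [Fintype V] (χ ψ : AddChar V ℂ) :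
    𝔼 γ, χ γ * conj (ψ γ) = if χ = ψ then 1 else 0 := by
  have h1 : ∀ γ, χ γ * conj (ψ γ) = (χ * ψ⁻¹) γ := by
    intro γ
    rw [AddChar.mul_apply, AddChar.inv_apply, AddChar.map_neg_eq_conj]
  rw [Finset.expect_congr rfl (fun γ _ => h1 γ), AddChar.expect_eq_ite, ← AddChar.one_eq_zero]
  simp only [mul_inv_eq_one]

/-- Parseval -/
private theorem parseval_mixchr {V : Type} [AddCommGroup V] [Fintype V] (b : AddChar V ℂ → ℂ) :
    𝔼 γ, ‖∑ χ : AddChar V ℂ, b χ * χ γ‖ ^ 2 = ∑ χ : AddChar V ℂ, ‖b χ‖ ^ 2 := by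
  classical
  have h1 : ((𝔼 γ, ‖∑ χ : AddChar V ℂ, b χ * χ γ‖ ^ 2 : ℝ) : ℂ) = ((∑ χ : AddChar V ℂ, ‖b χ‖ ^ 2 : ℝ) : ℂ) := by
    have e0 : ((𝔼 γ, ‖∑ χ : AddChar V ℂ, b χ * χ γ‖ ^ 2 : ℝ) : ℂ) =
        𝔼 γ, (∑ χ : AddChar V ℂ, b χ * χ γ) * conj (∑ χ : AddChar V ℂ, b χ * χ γ) := by
      rw [Complex.ofReal_expect]
      refine Finset.expect_congr rfl fun γ _ => ?_
      rw [RCLike.mul_conj]
      push_cast
      rfl
    rw [e0]
    have e1 : ∀ γ : V, (∑ χ : AddChar V ℂ, b χ * χ γ) * conj (∑ χ : AddChar V ℂ, b χ * χ γ) =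
        ∑ χ : AddChar V ℂ, ∑ ψ : AddChar V ℂ, (b χ * conj (b ψ)) * (χ γ * conj (ψ γ)) := by
      intro γ
      rw [map_sum, Finset.sum_mul_sum]
      refine Finset.sum_congr rfl fun χ _ => Finset.sum_congr rfl fun ψ _ => ?_
      rw [map_mul]
      ring
    rw [Finset.expect_congr rfl (fun γ _ => e1 γ), Finset.expect_sum_comm]
    push_cast
    refine Finset.sum_congr rfl fun χ _ => ?_
    rw [Finset.expect_sum_comm]
    have e2 : ∀ ψ : AddChar V ℂ, 𝔼 γ, (b χ * conj (b ψ)) * (χ γ * conj (ψ γ)) =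
        (b χ * conj (b ψ)) * (if χ = ψ then 1 else 0) := by
      intro ψ
      rw [← Finset.mul_expect, orth_mixchr]
    rw [Finset.sum_congr rfl (fun ψ _ => e2 ψ)]
    simp only [mul_ite, mul_one, mul_zero, Finset.sum_ite_eq, Finset.mem_univ, if_true]
    rw [RCLike.mul_conj]
    rfl
  exact_mod_cast h1

theorem mix_of_chr {V P : Type} [AddCommGroup V] [Fintype V] [Fintype P] [Nonempty P]
    (hat : P → V) (h : ∀ χ : AddChar V ℂ, χ ≠ 1 → ‖𝔼 s, χ (hat s)‖ ≤ 1 / 10000) : Mix hat := by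
  classical
  intro f
  obtain ⟨a, ha⟩ : ∃ a : AddChar V ℂ → ℂ, ∀ γ, ((f γ : ℝ) : ℂ) = ∑ χ : AddChar V ℂ, a χ * χ γ := by
    refine ⟨fun χ => (AddChar.complexBasis V).repr (fun γ => ((f γ : ℝ) : ℂ)) χ, fun γ => ?_⟩
    have h1 := congrFun ((AddChar.complexBasis V).sum_repr (fun γ => ((f γ : ℝ) : ℂ))) γ
    simp only [AddChar.complexBasis_apply, Finset.sum_apply, Pi.smul_apply, smul_eq_mul] at h1
    exact h1.symm
  -- the mean
  have hmean : ((𝔼 δ, f δ : ℝ) : ℂ) = a 1 := by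
    rw [Complex.ofReal_expect, Finset.expect_congr rfl (fun γ _ => ha γ), Finset.expect_sum_comm]
    have e : ∀ χ : AddChar V ℂ, 𝔼 γ, a χ * χ γ = a χ * (if χ = 1 then 1 else 0) := by
      intro χ
      rw [← Finset.mul_expect, AddChar.expect_eq_ite, ← AddChar.one_eq_zero]
    rw [Finset.sum_congr rfl (fun χ _ => e χ)]
    simp
  -- the shifted mean
  have hshift : ∀ γ, ((𝔼 s, f (γ + hat s) : ℝ) : ℂ) =
      ∑ χ : AddChar V ℂ, (a χ * 𝔼 s, χ (hat s)) * χ γ := by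
    intro γ
    rw [Complex.ofReal_expect, Finset.expect_congr rfl (fun s _ => ha (γ + hat s)),
      Finset.expect_sum_comm]
    refine Finset.sum_congr rfl fun χ _ => ?_
    rw [← Finset.mul_expect, mul_assoc, Finset.expect_mul]
    congr 1
    refine Finset.expect_congr rfl fun s _ => ?_
    rw [AddChar.map_add_eq_mul, mul_comm]
  obtain ⟨c, hc⟩ : ∃ c : AddChar V ℂ → ℂ, c = fun χ => if χ = 1 then 0 else a χ * 𝔼 s, χ (hat s) :=
    ⟨_, rfl⟩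
  have hdiff : ∀ γ, ((𝔼 s, f (γ + hat s) - 𝔼 δ, f δ : ℝ) : ℂ) = ∑ χ : AddChar V ℂ, c χ * χ γ := by
    intro γ
    rw [Complex.ofReal_sub, hshift, hmean, ← Finset.add_sum_erase _ _ (Finset.mem_univ (1 : AddChar V ℂ)),
      ← Finset.add_sum_erase _ (fun χ => c χ * χ γ) (Finset.mem_univ (1 : AddChar V ℂ))]
    have e1 : (𝔼 s : P, (1 : AddChar V ℂ) (hat s)) = 1 := by
      simp
    have e2 : c 1 = 0 := by rw [hc]; simp
    rw [e1, e2, AddChar.one_apply, mul_one, mul_one, zero_mul, zero_add, add_sub_cancel_left]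
    refine Finset.sum_congr rfl fun χ hχ => ?_
    rw [hc]
    simp only [if_neg (Finset.ne_of_mem_erase hχ)]
  have hL : 𝔼 γ, (𝔼 s, f (γ + hat s) - 𝔼 δ, f δ) ^ 2 = ∑ χ : AddChar V ℂ, ‖c χ‖ ^ 2 := by
    rw [← parseval_mixchr c]
    refine Finset.expect_congr rfl fun γ _ => ?_
    rw [← hdiff γ, Complex.norm_real, Real.norm_eq_abs, sq_abs]
  have hR : 𝔼 γ, (f γ) ^ 2 = ∑ χ : AddChar V ℂ, ‖a χ‖ ^ 2 := by
    rw [← parseval_mixchr a]
    refine Finset.expect_congr rfl fun γ _ => ?_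
    rw [← ha γ, Complex.norm_real, Real.norm_eq_abs, sq_abs]
  rw [hL, hR, Finset.mul_sum]
  refine Finset.sum_le_sum fun χ _ => ?_
  rw [hc]
  by_cases hχ : χ = 1
  · simp only [if_pos hχ, norm_zero]
    simp
  · simp only [if_neg hχ, norm_mul]
    rw [mul_pow, mul_comm]
    exact mul_le_mul_of_nonneg_right (pow_le_pow_left₀ (norm_nonneg _) (h χ hχ) 2) (by positivity)

end Pool.Agent.Lib_MP_3a79a1_b
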