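import Pool.Agent.Lib_MP_3a79a1_b.Defs

/-!
# [RM-MC] Consequences of the spectral gap

Everywhere `T h γ = 𝔼 s, h (γ + hat s)`, `E h = 𝔼 δ, h δ`, `lam = 1/10000`, and `Mix hat` says
`E (T h - E h)^2 ≤ lam^2 E h^2` for all real `h`.

* `mix_stay`: with `h = 1_D`, `μ = E h`:
  `E (h · T h) = μ^2 + E (h (T h - μ)) ≤ μ^2 + (E h^2)^{1/2} (E (T h - μ)^2)^{1/2}
    ≤ μ^2 + lam μ`  (Cauchy-Schwarz; `E h^2 = μ`).
* `mix_dev`: on the set where `T h ≥ a + b` we have `(T h - E h)^2 ≥ b^2` because `E h ≤ a`; so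
  `b^2 · Pr ≤ E (T h - E h)^2 ≤ lam^2 E h^2 ≤ lam^2 E h` (`0 ≤ h ≤ 1`).
* `mix_pp`: `V` acts on the finite set `Z`, `Γ ⊆ Z`.  For `z ∈ Z` put `h γ = 1_Γ (act γ z)`,
  `μ = E h`.  Then `E (h (1 - T h)) = μ - μ^2 - E ((h-μ) T (h-μ)) ≥ (1 - lam) (μ - μ^2)`
  (Cauchy-Schwarz and `Mix` for `h - μ`, whose mean is `0`, `E (h-μ)^2 = μ - μ^2`), and
  `μ - μ^2 = E_γ h γ (1 - E_{γ'} h (γ + γ'))`.  Hence
  `E_γ [1_Γ(γ z) 𝔼 γ' ind (act γ' (act γ z) ∉ Γ)] ≤ 2 E_γ [1_Γ(γ z) 𝔼 s ind (act (hat s) (act γ z) ∉ Γ)]`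
  (`γ + γ'` and `γ + hat s` act as `act γ' ∘ act γ`, `act (hat s) ∘ act γ`, `V` is commutative).
  Sum over `z ∈ Z`: since `act γ` is a bijection of `Z`, `∑ z, 𝔼 γ, Φ (act γ z) = ∑ z, Φ z`.
-/

set_option linter.unusedSectionVars false

namespace Pool.Agent.Lib_MP_3a79a1_b

open Finset
open scoped BigOperators

variable {V P : Type} [AddCommGroup V] [Fintype V] [Fintype P] [Nonempty P] {hat : P → V}

private theorem expect_translate_mixcor (h : V → ℝ) (g : V) : 𝔼 γ, h (γ + g) = 𝔼 γ, h γ :=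
  Fintype.expect_equiv (Equiv.addRight g) _ _ (fun _ => rfl)

private theorem expect_translate_left_mixcor (h : V → ℝ) (g : V) : 𝔼 γ, h (g + γ) = 𝔼 γ, h γ :=
  Fintype.expect_equiv (Equiv.addLeft g) _ _ (fun _ => rfl)

private theorem ind_sq_mixcor (p : Prop) : ind p ^ 2 = ind p := by
  by_cases h : p
  · rw [ind_true h]; norm_num
  · rw [ind_false h]; norm_num

private theorem ind_and_mixcor (p q : Prop) : ind (p ∧ q) = ind p * ind q := by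
  by_cases h : p
  · by_cases h' : q
    · rw [ind_true h, ind_true h', ind_true ⟨h, h'⟩]; norm_num
    · rw [ind_true h, ind_false h', ind_false (fun hh => h' hh.2)]; norm_num
  · rw [ind_false h, ind_false (fun hh => h hh.1)]; norm_num

/-- `E (f g) ≤ (lam E f^2 + lam⁻¹ E g^2) / 2` -/
private theorem amgm_mixcor (f g : V → ℝ) {c : ℝ} (hg : 𝔼 γ, g γ ^ 2 ≤ (1 / 10000) ^ 2 * c)
    (hf : 𝔼 γ, f γ ^ 2 ≤ c) : 𝔼 γ, f γ * g γ ≤ 1 / 10000 * c := by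
  have h1 : ∀ γ, f γ * g γ ≤ 1 / 20000 * f γ ^ 2 + 5000 * g γ ^ 2 := by
    intro γ
    nlinarith [sq_nonneg (1 / 10000 * f γ - g γ)]
  have h2 : 𝔼 γ, f γ * g γ ≤ 𝔼 γ, (1 / 20000 * f γ ^ 2 + 5000 * g γ ^ 2) :=
    Finset.expect_le_expect (fun γ _ => h1 γ)
  rw [Finset.expect_add_distrib, ← Finset.mul_expect, ← Finset.mul_expect] at h2
  linarith

theorem mix_stay (hm : Mix hat) (D : V → Prop) :
    𝔼 γ, 𝔼 s, ind (D γ ∧ D (γ + hat s)) ≤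
      (𝔼 γ, ind (D γ) + 1 / 10000) * 𝔼 γ, ind (D γ) := by
  set h : V → ℝ := fun γ => ind (D γ) with hh
  set μ : ℝ := 𝔼 γ, h γ with hμ
  have hsq : 𝔼 γ, h γ ^ 2 = μ := by
    rw [hμ]
    exact Finset.expect_congr rfl (fun γ _ => ind_sq_mixcor _)
  have h1 : 𝔼 γ, 𝔼 s, ind (D γ ∧ D (γ + hat s)) = 𝔼 γ, h γ * 𝔼 s, h (γ + hat s) := by
    refine Finset.expect_congr rfl (fun γ _ => ?_)
    rw [Finset.mul_expect]
    exact Finset.expect_congr rfl (fun s _ => ind_and_mixcor _ _)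
  have h2 : 𝔼 γ, h γ * 𝔼 s, h (γ + hat s) = 𝔼 γ, h γ * (𝔼 s, h (γ + hat s) - μ) + μ * μ := by
    have h3 : ∀ γ, h γ * 𝔼 s, h (γ + hat s) = h γ * (𝔼 s, h (γ + hat s) - μ) + μ * h γ := by
      intro γ
      ring
    rw [Finset.expect_congr rfl (fun γ _ => h3 γ), Finset.expect_add_distrib, ← Finset.mul_expect]
  have h4 : 𝔼 γ, h γ * (𝔼 s, h (γ + hat s) - μ) ≤ 1 / 10000 * μ := by
    refine amgm_mixcor h _ ?_ hsq.le
    have h5 := hm h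
    rw [hsq] at h5
    exact h5
  rw [h1, h2]
  have h6 : (𝔼 γ, ind (D γ) + 1 / 10000) * 𝔼 γ, ind (D γ) = (μ + 1 / 10000) * μ := rfl
  rw [h6]
  linarith

theorem mix_dev (hm : Mix hat) (h : V → ℝ) (h0 : ∀ γ, 0 ≤ h γ) (h1 : ∀ γ, h γ ≤ 1)
    {a b : ℝ} (ha : 𝔼 γ, h γ ≤ a) (hb : 0 < b) :
    𝔼 γ, ind (a + b ≤ 𝔼 s, h (γ + hat s)) ≤ (1 / 10000) ^ 2 / b ^ 2 * 𝔼 γ, h γ := by
  have hb2 : 0 < b ^ 2 := by positivity
  have h2 : ∀ γ, ind (a + b ≤ 𝔼 s, h (γ + hat s)) ≤ 1 / b ^ 2 * (𝔼 s, h (γ + hat s) - 𝔼 δ, h δ) ^ 2 := by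
    intro γ
    by_cases hc : a + b ≤ 𝔼 s, h (γ + hat s)
    · rw [ind_true hc]
      have h3 : b ≤ 𝔼 s, h (γ + hat s) - 𝔼 δ, h δ := by linarith
      have h4 : b ^ 2 ≤ (𝔼 s, h (γ + hat s) - 𝔼 δ, h δ) ^ 2 := pow_le_pow_left₀ hb.le h3 2
      rw [one_div, inv_mul_eq_div, le_div_iff₀ hb2]
      linarith
    · rw [ind_false hc]
      positivity
  have h3 : 𝔼 γ, ind (a + b ≤ 𝔼 s, h (γ + hat s))
      ≤ 𝔼 γ, (1 / b ^ 2 * (𝔼 s, h (γ + hat s) - 𝔼 δ, h δ) ^ 2) :=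
    Finset.expect_le_expect (fun γ _ => h2 γ)
  rw [← Finset.mul_expect] at h3
  have h4 : 𝔼 γ, h γ ^ 2 ≤ 𝔼 γ, h γ := by
    refine Finset.expect_le_expect (fun γ _ => ?_)
    nlinarith [h0 γ, h1 γ]
  have h5 := hm h
  have h6 : 𝔼 γ, (𝔼 s, h (γ + hat s) - 𝔼 δ, h δ) ^ 2 ≤ (1 / 10000) ^ 2 * 𝔼 γ, h γ :=
    h5.trans (mul_le_mul_of_nonneg_left h4 (by norm_num))
  calc 𝔼 γ, ind (a + b ≤ 𝔼 s, h (γ + hat s))
      ≤ 1 / b ^ 2 * 𝔼 γ, (𝔼 s, h (γ + hat s) - 𝔼 δ, h δ) ^ 2 := h3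
    _ ≤ 1 / b ^ 2 * ((1 / 10000) ^ 2 * 𝔼 γ, h γ) := mul_le_mul_of_nonneg_left h6 (by positivity)
    _ = (1 / 10000) ^ 2 / b ^ 2 * 𝔼 γ, h γ := by ring

theorem mix_pp (hm : Mix hat) {Z : Type} [Fintype Z] [DecidableEq Z] (act : V → Z → Z)
    (h0 : ∀ z, act 0 z = z) (hadd : ∀ g h z, act (g + h) z = act g (act h z)) (Γ : Finset Z) :
    ∑ p ∈ Γ, 𝔼 γ, ind (act γ p ∉ Γ) ≤ 2 * ∑ p ∈ Γ, 𝔼 s, ind (act (hat s) p ∉ Γ) := by
  classical
  -- the inequality along one orbit map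
  have key : ∀ h : V → ℝ, (∀ γ, h γ ^ 2 = h γ) →
      𝔼 γ, h γ * (1 - 𝔼 γ', h (γ + γ')) ≤ 2 * 𝔼 γ, h γ * (1 - 𝔼 s, h (γ + hat s)) := by
    intro h hsq
    set μ : ℝ := 𝔼 γ, h γ with hμ
    have e1 : 𝔼 γ, h γ * (1 - 𝔼 γ', h (γ + γ')) = μ - μ * μ := by
      have e2 : ∀ γ, h γ * (1 - 𝔼 γ', h (γ + γ')) = h γ - μ * h γ := by
        intro γ
        rw [expect_translate_left_mixcor h γ]
        ring
      rw [Finset.expect_congr rfl (fun γ _ => e2 γ), Finset.expect_sub_distrib, ← Finset.mul_expect]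
    have hT : 𝔼 γ, 𝔼 s, h (γ + hat s) = μ := by
      rw [Finset.expect_comm]
      rw [Finset.expect_congr rfl (fun s _ => expect_translate_mixcor h (hat s))]
      rw [Fintype.expect_const]
    have e3 : 𝔼 γ, h γ * (1 - 𝔼 s, h (γ + hat s)) =
        μ - μ * μ - 𝔼 γ, (h γ - μ) * (𝔼 s, h (γ + hat s) - μ) := by
      have e4 : ∀ γ, h γ * (1 - 𝔼 s, h (γ + hat s)) =
          h γ - (h γ - μ) * (𝔼 s, h (γ + hat s) - μ) - μ * h γ
            - (μ * 𝔼 s, h (γ + hat s) - μ * μ) := by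
        intro γ
        ring
      rw [Finset.expect_congr rfl (fun γ _ => e4 γ), Finset.expect_sub_distrib,
        Finset.expect_sub_distrib, Finset.expect_sub_distrib, Finset.expect_sub_distrib,
        ← Finset.mul_expect, ← Finset.mul_expect, hT, Fintype.expect_const]
      ring
    have e5 : 𝔼 γ, (h γ - μ) ^ 2 = μ - μ * μ := by
      have e6 : ∀ γ, (h γ - μ) ^ 2 = h γ - 2 * μ * h γ + μ * μ := by
        intro γ
        have := hsq γ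
        linear_combination this
      rw [Finset.expect_congr rfl (fun γ _ => e6 γ), Finset.expect_add_distrib,
        Finset.expect_sub_distrib, ← Finset.mul_expect, Fintype.expect_const]
      ring
    have e7 : 𝔼 γ, (𝔼 s, h (γ + hat s) - μ) ^ 2 ≤ (1 / 10000) ^ 2 * (μ - μ * μ) := by
      have e8 := hm (fun γ => h γ - μ)
      rw [e5] at e8
      have e9 : 𝔼 δ, (h δ - μ) = 0 := by
        rw [Finset.expect_sub_distrib, Fintype.expect_const]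
        exact sub_self μ
      have e10 : ∀ γ, 𝔼 s, (h (γ + hat s) - μ) = 𝔼 s, h (γ + hat s) - μ := by
        intro γ
        rw [Finset.expect_sub_distrib, Fintype.expect_const]
      simp only [e9, e10, sub_zero] at e8
      exact e8
    have e11 : 𝔼 γ, (h γ - μ) * (𝔼 s, h (γ + hat s) - μ) ≤ 1 / 10000 * (μ - μ * μ) :=
      amgm_mixcor (fun γ => h γ - μ) _ e7 e5.le
    have e12 : 0 ≤ μ - μ * μ := by
      rw [← e5]
      exact Finset.expect_nonneg (fun γ _ => sq_nonneg _)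
    rw [e1, e3]
    linarith
  have hbij : ∀ (Φ : Z → ℝ) (γ : V), ∑ z, Φ (act γ z) = ∑ z, Φ z := by
    intro Φ γ
    have hl : ∀ g : V, Function.LeftInverse (act (-g)) (act g) := by
      intro g z
      rw [← hadd, neg_add_cancel, h0]
    let e : Z ≃ Z :=
      { toFun := act γ
        invFun := act (-γ)
        left_inv := hl γ
        right_inv := by
          have := hl (-γ)
          rw [neg_neg] at this
          exact this }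
    exact Equiv.sum_comp e Φ
  have hsum : ∀ Φ : Z → ℝ, ∑ z, 𝔼 γ, Φ (act γ z) = ∑ z, Φ z := by
    intro Φ
    rw [← Finset.expect_sum_comm]
    rw [Finset.expect_congr rfl (fun γ _ => hbij Φ γ), Fintype.expect_const]
  have hΓ : ∀ Ψ : Z → ℝ, ∑ p ∈ Γ, Ψ p = ∑ z, ind (z ∈ Γ) * Ψ z := by
    intro Ψ
    rw [← Finset.sum_filter_add_sum_filter_not Finset.univ (fun z => z ∈ Γ)
      (fun z => ind (z ∈ Γ) * Ψ z)]
    have h1 : ∑ z ∈ Finset.univ.filter (fun z => z ∉ Γ), ind (z ∈ Γ) * Ψ z = 0 := by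
      refine Finset.sum_eq_zero (fun z hz => ?_)
      rw [ind_false (Finset.mem_filter.1 hz).2, zero_mul]
    rw [h1, add_zero]
    have h2 : Finset.univ.filter (fun z => z ∈ Γ) = Γ := by
      ext z
      simp
    rw [h2]
    refine Finset.sum_congr rfl (fun z hz => ?_)
    rw [ind_true hz, one_mul]
  rw [hΓ (fun p => 𝔼 γ, ind (act γ p ∉ Γ)), hΓ (fun p => 𝔼 s, ind (act (hat s) p ∉ Γ)),
    ← hsum (fun z => ind (z ∈ Γ) * 𝔼 γ, ind (act γ z ∉ Γ)),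
    ← hsum (fun z => ind (z ∈ Γ) * 𝔼 s, ind (act (hat s) z ∉ Γ)), Finset.mul_sum]
  refine Finset.sum_le_sum (fun z _ => ?_)
  have k1 := key (fun γ => ind (act γ z ∈ Γ)) (fun γ => ind_sq_mixcor _)
  have k2 : ∀ γ, 𝔼 γ', ind (act γ' (act γ z) ∉ Γ) = 1 - 𝔼 γ', ind (act (γ + γ') z ∈ Γ) := by
    intro γ
    have k3 : ∀ γ', ind (act γ' (act γ z) ∉ Γ) = 1 - ind (act (γ + γ') z ∈ Γ) := by
      intro γ'
      rw [ind_not, add_comm γ γ', hadd]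
    rw [Finset.expect_congr rfl (fun γ' _ => k3 γ'), Finset.expect_sub_distrib,
      Fintype.expect_const]
  have k4 : ∀ γ, 𝔼 s, ind (act (hat s) (act γ z) ∉ Γ) = 1 - 𝔼 s, ind (act (γ + hat s) z ∈ Γ) := by
    intro γ
    have k3 : ∀ s, ind (act (hat s) (act γ z) ∉ Γ) = 1 - ind (act (γ + hat s) z ∈ Γ) := by
      intro s
      rw [ind_not, add_comm γ (hat s), hadd]
    rw [Finset.expect_congr rfl (fun s _ => k3 s), Finset.expect_sub_distrib,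
      Fintype.expect_const]
  have l1 : 𝔼 γ, ind (act γ z ∈ Γ) * 𝔼 γ', ind (act γ' (act γ z) ∉ Γ) =
      𝔼 γ, ind (act γ z ∈ Γ) * (1 - 𝔼 γ', ind (act (γ + γ') z ∈ Γ)) :=
    Finset.expect_congr rfl (fun γ _ => by rw [k2 γ])
  have l2 : 𝔼 γ, ind (act γ z ∈ Γ) * 𝔼 s, ind (act (hat s) (act γ z) ∉ Γ) =
      𝔼 γ, ind (act γ z ∈ Γ) * (1 - 𝔼 s, ind (act (γ + hat s) z ∈ Γ)) :=
    Finset.expect_congr rfl (fun γ _ => by rw [k4 γ])
  rw [l1, l2]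
  exact k1

end Pool.Agent.Lib_MP_3a79a1_b
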