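import Pool.Agent.Lib_MP_3a79a1_b.FinB

/-!
# The presentation: relation types, words, weights

For a level `S` the own relations are
`inl (u,b)`            : `a(u,b)^2`
`inr (inl (u,b,b'))`   : `a(u,b) a(u,b') a(u,b+b')⁻¹`
`inr (inr (inl (s,t)))`: `a(s) a(t) (a(t) a(s))⁻¹`
`inr (inr (inr (l,t,b,γ)))` : `l(l, γ + b e(t)) (l(l,γ) a(lpt l t, b))⁻¹`.
The relations of level `m+1` are its own relations and, for every `c ∈ F`, the relations of level
`m` in the slice `c`.  On the top level the line tables `l(l,γ+γ') (l(l,γ) l(l,γ'))⁻¹` are added.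
-/

set_option linter.unusedSectionVars false

namespace Pool.Agent.Lib_MP_3a79a1_b

open Finset
open scoped BigOperators

variable {F : Type} [Field F] [Fintype F] [DecidableEq F] {d : ℕ}

/-- own relations -/
abbrev OwnT (S : Sys F d) : Type :=
  (S.U × F) ⊕ (S.U × F × F) ⊕ ((S.U × F) × (S.U × F)) ⊕ (S.L × F × F × (Fin (d + 1) → F))

/-- words of the own relations -/
def ownW (S : Sys F d) : OwnT S → FreeGroup (Gen S)
  | Sum.inl s => FreeGroup.of (Sum.inl s) * FreeGroup.of (Sum.inl s)
  | Sum.inr (Sum.inl p) =>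
      FreeGroup.of (Sum.inl (p.1, p.2.1)) * FreeGroup.of (Sum.inl (p.1, p.2.2)) *
        (FreeGroup.of (Sum.inl (p.1, p.2.1 + p.2.2)))⁻¹
  | Sum.inr (Sum.inr (Sum.inl p)) =>
      FreeGroup.of (Sum.inl p.1) * FreeGroup.of (Sum.inl p.2) *
        (FreeGroup.of (Sum.inl p.2) * FreeGroup.of (Sum.inl p.1))⁻¹
  | Sum.inr (Sum.inr (Sum.inr p)) =>
      FreeGroup.of (Sum.inr (p.1, p.2.2.2 + p.2.2.1 • evec F d p.2.1)) *
        (FreeGroup.of (Sum.inr (p.1, p.2.2.2)) *
          FreeGroup.of (Sum.inl (S.lpt p.1 p.2.1, p.2.2.1)))⁻¹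

/-- weights of the own relations -/
noncomputable def ownM (S : Sys F d) : OwnT S → ℝ
  | Sum.inl _ => 1 / Fintype.card (S.U × F)
  | Sum.inr (Sum.inl _) => 1 / (Fintype.card S.U * (Fintype.card F * Fintype.card F))
  | Sum.inr (Sum.inr (Sum.inl _)) => 1 / (Fintype.card (S.U × F) * Fintype.card (S.U × F))
  | Sum.inr (Sum.inr (Sum.inr _)) =>
      (Fintype.card F : ℝ) / Fintype.card S.U /
        (Fintype.card F * (Fintype.card F * Fintype.card (Fin (d + 1) → F)))

/-- relations of level `m`, including those of all slices -/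
def RelT (F : Type) [Field F] [Fintype F] [DecidableEq F] (d : ℕ) : ℕ → Type
  | 0 => OwnT (sysm F d 0)
  | m + 1 => OwnT (sysm F d (m + 1)) ⊕ (F × RelT F d m)

/-- finiteness of the relation types -/
noncomputable def fintypeRelT (F : Type) [Field F] [Fintype F] [DecidableEq F] (d : ℕ) :
    (m : ℕ) → Fintype (RelT F d m)
  | 0 => inferInstanceAs (Fintype (OwnT (sysm F d 0)))
  | m + 1 =>
    haveI := fintypeRelT F d m
    inferInstanceAs (Fintype (OwnT (sysm F d (m + 1)) ⊕ (F × RelT F d m)))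

noncomputable instance (m : ℕ) : Fintype (RelT F d m) := fintypeRelT F d m

/-- words of the relations of level `m` -/
def relW (F : Type) [Field F] [Fintype F] [DecidableEq F] (d : ℕ) :
    (m : ℕ) → RelT F d m → FreeGroup (Gen (sysm F d m))
  | 0 => fun r => ownW (sysm F d 0) r
  | m + 1 => fun r => Sum.elim (ownW (sysm F d (m + 1)))
      (fun p => FreeGroup.map (sl (sysm F d m) p.1) (relW F d m p.2)) r

/-- weights of the relations of level `m` -/
noncomputable def relM (F : Type) [Field F] [Fintype F] [DecidableEq F] (d : ℕ) :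
    (m : ℕ) → RelT F d m → ℝ
  | 0 => fun r => ownM (sysm F d 0) r
  | m + 1 => fun r => Sum.elim (ownM (sysm F d (m + 1)))
      (fun p => relM F d m p.2 / Fintype.card F) r

/-- all relations of the presentation -/
abbrev TopT (F : Type) [Field F] [Fintype F] [DecidableEq F] (d m : ℕ) : Type :=
  RelT F d m ⊕ ((sysm F d m).L × (Fin (d + 1) → F) × (Fin (d + 1) → F))

/-- words of all relations -/
def topW (F : Type) [Field F] [Fintype F] [DecidableEq F] (d m : ℕ) :
    TopT F d m → FreeGroup (Gen (sysm F d m))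
  | Sum.inl r => relW F d m r
  | Sum.inr p => FreeGroup.of (Sum.inr (p.1, p.2.1 + p.2.2)) *
      (FreeGroup.of (Sum.inr (p.1, p.2.1)) * FreeGroup.of (Sum.inr (p.1, p.2.2)))⁻¹

/-- weights of all relations -/
noncomputable def topM (F : Type) [Field F] [Fintype F] [DecidableEq F] (d m : ℕ) :
    TopT F d m → ℝ
  | Sum.inl r => relM F d m r
  | Sum.inr _ => 1 / (Fintype.card (sysm F d m).L *
      (Fintype.card (Fin (d + 1) → F) * Fintype.card (Fin (d + 1) → F)))

end Pool.Agent.Lib_MP_3a79a1_b
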