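import Pool.Agent.Lib_MP_3a79a1_b.GoodAll
import Pool.Agent.Lib_MP_3a79a1_b.PresDefs

/-!
# [RM-PU2] Universal property

`univ_prop`: by induction on `m` (generalize `a`).
First, for every system which is `Good` and every `a` satisfying the three families:
`a (inr (l, ·))` is additive, `a (inr (l, 0)) = 0`, so `a (inr (l, b • e t)) = a (inl (lpt l t, b))`
(`hcons` with `γ = 0`), and for an injective `c` and `γ = ∑ j b_j • e (c j)` (`exists_coef`)
`a (inr (l, γ)) = ∑ j a (inl (lpt l (c j), b_j))`.  So if an additive `φ` satisfies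
`φ (hatS s) = a (inl s)` for all points then also `φ (lin l γ) = a (inr (l, γ))`
(`lin l γ = ∑ j b_j • pt (lpt l (c j))`).
Hence it suffices to find `φ` for the points.
`m = 0`: `V = F`, `φ b = a (inl ((), b))`, additive by `htab`; `hatS ((),b) = b • 1 = b`.
`m+1`: the slices `a ∘ sl c` satisfy the hypotheses; let `φ_c` be their homomorphisms.  Put
`φ (PhiE c hc w) = ∑ j φ_{c j} (w j)`.  For a point `((u,t),b)`:
`hatS = ten d t (b • pt u) = PhiE (fun j => lag c t j • b • pt u)`, so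
`φ (hatS ((u,t),b)) = ∑ j a (inl ((u, c j), lag c t j * b))`; on the line `inr u`:
`a (inl ((u,t),b)) = a (inr (inr u, b • e t)) = a (inr (inr u, ∑ j (lag c t j * b) • e (c j)))
 = ∑ j a (inl ((u, c j), lag c t j * b))` (`lag_sum`).
`gen_unique`: induction: `m = 0`: `hatS ((),b) = b`.  `m+1`: `φ ∘ ten c` and `ψ ∘ ten c` agree on the
`hatS` of level `m` for every `c` (`ten d c (hatS (u,b)) = hatS ((u,c),b)`), so they are equal, and
`v = ∑ j ten d (c j) (w j)`.
-/

set_option linter.unusedSectionVars false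

namespace Pool.Agent.Lib_MP_3a79a1_b

open Finset
open scoped BigOperators

variable {F : Type} [Field F] [Fintype F] [DecidableEq F] {d : ℕ}

/-- from the points to the lines -/
private theorem all_puniv {S : Sys F d} {m : ℕ} (hS : Good S m) (c : Fin (d + 1) → F) (hc : Function.Injective c)
    {H : Type} [AddCommGroup H] (a : Gen S → H)
    (hcons : ∀ l t b γ, a (Sum.inr (l, γ + b • evec F d t)) = a (Sum.inr (l, γ)) + a (Sum.inl (S.lpt l t, b)))
    (hlt : ∀ l γ γ', a (Sum.inr (l, γ + γ')) = a (Sum.inr (l, γ)) + a (Sum.inr (l, γ')))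
    (φ : S.V →+ H) (hφ : ∀ s, φ (hatS S s) = a (Sum.inl s)) (g : Gen S) : φ (vecS S g) = a g := by
  rcases g with s | ⟨l, γ⟩
  · exact hφ s
  · show φ (S.lin l γ) = a (Sum.inr (l, γ))
    let A : (Fin (d + 1) → F) →+ H := AddMonoidHom.mk' (fun γ => a (Sum.inr (l, γ))) (hlt l)
    let B : (Fin (d + 1) → F) →+ S.V := AddMonoidHom.mk' (S.lin l) (hS.lin_add l)
    have hA : ∀ t b, A (b • evec F d t) = a (Sum.inl (S.lpt l t, b)) := by
      intro t b
      have h1 : A (0 + b • evec F d t) = A 0 + a (Sum.inl (S.lpt l t, b)) := hcons l t b 0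
      rwa [zero_add, map_zero, zero_add] at h1
    obtain ⟨b, hb⟩ := exists_coef hc γ
    show φ (B γ) = A γ
    rw [hb, map_sum, map_sum, map_sum]
    refine Finset.sum_congr rfl fun j _ => ?_
    rw [hA, ← hφ]
    exact congrArg φ (hS.lin_e l (c j) (b j))

/-- on a line -/
private theorem line_puniv {S : Sys F d} (c : Fin (d + 1) → F) (hc : Function.Injective c)
    {H : Type} [AddCommGroup H] (a : Gen S → H)
    (hcons : ∀ l t b γ, a (Sum.inr (l, γ + b • evec F d t)) = a (Sum.inr (l, γ)) + a (Sum.inl (S.lpt l t, b)))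
    (hlt : ∀ l γ γ', a (Sum.inr (l, γ + γ')) = a (Sum.inr (l, γ)) + a (Sum.inr (l, γ')))
    (l : S.L) (t b : F) :
    a (Sum.inl (S.lpt l t, b)) = ∑ j, a (Sum.inl (S.lpt l (c j), lag c t j * b)) := by
  let A : (Fin (d + 1) → F) →+ H := AddMonoidHom.mk' (fun γ => a (Sum.inr (l, γ))) (hlt l)
  have hA : ∀ t b, A (b • evec F d t) = a (Sum.inl (S.lpt l t, b)) := by
    intro t b
    have h1 : A (0 + b • evec F d t) = A 0 + a (Sum.inl (S.lpt l t, b)) := hcons l t b 0
    rwa [zero_add, map_zero, zero_add] at h1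
  rw [← hA, lag_sum hc t, Finset.smul_sum, map_sum]
  refine Finset.sum_congr rfl fun j _ => ?_
  rw [smul_smul, hA, mul_comm]

private theorem step_puniv {S : Sys F d} {m : ℕ} (hS : Good (next S) m) (c : Fin (d + 1) → F)
    (hc : Function.Injective c) {H : Type} [AddCommGroup H]
    (IH : ∀ (a : Gen S → H)
      (_htab : ∀ u b b', a (Sum.inl (u, b + b')) = a (Sum.inl (u, b)) + a (Sum.inl (u, b')))
      (_hcons : ∀ l t b γ, a (Sum.inr (l, γ + b • evec F d t)) = a (Sum.inr (l, γ)) + a (Sum.inl (S.lpt l t, b)))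
      (_hlt : ∀ l γ γ', a (Sum.inr (l, γ + γ')) = a (Sum.inr (l, γ)) + a (Sum.inr (l, γ'))),
      ∃ φ : S.V →+ H, ∀ g, φ (vecS S g) = a g)
    (a : Gen (next S) → H)
    (htab : ∀ u b b', a (Sum.inl (u, b + b')) = a (Sum.inl (u, b)) + a (Sum.inl (u, b')))
    (hcons : ∀ l t b γ, a (Sum.inr (l, γ + b • evec F d t)) = a (Sum.inr (l, γ)) + a (Sum.inl ((next S).lpt l t, b)))
    (hlt : ∀ l γ γ', a (Sum.inr (l, γ + γ')) = a (Sum.inr (l, γ)) + a (Sum.inr (l, γ'))) :
    ∃ φ : (next S).V →+ H, ∀ g, φ (vecS (next S) g) = a g := by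
  have h1 : ∀ c0 : F, ∃ φ : S.V →+ H, ∀ g, φ (vecS S g) = a (sl S c0 g) := fun c0 =>
    IH (fun g => a (sl S c0 g)) (fun u b b' => htab (u, c0) b b')
      (fun l t b γ => hcons (Sum.inl (l, c0)) t b γ) (fun l γ γ' => hlt (Sum.inl (l, c0)) γ γ')
  choose φ0 hφ0 using h1
  let Φ : (Fin (d + 1) → S.V) →+ H :=
    (∑ j, (φ0 (c j)).comp (Pi.evalAddMonoidHom (fun _ : Fin (d + 1) => S.V) j)).comp (PhiE c hc).symm.toAddMonoidHom
  have hΦ : ∀ w, Φ (PhiE c hc w) = ∑ j, φ0 (c j) (w j) := by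
    intro w
    show (∑ j, (φ0 (c j)).comp (Pi.evalAddMonoidHom (fun _ : Fin (d + 1) => S.V) j)) ((PhiE c hc).symm (PhiE c hc w)) = _
    rw [AddEquiv.symm_apply_apply, AddMonoidHom.finsetSum_apply]
    rfl
  refine ⟨Φ, fun g => all_puniv hS c hc a hcons hlt Φ ?_ g⟩
  rintro ⟨⟨u, t⟩, b⟩
  have h2 : hatS (next S) ((u, t), b) = ten d t (b • S.pt u) := by
    show (fun k : Fin (d + 1) => b • t ^ (k : ℕ) • S.pt u) = fun k : Fin (d + 1) => t ^ (k : ℕ) • b • S.pt u
    funext k
    rw [smul_comm]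
  have h3 : Φ (hatS (next S) ((u, t), b)) = ∑ j, φ0 (c j) (lag c t j • b • S.pt u) := by
    rw [h2, ten_eq_Phi c hc t (b • S.pt u)]
    exact hΦ _
  have h4 := line_puniv c hc a hcons hlt (Sum.inr u) t b
  refine h3.trans (Eq.trans ?_ h4.symm)
  refine Finset.sum_congr rfl fun j _ => ?_
  rw [smul_smul]
  exact hφ0 (c j) (Sum.inl (u, lag c t j * b))

theorem univ_prop (c : Fin (d + 1) → F) (hc : Function.Injective c) :
    ∀ (m : ℕ) {H : Type} [AddCommGroup H] (a : Gen (sysm F d m) → H)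
      (_htab : ∀ u b b', a (Sum.inl (u, b + b')) = a (Sum.inl (u, b)) + a (Sum.inl (u, b')))
      (_hcons : ∀ l t b γ, a (Sum.inr (l, γ + b • evec F d t)) =
        a (Sum.inr (l, γ)) + a (Sum.inl ((sysm F d m).lpt l t, b)))
      (_hlt : ∀ l γ γ', a (Sum.inr (l, γ + γ')) = a (Sum.inr (l, γ)) + a (Sum.inr (l, γ'))),
      ∃ φ : (sysm F d m).V →+ H, ∀ g, φ (vecS (sysm F d m) g) = a g := by
  intro m
  induction m with
  | zero =>
    intro H _ a htab hcons hlt
    let φ : F →+ H := AddMonoidHom.mk' (fun b => a (Sum.inl ((), b))) (htab ())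
    refine ⟨φ, fun g => all_puniv (good_sysm (F := F) (d := d) 0) c hc a hcons hlt φ ?_ g⟩
    rintro ⟨u, b⟩
    show a (Sum.inl ((), b • (1 : F))) = a (Sum.inl (u, b))
    rw [smul_eq_mul, mul_one]
    rfl
  | succ m ih =>
    intro H _ a htab hcons hlt
    exact step_puniv (good_sysm (F := F) (d := d) (m + 1)) c hc (fun a => ih a) a htab hcons hlt

theorem gen_unique (c : Fin (d + 1) → F) (hc : Function.Injective c) :
    ∀ (m : ℕ) {H : Type} [AddCommGroup H] (φ ψ : (sysm F d m).V →+ H),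
      (∀ s, φ (hatS (sysm F d m) s) = ψ (hatS (sysm F d m) s)) → φ = ψ := by
  intro m
  induction m with
  | zero =>
    intro H _ φ ψ h
    refine AddMonoidHom.ext fun b => ?_
    have h1 := h ((), (b : F))
    have h2 : ∀ x : F, x • (1 : F) = x := fun x => by rw [smul_eq_mul, mul_one]
    have h3 : hatS (sysm F d 0) ((), (b : F)) = b := h2 b
    rwa [h3] at h1
  | succ m ih =>
    intro H _ φ ψ h
    have key : ∀ (c0 : F) (w : (sysm F d m).V), φ (ten d c0 w) = ψ (ten d c0 w) := by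
      intro c0
      let T : (sysm F d m).V →+ (sysm F d (m + 1)).V := AddMonoidHom.mk' (ten d c0) (by
        intro w w'
        show (fun k : Fin (d + 1) => c0 ^ (k : ℕ) • (w + w')) =
          fun k : Fin (d + 1) => c0 ^ (k : ℕ) • w + c0 ^ (k : ℕ) • w'
        funext k
        rw [smul_add])
      have h1 : φ.comp T = ψ.comp T := by
        refine ih _ _ ?_
        rintro ⟨u, b⟩
        have h2 : T (hatS (sysm F d m) (u, b)) = hatS (sysm F d (m + 1)) ((u, c0), b) := by
          show (fun k : Fin (d + 1) => c0 ^ (k : ℕ) • b • (sysm F d m).pt u) =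
            fun k : Fin (d + 1) => b • c0 ^ (k : ℕ) • (sysm F d m).pt u
          funext k
          rw [smul_comm]
        show φ (T (hatS (sysm F d m) (u, b))) = ψ (T (hatS (sysm F d m) (u, b)))
        rw [h2]
        exact h _
      intro w
      exact DFunLike.congr_fun h1 w
    refine AddMonoidHom.ext fun v => ?_
    let w : Fin (d + 1) → (sysm F d m).V := (PhiE c hc).symm v
    let φ' : (Fin (d + 1) → (sysm F d m).V) →+ H := φ
    let ψ' : (Fin (d + 1) → (sysm F d m).V) →+ H := ψ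
    have hv : (v : Fin (d + 1) → (sysm F d m).V) = ∑ j, ten d (c j) (w j) := by
      have h1 := (PhiE c hc).apply_symm_apply (v : Fin (d + 1) → (sysm F d m).V)
      rw [PhiE_apply] at h1
      exact h1.symm
    have h5 : φ' (∑ j, ten d (c j) (w j)) = ψ' (∑ j, ten d (c j) (w j)) := by
      rw [map_sum, map_sum]
      exact Finset.sum_congr rfl fun j _ => key (c j) (w j)
    rw [← hv] at h5
    exact h5

end Pool.Agent.Lib_MP_3a79a1_b
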