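import Pool.Agent.Lib_MP_3a79a1_b.Trans
import Pool.Agent.Lib_MP_3a79a1_b.SecB

/-!
# [RM-PT] Good points

`y` a section with `miss y ≤ 1/2000`, `u` a point, `a b = A (inl (u,b))`,
`β b = bs y (u,b)`, `g = 𝔼 b ind (1/2 < β b) ≤ 1/4`; call `b` bad if `1/2 < β b`.
`cb b = pull (cmS (ptA A) (ptA A (u,b))) y`; `𝔼 b cb b = pull (fun x => 𝔼 b cmS .. x) y =: cbar`.
For good `b`: `β b ≤ 2 miss y + (21/10) cb b` (`bs_small`).
Let `b = b1 + b2`.  If `OK y γ (u,b2)` and `OK y (γ + hat (u,b2)) (u,b1)` and `a b1 (a b2 x) = a (b1+b2) x`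
for `x = y γ`, then `OK y γ (u,b)` (`hatS (u,b1+b2) = hatS (u,b1) + hatS (u,b2)`, `add_smul`).  Hence
`β b ≤ β b2 + β b1 + tf b1 b2`, `tf b1 b2 = pull (fun x => ind (a b1 (a b2 x) ≠ a (b1+b2) x)) y`;
`𝔼 b1 𝔼 b2 tf b1 b2 = pull (tbU A u) y =: tbar`.
Let `b` be bad.  For `b2` uniform and `b1 = b - b2`, both are good with probability `≥ 1 - 2g ≥ 1/2`,
and then `1/2 < 4 miss y + (21/10)(cb b1 + cb b2) + tf b1 b2`.  So
`1/4 ≤ 4 miss y + (42/10) cbar + 𝔼 b2 tf (b - b2) b2`.  Multiply with `ind (b bad)` and average over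
`b`: `g/4 ≤ g (4 miss y + (42/10) cbar) + tbar`; with `g ≤ 1/4`, `miss y ≤ 1/2000`:
`0.248 g ≤ 1.05 cbar + tbar`, i.e. `g ≤ 4.3 cbar + 4.1 tbar`.
Finally `𝔼 b β b ≤ g + 2 miss y + 2.1 cbar ≤ 2 miss y + 7 cbar + 5 tbar`.
-/

set_option linter.unusedSectionVars false

namespace Pool.Agent.Lib_MP_3a79a1_b

open Finset
open scoped BigOperators

variable {F : Type} [Field F] [Fintype F] [DecidableEq F] {d : ℕ}

variable {X : Type} [Fintype X]

/-- averages commute with `pull` -/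
private lemma pull_expect_pts {V ι : Type} [Fintype V] [Fintype ι]
    (h : ι → X → ℝ) (y : V → Option X) :
    𝔼 b : ι, pull (h b) y = pull (fun x => 𝔼 b : ι, h b x) y := by
  unfold pull
  rw [Finset.expect_comm]
  refine Finset.expect_congr rfl fun γ _ => ?_
  cases y γ with
  | none => simp
  | some x => rfl

private lemma pull_nonneg_pts {V : Type} [Fintype V] {h : X → ℝ} (hh : ∀ x, 0 ≤ h x)
    (y : V → Option X) : 0 ≤ pull h y := by
  unfold pull
  refine Finset.expect_nonneg fun γ _ => ?_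
  cases y γ with
  | none => exact le_rfl
  | some x => exact hh x

/-- the union bound of the header -/
private lemma union_pts {S : Sys F d} {A : Gen S → Equiv.Perm X} (y : S.V → Option X) (u : S.U)
    (b1 b2 : F) :
    bs (hatS S) (ptA A) y (u, b1 + b2) ≤ bs (hatS S) (ptA A) y (u, b2) +
      bs (hatS S) (ptA A) y (u, b1) +
      pull (fun x => ind (A (Sum.inl (u, b1)) (A (Sum.inl (u, b2)) x) ≠
        A (Sum.inl (u, b1 + b2)) x)) y := by
  have hadd : hatS S (u, b1 + b2) = hatS S (u, b2) + hatS S (u, b1) := by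
    unfold hatS
    rw [add_smul, add_comm]
  have h2 : bs (hatS S) (ptA A) y (u, b1) =
      𝔼 γ, ind (¬ OK (hatS S) (ptA A) y (γ + hatS S (u, b2)) (u, b1)) := by
    unfold bs
    symm
    exact Fintype.expect_equiv (Equiv.addRight (hatS S (u, b2))) _ _ fun γ => rfl
  rw [h2]
  unfold bs pull
  rw [← Finset.expect_add_distrib, ← Finset.expect_add_distrib]
  refine Finset.expect_le_expect fun γ _ => ?_
  have e1 := ind_nonneg (¬ OK (hatS S) (ptA A) y γ (u, b2))
  have e2 := ind_nonneg (¬ OK (hatS S) (ptA A) y (γ + hatS S (u, b2)) (u, b1))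
  have e3 : 0 ≤ (y γ).elim 0 (fun x => ind (A (Sum.inl (u, b1)) (A (Sum.inl (u, b2)) x) ≠
        A (Sum.inl (u, b1 + b2)) x)) := by
    cases y γ with
    | none => exact le_rfl
    | some x => exact ind_nonneg _
  by_cases h : OK (hatS S) (ptA A) y γ (u, b1 + b2)
  · rw [ind_false (not_not.2 h)]
    linarith
  · rw [ind_true h]
    by_cases o1 : OK (hatS S) (ptA A) y γ (u, b2)
    · by_cases o2 : OK (hatS S) (ptA A) y (γ + hatS S (u, b2)) (u, b1)
      · obtain ⟨x, hx, hx'⟩ := o1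
        obtain ⟨z, hz, hz'⟩ := o2
        have e4 : z = ptA A (u, b2) x := Option.some.inj (hz.symm.trans hx')
        have hne : A (Sum.inl (u, b1)) (A (Sum.inl (u, b2)) x) ≠ A (Sum.inl (u, b1 + b2)) x := by
          intro he
          apply h
          refine ⟨x, hx, ?_⟩
          rw [hadd, ← add_assoc, hz', e4]
          exact congrArg some he
        have e5 : (y γ).elim 0 (fun x => ind (A (Sum.inl (u, b1)) (A (Sum.inl (u, b2)) x) ≠
            A (Sum.inl (u, b1 + b2)) x)) = 1 := by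
          rw [hx]
          exact ind_true hne
        rw [e5]
        linarith
      · rw [ind_true o2]
        linarith
    · rw [ind_true o1]
      linarith

theorem pts_good {S : Sys F d} (hm : Mix (hatS S)) {A : Gen S → Equiv.Perm X}
    {y : S.V → Option X} (hy : IsSec (hatS S) (ptA A) y) (hmiss : miss y ≤ 1 / 2000) (u : S.U)
    (hu : 𝔼 b : F, ind (1 / 2 < bs (hatS S) (ptA A) y (u, b)) ≤ 1 / 4) :
    𝔼 b : F, bs (hatS S) (ptA A) y (u, b) ≤
      2 * miss y + 7 * pull (fun x => 𝔼 b : F, cmS (ptA A) (ptA A (u, b)) x) y +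
      5 * pull (tbU A u) y := by
  obtain ⟨β, hβ⟩ : ∃ β : F → ℝ, β = fun b => bs (hatS S) (ptA A) y (u, b) := ⟨_, rfl⟩
  obtain ⟨cb, hcb⟩ : ∃ cb : F → ℝ, cb = fun b => pull (cmS (ptA A) (ptA A (u, b))) y := ⟨_, rfl⟩
  obtain ⟨tf, htf⟩ : ∃ tf : F → F → ℝ, tf = fun b1 b2 => pull (fun x =>
    ind (A (Sum.inl (u, b1)) (A (Sum.inl (u, b2)) x) ≠ A (Sum.inl (u, b1 + b2)) x)) y := ⟨_, rfl⟩
  obtain ⟨g, hg⟩ : ∃ g : ℝ, g = 𝔼 b : F, ind (1 / 2 < β b) := ⟨_, rfl⟩
  obtain ⟨m, hmm⟩ : ∃ m : ℝ, m = miss y := ⟨_, rfl⟩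
  have hcbar : 𝔼 b : F, cb b = pull (fun x => 𝔼 b : F, cmS (ptA A) (ptA A (u, b)) x) y := by
    rw [hcb]
    exact pull_expect_pts (fun b => cmS (ptA A) (ptA A (u, b))) y
  have htbar : 𝔼 b1 : F, 𝔼 b2 : F, tf b1 b2 = pull (tbU A u) y := by
    have h1 : ∀ b1, 𝔼 b2 : F, tf b1 b2 = pull (fun x => 𝔼 b2 : F,
        ind (A (Sum.inl (u, b1)) (A (Sum.inl (u, b2)) x) ≠ A (Sum.inl (u, b1 + b2)) x)) y := by
      intro b1
      rw [htf]
      exact pull_expect_pts _ y
    rw [Finset.expect_congr rfl fun b1 _ => h1 b1]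
    exact pull_expect_pts _ y
  have hgoal : 𝔼 b : F, bs (hatS S) (ptA A) y (u, b) = 𝔼 b : F, β b := by rw [hβ]
  rw [hgoal, ← hcbar, ← htbar, ← hmm]
  have hu' : g ≤ 1 / 4 := by
    rw [hg, hβ]
    exact hu
  rw [← hmm] at hmiss
  clear hu
  -- nonnegativity
  have hg0 : 0 ≤ g := by
    rw [hg]
    exact Finset.expect_nonneg fun b _ => ind_nonneg _
  have hm0 : 0 ≤ m := by
    rw [hmm]
    exact Finset.expect_nonneg fun γ _ => ind_nonneg _
  have hcb0 : ∀ b, 0 ≤ cb b := by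
    intro b
    rw [hcb]
    exact pull_nonneg_pts (fun x => Finset.expect_nonneg fun t _ => ind_nonneg _) y
  have htf0 : ∀ b1 b2, 0 ≤ tf b1 b2 := by
    intro b1 b2
    rw [htf]
    exact pull_nonneg_pts (fun x => ind_nonneg _) y
  have hβ1 : ∀ b, β b ≤ 1 := by
    intro b
    rw [hβ]
    refine (Finset.expect_le_expect fun γ _ => ind_le_one _).trans ?_
    exact le_of_eq (Fintype.expect_const _)
  have hC0 : 0 ≤ 𝔼 b : F, cb b := Finset.expect_nonneg fun b _ => hcb0 b
  have hT0 : 0 ≤ 𝔼 b1 : F, 𝔼 b2 : F, tf b1 b2 :=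
    Finset.expect_nonneg fun b _ => Finset.expect_nonneg fun b' _ => htf0 b b'
  -- good scalars
  have hgood : ∀ b, ¬ (1 / 2 < β b) → β b ≤ 2 * m + 21 / 10 * cb b := by
    intro b hb
    rw [not_lt] at hb
    rw [hmm]
    rw [hβ] at hb ⊢
    rw [hcb]
    exact bs_small hm hy (u, b) hb
  have hun : ∀ b1 b2, β (b1 + b2) ≤ β b2 + β b1 + tf b1 b2 := by
    intro b1 b2
    rw [hβ, htf]
    exact union_pts y u b1 b2
  -- bad scalars
  have hbad : ∀ b, 1 / 2 < β b →
      1 / 4 ≤ 4 * m + 42 / 10 * (𝔼 b : F, cb b) + 𝔼 b2 : F, tf (b - b2) b2 := by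
    intro b hb
    have h1 : ∀ b2 : F, 1 / 2 * (1 - ind (1 / 2 < β (b - b2)) - ind (1 / 2 < β b2)) ≤
        4 * m + 21 / 10 * (cb (b - b2) + cb b2) + tf (b - b2) b2 := by
      intro b2
      have e1 := hcb0 (b - b2)
      have e2 := hcb0 b2
      have e3 := htf0 (b - b2) b2
      by_cases g1 : 1 / 2 < β (b - b2)
      · rw [ind_true g1]
        have := ind_nonneg (1 / 2 < β b2)
        linarith
      · by_cases g2 : 1 / 2 < β b2
        · rw [ind_true g2]
          have := ind_nonneg (1 / 2 < β (b - b2))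
          linarith
        · rw [ind_false g1, ind_false g2]
          have h2 := hun (b - b2) b2
          rw [sub_add_cancel] at h2
          have h3 := hgood _ g1
          have h4 := hgood _ g2
          linarith
    have h2 := Finset.expect_le_expect (s := (Finset.univ : Finset F)) fun b2 _ => h1 b2
    rw [Finset.expect_add_distrib, Finset.expect_add_distrib, ← Finset.mul_expect,
      Finset.expect_sub_distrib, Finset.expect_sub_distrib, Fintype.expect_const,
      Fintype.expect_const, ← Finset.mul_expect, Finset.expect_add_distrib] at h2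
    have h3 : 𝔼 b2 : F, ind (1 / 2 < β (b - b2)) = g := by
      rw [hg]
      exact Fintype.expect_equiv (Equiv.subLeft b) _ _ fun b2 => rfl
    have h4 : 𝔼 b2 : F, cb (b - b2) = 𝔼 b2 : F, cb b2 :=
      Fintype.expect_equiv (Equiv.subLeft b) _ _ fun b2 => rfl
    rw [h3, h4, ← hg] at h2
    linarith
  -- average over the bad scalars
  have havg : 1 / 4 * g ≤ (4 * m + 42 / 10 * (𝔼 b : F, cb b)) * g +
      𝔼 b1 : F, 𝔼 b2 : F, tf b1 b2 := by
    have h1 : ∀ b : F, 1 / 4 * ind (1 / 2 < β b) ≤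
        (4 * m + 42 / 10 * (𝔼 b : F, cb b)) * ind (1 / 2 < β b) + 𝔼 b2 : F, tf (b - b2) b2 := by
      intro b
      have e1 : 0 ≤ 𝔼 b2 : F, tf (b - b2) b2 := Finset.expect_nonneg fun b2 _ => htf0 _ _
      by_cases hb : 1 / 2 < β b
      · rw [ind_true hb]
        have := hbad b hb
        linarith
      · rw [ind_false hb]
        linarith
    have h2 := Finset.expect_le_expect (s := (Finset.univ : Finset F)) fun b _ => h1 b
    rw [Finset.expect_add_distrib, ← Finset.mul_expect, ← Finset.mul_expect, ← hg] at h2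
    have h3 : 𝔼 b : F, 𝔼 b2 : F, tf (b - b2) b2 = 𝔼 b1 : F, 𝔼 b2 : F, tf b1 b2 := by
      rw [Finset.expect_comm]
      rw [Finset.expect_comm (f := fun b1 b2 => tf b1 b2)]
      refine Finset.expect_congr rfl fun b2 _ => ?_
      exact Fintype.expect_equiv (Equiv.subRight b2) _ _ fun b => rfl
    rw [h3] at h2
    exact h2
  have hfin : 𝔼 b : F, β b ≤ g + 2 * m + 21 / 10 * 𝔼 b : F, cb b := by
    have h1 : ∀ b : F, β b ≤ ind (1 / 2 < β b) + 2 * m + 21 / 10 * cb b := by
      intro b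
      have e1 := hcb0 b
      by_cases hb : 1 / 2 < β b
      · rw [ind_true hb]
        have := hβ1 b
        linarith
      · rw [ind_false hb]
        have := hgood b hb
        linarith
    have h2 := Finset.expect_le_expect (s := (Finset.univ : Finset F)) fun b _ => h1 b
    rw [Finset.expect_add_distrib, Finset.expect_add_distrib, ← hg,
      Fintype.expect_const, ← Finset.mul_expect] at h2
    exact h2
  nlinarith [mul_nonneg hC0 (sub_nonneg.2 hu'), mul_nonneg hg0 (sub_nonneg.2 hmiss)]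

end Pool.Agent.Lib_MP_3a79a1_b
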