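import Pool.Agent.Lib_MP_3a79a1_b.Defs

/-!
# [RM-RL] One line: a counting inequality

`q = |F|`, `Nb` = number of `t` with `B t`, `Ng = q - Nb`, `r = Nb/q`.
If `Ng ≤ d`: `r (1-r) = r Ng/q ≤ (d/q) r`.
If `Ng ≥ d+1`: there is a set of `d+1` elements `t` of the good set with
`∑ h (t) ≤ ((d+1)/Ng) ∑_{good} h` (the `d+1` smallest values; by induction: removing an element
with the maximal value from a finite set does not increase the average), enumerate it by an
injective `c`.  For every bad `t`: `1/9 ≤ ∑ j, h (c j) + h t`.  Sum over the bad `t` and multiply by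
`Ng/q^2 ≤ 1/q`: `r (1-r)/9 ≤ (Nb/q) (d+1) (1/q) ∑_{good} h + (1/q) ∑_{bad} h ≤ (d+1) 𝔼 h`.
-/

set_option linter.unusedSectionVars false

namespace Pool.Agent.Lib_MP_3a79a1_b

open Finset
open scoped BigOperators

variable {F : Type} [Field F] [Fintype F] [DecidableEq F]

/-- the `n` smallest values -/
private theorem exists_small_rline {ι : Type} [DecidableEq ι] (h : ι → ℝ) (n : ℕ) :
    ∀ (k : ℕ) (G : Finset ι), G.card = n + k →
      ∃ T ⊆ G, T.card = n ∧ (G.card : ℝ) * ∑ t ∈ T, h t ≤ n * ∑ t ∈ G, h t := by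
  intro k
  induction k with
  | zero =>
    intro G hG
    refine ⟨G, Subset.refl _, by simpa using hG, ?_⟩
    rw [hG]
    simp
  | succ k ih =>
    intro G hG
    have hne : G.Nonempty := by
      rw [← Finset.card_pos]; omega
    obtain ⟨x, hx, hmax⟩ := Finset.exists_max_image G h hne
    have hc : (G.erase x).card = n + k := by
      rw [Finset.card_erase_of_mem hx]; omega
    obtain ⟨T, hT, hTn, hle⟩ := ih (G.erase x) hc
    refine ⟨T, hT.trans (Finset.erase_subset _ _), hTn, ?_⟩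
    have h1 : ∑ t ∈ T, h t ≤ n * h x := by
      have := Finset.sum_le_card_nsmul T h (h x)
        (fun t ht => hmax t (Finset.mem_of_mem_erase (hT ht)))
      rw [hTn, nsmul_eq_mul] at this
      exact this
    have h2 : ∑ t ∈ G, h t = ∑ t ∈ G.erase x, h t + h x := (Finset.sum_erase_add G h hx).symm
    have h3 : (G.card : ℝ) = ((G.erase x).card : ℝ) + 1 := by
      rw [hc, hG]; push_cast; ring
    rw [h2, h3, add_mul, one_mul, mul_add]
    exact add_le_add hle h1

theorem rline (d : ℕ) (B : F → Prop) (h : F → ℝ) (h0 : ∀ t, 0 ≤ h t)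
    (H : ∀ c : Fin (d + 1) → F, Function.Injective c → (∀ j, ¬ B (c j)) →
      ∀ t, B t → 1 / 9 ≤ ∑ j, h (c j) + h t) :
    (𝔼 t, ind (B t)) * (1 - 𝔼 t, ind (B t)) ≤
      9 * (d + 1) * 𝔼 t, h t + d / Fintype.card F * 𝔼 t, ind (B t) := by
  classical
  set q : ℝ := (Fintype.card F : ℝ) with hq
  have hq0 : 0 < q := by
    rw [hq]; exact_mod_cast Fintype.card_pos
  set Bf : Finset F := Finset.univ.filter B with hBf
  set Gf : Finset F := Finset.univ.filter (fun t => ¬ B t) with hGf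
  have hcard : (Bf.card : ℝ) + Gf.card = q := by
    rw [hq, ← Nat.cast_add]
    congr 1
    exact Finset.card_filter_add_card_filter_not (s := (Finset.univ : Finset F)) B
  have hsumB : ∑ t, ind (B t) = (Bf.card : ℝ) := by
    rw [← Finset.sum_filter_add_sum_filter_not Finset.univ B]
    rw [Finset.sum_congr rfl (g := fun _ => (1 : ℝ))
      (fun t ht => ind_true (Finset.mem_filter.1 ht).2)]
    rw [Finset.sum_congr (s₂ := Finset.univ.filter (fun t => ¬ B t)) rfl (g := fun _ => (0 : ℝ))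
      (fun t ht => ind_false (Finset.mem_filter.1 ht).2)]
    simp [hBf]
  have hE : (𝔼 t, ind (B t)) = (Bf.card : ℝ) / q := by
    rw [Fintype.expect_eq_sum_div_card, hsumB]
  have hEh : (𝔼 t, h t) = (∑ t ∈ Bf, h t + ∑ t ∈ Gf, h t) / q := by
    rw [Fintype.expect_eq_sum_div_card, hBf, hGf, Finset.sum_filter_add_sum_filter_not]
  have hSb : 0 ≤ ∑ t ∈ Bf, h t := Finset.sum_nonneg fun t _ => h0 t
  have hSg : 0 ≤ ∑ t ∈ Gf, h t := Finset.sum_nonneg fun t _ => h0 t
  have hNb : (0 : ℝ) ≤ Bf.card := Nat.cast_nonneg _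
  have hNg : (0 : ℝ) ≤ Gf.card := Nat.cast_nonneg _
  have hd : (0 : ℝ) ≤ d := Nat.cast_nonneg _
  rw [hE, hEh]
  have h1r : 1 - (Bf.card : ℝ) / q = Gf.card / q := by
    rw [← hcard] at hq0 ⊢
    field_simp
    ring
  rw [h1r]
  rcases Nat.lt_or_ge d Gf.card with hlt | hle
  · obtain ⟨T, hTG, hTn, hT⟩ := exists_small_rline h (d + 1) (Gf.card - (d + 1)) Gf (by omega)
    let c : Fin (d + 1) → F := fun j => ((T.equivFinOfCardEq hTn).symm j : F)
    have hcinj : Function.Injective c := fun i j hij =>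
      (T.equivFinOfCardEq hTn).symm.injective (Subtype.ext hij)
    have hcB : ∀ j, ¬ B (c j) := fun j =>
      (Finset.mem_filter.1 (hTG ((T.equivFinOfCardEq hTn).symm j).2)).2
    have hcsum : ∑ j, h (c j) = ∑ t ∈ T, h t := by
      rw [← Finset.sum_coe_sort T]
      exact Equiv.sum_comp (T.equivFinOfCardEq hTn).symm (fun t : T => h t)
    have hH : ∀ t ∈ Bf, (1 : ℝ) / 9 ≤ ∑ t ∈ T, h t + h t := by
      intro t ht
      rw [← hcsum]
      exact H c hcinj hcB t (Finset.mem_filter.1 ht).2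
    have hsum : (Bf.card : ℝ) * (1 / 9) ≤ Bf.card * (∑ t ∈ T, h t) + ∑ t ∈ Bf, h t := by
      have := Finset.sum_le_sum hH
      rw [Finset.sum_const, nsmul_eq_mul, Finset.sum_add_distrib, Finset.sum_const,
        nsmul_eq_mul] at this
      exact this
    have hT' : (Gf.card : ℝ) * ∑ t ∈ T, h t ≤ (d + 1) * ∑ t ∈ Gf, h t := by
      have := hT
      push_cast at this
      exact this
    have hBq : (Bf.card : ℝ) ≤ q := by linarith
    have hGq : (Gf.card : ℝ) ≤ q := by linarith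
    have key : (Bf.card : ℝ) * Gf.card ≤
        9 * (d + 1) * ((∑ t ∈ Bf, h t + ∑ t ∈ Gf, h t) * q) := by
      have e1 : (Gf.card : ℝ) * (Bf.card * (1 / 9)) ≤
          Gf.card * (Bf.card * (∑ t ∈ T, h t) + ∑ t ∈ Bf, h t) :=
        mul_le_mul_of_nonneg_left hsum hNg
      have e2 : (Bf.card : ℝ) * (Gf.card * ∑ t ∈ T, h t) ≤
          Bf.card * ((d + 1) * ∑ t ∈ Gf, h t) := mul_le_mul_of_nonneg_left hT' hNb
      have e3 : (Bf.card : ℝ) * ((d + 1) * ∑ t ∈ Gf, h t) ≤ q * ((d + 1) * ∑ t ∈ Gf, h t) :=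
        mul_le_mul_of_nonneg_right hBq (by positivity)
      have e4 : (Gf.card : ℝ) * ∑ t ∈ Bf, h t ≤ q * ∑ t ∈ Bf, h t :=
        mul_le_mul_of_nonneg_right hGq hSb
      have e5 : q * ∑ t ∈ Bf, h t ≤ q * ((d + 1) * ∑ t ∈ Bf, h t) := by
        apply mul_le_mul_of_nonneg_left _ hq0.le
        nlinarith
      nlinarith
    have hfin : (Bf.card : ℝ) / q * (Gf.card / q) ≤
        9 * (d + 1) * ((∑ t ∈ Bf, h t + ∑ t ∈ Gf, h t) / q) := by
      have : (Bf.card : ℝ) / q * (Gf.card / q) = (Bf.card * Gf.card) / (q * q) := by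
        field_simp
      rw [this, div_le_iff₀ (by positivity)]
      calc (Bf.card : ℝ) * Gf.card ≤ 9 * (d + 1) * ((∑ t ∈ Bf, h t + ∑ t ∈ Gf, h t) * q) := key
        _ = 9 * (d + 1) * ((∑ t ∈ Bf, h t + ∑ t ∈ Gf, h t) / q) * (q * q) := by
            field_simp
    have hpos : 0 ≤ (d : ℝ) / q * (Bf.card / q) := by positivity
    linarith
  · have hle' : (Gf.card : ℝ) ≤ d := by exact_mod_cast hle
    have h3 : (Bf.card : ℝ) / q * (Gf.card / q) ≤ d / q * (Bf.card / q) := by
      rw [mul_comm]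
      exact mul_le_mul_of_nonneg_right (div_le_div_of_nonneg_right hle' hq0.le) (by positivity)
    have hpos : 0 ≤ 9 * ((d : ℝ) + 1) * ((∑ t ∈ Bf, h t + ∑ t ∈ Gf, h t) / q) := by positivity
    linarith

end Pool.Agent.Lib_MP_3a79a1_b
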