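import Pool.Agent.Lib_MP_3a79a1_b.MixSys
import Pool.Agent.Lib_MP_3a79a1_b.Miss
import Pool.Agent.Lib_MP_3a79a1_b.Pts
import Pool.Agent.Lib_MP_3a79a1_b.Line
import Pool.Agent.Lib_MP_3a79a1_b.RLine

/-!
# [RM-PE] Self-improvement

`y` excellent for `e1 = 1/(1000 (d+1))`; `ē = En y ≤ e1 ≤ 1/2000` (`d ≥ 1`), `miss y ≤ ē`.
Notation: `bs (u,b)`; `g u = 𝔼 b ind (1/2 < bs (u,b))`; `B u :⇔ 1/4 < g u`;
`κ u = 7 pull (fun x => 𝔼 b cmS (ptA A) (ptA A (u,b)) x) y + 5 pull (tbU A u) y ≥ 0`;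
`c̄ = pull (cmX (ptA A)) y`, `t̄ = pull (tbX A) y`, `ī = pull (ivX (ptA A)) y`, `n̄ = pull (cnX A) y`;
`𝔼 u κ u = 7 c̄ + 5 t̄`  (`𝔼 (u,b) = 𝔼 u 𝔼 b`, `expect_product`).
1. `¬ B u`: `𝔼 b bs (u,b) ≤ 2 miss y + κ u` (`pts_good`).
2. `B u`: `𝔼 b bs (u,b) ≥ 1/8`.  So `𝔼 u ind (B u) =: β ≤ 8 ē ≤ 1/250` (`En_eq_bs`).
3. Fix a line `l`, `h t = κ (lpt l t) + pull (cnL A l t) y`.  If `c` is injective, `¬ B (lpt l (c j))`
   for all `j`, `B (lpt l t)` (so `c j ≠ t`), then by `line_bs`, 1 and 2: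
   `1/8 ≤ ∑ j (2 miss y + κ (lpt l (c j)) + pull (cnL A l (c j)) y) + pull (cnL A l t) y
        ≤ 2 (d+1) miss y + ∑ j h (c j) + h t`, and `2 (d+1) miss y ≤ 1/500`, so `1/9 ≤ ∑ j h (c j) + h t`.
   By `rline` for `t ↦ B (lpt l t)`: `r_l (1 - r_l) ≤ 9 (d+1) 𝔼 t h t + (d/q) r_l`.
4. `Good.ham`: `(|U|/q) β (1-β) ≤ ∑ l r_l (1-r_l)`.  `Good.inc`: `∑ l 𝔼 t κ (lpt l t) = (m/q) ∑ u κ u
   = (m |U|/q)(7 c̄ + 5 t̄)`, `∑ l r_l = (m |U|/q) β`, and `∑ l 𝔼 t pull (cnL A l t) y = (|U|/q) n̄`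
   (definition of `cnX`).  Divide by `|U|/q`:
   `β (1-β) ≤ 9 (d+1) (m (7 c̄ + 5 t̄) + n̄) + (m d/q) β`, and `1 - β - m d/q ≥ 0.995`:
   `β ≤ 9.1 (d+1) (m (7 c̄ + 5 t̄) + n̄)`.
5. `ē = 𝔼 u 𝔼 b bs (u,b) ≤ β + 2 miss y + 7 c̄ + 5 t̄` and
   `miss y ≤ ē/100 + 200 (c̄ + ī)` (`miss_le`), so
   `0.98 ē ≤ 9.1 (d+1) (m (7 c̄ + 5 t̄) + n̄) + 407 c̄ + 5 t̄ + 400 ī`, whence
   `ē ≤ 500 (m+1) (d+1) (ī + t̄ + c̄ + n̄) = 500 (m+1) (d+1) pull (ownX A) y`.
-/

set_option linter.unusedSectionVars false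

namespace Pool.Agent.Lib_MP_3a79a1_b

open Finset
open scoped BigOperators

variable {F : Type} [Field F] [Fintype F] [DecidableEq F] {d : ℕ}

variable {X : Type} [Fintype X]

private lemma pull_nonneg_perc {V : Type} [AddCommGroup V] [Fintype V] {y : V → Option X}
    {h : X → ℝ} (hh : ∀ x, 0 ≤ h x) : 0 ≤ pull h y := by
  unfold pull
  refine expect_nonneg fun γ _ => ?_
  cases y γ with
  | none => exact le_rfl
  | some x => exact hh x

private lemma pull_expect_perc {V : Type} [AddCommGroup V] [Fintype V] {ι : Type} [Fintype ι]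
    (y : V → Option X) (h : ι → X → ℝ) :
    pull (fun x => 𝔼 i, h i x) y = 𝔼 i, pull (h i) y := by
  unfold pull
  rw [expect_comm]
  refine expect_congr rfl fun γ _ => ?_
  cases y γ with
  | none => simp
  | some x => rfl

private lemma pull_sum_perc {V : Type} [AddCommGroup V] [Fintype V] {ι : Type} [Fintype ι]
    (y : V → Option X) (h : ι → X → ℝ) :
    pull (fun x => ∑ i, h i x) y = ∑ i, pull (h i) y := by
  unfold pull
  rw [← expect_sum_comm]
  refine expect_congr rfl fun γ _ => ?_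
  cases y γ with
  | none => simp
  | some x => rfl

private lemma pull_mul_perc {V : Type} [AddCommGroup V] [Fintype V]
    (y : V → Option X) (c : ℝ) (h : X → ℝ) :
    pull (fun x => c * h x) y = c * pull h y := by
  unfold pull
  rw [mul_expect]
  refine expect_congr rfl fun γ _ => ?_
  cases y γ with
  | none => simp
  | some x => rfl

private lemma pull_add_perc {V : Type} [AddCommGroup V] [Fintype V]
    (y : V → Option X) (g h : X → ℝ) :
    pull (fun x => g x + h x) y = pull g y + pull h y := by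
  unfold pull
  rw [← expect_add_distrib]
  refine expect_congr rfl fun γ _ => ?_
  cases y γ with
  | none => simp
  | some x => rfl

private lemma expect_prod_perc {U : Type} [Fintype U] (g : U × F → ℝ) :
    𝔼 s, g s = 𝔼 u : U, 𝔼 b : F, g (u, b) := by
  rw [← Finset.univ_product_univ, Finset.expect_product]

theorem selfimp {S : Sys F d} {m : ℕ} (hS : Good S m) (hd : 1 ≤ d)
    (hq : (m : ℝ) * d / Fintype.card F ≤ 1 / 10000) (A : Gen S → Equiv.Perm X)
    {y : S.V → Option X} (hy : Exc (hatS S) (ptA A) (1 / (1000 * (d + 1))) y) :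
    En (hatS S) (ptA A) y ≤ 500 * (m + 1) * (d + 1) * pull (ownX A) y := by
  classical
  have hm : Mix (hatS S) := mix_sys hS hq
  have hneP : Nonempty (S.U × F) := ⟨(Classical.arbitrary _, 0)⟩
  have hdR : (1 : ℝ) ≤ d := by exact_mod_cast hd
  have hmR : (0 : ℝ) ≤ m := Nat.cast_nonneg m
  have hqpos : (0 : ℝ) < Fintype.card F := by exact_mod_cast Fintype.card_pos
  have hUpos : (0 : ℝ) < Fintype.card S.U := by exact_mod_cast Fintype.card_pos
  obtain ⟨E, hEdef⟩ : ∃ E : ℝ, E = En (hatS S) (ptA A) y := ⟨_, rfl⟩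
  obtain ⟨M, hMdef⟩ : ∃ M : ℝ, M = miss y := ⟨_, rfl⟩
  have hE1 : E ≤ 1 / (1000 * (d + 1)) := by rw [hEdef]; exact hy.2
  have hME : M ≤ E := by rw [hMdef, hEdef]; exact miss_le_En y
  have hM0 : 0 ≤ M := by rw [hMdef]; exact expect_nonneg fun γ _ => ind_nonneg _
  have hE2 : E ≤ 1 / 2000 := by
    refine hE1.trans ?_
    apply one_div_le_one_div_of_le (by norm_num)
    linarith
  have hM2 : 2 * (d + 1) * M ≤ 1 / 500 := by
    have h1 : M ≤ 1 / (1000 * (d + 1)) := hME.trans hE1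
    have h2 : (0 : ℝ) < 1000 * (d + 1) := by positivity
    rw [le_div_iff₀ h2] at h1
    linarith
  -- the quantities
  obtain ⟨f, hf⟩ : ∃ f : S.U → F → ℝ, ∀ u b, f u b = bs (hatS S) (ptA A) y (u, b) :=
    ⟨_, fun _ _ => rfl⟩
  have hf0 : ∀ u b, 0 ≤ f u b := fun u b => by
    rw [hf]
    exact expect_nonneg fun γ _ => ind_nonneg _
  have hf1 : ∀ u b, f u b ≤ 1 := fun u b => by
    rw [hf]
    exact (expect_le_expect fun γ _ => ind_le_one _).trans_eq (Fintype.expect_const _)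
  obtain ⟨kap, hkap⟩ : ∃ kap : S.U → ℝ, ∀ u, kap u =
      7 * pull (fun x => 𝔼 b : F, cmS (ptA A) (ptA A (u, b)) x) y + 5 * pull (tbU A u) y :=
    ⟨_, fun _ => rfl⟩
  have hkap0 : ∀ u, 0 ≤ kap u := fun u => by
    rw [hkap]
    have h1 : 0 ≤ pull (fun x => 𝔼 b : F, cmS (ptA A) (ptA A (u, b)) x) y :=
      pull_nonneg_perc fun x => expect_nonneg fun b _ => expect_nonneg fun t _ => ind_nonneg _
    have h2 : 0 ≤ pull (tbU A u) y :=
      pull_nonneg_perc fun x => expect_nonneg fun b _ => expect_nonneg fun t _ => ind_nonneg _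
    linarith
  obtain ⟨c, hc⟩ : ∃ c : ℝ, c = pull (cmX (ptA A)) y := ⟨_, rfl⟩
  obtain ⟨tt, htt⟩ : ∃ tt : ℝ, tt = pull (tbX A) y := ⟨_, rfl⟩
  obtain ⟨iv, hiv⟩ : ∃ iv : ℝ, iv = pull (ivX (ptA A)) y := ⟨_, rfl⟩
  obtain ⟨n, hn⟩ : ∃ n : ℝ, n = pull (cnX A) y := ⟨_, rfl⟩
  have hcn0 : ∀ l t, 0 ≤ pull (cnL A l t) y := fun l t =>
    pull_nonneg_perc fun x => expect_nonneg fun b _ => expect_nonneg fun γ _ => ind_nonneg _
  have hc0 : 0 ≤ c := by
    rw [hc]
    exact pull_nonneg_perc fun x => expect_nonneg fun b _ => expect_nonneg fun γ _ => ind_nonneg _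
  have htt0 : 0 ≤ tt := by
    rw [htt]
    exact pull_nonneg_perc fun x => expect_nonneg fun u _ => expect_nonneg fun b _ =>
      expect_nonneg fun γ _ => ind_nonneg _
  have hiv0 : 0 ≤ iv := by
    rw [hiv]
    exact pull_nonneg_perc fun x => expect_nonneg fun b _ => ind_nonneg _
  have hkapE : 𝔼 u, kap u = 7 * c + 5 * tt := by
    rw [expect_congr rfl fun u _ => hkap u, expect_add_distrib, ← mul_expect, ← mul_expect,
      ← pull_expect_perc, ← pull_expect_perc, hc, htt]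
    have e1 : (fun x => 𝔼 u : S.U, 𝔼 b : F, cmS (ptA A) (ptA A (u, b)) x) = cmX (ptA A) := by
      funext x
      rw [← expect_prod_perc (fun s : S.U × F => cmS (ptA A) (ptA A s) x)]
      unfold cmS cmX
      refine expect_congr rfl fun s _ => expect_congr rfl fun t _ => ind_congr ?_
      exact ne_comm
    rw [e1]
    rfl
  have hn' : n = Fintype.card F / Fintype.card S.U * ∑ l, 𝔼 t : F, pull (cnL A l t) y := by
    rw [hn]
    unfold cnX
    rw [pull_mul_perc, pull_sum_perc]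
    congr 1
    refine sum_congr rfl fun l _ => ?_
    rw [pull_expect_perc]
  have hn0 : 0 ≤ n := by
    rw [hn']
    exact mul_nonneg (by positivity) (sum_nonneg fun l _ => expect_nonneg fun t _ => hcn0 l t)
  have hEf : E = 𝔼 u, 𝔼 b, f u b := by
    rw [hEdef, En_eq_bs, expect_prod_perc]
    refine expect_congr rfl fun u _ => expect_congr rfl fun b _ => (hf u b).symm
  -- bad points
  obtain ⟨B, hB⟩ : ∃ B : S.U → Prop, ∀ u, B u ↔ 1 / 4 < 𝔼 b : F, ind (1 / 2 < f u b) :=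
    ⟨_, fun _ => Iff.rfl⟩
  have step1 : ∀ u, ¬ B u → 𝔼 b, f u b ≤ 2 * M + kap u := by
    intro u hu
    rw [hB, not_lt] at hu
    have h1 := pts_good hm hy.1.1 (by rw [← hMdef]; linarith) u (by
      refine le_trans (le_of_eq ?_) hu
      exact expect_congr rfl fun b _ => by rw [hf])
    rw [hkap, hMdef, expect_congr rfl fun b _ => hf u b]
    linarith
  have step2 : ∀ u, B u → 1 / 8 ≤ 𝔼 b, f u b := by
    intro u hu
    rw [hB] at hu
    have h1 : 𝔼 b : F, ind (1 / 2 < f u b) ≤ 𝔼 b, 2 * f u b := by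
      refine expect_le_expect fun b _ => ?_
      by_cases h : 1 / 2 < f u b
      · rw [ind_true h]; linarith
      · rw [ind_false h]; linarith [hf0 u b]
    rw [← mul_expect] at h1
    linarith
  obtain ⟨be, hbe⟩ : ∃ be : ℝ, be = 𝔼 u, ind (B u) := ⟨_, rfl⟩
  have hbe0 : 0 ≤ be := by
    rw [hbe]
    exact expect_nonneg fun u _ => ind_nonneg _
  have hbe8 : be ≤ 8 * E := by
    rw [hbe, hEf, mul_expect]
    refine expect_le_expect fun u _ => ?_
    by_cases h : B u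
    · rw [ind_true h]; linarith [step2 u h]
    · rw [ind_false h]
      have : 0 ≤ 𝔼 b, f u b := expect_nonneg fun b _ => hf0 u b
      linarith
  -- one line
  have step3 : ∀ l, (𝔼 t : F, ind (B (S.lpt l t))) * (1 - 𝔼 t : F, ind (B (S.lpt l t))) ≤
      9 * (d + 1) * 𝔼 t : F, (kap (S.lpt l t) + pull (cnL A l t) y) +
        d / Fintype.card F * 𝔼 t : F, ind (B (S.lpt l t)) := by
    intro l
    refine rline d (fun t => B (S.lpt l t)) (fun t => kap (S.lpt l t) + pull (cnL A l t) y)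
      (fun t => add_nonneg (hkap0 _) (hcn0 l t)) ?_
    intro cc hcc hgood t ht
    have hne : ∀ j, cc j ≠ t := by
      intro j hj
      apply hgood j
      show B (S.lpt l (cc j))
      rw [hj]
      exact ht
    have h1 := line_bs hS A y l cc hcc t hne
    have h2 : 𝔼 b : F, bs (hatS S) (ptA A) y (S.lpt l t, b) = 𝔼 b, f (S.lpt l t) b :=
      expect_congr rfl fun b _ => (hf _ b).symm
    have h3 : ∑ j, 𝔼 b : F, bs (hatS S) (ptA A) y (S.lpt l (cc j), b) ≤
        ∑ j : Fin (d + 1), (2 * M + kap (S.lpt l (cc j))) := by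
      refine sum_le_sum fun j _ => ?_
      rw [← expect_congr rfl fun b _ => hf (S.lpt l (cc j)) b]
      exact step1 _ (hgood j)
    have h4 : ∑ j : Fin (d + 1), (2 * M + kap (S.lpt l (cc j))) =
        2 * (d + 1) * M + ∑ j, kap (S.lpt l (cc j)) := by
      rw [sum_add_distrib, sum_const, card_univ, Fintype.card_fin, nsmul_eq_mul]
      push_cast
      ring
    have h5 : ∑ j, (kap (S.lpt l (cc j)) + pull (cnL A l (cc j)) y) =
        ∑ j, kap (S.lpt l (cc j)) + ∑ j, pull (cnL A l (cc j)) y := sum_add_distrib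
    have h6 := step2 _ ht
    have h7 := hkap0 (S.lpt l t)
    rw [h2] at h1
    rw [h4] at h3
    show 1 / 9 ≤ ∑ j, (kap (S.lpt l (cc j)) + pull (cnL A l (cc j)) y) +
      (kap (S.lpt l t) + pull (cnL A l t) y)
    rw [h5]
    linarith
  -- sum over the lines
  have hinc : ∀ g : S.U → ℝ, ∑ l, 𝔼 t : F, g (S.lpt l t) =
      Fintype.card S.U / Fintype.card F * (m * 𝔼 u, g u) := by
    intro g
    rw [sum_congr rfl fun l _ => Fintype.expect_eq_sum_div_card (fun t : F => g (S.lpt l t)),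
      ← sum_div, hS.inc, Fintype.expect_eq_sum_div_card]
    field_simp
  have hsum : ∑ l, (𝔼 t : F, ind (B (S.lpt l t))) * (1 - 𝔼 t : F, ind (B (S.lpt l t))) ≤
      Fintype.card S.U / Fintype.card F *
        (9 * (d + 1) * (m * (7 * c + 5 * tt) + n) + m * d / Fintype.card F * be) := by
    refine (sum_le_sum fun l _ => step3 l).trans (le_of_eq ?_)
    have e1 : ∑ l, 𝔼 t : F, pull (cnL A l t) y = Fintype.card S.U / Fintype.card F * n := by
      rw [hn']
      field_simp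
    have e2 := hinc kap
    have e3 := hinc fun u => ind (B u)
    rw [hkapE] at e2
    rw [← hbe] at e3
    rw [sum_add_distrib, ← mul_sum, ← mul_sum, e3]
    have e4 : ∑ l, 𝔼 t : F, (kap (S.lpt l t) + pull (cnL A l t) y) =
        ∑ l, 𝔼 t : F, kap (S.lpt l t) + ∑ l, 𝔼 t : F, pull (cnL A l t) y := by
      rw [← sum_add_distrib]
      exact sum_congr rfl fun l _ => expect_add_distrib _ _ _
    rw [e4, e1, e2]
    ring
  have hham := hS.ham B
  rw [← hbe] at hham
  have hmain : be * (1 - be) ≤ 9 * (d + 1) * (m * (7 * c + 5 * tt) + n) +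
      m * d / Fintype.card F * be := by
    have h1 := hham.trans hsum
    exact le_of_mul_le_mul_left h1 (div_pos hUpos hqpos)
  have hW0 : 0 ≤ (d + 1) * (m * (7 * c + 5 * tt) + n) := by positivity
  have hbe2 : be ≤ 1 / 250 := by linarith
  have hbeW : be ≤ 91 / 10 * ((d + 1) * (m * (7 * c + 5 * tt) + n)) := by
    have h1 : m * d / Fintype.card F * be ≤ 1 / 10000 * be :=
      mul_le_mul_of_nonneg_right hq hbe0
    have h2 : be * be ≤ 1 / 250 * be := mul_le_mul_of_nonneg_right hbe2 hbe0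
    nlinarith
  -- conclusion
  have hEle : E ≤ be + 2 * M + (7 * c + 5 * tt) := by
    rw [hEf, hbe, ← hkapE]
    have h1 : 𝔼 u, 𝔼 b, f u b ≤ 𝔼 u, (ind (B u) + 2 * M + kap u) := by
      refine expect_le_expect fun u _ => ?_
      by_cases h : B u
      · rw [ind_true h]
        have h2 : 𝔼 b, f u b ≤ 1 :=
          (expect_le_expect fun b _ => hf1 u b).trans_eq (Fintype.expect_const _)
        linarith [hkap0 u]
      · rw [ind_false h]
        linarith [step1 u h]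
    rw [expect_add_distrib, expect_add_distrib, Fintype.expect_const] at h1
    exact h1
  have hMle : M ≤ 1 / 100 * E + 200 * (c + iv) := by
    rw [hMdef, hEdef, hc, hiv]
    exact miss_le hm hy.1 (by rw [← hEdef]; linarith)
  have hown : pull (ownX A) y = iv + tt + c + n := by
    have e : ownX A = fun x => ivX (ptA A) x + tbX A x + cmX (ptA A) x + cnX A x := rfl
    rw [e, pull_add_perc, pull_add_perc, pull_add_perc, hiv, htt, hc, hn]
  rw [← hEdef, hown]
  have hE3 : 98 / 100 * E ≤ 91 / 10 * ((d + 1) * (m * (7 * c + 5 * tt) + n)) + 407 * c + 5 * tt +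
      400 * iv := by linarith
  have hD : (0 : ℝ) ≤ d := by linarith
  have p1 : 0 ≤ (d : ℝ) * m * c := by positivity
  have p2 : 0 ≤ (d : ℝ) * c := by positivity
  have p3 : 0 ≤ (d : ℝ) * m * tt := by positivity
  have p4 : 0 ≤ (d : ℝ) * tt := by positivity
  have p5 : 0 ≤ (d : ℝ) * m * n := by positivity
  have p6 : 0 ≤ (d : ℝ) * n := by positivity
  have p7 : 0 ≤ (d : ℝ) * m * iv := by positivity
  have p8 : 0 ≤ (d : ℝ) * iv := by positivity
  have p9 : 0 ≤ (m : ℝ) * c := by positivity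
  have p10 : 0 ≤ (m : ℝ) * tt := by positivity
  have p11 : 0 ≤ (m : ℝ) * n := by positivity
  have p12 : 0 ≤ (m : ℝ) * iv := by positivity
  nlinarith

end Pool.Agent.Lib_MP_3a79a1_b
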