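import Pool.Agent.Lib_MP_3a79a1_b.SecA

/-!
# [RM-PU] Pruning

`prune`: let `f` be a partial function with `En f ≤ 1/240000`.  Put `C 0 = dom f`,
`C (k+1) = {γ ∈ C k | Pr_s [OK f γ s ∧ γ + hat s ∈ C k] ≥ 99/100}`, `R k` = complement of `C k`
(increasing).  For every `k` and `γ ∈ R k`: `Pr_s [¬ OK f γ s ∨ γ + hat s ∈ R k] > 1/100`, even
with `R (k-1)` in place of `R k`, `R (-1) = ∅` (for `γ ∈ R 0` no `s` is `OK`).
Claim `μ(R k) ≤ 300 En f` by induction.  `k = 0`: for `γ ∈ R 0` `eL f γ = 1`, so `μ(R 0) ≤ En f`.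
Step: `μ(R k) ≤ 300 En f ≤ 1/800`.  `R (k+1) ⊆ {eL f γ ≥ 1/200} ∪ {Pr_s[γ + hat s ∈ R k] ≥ 1/200}`.
The first set has measure `≤ 200 En f` (Markov), the second has measure
`≤ lam^2 μ(R k) / (1/200 - 1/800)^2 ≤ μ(R k)/3 ≤ 100 En f` by `mix_dev` (`a = 1/800`,
`b = 1/200 - 1/800 = 3/800`, `(1/10000)^2/(3/800)^2 = 0.00071`).
The decreasing sequence `C k` of subsets of the finite `V` is stationary: `C (k+1) = C k` for
some `k`.  Let `y` be `f` on `C k` and `none` outside: it is nonempty as
`μ(R k) ≤ 1/800 < 1`, a section, contained in `f`, and `miss y = μ(R k) ≤ 300 En f`.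
-/

set_option linter.unusedSectionVars false

namespace Pool.Agent.Lib_MP_3a79a1_b

open Finset
open scoped BigOperators

variable {V P X : Type} [AddCommGroup V] [Fintype V] [Fintype P] [Nonempty P] [Fintype X]
  {hat : P → V} {α : P → Equiv.Perm X}

private def cpPrune (hat : P → V) (α : P → Equiv.Perm X) (f : V → Option X) : ℕ → V → Prop
  | 0 => fun γ => f γ ≠ none
  | k + 1 => fun γ => cpPrune hat α f k γ ∧
      𝔼 s, ind (¬ (OK hat α f γ s ∧ cpPrune hat α f k (γ + hat s))) ≤ 1 / 100

private lemma cp_succ_prune (f : V → Option X) (k : ℕ) (γ : V)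
    (IH : ∀ γ, ¬ cpPrune hat α f k γ →
      1 / 100 < 𝔼 s, ind (¬ (OK hat α f γ s ∧ cpPrune hat α f k (γ + hat s))))
    (h : ¬ cpPrune hat α f (k + 1) γ) :
    1 / 100 < 𝔼 s, ind (¬ (OK hat α f γ s ∧ cpPrune hat α f k (γ + hat s))) := by
  by_cases h1 : cpPrune hat α f k γ
  · by_contra h2
    exact h ⟨h1, not_lt.1 h2⟩
  · exact IH γ h1

private lemma cp_not_prune (f : V → Option X) : ∀ (k : ℕ) (γ : V), ¬ cpPrune hat α f k γ →
    1 / 100 < 𝔼 s, ind (¬ (OK hat α f γ s ∧ cpPrune hat α f k (γ + hat s)))
  | 0, γ, h => by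
    have hn : f γ = none := by
      by_contra h1
      exact h h1
    have : 𝔼 s : P, ind (¬ (OK hat α f γ s ∧ cpPrune hat α f 0 (γ + hat s))) = 1 := by
      rw [Finset.expect_congr rfl (fun s _ => ind_true (p := ¬ (OK hat α f γ s ∧
        cpPrune hat α f 0 (γ + hat s))) ?_)]
      · exact Fintype.expect_const _
      · rintro ⟨⟨x, hx, _⟩, _⟩
        rw [hn] at hx
        exact absurd hx (by simp)
    rw [this]
    norm_num
  | k + 1, γ, h => by
    refine lt_of_lt_of_le (cp_succ_prune f k γ (cp_not_prune f k) h) ?_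
    refine Finset.expect_le_expect (fun s _ => ind_mono ?_)
    intro h1 h2
    exact h1 ⟨h2.1, h2.2.1⟩

private lemma markov_prune (g : V → ℝ) (hg : ∀ γ, 0 ≤ g γ) :
    𝔼 γ, ind (1 / 200 ≤ g γ) ≤ 200 * 𝔼 γ, g γ := by
  rw [Finset.mul_expect]
  refine Finset.expect_le_expect (fun γ _ => ?_)
  by_cases h : 1 / 200 ≤ g γ
  · rw [ind_true h]
    linarith
  · rw [ind_false h]
    linarith [hg γ]

theorem prune (hm : Mix hat) (f : V → Option X) (hf : En hat α f ≤ 1 / 240000) :
    ∃ y, IsSec hat α y ∧ (∀ γ x, y γ = some x → f γ = some x) ∧ miss y ≤ 300 * En hat α f := by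
  classical
  have heL0 : ∀ γ, 0 ≤ eL hat α f γ := fun γ => Finset.expect_nonneg (fun s _ => ind_nonneg _)
  have hEn0 : 0 ≤ En hat α f := Finset.expect_nonneg (fun γ _ => heL0 γ)
  have hmeas : ∀ k : ℕ, 𝔼 γ, ind (¬ cpPrune hat α f k γ) ≤ 300 * En hat α f := by
    intro k
    induction k with
    | zero =>
      have h1 : 𝔼 γ, ind (¬ cpPrune hat α f 0 γ) ≤ En hat α f := by
        refine Finset.expect_le_expect (fun γ _ => ?_)
        by_cases h : cpPrune hat α f 0 γ
        · rw [ind_false (not_not.2 h)]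
          exact heL0 γ
        · have hn : f γ = none := by
            by_contra h1
            exact h h1
          rw [ind_true h]
          unfold eL
          rw [Finset.expect_congr rfl (fun s _ => ind_true (p := ¬ OK hat α f γ s) ?_)]
          · rw [Fintype.expect_const]
          · rintro ⟨x, hx, _⟩
            rw [hn] at hx
            exact absurd hx (by simp)
      linarith
    | succ k ih =>
      have h1 : ∀ γ, ind (¬ cpPrune hat α f (k + 1) γ) ≤ ind (1 / 200 ≤ eL hat α f γ) +
          ind ((1 / 800 : ℝ) + 3 / 800 ≤ 𝔼 s, ind (¬ cpPrune hat α f k (γ + hat s))) := by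
        intro γ
        refine ind_le_add ?_
        intro h
        have h2 := cp_succ_prune f k γ (cp_not_prune f k) h
        have h3 : 𝔼 s, ind (¬ (OK hat α f γ s ∧ cpPrune hat α f k (γ + hat s))) ≤
            eL hat α f γ + 𝔼 s, ind (¬ cpPrune hat α f k (γ + hat s)) := by
          unfold eL
          rw [← Finset.expect_add_distrib]
          refine Finset.expect_le_expect (fun s _ => ind_le_add ?_)
          intro h4
          by_cases h5 : OK hat α f γ s
          · exact Or.inr (fun h6 => h4 ⟨h5, h6⟩)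
          · exact Or.inl h5
        by_cases h4 : 1 / 200 ≤ eL hat α f γ
        · exact Or.inl h4
        · right
          linarith
      have h2 : 𝔼 γ, ind (¬ cpPrune hat α f (k + 1) γ) ≤ 𝔼 γ, ind (1 / 200 ≤ eL hat α f γ) +
          𝔼 γ, ind ((1 / 800 : ℝ) + 3 / 800 ≤ 𝔼 s, ind (¬ cpPrune hat α f k (γ + hat s))) := by
        rw [← Finset.expect_add_distrib]
        exact Finset.expect_le_expect (fun γ _ => h1 γ)
      have h3 := markov_prune (eL hat α f) heL0
      have h4 := mix_dev hm (fun γ => ind (¬ cpPrune hat α f k γ)) (fun γ => ind_nonneg _)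
        (fun γ => ind_le_one _) (a := 1 / 800) (b := 3 / 800) (by linarith) (by norm_num)
      have h5 : 0 ≤ 𝔼 γ, ind (¬ cpPrune hat α f k γ) :=
        Finset.expect_nonneg (fun γ _ => ind_nonneg _)
      have h6 : ((1 : ℝ) / 10000) ^ 2 / (3 / 800) ^ 2 ≤ 1 / 3 := by norm_num
      have h7 : ((1 : ℝ) / 10000) ^ 2 / (3 / 800) ^ 2 * 𝔼 γ, ind (¬ cpPrune hat α f k γ) ≤
          1 / 3 * (300 * En hat α f) := by
        calc _ ≤ 1 / 3 * 𝔼 γ, ind (¬ cpPrune hat α f k γ) :=
              mul_le_mul_of_nonneg_right h6 h5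
          _ ≤ _ := by linarith
      have h8 : En hat α f = 𝔼 γ, eL hat α f γ := rfl
      rw [h8] at h7 ⊢
      linarith
  -- stationarity
  obtain ⟨k, hk⟩ : ∃ k, ∀ γ, cpPrune hat α f k γ → cpPrune hat α f (k + 1) γ := by
    by_contra hcon
    push Not at hcon
    have hdec : ∀ k, (Finset.univ.filter (fun γ => cpPrune hat α f k γ)).card + k ≤
        Fintype.card V := by
      intro k
      induction k with
      | zero => simpa using Finset.card_le_univ (Finset.univ.filter (fun γ => cpPrune hat α f 0 γ))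
      | succ k ih =>
        obtain ⟨γ, h1, h2⟩ := hcon k
        have hlt : (Finset.univ.filter (fun γ => cpPrune hat α f (k + 1) γ)).card <
            (Finset.univ.filter (fun γ => cpPrune hat α f k γ)).card := by
          refine Finset.card_lt_card ?_
          rw [Finset.ssubset_iff_of_subset]
          · exact ⟨γ, by simpa using h1, by simpa using h2⟩
          · intro δ hδ
            simp only [Finset.mem_filter, Finset.mem_univ, true_and] at hδ ⊢
            exact hδ.1
        omega
    have := hdec (Fintype.card V + 1)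
    omega
  refine ⟨fun γ => if cpPrune hat α f k γ then f γ else none, ⟨?_, ?_⟩, ?_, ?_⟩
  · -- nonempty
    by_contra hne
    push Not at hne
    have hall : ∀ γ, ¬ cpPrune hat α f k γ := by
      intro γ hγ
      have hfn : f γ ≠ none := by
        have : ∀ k γ, cpPrune hat α f k γ → f γ ≠ none := by
          intro k
          induction k with
          | zero => exact fun γ h => h
          | succ k ih => exact fun γ h => ih γ h.1
        exact this k γ hγ
      obtain ⟨x, hx⟩ := Option.ne_none_iff_exists'.1 hfn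
      exact hne γ x (by rw [if_pos hγ]; exact hx)
    have h1 : 𝔼 γ, ind (¬ cpPrune hat α f k γ) = 1 := by
      rw [Finset.expect_congr rfl (fun γ _ => ind_true (hall γ))]
      exact Fintype.expect_const _
    have := hmeas k
    rw [h1] at this
    linarith
  · intro γ x hx
    dsimp only at hx
    by_cases hγ : cpPrune hat α f k γ
    · have h1 := (hk γ hγ).2
      refine le_trans ?_ h1
      refine Finset.expect_le_expect (fun s _ => ind_mono ?_)
      intro h2 h3
      apply h2
      obtain ⟨⟨z, hz1, hz2⟩, h4⟩ := h3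
      exact ⟨z, by dsimp only; rw [if_pos hγ]; exact hz1, by dsimp only; rw [if_pos h4]; exact hz2⟩
    · rw [if_neg hγ] at hx
      exact absurd hx (by simp)
  · intro γ x hx
    dsimp only at hx
    by_cases hγ : cpPrune hat α f k γ
    · rw [if_pos hγ] at hx
      exact hx
    · rw [if_neg hγ] at hx
      exact absurd hx (by simp)
  · refine le_trans ?_ (hmeas k)
    refine Finset.expect_le_expect (fun γ _ => ind_mono ?_)
    intro h1 h2
    dsimp only at h1
    have hfn : f γ ≠ none := by
      have : ∀ k γ, cpPrune hat α f k γ → f γ ≠ none := by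
        intro k
        induction k with
        | zero => exact fun γ h => h
        | succ k ih => exact fun γ h => ih γ h.1
      exact this k γ h2
    rw [if_pos h2] at h1
    exact hfn h1

end Pool.Agent.Lib_MP_3a79a1_b
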