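import Pool.Agent.Lib_MP_3a79a1_b.Step
import Pool.Agent.Lib_MP_3a79a1_b.BaseC

/-!
# [RM-RE] The recursion

`Pi M = 13 (d+1) q^2 (700000 (d+1))^2 (500 (M+1) (d+1))`, `r = (1 - d/q)⁻¹ ≥ 1`.
`recm`: by induction on `m` (`∀ m ≤ M, ∀ A`).  `m = 0`: `base_case` (`700/e1 = 700000 (d+1) ≤ Pi`,
`Dfn 0 A = own A`).  Step: `step` with `m + 1 ≤ M`, monotone in `m`; induction hypothesis for all
`slice A c`:
`nG A ≤ r 𝔼 c r^m Pi (2 Dfn m (slice A c) - own (slice A c)) + Pi (own A + 𝔼 c own (slice A c))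
 ≤ r^(m+1) Pi (2 𝔼 c Dfn m (slice A c) + own A) = r^(m+1) Pi (2 Dfn (m+1) A - own A)`.
(`1 ≤ r^(m+1)` and `own ≥ 0`; `Dfn (m+1) A = own A + 𝔼 c Dfn m (slice A c)`.)
`main_count`: Bernoulli `(1 - d/q)^M ≥ 1 - M d/q ≥ 0.9999`, so `r^M ≤ 1.01`;
`nG ≤ 1.01 * 2 * Pi * Dfn`, `Etot ≤ 500 (M+1) (d+1) own A ≤ Pi * Dfn` (`own A ≤ Dfn M A`).
-/

set_option linter.unusedSectionVars false

namespace Pool.Agent.Lib_MP_3a79a1_b

open Finset
open scoped BigOperators

variable {F : Type} [Field F] [Fintype F] [DecidableEq F] {d : ℕ}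

variable {X : Type} [Fintype X]

/-- the constant -/
noncomputable def PiC (F : Type) [Fintype F] (d M : ℕ) : ℝ :=
  13 * (d + 1) * (Fintype.card F : ℝ) ^ 2 * (700000 * (d + 1)) ^ 2 * (500 * (M + 1) * (d + 1))

private theorem Dfn_nonneg_rec : ∀ (m : ℕ) (A : Gen (sysm F d m) → Equiv.Perm X), 0 ≤ Dfn m A
  | 0, A => own_nonneg (S := sysm F d 0) A
  | m + 1, A => add_nonneg (own_nonneg (S := sysm F d (m + 1)) A)
      (Finset.expect_nonneg fun c _ => Dfn_nonneg_rec m (slice (S := sysm F d m) A c))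

theorem own_le_Dfn (m : ℕ) (A : Gen (sysm F d m) → Equiv.Perm X) : own A ≤ Dfn m A := by
  cases m with
  | zero => exact le_refl _
  | succ m =>
    exact le_add_of_nonneg_right
      (Finset.expect_nonneg fun c _ => Dfn_nonneg_rec m (slice (S := sysm F d m) A c))

private theorem one_le_card_rec : (1 : ℝ) ≤ Fintype.card F := by
  exact_mod_cast Fintype.card_pos

private theorem one_le_fac_rec (d : ℕ) :
    (1 : ℝ) ≤ 13 * (d + 1) * (Fintype.card F : ℝ) ^ 2 * (700000 * (d + 1)) ^ 2 := by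
  have hq := one_le_card_rec (F := F)
  have hd : (0 : ℝ) ≤ d := Nat.cast_nonneg d
  have h1 : (1 : ℝ) ≤ 13 * (d + 1) := by linarith
  have h2 : (1 : ℝ) ≤ (Fintype.card F : ℝ) ^ 2 := one_le_pow₀ hq
  have h3 : (1 : ℝ) ≤ (700000 * ((d : ℝ) + 1)) ^ 2 := one_le_pow₀ (by linarith)
  exact one_le_mul_of_one_le_of_one_le (one_le_mul_of_one_le_of_one_le h1 h2) h3

private theorem PiC_ge_rec (d M : ℕ) : (500 : ℝ) * (M + 1) * (d + 1) ≤ PiC F d M := by
  have h1 := one_le_fac_rec (F := F) d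
  have hd : (0 : ℝ) ≤ d := Nat.cast_nonneg d
  have hM : (0 : ℝ) ≤ M := Nat.cast_nonneg M
  have h2 : (0 : ℝ) ≤ 500 * (M + 1) * (d + 1) := by positivity
  unfold PiC
  exact le_mul_of_one_le_left h2 h1

private theorem PiC_ge2_rec (d M : ℕ) : (700000 : ℝ) * (d + 1) ≤ PiC F d M := by
  have hq := one_le_card_rec (F := F)
  have hd : (0 : ℝ) ≤ d := Nat.cast_nonneg d
  have hM : (0 : ℝ) ≤ M := Nat.cast_nonneg M
  have h1 : (1 : ℝ) ≤ 13 * (d + 1) * (Fintype.card F : ℝ) ^ 2 :=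
    one_le_mul_of_one_le_of_one_le (by linarith) (one_le_pow₀ hq)
  have h2 : (1 : ℝ) ≤ 500 * (M + 1) * (d + 1) :=
    one_le_mul_of_one_le_of_one_le (by linarith) (by linarith)
  have h3 : (1 : ℝ) ≤ 700000 * ((d : ℝ) + 1) := by linarith
  have h4 : 700000 * ((d : ℝ) + 1) ≤ (700000 * ((d : ℝ) + 1)) ^ 2 := by
    rw [pow_two]
    exact le_mul_of_one_le_left (by linarith) h3
  unfold PiC
  calc (700000 : ℝ) * (d + 1) ≤ (700000 * ((d : ℝ) + 1)) ^ 2 := h4
    _ ≤ 13 * (d + 1) * (Fintype.card F : ℝ) ^ 2 * (700000 * ((d : ℝ) + 1)) ^ 2 :=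
        le_mul_of_one_le_left (by positivity) h1
    _ ≤ 13 * (d + 1) * (Fintype.card F : ℝ) ^ 2 * (700000 * ((d : ℝ) + 1)) ^ 2 *
          (500 * (M + 1) * (d + 1)) := le_mul_of_one_le_right (by positivity) h2

private theorem PiC_nonneg_rec (d M : ℕ) : 0 ≤ PiC F d M := by
  unfold PiC
  positivity

private theorem PiC_step_rec (d : ℕ) {m M : ℕ} (h : m ≤ M) :
    13 * (d + 1) * (Fintype.card F : ℝ) ^ 2 * (700000 * (d + 1)) ^ 2 *
        (500 * (m + 1) * (d + 1)) ≤ PiC F d M := by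
  have h' : (m : ℝ) ≤ M := by exact_mod_cast h
  unfold PiC
  gcongr

private theorem r_rec (M : ℕ) (hM : 1 ≤ M) (hq : (M : ℝ) * d / Fintype.card F ≤ 1 / 10000) :
    (d : ℝ) / Fintype.card F ≤ 1 / 10000 := by
  have hc : (0 : ℝ) < Fintype.card F := by exact_mod_cast Fintype.card_pos
  refine le_trans ?_ hq
  rw [mul_div_assoc]
  have h1 : (1 : ℝ) ≤ M := by exact_mod_cast hM
  exact le_mul_of_one_le_left (by positivity) h1

theorem recm (M : ℕ) (hd : 1 ≤ d) (hq : (M : ℝ) * d / Fintype.card F ≤ 1 / 10000) :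
    ∀ m ≤ M, ∀ A : Gen (sysm F d m) → Equiv.Perm X,
      nG (hatS (sysm F d m)) (ptA A) (1 / (1000 * (d + 1))) ≤
        (1 - (d : ℝ) / Fintype.card F)⁻¹ ^ m * PiC F d M * (2 * Dfn m A - own A) := by
  intro m
  have hc : (0 : ℝ) < Fintype.card F := by exact_mod_cast Fintype.card_pos
  induction m with
  | zero =>
    intro _ A
    have hd' : (1 : ℝ) ≤ d := by exact_mod_cast hd
    have he0 : (0 : ℝ) < 1 / (1000 * (d + 1)) := by positivity
    have he1 : (1 : ℝ) / (1000 * (d + 1)) ≤ 1 / 2000 := by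
      apply one_div_le_one_div_of_le (by norm_num)
      linarith
    have hb : nG (hatS (sysm F d 0)) (ptA A) (1 / (1000 * (d + 1))) ≤
        700 / (1 / (1000 * (d + 1))) * own (S := sysm F d 0) A := base_case (F := F) (d := d) A he0 he1
    have h1 : (700 : ℝ) / (1 / (1000 * (d + 1))) = 700000 * (d + 1) := by
      field_simp
      ring
    rw [h1] at hb
    have h2 : 2 * Dfn 0 A - own A = own (S := sysm F d 0) A := by
      have : Dfn 0 A = own (S := sysm F d 0) A := rfl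
      rw [this]
      ring
    rw [h2, pow_zero, one_mul]
    exact hb.trans (mul_le_mul_of_nonneg_right (PiC_ge2_rec d M) (own_nonneg (S := sysm F d 0) A))
  | succ m ih =>
    intro hm A
    have hm' : m ≤ M := by omega
    have hdq := r_rec M (by omega) hq
    have hr0 : (0 : ℝ) < 1 - d / Fintype.card F := by linarith
    have hdq0 : (0 : ℝ) ≤ (d : ℝ) / Fintype.card F := by positivity
    obtain ⟨r, hr⟩ : ∃ r : ℝ, r = (1 - (d : ℝ) / Fintype.card F)⁻¹ := ⟨_, rfl⟩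
    have hr1 : 1 ≤ r := by
      rw [hr]
      exact (one_le_inv₀ hr0).2 (by linarith)
    have hq' : ((m + 1 : ℕ) : ℝ) * d / Fintype.card F ≤ 1 / 10000 := by
      refine le_trans ?_ hq
      have : ((m + 1 : ℕ) : ℝ) ≤ M := by exact_mod_cast hm
      gcongr
    have hst := step (good_sysm (F := F) (d := d) m) hd hq' A
    rw [← hr] at hst ih ⊢
    have hP0 := PiC_nonneg_rec (F := F) d M
    have hown := own_nonneg (S := sysm F d (m + 1)) A
    obtain ⟨Eo, hEo⟩ : ∃ Eo : ℝ, Eo = 𝔼 c : F, own (S := sysm F d m) (slice A c) := ⟨_, rfl⟩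
    obtain ⟨ED, hED⟩ : ∃ ED : ℝ, ED = 𝔼 c : F, Dfn m (slice (S := sysm F d m) A c) := ⟨_, rfl⟩
    have hEo0 : 0 ≤ Eo := by
      rw [hEo]
      exact Finset.expect_nonneg fun c _ => own_nonneg (S := sysm F d m) _
    have h1 : 𝔼 c : F, nG (hatS (sysm F d m)) (ptA (slice A c)) (1 / (1000 * (d + 1))) ≤
        r ^ m * PiC F d M * (2 * ED - Eo) := by
      have h2 : 𝔼 c : F, nG (hatS (sysm F d m)) (ptA (slice A c)) (1 / (1000 * (d + 1))) ≤
          𝔼 c : F, r ^ m * PiC F d M *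
            (2 * Dfn m (slice (S := sysm F d m) A c) - own (S := sysm F d m) (slice A c)) :=
        Finset.expect_le_expect fun c _ => ih hm' (slice (S := sysm F d m) A c)
      refine h2.trans (le_of_eq ?_)
      rw [← Finset.mul_expect, Finset.expect_sub_distrib, ← Finset.mul_expect, ← hED, ← hEo]
    have hD : Dfn (m + 1) A = own (S := sysm F d (m + 1)) A + ED := by
      rw [hED]
      rfl
    have h3 : 13 * (d + 1) * (Fintype.card F : ℝ) ^ 2 * (700000 * (d + 1)) ^ 2 *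
        (500 * (m + 1) * (d + 1)) * (own (S := sysm F d (m + 1)) A + Eo) ≤
        r ^ (m + 1) * PiC F d M * (own (S := sysm F d (m + 1)) A + Eo) := by
      refine mul_le_mul_of_nonneg_right ?_ (by linarith)
      exact (PiC_step_rec (F := F) d hm').trans
        (le_mul_of_one_le_left hP0 (one_le_pow₀ hr1))
    have h4 : r * 𝔼 c : F, nG (hatS (sysm F d m)) (ptA (slice A c)) (1 / (1000 * (d + 1))) ≤
        r * (r ^ m * PiC F d M * (2 * ED - Eo)) :=
      mul_le_mul_of_nonneg_left h1 (by linarith)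
    rw [← hEo] at hst
    refine hst.trans ((add_le_add h4 h3).trans (le_of_eq ?_))
    rw [hD, pow_succ]
    ring

theorem main_count (M : ℕ) (hd : 1 ≤ d) (hq : (M : ℝ) * d / Fintype.card F ≤ 1 / 10000)
    (A : Gen (sysm F d M) → Equiv.Perm X) :
    nG (hatS (sysm F d M)) (ptA A) (1 / (1000 * (d + 1))) +
      Etot (hatS (sysm F d M)) (ptA A) (1 / (1000 * (d + 1))) ≤ 5 * PiC F d M * Dfn M A := by
  have h1 := recm (X := X) M hd hq M le_rfl A
  have h2 := Etot_le (good_sysm (F := F) (d := d) M) hd hq A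
  have hP0 := PiC_nonneg_rec (F := F) d M
  have hown := own_nonneg (S := sysm F d M) A
  have hD0 := Dfn_nonneg_rec M A
  have hoD := own_le_Dfn M A
  have hrM : (1 - (d : ℝ) / Fintype.card F)⁻¹ ^ M ≤ 2 := by
    rcases Nat.eq_zero_or_pos M with h0 | hM
    · rw [h0, pow_zero]
      norm_num
    · have hdq := r_rec M hM hq
      have hb : 1 + (M : ℝ) * (-((d : ℝ) / Fintype.card F)) ≤ (1 + -((d : ℝ) / Fintype.card F)) ^ M :=
        one_add_mul_le_pow (by linarith) M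
      have hb2 : (1 : ℝ) / 2 ≤ (1 - (d : ℝ) / Fintype.card F) ^ M := by
        rw [sub_eq_add_neg]
        refine le_trans ?_ hb
        rw [mul_neg, ← mul_div_assoc]
        linarith
      rw [inv_pow]
      have h5 := inv_anti₀ (by norm_num : (0 : ℝ) < 1 / 2) hb2
      refine h5.trans ?_
      norm_num
  have h3 : (1 - (d : ℝ) / Fintype.card F)⁻¹ ^ M * PiC F d M * (2 * Dfn M A - own A) ≤
      2 * PiC F d M * (2 * Dfn M A) := by
    refine mul_le_mul (mul_le_mul_of_nonneg_right hrM hP0) (by linarith) (by linarith) ?_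
    positivity
  have h4 : 500 * (M + 1) * (d + 1) * own A ≤ PiC F d M * Dfn M A :=
    mul_le_mul (PiC_ge_rec d M) hoD hown hP0
  linarith

end Pool.Agent.Lib_MP_3a79a1_b
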