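import Pool.Agent.Lib_MP_3a79a1_b.Chain

/-!
# [RM-RA] Composition of partial actions inside a set

`cmp Y n β γ = β 0 (γ 0) ∘ ... ∘ β (n-1) (γ (n-1))`, restricted to values in `Y` after each step.

* `cmp_mem`, `cmp_inj`: induction on `n`.
* `multi`: induction on `n` (generalize `β ζ h τ a K C p`).  `n = 0`: `cmp = some x`, `pz = 1`, all
  indicators are `0`.  Step: the induction hypothesis is applied to the indices `j.succ`.  Fix `ω`
  and `γ` and let `Z ω = pz (fun j => ζ j ω)`, `Z' ω` the same for the tail, `Z ω = ζ 0 ω * Z' ω`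
  (`pz_succ`).  Suppose `x ∈ Y` is good for the tail: `cmp' γ' x = some w`, `w ∈ Y`, `z = Z' ω w ∈ Y`,
  `cmp' (γ' + h') x = some z`.  If moreover
  (i) `∀ g, β 0 (g + h 0 ω) z = β 0 g (ζ 0 ω z)`,
  (ii) `Z ω w ∈ Y`,
  (iii) `∃ v ∈ Y, β 0 (γ 0) w = some v ∧ Z ω v ∈ Y ∧ β 0 (γ 0) (Z ω w) = some (Z ω v)`,
  then `cmp γ x = some v` and
  `β 0 (γ 0 + h 0 ω) z = β 0 (γ 0) (ζ 0 ω (Z' ω w)) = β 0 (γ 0) (Z ω w) = some (Z ω v)`, so
  `cmp (γ + h) x = some (Z ω v)`: `x` is good.  For fixed `ω, γ` the maps `x ↦ w` and `x ↦ z` are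
  injective on the good `x` (`cmp_inj`) with values in `Y`, so the sum over `x` of the indicator
  that (i) fails is at most `∑ z ∈ Y ind (i fails at z)`, average `≤ a 0`; that of (ii) is
  `≤ ∑ w ∈ Y ind (Z ω w ∉ Y)`, average over `ω` (and `t`) `≤ ∑ k (C 0 k + p k)` by `chain_comm` with
  `τ = τ 0 t`; and (iii) fails while (ii) holds: average
  `≤ K 0 + 2 𝔼 ω ∑ x ∈ Y 𝔼 t ind (τ 0 t (Z ω x) ≠ Z ω (τ 0 t x)) ≤ K 0 + 2 ∑ k (C 0 k + p k)` by `hK`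
  for `ζ' = Z ω` and again `chain_comm`.  Total `a 0 + K 0 + 3 ∑ k C 0 k + 3 ∑ k p k`.  All `a, K`
  (use `ζ' = 1`; then `hK` gives `0 ≤ K j`), `C, p` are `≥ 0` since they bound nonnegative sums, so
  the tail bound `∑_{j ≥ 1} (a j + K j) + 3 ∑_{j,k ≥ 1} C j k + 3 n ∑_{k ≥ 1} p k` plus this is at most the
  claim (`Fin.sum_univ_succ`).  `𝔼` over `Fin (n+1) → V` splits as `𝔼` over `V × (Fin n → V)`
  (`Fin.consEquiv` / `Fin.insertNthEquiv`, `Fintype.expect_equiv`).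
-/

set_option linter.unusedSectionVars false

namespace Pool.Agent.Lib_MP_3a79a1_b

open Finset
open scoped BigOperators

open Classical in
/-- composition of the partial maps `β j (γ j)` inside `Y`, the last index first -/
noncomputable def cmp {V X : Type} (Y : Finset X) : (n : ℕ) → (Fin n → V → X → Option X) →
    (Fin n → V) → X → Option X
  | 0, _, _, x => some x
  | n + 1, β, γ, x =>
      (cmp Y n (fun j => β j.succ) (fun j => γ j.succ) x).bind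
        (fun w => (β 0 (γ 0) w).bind (fun v => if v ∈ Y then some v else none))

theorem cmp_mem {V X : Type} (Y : Finset X) (n : ℕ) (β : Fin n → V → X → Option X)
    (γ : Fin n → V) {x v : X} (hx : x ∈ Y) (h : cmp Y n β γ x = some v) : v ∈ Y := by
  classical
  cases n with
  | zero =>
    simp only [cmp, Option.some.injEq] at h
    exact h ▸ hx
  | succ n =>
    simp only [cmp, Option.bind_eq_some_iff] at h
    obtain ⟨w, -, u, -, hu⟩ := h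
    by_cases huY : u ∈ Y
    · rw [if_pos huY, Option.some.injEq] at hu
      exact hu ▸ huY
    · rw [if_neg huY] at hu
      exact absurd hu (by simp)

theorem cmp_inj {V X : Type} (Y : Finset X) (n : ℕ) (β : Fin n → V → X → Option X)
    (hinj : ∀ j γ x1 x2 v, x1 ∈ Y → x2 ∈ Y → β j γ x1 = some v → β j γ x2 = some v → x1 = x2)
    (γ : Fin n → V) {x1 x2 v : X} (h1 : x1 ∈ Y) (h2 : x2 ∈ Y) (h : cmp Y n β γ x1 = some v)
    (h' : cmp Y n β γ x2 = some v) : x1 = x2 := by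
  classical
  induction n generalizing x1 x2 v with
  | zero =>
    simp only [cmp, Option.some.injEq] at h h'
    rw [h, h']
  | succ n ih =>
    simp only [cmp, Option.bind_eq_some_iff] at h h'
    obtain ⟨w, hw, u, hu, hv⟩ := h
    obtain ⟨w', hw', u', hu', hv'⟩ := h'
    have e1 : u = v := by
      by_cases huY : u ∈ Y
      · rw [if_pos huY, Option.some.injEq] at hv
        exact hv
      · rw [if_neg huY] at hv
        exact absurd hv (by simp)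
    have e2 : u' = v := by
      by_cases huY : u' ∈ Y
      · rw [if_pos huY, Option.some.injEq] at hv'
        exact hv'
      · rw [if_neg huY] at hv'
        exact absurd hv' (by simp)
    have m1 := cmp_mem Y n _ _ h1 hw
    have m2 := cmp_mem Y n _ _ h2 hw'
    rw [e1] at hu
    rw [e2] at hu'
    have e3 : w = w' := hinj 0 (γ 0) w w' v m1 m2 hu hu'
    subst e3
    exact ih (fun j => β j.succ) (fun j g y1 y2 u a b c d => hinj j.succ g y1 y2 u a b c d)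
      (fun j => γ j.succ) h1 h2 hw hw'

/-- substitution along an injective partial map -/
private lemma push_rega {X : Type} (Y : Finset X) (f : X → Option X)
    (hf : ∀ x1 x2 v, x1 ∈ Y → x2 ∈ Y → f x1 = some v → f x2 = some v → x1 = x2) (Q : X → Prop) :
    ∑ x ∈ Y, ind (∃ w ∈ Y, f x = some w ∧ Q w) ≤ ∑ w ∈ Y, ind (Q w) := by
  classical
  have h1 : ∑ x ∈ Y, ind (∃ w ∈ Y, f x = some w ∧ Q w) =
      ∑ x ∈ Y.filter (fun x => ∃ w ∈ Y, f x = some w ∧ Q w), (1 : ℝ) := by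
    rw [Finset.sum_filter]
    refine Finset.sum_congr rfl fun x _ => ?_
    by_cases h : ∃ w ∈ Y, f x = some w ∧ Q w
    · rw [if_pos h, ind_true h]
    · rw [if_neg h, ind_false h]
  have h2 : ∑ w ∈ Y, ind (Q w) = ∑ w ∈ Y.filter (fun w => Q w), (1 : ℝ) := by
    rw [Finset.sum_filter]
    refine Finset.sum_congr rfl fun x _ => ?_
    by_cases h : Q x
    · rw [if_pos h, ind_true h]
    · rw [if_neg h, ind_false h]
  rw [h1, h2, Finset.sum_const, Finset.sum_const, nsmul_eq_mul, nsmul_eq_mul, mul_one, mul_one]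
  have h3 : (Y.filter (fun x => ∃ w ∈ Y, f x = some w ∧ Q w)).card ≤
      (Y.filter (fun w => Q w)).card := by
    refine Finset.card_le_card_of_injOn (fun x => (f x).getD x) ?_ ?_
    · intro x hx
      obtain ⟨hxY, w, hw, hfw, hQ⟩ := Finset.mem_filter.1 (Finset.mem_coe.1 hx)
      refine Finset.mem_coe.2 (Finset.mem_filter.2 ?_)
      simp only [hfw, Option.getD_some]
      exact ⟨hw, hQ⟩
    · intro x hx x' hx' he
      obtain ⟨hxY, w, hw, hfw, hQ⟩ := Finset.mem_filter.1 (Finset.mem_coe.1 hx)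
      obtain ⟨hxY', w', hw', hfw', hQ'⟩ := Finset.mem_filter.1 (Finset.mem_coe.1 hx')
      simp only [hfw, hfw', Option.getD_some] at he
      subst he
      exact hf x x' w hxY hxY' hfw hfw'
  exact_mod_cast h3

private lemma ind_and_rega (p q : Prop) : ind (p ∧ q) = ind p * ind q := by
  by_cases hp : p
  · rw [ind_true hp, one_mul]
    exact ind_congr ⟨fun h => h.2, fun h => ⟨hp, h⟩⟩
  · rw [ind_false hp, zero_mul]
    exact ind_false fun h => hp h.1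

private lemma expect_cons_rega {V : Type} [Fintype V] {n : ℕ} (f : (Fin (n + 1) → V) → ℝ) :
    𝔼 γ, f γ = 𝔼 g : V, 𝔼 γ' : Fin n → V, f (Fin.cons g γ') := by
  classical
  have h1 : 𝔼 γ, f γ = 𝔼 u : V × (Fin n → V), f (Fin.cons u.1 u.2) :=
    (Fintype.expect_equiv (Fin.consEquiv (fun _ : Fin (n + 1) => V)) _ _ (fun u => rfl)).symm
  rw [h1, ← Finset.univ_product_univ]
  rw [Finset.expect_product' (s := (univ : Finset V)) (t := (univ : Finset (Fin n → V)))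
    (f := fun g γ' => f (Fin.cons g γ'))]

/-- the good triples -/
private def Gd_rega {V X Ω : Type} [AddCommGroup V] (Y : Finset X) (n : ℕ)
    (β : Fin n → V → X → Option X) (ζ : Fin n → Ω → Equiv.Perm X) (h : Fin n → Ω → V)
    (ω : Ω) (γ : Fin n → V) (x : X) : Prop :=
  ∃ w ∈ Y, cmp Y n β γ x = some w ∧ pz (fun j => ζ j ω) w ∈ Y ∧
    cmp Y n β (γ + fun j => h j ω) x = some (pz (fun j => ζ j ω) w)

private lemma step_rega {V X Ω : Type} [AddCommGroup V] (Y : Finset X) (n : ℕ)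
    (β : Fin (n + 1) → V → X → Option X) (ζ : Fin (n + 1) → Ω → Equiv.Perm X)
    (h : Fin (n + 1) → Ω → V) (ω : Ω) (g : V) (γ : Fin n → V) (x : X)
    (hn : ¬ Gd_rega Y (n + 1) β ζ h ω (Fin.cons g γ) x) :
    ¬ Gd_rega Y n (fun j => β j.succ) (fun j => ζ j.succ) (fun j => h j.succ) ω γ x ∨
    (∃ z ∈ Y, cmp Y n (fun j => β j.succ) (γ + fun j => h j.succ ω) x = some z ∧
      ¬ ∀ g, β 0 (g + h 0 ω) z = β 0 g (ζ 0 ω z)) ∨
    (∃ w ∈ Y, cmp Y n (fun j => β j.succ) γ x = some w ∧ pz (fun j => ζ j ω) w ∉ Y) ∨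
    (∃ w ∈ Y, cmp Y n (fun j => β j.succ) γ x = some w ∧ (pz (fun j => ζ j ω) w ∈ Y ∧
      ¬ ∃ v ∈ Y, β 0 g w = some v ∧ pz (fun j => ζ j ω) v ∈ Y ∧
        β 0 g (pz (fun j => ζ j ω) w) = some (pz (fun j => ζ j ω) v))) := by
  classical
  by_contra hcon
  rw [not_or, not_or, not_or, not_not] at hcon
  obtain ⟨⟨w, hwY, hw, hzY, hz⟩, c2, c3, c4⟩ := hcon
  have hzz : pz (fun j => ζ j ω) w = ζ 0 ω (pz (fun j : Fin n => ζ j.succ ω) w) := by
    rw [pz_succ]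
    rfl
  have d2 : ∀ g, β 0 (g + h 0 ω) (pz (fun j : Fin n => ζ j.succ ω) w) =
      β 0 g (ζ 0 ω (pz (fun j : Fin n => ζ j.succ ω) w)) := by
    by_contra hc
    exact c2 ⟨_, hzY, hz, hc⟩
  have d3 : pz (fun j => ζ j ω) w ∈ Y := by
    by_contra hc
    exact c3 ⟨w, hwY, hw, hc⟩
  have d4 : ∃ v ∈ Y, β 0 g w = some v ∧ pz (fun j => ζ j ω) v ∈ Y ∧
        β 0 g (pz (fun j => ζ j ω) w) = some (pz (fun j => ζ j ω) v) := by
    by_contra hc
    exact c4 ⟨w, hwY, hw, d3, hc⟩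
  obtain ⟨v, hvY, hv, hZv, hZ⟩ := d4
  apply hn
  refine ⟨v, hvY, ?_, hZv, ?_⟩
  · simp only [cmp, Fin.cons_succ, Fin.cons_zero]
    rw [Option.bind_eq_some_iff]
    refine ⟨w, hw, ?_⟩
    rw [Option.bind_eq_some_iff]
    exact ⟨v, hv, if_pos hvY⟩
  · simp only [cmp, Pi.add_apply, Fin.cons_succ, Fin.cons_zero]
    rw [Option.bind_eq_some_iff]
    refine ⟨_, hz, ?_⟩
    rw [Option.bind_eq_some_iff]
    refine ⟨pz (fun j => ζ j ω) v, ?_, if_pos hZv⟩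
    rw [d2 g, ← hzz]
    exact hZ

private lemma chain_rega {X Ω T : Type} [Fintype X] [Fintype Ω] [Nonempty Ω]
    [Fintype T] [Nonempty T] (Y : Finset X) (n : ℕ) (ζ : Fin n → Ω → Equiv.Perm X)
    (τ : T → Equiv.Perm X) (p C : Fin n → ℝ)
    (hC : ∀ k, ∑ x ∈ Y, 𝔼 ω, 𝔼 t, ind (τ t (ζ k ω x) ≠ ζ k ω (τ t x)) ≤ C k)
    (hp : ∀ k, ∑ x ∈ Y, 𝔼 ω, ind (ζ k ω x ∉ Y) ≤ p k) :
    𝔼 ω, 𝔼 t, ∑ w ∈ Y, ind (¬ (pz (fun j => ζ j ω) w ∈ Y ∧
      τ t (pz (fun j => ζ j ω) w) = pz (fun j => ζ j ω) (τ t w))) ≤ ∑ k, C k + ∑ k, p k := by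
  classical
  have h1 : 𝔼 ω, 𝔼 t, ∑ w ∈ Y, ind (¬ (pz (fun j => ζ j ω) w ∈ Y ∧
      τ t (pz (fun j => ζ j ω) w) = pz (fun j => ζ j ω) (τ t w))) ≤
      𝔼 ω, 𝔼 t, (∑ j : Fin n, ∑ w ∈ Y, ind (τ t (ζ j ω w) ≠ ζ j ω (τ t w)) +
      ∑ j : Fin n, ∑ w ∈ Y, ind (ζ j ω w ∉ Y)) :=
    Finset.expect_le_expect fun ω _ => Finset.expect_le_expect fun t _ =>
      chain_comm n (fun j => ζ j ω) (τ t) Y
  refine h1.trans ?_
  have h2 : 𝔼 ω, 𝔼 t, (∑ j : Fin n, ∑ w ∈ Y, ind (τ t (ζ j ω w) ≠ ζ j ω (τ t w)) +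
      ∑ j : Fin n, ∑ w ∈ Y, ind (ζ j ω w ∉ Y)) =
      ∑ j : Fin n, ∑ w ∈ Y, 𝔼 ω, 𝔼 t, ind (τ t (ζ j ω w) ≠ ζ j ω (τ t w)) +
      ∑ j : Fin n, ∑ w ∈ Y, 𝔼 ω, ind (ζ j ω w ∉ Y) := by
    simp only [Finset.expect_add_distrib, Fintype.expect_const]
    congr 1
    · have h3 : ∀ ω, 𝔼 t, ∑ j : Fin n, ∑ w ∈ Y, ind (τ t (ζ j ω w) ≠ ζ j ω (τ t w)) =
          ∑ j : Fin n, ∑ w ∈ Y, 𝔼 t, ind (τ t (ζ j ω w) ≠ ζ j ω (τ t w)) := by
        intro ω
        rw [Finset.expect_sum_comm]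
        refine Finset.sum_congr rfl fun j _ => ?_
        rw [Finset.expect_sum_comm]
      rw [Finset.expect_congr rfl fun ω _ => h3 ω, Finset.expect_sum_comm]
      refine Finset.sum_congr rfl fun j _ => ?_
      rw [Finset.expect_sum_comm]
    · rw [Finset.expect_sum_comm]
      refine Finset.sum_congr rfl fun j _ => ?_
      rw [Finset.expect_sum_comm]
  rw [h2]
  exact add_le_add (Finset.sum_le_sum fun k _ => hC k) (Finset.sum_le_sum fun k _ => hp k)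

private lemma multi_rega {V X Ω T : Type} [AddCommGroup V] [Fintype V] [Fintype X] [Fintype Ω]
    [Nonempty Ω] [Fintype T] [Nonempty T] (Y : Finset X) (n : ℕ) (β : Fin n → V → X → Option X)
    (hinj : ∀ j γ x1 x2 v, x1 ∈ Y → x2 ∈ Y → β j γ x1 = some v → β j γ x2 = some v → x1 = x2)
    (ζ : Fin n → Ω → Equiv.Perm X) (h : Fin n → Ω → V) (τ : Fin n → T → Equiv.Perm X)
    (a K p : Fin n → ℝ) (C : Fin n → Fin n → ℝ)
    (ha : ∀ j, ∑ z ∈ Y, 𝔼 ω, ind (¬ ∀ γ, β j (γ + h j ω) z = β j γ (ζ j ω z)) ≤ a j)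
    (hK : ∀ j (ζ' : Equiv.Perm X),
      ∑ w ∈ Y, ind (ζ' w ∈ Y) * 𝔼 γ, ind (¬ ∃ v ∈ Y, β j γ w = some v ∧ ζ' v ∈ Y ∧
        β j γ (ζ' w) = some (ζ' v)) ≤ K j + 2 * ∑ x ∈ Y, 𝔼 t, ind (τ j t (ζ' x) ≠ ζ' (τ j t x)))
    (hC : ∀ j k, ∑ x ∈ Y, 𝔼 ω, 𝔼 t, ind (τ j t (ζ k ω x) ≠ ζ k ω (τ j t x)) ≤ C j k)
    (hp : ∀ k, ∑ x ∈ Y, 𝔼 ω, ind (ζ k ω x ∉ Y) ≤ p k) :
    ∑ x ∈ Y, 𝔼 ω, 𝔼 γ : Fin n → V, ind (¬ Gd_rega Y n β ζ h ω γ x) ≤
      ∑ j, a j + ∑ j, K j + 3 * ∑ j, ∑ k, C j k + 3 * n * ∑ k, p k := by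
  classical
  induction n with
  | zero =>
    have e0 : ∑ j, a j + ∑ j, K j + 3 * ∑ j, ∑ k, C j k + 3 * (0 : ℕ) * ∑ k, p k = 0 := by
      simp only [Finset.univ_eq_empty (α := Fin 0), Finset.sum_empty, add_zero, mul_zero]
    rw [e0]
    refine le_of_eq (Finset.sum_eq_zero fun x hx => ?_)
    refine Finset.expect_eq_zero fun ω _ => Finset.expect_eq_zero fun γ _ => ind_false ?_
    rw [not_not]
    refine ⟨x, hx, rfl, ?_, ?_⟩
    · rw [pz_zero]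
      exact hx
    · rw [pz_zero]
      rfl
  | succ n ih =>
    have IH := ih (fun j => β j.succ) (fun j g x1 x2 v => hinj j.succ g x1 x2 v)
      (fun j => ζ j.succ) (fun j => h j.succ) (fun j => τ j.succ) (fun j => a j.succ)
      (fun j => K j.succ) (fun j => p j.succ) (fun j k => C j.succ k.succ)
      (fun j => ha j.succ) (fun j => hK j.succ) (fun j k => hC j.succ k.succ)
      (fun k => hp k.succ)
    have hcmp : ∀ (γ : Fin n → V) x1 x2 v, x1 ∈ Y → x2 ∈ Y →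
        cmp Y n (fun j => β j.succ) γ x1 = some v → cmp Y n (fun j => β j.succ) γ x2 = some v →
        x1 = x2 := fun γ x1 x2 v h1 h2 h3 h4 =>
      cmp_inj Y n _ (fun j g x1 x2 v => hinj j.succ g x1 x2 v) γ h1 h2 h3 h4
    -- the pointwise bound
    have hpt : ∀ (ω : Ω) (g : V) (γ : Fin n → V),
        ∑ x ∈ Y, ind (¬ Gd_rega Y (n + 1) β ζ h ω (Fin.cons g γ) x) ≤
        ∑ x ∈ Y, ind (¬ Gd_rega Y n (fun j => β j.succ) (fun j => ζ j.succ)
          (fun j => h j.succ) ω γ x) +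
        (∑ z ∈ Y, ind (¬ ∀ g, β 0 (g + h 0 ω) z = β 0 g (ζ 0 ω z)) +
        (∑ w ∈ Y, ind (pz (fun j => ζ j ω) w ∉ Y) +
        ∑ w ∈ Y, ind (pz (fun j => ζ j ω) w ∈ Y ∧
          ¬ ∃ v ∈ Y, β 0 g w = some v ∧ pz (fun j => ζ j ω) v ∈ Y ∧
          β 0 g (pz (fun j => ζ j ω) w) = some (pz (fun j => ζ j ω) v)))) := by
      intro ω g γ
      have e1 := push_rega Y _ (hcmp (γ + fun j => h j.succ ω))
        (fun z => ¬ ∀ g, β 0 (g + h 0 ω) z = β 0 g (ζ 0 ω z))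
      have e2 := push_rega Y _ (hcmp γ) (fun w => pz (fun j => ζ j ω) w ∉ Y)
      have e3 := push_rega Y _ (hcmp γ) (fun w => pz (fun j => ζ j ω) w ∈ Y ∧
          ¬ ∃ v ∈ Y, β 0 g w = some v ∧ pz (fun j => ζ j ω) v ∈ Y ∧
          β 0 g (pz (fun j => ζ j ω) w) = some (pz (fun j => ζ j ω) v))
      refine le_trans ?_ (add_le_add le_rfl (add_le_add e1 (add_le_add e2 e3)))
      rw [← Finset.sum_add_distrib, ← Finset.sum_add_distrib, ← Finset.sum_add_distrib]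
      refine Finset.sum_le_sum fun x _ => ?_
      refine (ind_le_add (step_rega Y n β ζ h ω g γ x)).trans (add_le_add le_rfl ?_)
      refine (ind_le_add fun h => h).trans (add_le_add le_rfl ?_)
      exact ind_le_add fun h => h
    -- average
    have hav : ∑ x ∈ Y, 𝔼 ω, 𝔼 γ : Fin (n + 1) → V, ind (¬ Gd_rega Y (n + 1) β ζ h ω γ x) =
        𝔼 ω, 𝔼 g : V, 𝔼 γ : Fin n → V,
          ∑ x ∈ Y, ind (¬ Gd_rega Y (n + 1) β ζ h ω (Fin.cons g γ) x) := by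
      rw [← Finset.expect_sum_comm]
      refine Finset.expect_congr rfl fun ω _ => ?_
      rw [← Finset.expect_sum_comm, expect_cons_rega]
    have hch := chain_rega Y (n + 1) ζ (τ 0) p (C 0) (hC 0) hp
    have hA : 𝔼 ω, ∑ z ∈ Y, ind (¬ ∀ g, β 0 (g + h 0 ω) z = β 0 g (ζ 0 ω z)) ≤ a 0 := by
      rw [Finset.expect_sum_comm]
      exact ha 0
    have hB : 𝔼 ω, ∑ w ∈ Y, ind (pz (fun j => ζ j ω) w ∉ Y) ≤ ∑ k, C 0 k + ∑ k, p k := by
      refine le_trans (Finset.expect_le_expect fun ω _ => ?_) hch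
      have e1 : ∑ w ∈ Y, ind (pz (fun j => ζ j ω) w ∉ Y) =
          𝔼 _t : T, ∑ w ∈ Y, ind (pz (fun j => ζ j ω) w ∉ Y) := by
        rw [Fintype.expect_const]
      rw [e1]
      refine Finset.expect_le_expect fun t _ => Finset.sum_le_sum fun w _ => ind_mono ?_
      exact fun h h' => h h'.1
    have hD : 𝔼 ω, 𝔼 g : V, ∑ w ∈ Y, ind (pz (fun j => ζ j ω) w ∈ Y ∧
          ¬ ∃ v ∈ Y, β 0 g w = some v ∧ pz (fun j => ζ j ω) v ∈ Y ∧
          β 0 g (pz (fun j => ζ j ω) w) = some (pz (fun j => ζ j ω) v)) ≤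
        K 0 + 2 * (∑ k, C 0 k + ∑ k, p k) := by
      have e1 : ∀ ω, 𝔼 g : V, ∑ w ∈ Y, ind (pz (fun j => ζ j ω) w ∈ Y ∧
          ¬ ∃ v ∈ Y, β 0 g w = some v ∧ pz (fun j => ζ j ω) v ∈ Y ∧
          β 0 g (pz (fun j => ζ j ω) w) = some (pz (fun j => ζ j ω) v)) ≤
          K 0 + 2 * 𝔼 t, ∑ w ∈ Y, ind (¬ (pz (fun j => ζ j ω) w ∈ Y ∧
            τ 0 t (pz (fun j => ζ j ω) w) = pz (fun j => ζ j ω) (τ 0 t w))) := by
        intro ω
        have e2 := hK 0 (pz (fun j => ζ j ω))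
        rw [Finset.expect_sum_comm]
        refine le_trans (le_of_eq (Finset.sum_congr rfl fun w _ => ?_)) (e2.trans ?_)
        · rw [Finset.mul_expect]
          exact Finset.expect_congr rfl fun g _ => ind_and_rega _ _
        · rw [← Finset.expect_sum_comm]
          gcongr with t _ w _
          exact ind_mono fun h h' => h h'.2
      refine (Finset.expect_le_expect fun ω _ => e1 ω).trans ?_
      rw [Finset.expect_add_distrib, Fintype.expect_const, ← Finset.mul_expect]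
      linarith
    rw [hav]
    have hsum : 𝔼 ω, 𝔼 g : V, 𝔼 γ : Fin n → V,
          ∑ x ∈ Y, ind (¬ Gd_rega Y (n + 1) β ζ h ω (Fin.cons g γ) x) ≤
        𝔼 ω, 𝔼 g : V, 𝔼 γ : Fin n → V, (∑ x ∈ Y, ind (¬ Gd_rega Y n (fun j => β j.succ)
          (fun j => ζ j.succ) (fun j => h j.succ) ω γ x) +
        (∑ z ∈ Y, ind (¬ ∀ g, β 0 (g + h 0 ω) z = β 0 g (ζ 0 ω z)) +
        (∑ w ∈ Y, ind (pz (fun j => ζ j ω) w ∉ Y) +
        ∑ w ∈ Y, ind (pz (fun j => ζ j ω) w ∈ Y ∧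
          ¬ ∃ v ∈ Y, β 0 g w = some v ∧ pz (fun j => ζ j ω) v ∈ Y ∧
          β 0 g (pz (fun j => ζ j ω) w) = some (pz (fun j => ζ j ω) v))))) :=
      Finset.expect_le_expect fun ω _ => Finset.expect_le_expect fun g _ =>
        Finset.expect_le_expect fun γ _ => hpt ω g γ
    refine hsum.trans ?_
    simp only [Finset.expect_add_distrib, Fintype.expect_const]
    have hIH : 𝔼 ω, 𝔼 γ : Fin n → V, ∑ x ∈ Y, ind (¬ Gd_rega Y n (fun j => β j.succ)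
          (fun j => ζ j.succ) (fun j => h j.succ) ω γ x) =
        ∑ x ∈ Y, 𝔼 ω, 𝔼 γ : Fin n → V, ind (¬ Gd_rega Y n (fun j => β j.succ)
          (fun j => ζ j.succ) (fun j => h j.succ) ω γ x) := by
      rw [← Finset.expect_sum_comm]
      refine Finset.expect_congr rfl fun ω _ => ?_
      rw [← Finset.expect_sum_comm]
    rw [hIH]
    have hC0 : 0 ≤ ∑ j : Fin n, C j.succ 0 := by
      refine Finset.sum_nonneg fun j _ => le_trans ?_ (hC j.succ 0)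
      exact Finset.sum_nonneg fun x _ => Finset.expect_nonneg fun ω _ =>
        Finset.expect_nonneg fun t _ => ind_nonneg _
    have hp0 : 0 ≤ p 0 := by
      refine le_trans ?_ (hp 0)
      exact Finset.sum_nonneg fun x _ => Finset.expect_nonneg fun ω _ => ind_nonneg _
    have s1 : ∑ j, a j = a 0 + ∑ j : Fin n, a j.succ := Fin.sum_univ_succ _
    have s2 : ∑ j, K j = K 0 + ∑ j : Fin n, K j.succ := Fin.sum_univ_succ _
    have s3 : ∑ k, p k = p 0 + ∑ j : Fin n, p j.succ := Fin.sum_univ_succ _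
    have s4 : ∑ j, ∑ k, C j k = ∑ k, C 0 k + (∑ j : Fin n, C j.succ 0 +
        ∑ j : Fin n, ∑ k : Fin n, C j.succ k.succ) := by
      rw [Fin.sum_univ_succ, ← Finset.sum_add_distrib]
      congr 1
      exact Finset.sum_congr rfl fun j _ => Fin.sum_univ_succ _
    rw [s1, s2, s4]
    have hn0 : (0 : ℝ) ≤ n := Nat.cast_nonneg n
    have hnp : 0 ≤ (n : ℝ) * p 0 := mul_nonneg hn0 hp0
    have s5 : (3 : ℝ) * ((n + 1 : ℕ) : ℝ) * ∑ k, p k = 3 * n * ∑ j : Fin n, p j.succ +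
        3 * (n * p 0) + 3 * ∑ k, p k := by
      rw [s3]
      push_cast
      ring
    rw [s5]
    linarith

theorem multi {V X Ω T : Type} [AddCommGroup V] [Fintype V] [Fintype X] [Fintype Ω] [Nonempty Ω]
    [Fintype T] [Nonempty T] (Y : Finset X) (n : ℕ) (β : Fin n → V → X → Option X)
    (hinj : ∀ j γ x1 x2 v, x1 ∈ Y → x2 ∈ Y → β j γ x1 = some v → β j γ x2 = some v → x1 = x2)
    (ζ : Fin n → Ω → Equiv.Perm X) (h : Fin n → Ω → V) (τ : Fin n → T → Equiv.Perm X)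
    (a K p : Fin n → ℝ) (C : Fin n → Fin n → ℝ)
    (ha : ∀ j, ∑ z ∈ Y, 𝔼 ω, ind (¬ ∀ γ, β j (γ + h j ω) z = β j γ (ζ j ω z)) ≤ a j)
    (hK : ∀ j (ζ' : Equiv.Perm X),
      ∑ w ∈ Y, ind (ζ' w ∈ Y) * 𝔼 γ, ind (¬ ∃ v ∈ Y, β j γ w = some v ∧ ζ' v ∈ Y ∧
        β j γ (ζ' w) = some (ζ' v)) ≤ K j + 2 * ∑ x ∈ Y, 𝔼 t, ind (τ j t (ζ' x) ≠ ζ' (τ j t x)))
    (hC : ∀ j k, ∑ x ∈ Y, 𝔼 ω, 𝔼 t, ind (τ j t (ζ k ω x) ≠ ζ k ω (τ j t x)) ≤ C j k)
    (hp : ∀ k, ∑ x ∈ Y, 𝔼 ω, ind (ζ k ω x ∉ Y) ≤ p k) :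
    ∑ x ∈ Y, 𝔼 ω, 𝔼 γ : Fin n → V, ind (¬ ∃ w ∈ Y, cmp Y n β γ x = some w ∧
        pz (fun j => ζ j ω) w ∈ Y ∧
        cmp Y n β (γ + fun j => h j ω) x = some (pz (fun j => ζ j ω) w)) ≤
      ∑ j, a j + ∑ j, K j + 3 * ∑ j, ∑ k, C j k + 3 * n * ∑ k, p k := by
  exact multi_rega Y n β hinj ζ h τ a K p C ha hK hC hp

end Pool.Agent.Lib_MP_3a79a1_b
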