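import Pool.Agent.Lib_MP_3a79a1_b.Alg
import Pool.Agent.Lib_MP_3a79a1_b.Chain

/-!
# [RM-VT] The point identity on a line

`l` a line, `c` injective nodes, `t` not among them, `s_j = (lpt l (c j), lag c t j * b)`,
`s = (lpt l t, b)`.  For `b : F`, `γ : Fin (d+1) → F` apply `chain` (`n = d+1`) with
`ζ j = A (inl s_j)` and `Λ j = A (inr (l, γ + Fin.partialSum (fun i => (lag c t i * b) • evec (c i)) j))`
(or `∑ i with i < j`).  `Λ 0 = A (inr (l, γ))`, `Λ last = A (inr (l, γ + b • evec t))` by `lag_sum`.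
So, unless one of the events counted on the right of `chain` occurs or
`A (inr (l, γ + b • evec t)) w ≠ A (inr (l, γ)) (A (inl s) w)`, we have `pz ζ w ∈ Y` and
`A (inr (l,γ)) (pz ζ w) = A (inr (l,γ)) (A (inl s) w)`, i.e. `pz ζ w = A (inl s) w`.
Average over `γ` and `b` (the event on the left does not depend on `γ`).  As `lag c t j ≠ 0`
(`lag_ne`), `b ↦ lag c t j * b` is a bijection of `F`, and for fixed `b` the map
`γ ↦ γ + partialSum .. j` is a bijection; so the `j`-th term becomes `cnL A l (c j) w`, resp.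
`𝔼 b, ind (A (inl (lpt l (c j), b)) w ∉ Y)`.
-/

set_option linter.unusedSectionVars false

namespace Pool.Agent.Lib_MP_3a79a1_b

open Finset
open scoped BigOperators

variable {F : Type} [Field F] [Fintype F] [DecidableEq F] {d : ℕ}

variable {X : Type} [Fintype X]

private theorem partialSum_last_vert {M : Type} [AddCommMonoid M] {n : ℕ} (f : Fin n → M) :
    Fin.partialSum f (Fin.last n) = ∑ i, f i := by
  induction n with
  | zero => simp
  | succ n ih =>
    rw [← Fin.succ_last, Fin.partialSum_succ, Fin.sum_univ_castSucc]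
    congr 1
    rw [← Fin.partialSum_init]
    exact ih _

private theorem expect_add_vert {M : Type} [AddCommGroup M] [Fintype M] (f : M → ℝ) (κ : M) :
    𝔼 γ, f (γ + κ) = 𝔼 γ, f γ :=
  Fintype.expect_equiv (Equiv.addRight κ) (fun γ => f (γ + κ)) f fun _ => rfl

private theorem expect_mul_vert (f : F → ℝ) {a : F} (ha : a ≠ 0) :
    𝔼 b, f (a * b) = 𝔼 b, f b :=
  Fintype.expect_equiv (Equiv.mulLeft₀ a ha) (fun b => f (a * b)) f fun _ => rfl

theorem vert {S : Sys F d} (A : Gen S → Equiv.Perm X) (l : S.L) (c : Fin (d + 1) → F)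
    (hc : Function.Injective c) (t : F) (ht : ∀ j, c j ≠ t) (Y : Finset X) :
    ∑ w ∈ Y, 𝔼 b : F,
      ind (¬ (pz (fun j => A (Sum.inl (S.lpt l (c j), lag c t j * b))) w ∈ Y ∧
        pz (fun j => A (Sum.inl (S.lpt l (c j), lag c t j * b))) w = A (Sum.inl (S.lpt l t, b)) w)) ≤
      ∑ j, ∑ w ∈ Y, cnL A l (c j) w + ∑ w ∈ Y, cnL A l t w +
      ∑ j, ∑ w ∈ Y, 𝔼 b : F, ind (A (Sum.inl (S.lpt l (c j), b)) w ∉ Y) := by
  -- the errors
  let f : F → F → (Fin (d + 1) → F) → X → ℝ := fun p b γ w =>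
    ind (A (Sum.inr (l, γ + b • evec F d p)) w ≠ A (Sum.inr (l, γ)) (A (Sum.inl (S.lpt l p, b)) w))
  have hcn : ∀ p w, cnL A l p w = 𝔼 b, 𝔼 γ, f p b γ w := fun _ _ => rfl
  let κ : F → Fin (d + 2) → Fin (d + 1) → F := fun b =>
    Fin.partialSum (fun i => (lag c t i * b) • evec F d (c i))
  have hκ0 : ∀ b, κ b 0 = 0 := fun b => Fin.partialSum_zero _
  have hκs : ∀ b (j : Fin (d + 1)), κ b j.succ = κ b j.castSucc + (lag c t j * b) • evec F d (c j) :=
    fun b j => Fin.partialSum_succ _ j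
  have hκl : ∀ b, κ b (Fin.last (d + 1)) = b • evec F d t := by
    intro b
    show Fin.partialSum _ _ = _
    rw [partialSum_last_vert, lag_sum hc t, Finset.smul_sum]
    refine Finset.sum_congr rfl fun j _ => ?_
    rw [smul_smul, mul_comm]
  -- one `b` and one `γ`
  have step : ∀ (b : F) (γ : Fin (d + 1) → F),
      ∑ w ∈ Y, ind (¬ (pz (fun j => A (Sum.inl (S.lpt l (c j), lag c t j * b))) w ∈ Y ∧
        pz (fun j => A (Sum.inl (S.lpt l (c j), lag c t j * b))) w =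
          A (Sum.inl (S.lpt l t, b)) w)) ≤
      ∑ j, ∑ w ∈ Y, f (c j) (lag c t j * b) (γ + κ b j.castSucc) w + ∑ w ∈ Y, f t b γ w +
      ∑ j, ∑ w ∈ Y, ind (A (Sum.inl (S.lpt l (c j), lag c t j * b)) w ∉ Y) := by
    intro b γ
    have h1 := chain (d + 1) (fun j => A (Sum.inl (S.lpt l (c j), lag c t j * b)))
      (fun j => A (Sum.inr (l, γ + κ b j))) Y
    have h2 : ∑ w ∈ Y, ind (¬ (pz (fun j => A (Sum.inl (S.lpt l (c j), lag c t j * b))) w ∈ Y ∧
        pz (fun j => A (Sum.inl (S.lpt l (c j), lag c t j * b))) w =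
          A (Sum.inl (S.lpt l t, b)) w)) ≤
        ∑ w ∈ Y, ind (¬ (pz (fun j => A (Sum.inl (S.lpt l (c j), lag c t j * b))) w ∈ Y ∧
          A (Sum.inr (l, γ + κ b (Fin.last (d + 1)))) w =
          A (Sum.inr (l, γ + κ b 0))
            (pz (fun j => A (Sum.inl (S.lpt l (c j), lag c t j * b))) w))) +
        ∑ w ∈ Y, f t b γ w := by
      rw [← Finset.sum_add_distrib]
      refine Finset.sum_le_sum fun w _ => ind_le_add fun hn => ?_
      by_contra hcon
      rw [not_or, not_not, not_not] at hcon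
      obtain ⟨⟨c1, c2⟩, c3⟩ := hcon
      apply hn
      refine ⟨c1, (A (Sum.inr (l, γ))).injective ?_⟩
      rw [hκl, hκ0, add_zero] at c2
      rw [← c2, ← c3]
    have h3 : ∑ j : Fin (d + 1), ∑ w ∈ Y, ind (A (Sum.inr (l, γ + κ b j.succ)) w ≠
        A (Sum.inr (l, γ + κ b j.castSucc)) (A (Sum.inl (S.lpt l (c j), lag c t j * b)) w)) =
        ∑ j, ∑ w ∈ Y, f (c j) (lag c t j * b) (γ + κ b j.castSucc) w := by
      refine Finset.sum_congr rfl fun j _ => Finset.sum_congr rfl fun w _ => ?_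
      rw [hκs b j, ← add_assoc]
    rw [h3] at h1
    linarith
  -- averages
  have hav : 𝔼 b : F, 𝔼 γ : Fin (d + 1) → F,
      ∑ w ∈ Y, ind (¬ (pz (fun j => A (Sum.inl (S.lpt l (c j), lag c t j * b))) w ∈ Y ∧
        pz (fun j => A (Sum.inl (S.lpt l (c j), lag c t j * b))) w =
          A (Sum.inl (S.lpt l t, b)) w)) ≤
      𝔼 b : F, 𝔼 γ : Fin (d + 1) → F,
      (∑ j, ∑ w ∈ Y, f (c j) (lag c t j * b) (γ + κ b j.castSucc) w + ∑ w ∈ Y, f t b γ w +
      ∑ j, ∑ w ∈ Y, ind (A (Sum.inl (S.lpt l (c j), lag c t j * b)) w ∉ Y)) :=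
    Finset.expect_le_expect fun b _ => Finset.expect_le_expect fun γ _ => step b γ
  have e1 : 𝔼 b : F, 𝔼 γ : Fin (d + 1) → F,
      ∑ w ∈ Y, ind (¬ (pz (fun j => A (Sum.inl (S.lpt l (c j), lag c t j * b))) w ∈ Y ∧
        pz (fun j => A (Sum.inl (S.lpt l (c j), lag c t j * b))) w =
          A (Sum.inl (S.lpt l t, b)) w)) =
      ∑ w ∈ Y, 𝔼 b : F,
        ind (¬ (pz (fun j => A (Sum.inl (S.lpt l (c j), lag c t j * b))) w ∈ Y ∧
        pz (fun j => A (Sum.inl (S.lpt l (c j), lag c t j * b))) w =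
          A (Sum.inl (S.lpt l t, b)) w)) := by
    rw [← Finset.expect_sum_comm]
    exact Finset.expect_congr rfl fun b _ => Fintype.expect_const _
  have e2 : 𝔼 b : F, 𝔼 γ : Fin (d + 1) → F,
      ∑ j, ∑ w ∈ Y, f (c j) (lag c t j * b) (γ + κ b j.castSucc) w =
      ∑ j, ∑ w ∈ Y, cnL A l (c j) w := by
    have h1 : ∀ b : F, 𝔼 γ : Fin (d + 1) → F,
        ∑ j, ∑ w ∈ Y, f (c j) (lag c t j * b) (γ + κ b j.castSucc) w =
        ∑ j, ∑ w ∈ Y, 𝔼 γ : Fin (d + 1) → F, f (c j) (lag c t j * b) γ w := by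
      intro b
      rw [Finset.expect_sum_comm]
      refine Finset.sum_congr rfl fun j _ => ?_
      rw [Finset.expect_sum_comm]
      refine Finset.sum_congr rfl fun w _ => ?_
      exact expect_add_vert (fun γ => f (c j) (lag c t j * b) γ w) (κ b j.castSucc)
    rw [Finset.expect_congr rfl fun b _ => h1 b, Finset.expect_sum_comm]
    refine Finset.sum_congr rfl fun j _ => ?_
    rw [Finset.expect_sum_comm]
    refine Finset.sum_congr rfl fun w _ => ?_
    rw [hcn]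
    exact expect_mul_vert (fun b => 𝔼 γ : Fin (d + 1) → F, f (c j) b γ w) (lag_ne hc ht j)
  have e3 : 𝔼 b : F, 𝔼 γ : Fin (d + 1) → F, ∑ w ∈ Y, f t b γ w = ∑ w ∈ Y, cnL A l t w := by
    rw [Finset.expect_congr rfl fun b _ => Finset.expect_sum_comm Finset.univ Y fun γ w => f t b γ w,
      Finset.expect_sum_comm]
    exact Finset.sum_congr rfl fun w _ => (hcn t w).symm
  have e4 : 𝔼 b : F, 𝔼 γ : Fin (d + 1) → F,
      ∑ j, ∑ w ∈ Y, ind (A (Sum.inl (S.lpt l (c j), lag c t j * b)) w ∉ Y) =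
      ∑ j, ∑ w ∈ Y, 𝔼 b : F, ind (A (Sum.inl (S.lpt l (c j), b)) w ∉ Y) := by
    rw [Finset.expect_congr rfl fun b _ => Fintype.expect_const _, Finset.expect_sum_comm]
    refine Finset.sum_congr rfl fun j _ => ?_
    rw [Finset.expect_sum_comm]
    refine Finset.sum_congr rfl fun w _ => ?_
    exact expect_mul_vert (fun b => ind (A (Sum.inl (S.lpt l (c j), b)) w ∉ Y)) (lag_ne hc ht j)
  have e5 : 𝔼 b : F, 𝔼 γ : Fin (d + 1) → F,
      (∑ j, ∑ w ∈ Y, f (c j) (lag c t j * b) (γ + κ b j.castSucc) w + ∑ w ∈ Y, f t b γ w +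
      ∑ j, ∑ w ∈ Y, ind (A (Sum.inl (S.lpt l (c j), lag c t j * b)) w ∉ Y)) =
      𝔼 b : F, 𝔼 γ : Fin (d + 1) → F,
        ∑ j, ∑ w ∈ Y, f (c j) (lag c t j * b) (γ + κ b j.castSucc) w +
      𝔼 b : F, 𝔼 γ : Fin (d + 1) → F, ∑ w ∈ Y, f t b γ w +
      𝔼 b : F, 𝔼 γ : Fin (d + 1) → F,
        ∑ j, ∑ w ∈ Y, ind (A (Sum.inl (S.lpt l (c j), lag c t j * b)) w ∉ Y) := by
    rw [← Finset.expect_add_distrib, ← Finset.expect_add_distrib]
    refine Finset.expect_congr rfl fun b _ => ?_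
    rw [← Finset.expect_add_distrib, ← Finset.expect_add_distrib]
  rw [e1, e5, e2, e3, e4] at hav
  exact hav

end Pool.Agent.Lib_MP_3a79a1_b
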