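import Pool.Agent.Lib_MP_3a79a1_b.RegA
import Pool.Agent.Lib_MP_3a79a1_b.Vert
import Pool.Agent.Lib_MP_3a79a1_b.Beta

/-!
# [RM-RB] Energy of the composed partial function on a region

`β j γ x = secAt (slice c_j) x γ`.  `fReg` is `v ↦ cmp Y (d+1) β (PhiE⁻¹ v) x`.

`reg_energy`.  `𝔼 v` becomes `𝔼 γ : Fin (d+1) → V` via `v = PhiE c hc γ` (a bijection), and
`𝔼 s' : (U × F) × F = 𝔼 t, 𝔼 (u,b)` with `s' = ((u,t),b)`.
`hatS (next S) ((u,t),b) = b • ten d t (pt u) = ten d t (b • pt u) = PhiE (fun j => lag c t j • b • pt u)`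
(`ten_eq_Phi`), so `fReg x (v + hat s') = cmp (γ + h) x`, `h j (u,b) = hatS S (u, lag c t j * b)`.
Fix `t`.  Let `Ω = S.U × F`, `ζ j (u,b) = if lag c t j = 0 then 1 else A (inl ((u, c j), lag c t j * b))`
`= if lag c t j = 0 then 1 else ptA (slice A (c j)) (u, lag c t j * b)`,
`T = S.U × F`, `τ j = ptA (slice A (c j))`.  Apply `multi` with
* `hinj` = `secAt_inj`;
* `a j = ∑ z ∈ Y eX_j z`: if `lag ≠ 0` and the event occurs then `¬ OK (secAt z) 0 (u, lag * b)`
  (`secAt_shift`); `b ↦ lag * b` is a bijection of `F`; if `lag = 0`, `h = 0` and `ζ = 1`: no error;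
* `K j = 4 ∑ eX_j + 4 ∂_j` with `∂_j = ∑ x ∈ Y 𝔼 s ind (ptA (slice A (c j)) s x ∉ Y)`, by `leave2`
  (`cmS` is the right expression by definition);
* `C j k = ∑ x ∈ Y 𝔼 s 𝔼 t ind (τ j t (τ k s x) ≠ τ k s (τ j t x))` (substitution again; `ζ = 1`
  gives `0`), `p k = ∂_k`.
So outside an event of total weight `5 ∑ j ∑ eX_j + (4 + 3(d+1)) ∑ j ∂_j + 3 ∑∑ C` there is `w ∈ Y` with
`cmp γ x = some w`, `cmp (γ + h) x = some (pz ζ w)`.  If in addition `pz ζ w = A (inl ((u,t),b)) w`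
then `OK (fReg x) v s'`.  The latter: `x ↦ w` is injective (`cmp_inj`), values in `Y`, so the sum over
`x` of the failures is `≤ ∑ w ∈ Y ind (pz ζ w ≠ A (inl ((u,t),b)) w)`.
If `t = c k`: `lag c t j = if j = k then 1 else 0` (`lag_self`), so `pz ζ = ζ k = A (inl ((u,t),b))`
exactly (a product of ones except for the factor `k`): no failure.
If `t` is not a node: all `lag c t j ≠ 0` (`lag_ne`); `vert` for the system `next S`, the line
`inr u`, `(next S).lpt (inr u) t = (u,t)`: the sum over `w ∈ Y` of the average over `b` is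
`≤ ∑ j ∑ w cnL A (inr u) (c j) w + ∑ w cnL A (inr u) t w + ∑ j ∑ w 𝔼 b ind (A (inl ((u,c j),b)) w ∉ Y)`;
average over `u`: the last term is `∑ j ∂_j`.  Average over `t`.
-/

set_option linter.unusedSectionVars false

namespace Pool.Agent.Lib_MP_3a79a1_b

open Finset
open scoped BigOperators

variable {F : Type} [Field F] [Fintype F] [DecidableEq F] {d : ℕ}

variable {X : Type} [Fintype X]

/-- the composed partial function of a region -/
noncomputable def fReg {S : Sys F d} (A : Gen (next S) → Equiv.Perm X) (e1 : ℝ)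
    (c : Fin (d + 1) → F) (hc : Function.Injective c) (Y : Finset X) (x : X) :
    (next S).V → Option X :=
  fun v => cmp Y (d + 1)
    (fun j γ x => secAt (hatS S) (ptA (slice A (c j))) e1 x γ) ((PhiE c hc).symm v) x

/-! ### auxiliary facts -/

private theorem expect_prod_regb {ι κ : Type} [Fintype ι] [Fintype κ] (f : ι × κ → ℝ) :
    𝔼 p, f p = 𝔼 a, 𝔼 b, f (a, b) := by
  rw [← Finset.univ_product_univ, Finset.expect_product]

private theorem subst_regb {U : Type} [Fintype U] {r : F} (hr : r ≠ 0) (f : U × F → ℝ) :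
    𝔼 p : U × F, f (p.1, r * p.2) = 𝔼 p : U × F, f p :=
  Fintype.expect_equiv ((Equiv.refl U).prodCongr (Equiv.mulLeft₀ r hr)) _ _ (fun _ => rfl)

private theorem pz_ones_regb : ∀ {n : ℕ} (ζ : Fin n → Equiv.Perm X), (∀ j, ζ j = 1) → pz ζ = 1
  | 0, ζ, _ => pz_zero ζ
  | n + 1, ζ, h => by
    rw [pz_succ, h 0, pz_ones_regb (fun j => ζ j.succ) fun j => h j.succ, one_mul]

private theorem pz_single_regb : ∀ {n : ℕ} (ζ : Fin n → Equiv.Perm X) (k : Fin n),
    (∀ j, j ≠ k → ζ j = 1) → pz ζ = ζ k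
  | 0, _, k, _ => k.elim0
  | n + 1, ζ, k, h => by
    rw [pz_succ]
    refine Fin.cases (fun h => ?_) (fun i h => ?_) k h
    · rw [pz_ones_regb (fun j => ζ j.succ) fun j => h _ (Fin.succ_ne_zero j), mul_one]
    · rw [h 0 (Fin.succ_ne_zero i).symm, one_mul]
      exact pz_single_regb (fun j => ζ j.succ) i fun j hj => h _ fun e => hj (Fin.succ_inj.1 e)

private theorem sum_ind_regb (Y : Finset X) (p : X → Prop) [DecidablePred p] :
    ∑ x ∈ Y, ind (p x) = ((Y.filter p).card : ℝ) := by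
  rw [Finset.card_filter, Nat.cast_sum]
  refine Finset.sum_congr rfl fun x _ => ?_
  by_cases h : p x
  · rw [ind_true h, if_pos h, Nat.cast_one]
  · rw [ind_false h, if_neg h, Nat.cast_zero]

private theorem inj_sum_regb (Y : Finset X) (f : X → Option X)
    (hinj : ∀ x1 x2 v, x1 ∈ Y → x2 ∈ Y → f x1 = some v → f x2 = some v → x1 = x2) (Q : X → Prop) :
    ∑ x ∈ Y, ind (∃ w ∈ Y, f x = some w ∧ Q w) ≤ ∑ w ∈ Y, ind (Q w) := by
  classical
  rw [sum_ind_regb, sum_ind_regb]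
  refine Nat.cast_le.2 (Finset.card_le_card_of_injOn (fun x => (f x).getD x) ?_ ?_)
  · intro x hx
    obtain ⟨hx1, w, hw, hfw, hQ⟩ := Finset.mem_filter.1 hx
    show (f x).getD x ∈ _
    rw [hfw]
    exact Finset.mem_filter.2 ⟨hw, hQ⟩
  · intro x hx x' hx' he
    obtain ⟨hx1, w, hw, hfw, hQ⟩ := Finset.mem_filter.1 hx
    obtain ⟨hx1', w', hw', hfw', hQ'⟩ := Finset.mem_filter.1 hx'
    have he' : w = w' := by
      have h1 : (f x).getD x = (f x').getD x' := he
      rw [hfw, hfw'] at h1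
      exact h1
    subst he'
    exact hinj x x' w hx1 hx1' hfw hfw'

/-! ### the shifts and permutations attached to coefficients `l` -/

/-- the factor `j` of a point generator with coefficients `l` -/
private noncomputable def zet {S : Sys F d} (A : Gen (next S) → Equiv.Perm X) (c : Fin (d + 1) → F)
    (l : Fin (d + 1) → F) (j : Fin (d + 1)) (ω : S.U × F) : Equiv.Perm X :=
  if l j = 0 then 1 else ptA (slice A (c j)) (ω.1, l j * ω.2)

/-- the partial maps of a region -/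
private noncomputable def bet {S : Sys F d} (A : Gen (next S) → Equiv.Perm X) (e1 : ℝ)
    (c : Fin (d + 1) → F) (j : Fin (d + 1)) (γ : S.V) (x : X) : Option X :=
  secAt (hatS S) (ptA (slice A (c j))) e1 x γ

private theorem bet_inj {S : Sys F d} (A : Gen (next S) → Equiv.Perm X) (e1 : ℝ)
    (c : Fin (d + 1) → F) (Y : Finset X)
    (hY : ∀ x ∈ Y, ∀ j, x ∈ GG (hatS S) (ptA (slice A (c j))) e1) :
    ∀ j γ x1 x2 v, x1 ∈ Y → x2 ∈ Y → bet A e1 c j γ x1 = some v → bet A e1 c j γ x2 = some v →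
      x1 = x2 :=
  fun j _ x1 x2 _ h1 h2 h h' => secAt_inj (hY x1 h1 j) (hY x2 h2 j) h h'

private theorem ha_regb {S : Sys F d} (A : Gen (next S) → Equiv.Perm X) (e1 : ℝ)
    (c : Fin (d + 1) → F) (Y : Finset X)
    (hY : ∀ x ∈ Y, ∀ j, x ∈ GG (hatS S) (ptA (slice A (c j))) e1) (l : Fin (d + 1) → F)
    (j : Fin (d + 1)) :
    ∑ z ∈ Y, 𝔼 ω : S.U × F, ind (¬ ∀ γ, bet A e1 c j (γ + hatS S (ω.1, l j * ω.2)) z =
        bet A e1 c j γ (zet A c l j ω z)) ≤
      ∑ z ∈ Y, eX (hatS S) (ptA (slice A (c j))) e1 z := by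
  refine Finset.sum_le_sum fun z hz => ?_
  by_cases hl : l j = 0
  · have h0 : 𝔼 ω : S.U × F, ind (¬ ∀ γ, bet A e1 c j (γ + hatS S (ω.1, l j * ω.2)) z =
        bet A e1 c j γ (zet A c l j ω z)) = 0 := by
      refine Finset.expect_eq_zero fun ω _ => ind_false ?_
      rw [not_not]
      intro γ
      have h1 : hatS S (ω.1, l j * ω.2) = 0 := by
        unfold hatS
        rw [hl, zero_mul, zero_smul]
      have h2 : zet A c l j ω = 1 := by
        unfold zet
        rw [if_pos hl]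
      rw [h1, h2, add_zero]
      rfl
    rw [h0]
    exact Finset.expect_nonneg fun s _ => ind_nonneg _
  · have h1 : 𝔼 ω : S.U × F, ind (¬ ∀ γ, bet A e1 c j (γ + hatS S (ω.1, l j * ω.2)) z =
        bet A e1 c j γ (zet A c l j ω z)) ≤
        𝔼 ω : S.U × F, ind (¬ OK (hatS S) (ptA (slice A (c j)))
          (secAt (hatS S) (ptA (slice A (c j))) e1 z) 0 (ω.1, l j * ω.2)) := by
      refine Finset.expect_le_expect fun ω _ => ind_mono fun h hOK => h fun γ => ?_
      have h2 : zet A c l j ω = ptA (slice A (c j)) (ω.1, l j * ω.2) := by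
        unfold zet
        rw [if_neg hl]
      rw [h2]
      exact secAt_shift (hY z hz j) hOK γ
    refine h1.trans (le_of_eq ?_)
    exact subst_regb hl (fun ω => ind (¬ OK (hatS S) (ptA (slice A (c j)))
          (secAt (hatS S) (ptA (slice A (c j))) e1 z) 0 ω))

private theorem hC_regb {S : Sys F d} (A : Gen (next S) → Equiv.Perm X)
    (c : Fin (d + 1) → F) (Y : Finset X) (l : Fin (d + 1) → F) (j k : Fin (d + 1)) :
    ∑ x ∈ Y, 𝔼 ω : S.U × F, 𝔼 t : S.U × F, ind (ptA (slice A (c j)) t (zet A c l k ω x) ≠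
        zet A c l k ω (ptA (slice A (c j)) t x)) ≤
      ∑ x ∈ Y, 𝔼 s : S.U × F, 𝔼 t : S.U × F, ind (ptA (slice A (c j)) t (ptA (slice A (c k)) s x) ≠
          ptA (slice A (c k)) s (ptA (slice A (c j)) t x)) := by
  refine Finset.sum_le_sum fun z hz => ?_
  by_cases hl : l k = 0
  · have h0 : 𝔼 ω : S.U × F, 𝔼 t : S.U × F, ind (ptA (slice A (c j)) t (zet A c l k ω z) ≠
        zet A c l k ω (ptA (slice A (c j)) t z)) = 0 := by
      refine Finset.expect_eq_zero fun ω _ => Finset.expect_eq_zero fun t _ => ind_false ?_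
      have h2 : zet A c l k ω = 1 := by
        unfold zet
        rw [if_pos hl]
      rw [h2, not_not]
      rfl
    rw [h0]
    exact Finset.expect_nonneg fun s _ => Finset.expect_nonneg fun t _ => ind_nonneg _
  · have h2 : ∀ ω, zet A c l k ω = ptA (slice A (c k)) (ω.1, l k * ω.2) := by
      intro ω
      unfold zet
      rw [if_neg hl]
    simp only [h2]
    refine le_of_eq ?_
    exact subst_regb hl (fun s : S.U × F => 𝔼 t : S.U × F,
      ind (ptA (slice A (c j)) t (ptA (slice A (c k)) s z) ≠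
          ptA (slice A (c k)) s (ptA (slice A (c j)) t z)))

private theorem hp_regb {S : Sys F d} (A : Gen (next S) → Equiv.Perm X)
    (c : Fin (d + 1) → F) (Y : Finset X) (l : Fin (d + 1) → F) (k : Fin (d + 1)) :
    ∑ x ∈ Y, 𝔼 ω : S.U × F, ind (zet A c l k ω x ∉ Y) ≤
      ∑ x ∈ Y, 𝔼 s : S.U × F, ind (ptA (slice A (c k)) s x ∉ Y) := by
  refine Finset.sum_le_sum fun z hz => ?_
  by_cases hl : l k = 0
  · have h0 : 𝔼 ω : S.U × F, ind (zet A c l k ω z ∉ Y) = 0 := by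
      refine Finset.expect_eq_zero fun ω _ => ind_false ?_
      have h2 : zet A c l k ω = 1 := by
        unfold zet
        rw [if_pos hl]
      rw [h2, not_not]
      exact hz
    rw [h0]
    exact Finset.expect_nonneg fun s _ => ind_nonneg _
  · have h2 : ∀ ω, zet A c l k ω = ptA (slice A (c k)) (ω.1, l k * ω.2) := by
      intro ω
      unfold zet
      rw [if_neg hl]
    simp only [h2]
    refine le_of_eq ?_
    exact subst_regb hl (fun s : S.U × F => ind (ptA (slice A (c k)) s z ∉ Y))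

/-- `multi` for the region -/
private theorem multi_regb {S : Sys F d} (hm : Mix (hatS S)) (A : Gen (next S) → Equiv.Perm X)
    (e1 : ℝ) (c : Fin (d + 1) → F) (Y : Finset X)
    (hY : ∀ x ∈ Y, ∀ j, x ∈ GG (hatS S) (ptA (slice A (c j))) e1) (l : Fin (d + 1) → F) :
    ∑ x ∈ Y, 𝔼 ω : S.U × F, 𝔼 γ : Fin (d + 1) → S.V, ind (¬ ∃ w ∈ Y,
        cmp Y (d + 1) (bet A e1 c) γ x = some w ∧ pz (fun j => zet A c l j ω) w ∈ Y ∧
        cmp Y (d + 1) (bet A e1 c) (γ + fun j => hatS S (ω.1, l j * ω.2)) x =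
          some (pz (fun j => zet A c l j ω) w)) ≤
      5 * ∑ j, ∑ x ∈ Y, eX (hatS S) (ptA (slice A (c j))) e1 x +
      (3 * (d + 1) + 4) * ∑ j, ∑ x ∈ Y, 𝔼 s : S.U × F, ind (ptA (slice A (c j)) s x ∉ Y) +
      3 * ∑ j, ∑ k, ∑ x ∈ Y, 𝔼 s : S.U × F, 𝔼 t : S.U × F,
        ind (ptA (slice A (c j)) t (ptA (slice A (c k)) s x) ≠
          ptA (slice A (c k)) s (ptA (slice A (c j)) t x)) := by
  have key := multi (Ω := S.U × F) (T := S.U × F) Y (d + 1) (bet A e1 c) (bet_inj A e1 c Y hY)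
    (fun j ω => zet A c l j ω) (fun j ω => hatS S (ω.1, l j * ω.2))
    (fun j => ptA (slice A (c j)))
    (fun j => ∑ x ∈ Y, eX (hatS S) (ptA (slice A (c j))) e1 x)
    (fun j => 4 * ∑ x ∈ Y, eX (hatS S) (ptA (slice A (c j))) e1 x +
      4 * ∑ x ∈ Y, 𝔼 s : S.U × F, ind (ptA (slice A (c j)) s x ∉ Y))
    (fun k => ∑ x ∈ Y, 𝔼 s : S.U × F, ind (ptA (slice A (c k)) s x ∉ Y))
    (fun j k => ∑ x ∈ Y, 𝔼 s : S.U × F, 𝔼 t : S.U × F,
        ind (ptA (slice A (c j)) t (ptA (slice A (c k)) s x) ≠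
          ptA (slice A (c k)) s (ptA (slice A (c j)) t x)))
    (ha_regb A e1 c Y hY l)
    (fun j ζ' => by
      have h := leave2 hm e1 Y (fun x hx => hY x hx j) ζ'
      unfold cmS at h
      refine h.trans (le_of_eq ?_)
      ring)
    (hC_regb A c Y l)
    (hp_regb A c Y l)
  refine key.trans (le_of_eq ?_)
  rw [Finset.sum_add_distrib, ← Finset.mul_sum, ← Finset.mul_sum]
  push_cast
  ring

/-- the vertical error for a fixed parameter -/
private theorem vert_regb {S : Sys F d} (A : Gen (next S) → Equiv.Perm X)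
    (c : Fin (d + 1) → F) (hc : Function.Injective c) (Y : Finset X) (t : F) :
    ∑ w ∈ Y, 𝔼 ω : S.U × F, ind (pz (fun j => zet A c (lag c t) j ω) w ≠
        A (Sum.inl ((ω.1, t), ω.2)) w) ≤
      ∑ j, ∑ x ∈ Y, 𝔼 u : S.U, cnL A (Sum.inr u) (c j) x +
      ∑ x ∈ Y, 𝔼 u : S.U, cnL A (Sum.inr u) t x +
      ∑ j, ∑ x ∈ Y, 𝔼 s : S.U × F, ind (ptA (slice A (c j)) s x ∉ Y) := by
  have hcn : ∀ (u : S.U) (t : F) (x : X), 0 ≤ cnL A (Sum.inr u) t x := fun u t x =>
    Finset.expect_nonneg fun b _ => Finset.expect_nonneg fun γ _ => ind_nonneg _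
  by_cases ht : ∃ k, c k = t
  · obtain ⟨k, rfl⟩ := ht
    have h0 : ∑ w ∈ Y, 𝔼 ω : S.U × F, ind (pz (fun j => zet A c (lag c (c k)) j ω) w ≠
        A (Sum.inl ((ω.1, c k), ω.2)) w) = 0 := by
      refine Finset.sum_eq_zero fun w _ => Finset.expect_eq_zero fun ω _ => ind_false ?_
      rw [not_not]
      have h1 : pz (fun j => zet A c (lag c (c k)) j ω) = zet A c (lag c (c k)) k ω := by
        refine pz_single_regb _ k fun j hj => ?_
        unfold zet
        rw [lag_self hc k j, if_neg hj, if_pos rfl]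
      rw [h1]
      unfold zet
      rw [lag_self hc k k, if_pos rfl, if_neg one_ne_zero, one_mul]
      rfl
    rw [h0]
    refine add_nonneg (add_nonneg ?_ ?_) ?_
    · exact Finset.sum_nonneg fun j _ => Finset.sum_nonneg fun x _ =>
        Finset.expect_nonneg fun u _ => hcn u _ x
    · exact Finset.sum_nonneg fun x _ => Finset.expect_nonneg fun u _ => hcn u _ x
    · exact Finset.sum_nonneg fun j _ => Finset.sum_nonneg fun x _ =>
        Finset.expect_nonneg fun u _ => ind_nonneg _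
  · have ht' : ∀ j, c j ≠ t := fun j h => ht ⟨j, h⟩
    have hz : ∀ (u : S.U) (b : F), (fun j => zet A c (lag c t) j (u, b)) =
        fun j => A (Sum.inl ((next S).lpt (Sum.inr u) (c j), lag c t j * b)) := by
      intro u b
      funext j
      unfold zet
      rw [if_neg (lag_ne hc ht' j)]
      rfl
    have h1 : ∑ w ∈ Y, 𝔼 ω : S.U × F, ind (pz (fun j => zet A c (lag c t) j ω) w ≠
        A (Sum.inl ((ω.1, t), ω.2)) w) =
        𝔼 u : S.U, ∑ w ∈ Y, 𝔼 b : F, ind (pz (fun j => zet A c (lag c t) j (u, b)) w ≠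
        A (Sum.inl ((u, t), b)) w) := by
      rw [Finset.expect_sum_comm]
      refine Finset.sum_congr rfl fun w _ => ?_
      exact expect_prod_regb (fun ω : S.U × F => ind (pz (fun j => zet A c (lag c t) j ω) w ≠
        A (Sum.inl ((ω.1, t), ω.2)) w))
    have h2 : ∀ u : S.U, ∑ w ∈ Y, 𝔼 b : F, ind (pz (fun j => zet A c (lag c t) j (u, b)) w ≠
        A (Sum.inl ((u, t), b)) w) ≤
        ∑ j, ∑ w ∈ Y, cnL A (Sum.inr u) (c j) w + ∑ w ∈ Y, cnL A (Sum.inr u) t w +
        ∑ j, ∑ w ∈ Y, 𝔼 b : F, ind (ptA (slice A (c j)) (u, b) w ∉ Y) := by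
      intro u
      refine le_trans ?_ (vert (S := next S) A (Sum.inr u) c hc t ht' Y)
      refine Finset.sum_le_sum fun w _ => Finset.expect_le_expect fun b _ => ind_mono fun h h' => h ?_
      rw [hz u b]
      exact h'.2
    rw [h1]
    refine (Finset.expect_le_expect fun u _ => h2 u).trans (le_of_eq ?_)
    rw [Finset.expect_add_distrib, Finset.expect_add_distrib, Finset.expect_sum_comm,
      Finset.expect_sum_comm, Finset.expect_sum_comm]
    congr 1
    · congr 1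
      exact Finset.sum_congr rfl fun j _ => Finset.expect_sum_comm _ _ _
    · refine Finset.sum_congr rfl fun j _ => ?_
      rw [Finset.expect_sum_comm]
      refine Finset.sum_congr rfl fun x _ => ?_
      exact (expect_prod_regb (fun s : S.U × F => ind (ptA (slice A (c j)) s x ∉ Y))).symm

/-- pointwise: transport by the composed maps and the vertical identity give `OK` -/
private theorem point_regb {S : Sys F d} (A : Gen (next S) → Equiv.Perm X) (e1 : ℝ)
    (c : Fin (d + 1) → F) (hc : Function.Injective c) (Y : Finset X) (x : X)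
    (γ : Fin (d + 1) → S.V) (u : S.U) (t b : F) :
    ind (¬ OK (hatS (next S)) (ptA A) (fReg A e1 c hc Y x) (PhiE c hc γ) ((u, t), b)) ≤
      ind (¬ ∃ w ∈ Y,
        cmp Y (d + 1) (bet A e1 c) γ x = some w ∧ pz (fun j => zet A c (lag c t) j (u, b)) w ∈ Y ∧
        cmp Y (d + 1) (bet A e1 c) (γ + fun j => hatS S (u, lag c t j * b)) x =
          some (pz (fun j => zet A c (lag c t) j (u, b)) w)) +
      ind (∃ w ∈ Y, cmp Y (d + 1) (bet A e1 c) γ x = some w ∧
        pz (fun j => zet A c (lag c t) j (u, b)) w ≠ A (Sum.inl ((u, t), b)) w) := by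
  refine ind_le_add fun h => ?_
  by_contra hcon
  rw [not_or, not_not] at hcon
  obtain ⟨⟨w, hw, h1, h2, h3⟩, h4⟩ := hcon
  have h5 : pz (fun j => zet A c (lag c t) j (u, b)) w = A (Sum.inl ((u, t), b)) w := by
    by_contra h6
    exact h4 ⟨w, hw, h1, h6⟩
  refine h ⟨w, ?_, ?_⟩
  · show cmp Y (d + 1) (bet A e1 c) ((PhiE c hc).symm (PhiE c hc γ)) x = some w
    rw [AddEquiv.symm_apply_apply]
    exact h1
  · show cmp Y (d + 1) (bet A e1 c)
      ((PhiE c hc).symm (PhiE c hc γ + fun k : Fin (d + 1) => b • (t ^ (k : ℕ) • S.pt u))) x =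
        some (A (Sum.inl ((u, t), b)) w)
    have h7 : (fun k : Fin (d + 1) => b • (t ^ (k : ℕ) • S.pt u)) =
        PhiE c hc (fun j => hatS S (u, lag c t j * b)) := by
      have h8 : (fun k : Fin (d + 1) => b • (t ^ (k : ℕ) • S.pt u)) = ten d t (b • S.pt u) := by
        funext k
        show b • (t ^ (k : ℕ) • S.pt u) = t ^ (k : ℕ) • (b • S.pt u)
        rw [smul_comm]
      rw [h8, ten_eq_Phi c hc t (b • S.pt u)]
      congr 1
      funext j
      show lag c t j • (b • S.pt u) = (lag c t j * b) • S.pt u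
      rw [smul_smul]
    rw [h7, ← map_add, AddEquiv.symm_apply_apply, h3, h5]

theorem reg_energy {S : Sys F d} (hm : Mix (hatS S)) (A : Gen (next S) → Equiv.Perm X) (e1 : ℝ)
    (c : Fin (d + 1) → F) (hc : Function.Injective c) (Y : Finset X)
    (hY : ∀ x ∈ Y, ∀ j, x ∈ GG (hatS S) (ptA (slice A (c j))) e1) :
    ∑ x ∈ Y, En (hatS (next S)) (ptA A) (fReg A e1 c hc Y x) ≤
      5 * ∑ j, ∑ x ∈ Y, eX (hatS S) (ptA (slice A (c j))) e1 x +
      (3 * (d + 1) + 5) * ∑ j, ∑ x ∈ Y, 𝔼 s : S.U × F, ind (ptA (slice A (c j)) s x ∉ Y) +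
      3 * ∑ j, ∑ k, ∑ x ∈ Y, 𝔼 s : S.U × F, 𝔼 t : S.U × F,
        ind (ptA (slice A (c j)) t (ptA (slice A (c k)) s x) ≠
          ptA (slice A (c k)) s (ptA (slice A (c j)) t x)) +
      ∑ j, ∑ x ∈ Y, 𝔼 u : S.U, cnL A (Sum.inr u) (c j) x +
      ∑ x ∈ Y, 𝔼 t : F, 𝔼 u : S.U, cnL A (Sum.inr u) t x := by
  -- change of variables
  have hEn : ∀ x, En (hatS (next S)) (ptA A) (fReg A e1 c hc Y x) =
      𝔼 t : F, 𝔼 ω : S.U × F, 𝔼 γ : Fin (d + 1) → S.V,
        ind (¬ OK (hatS (next S)) (ptA A) (fReg A e1 c hc Y x) (PhiE c hc γ) ((ω.1, t), ω.2)) := by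
    intro x
    have e1' : En (hatS (next S)) (ptA A) (fReg A e1 c hc Y x) =
        𝔼 γ : Fin (d + 1) → S.V, 𝔼 s' : (S.U × F) × F,
          ind (¬ OK (hatS (next S)) (ptA A) (fReg A e1 c hc Y x) (PhiE c hc γ) s') :=
      (Fintype.expect_equiv (PhiE (V := S.V) c hc).toEquiv _ _ (fun _ => rfl)).symm
    rw [e1', Finset.expect_comm]
    have e2' : ∀ G : (S.U × F) × F → ℝ, 𝔼 s' : (S.U × F) × F, G s' =
        𝔼 t : F, 𝔼 ω : S.U × F, G ((ω.1, t), ω.2) := by
      intro G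
      rw [expect_prod_regb G]
      have e3 : 𝔼 a : S.U × F, 𝔼 b : F, G (a, b) = 𝔼 u : S.U, 𝔼 t : F, 𝔼 b : F, G ((u, t), b) :=
        expect_prod_regb (fun a : S.U × F => 𝔼 b : F, G (a, b))
      rw [e3, Finset.expect_comm]
      refine Finset.expect_congr rfl fun t _ => ?_
      exact (expect_prod_regb (fun ω : S.U × F => G ((ω.1, t), ω.2))).symm
    exact e2' (fun s' => 𝔼 γ : Fin (d + 1) → S.V,
      ind (¬ OK (hatS (next S)) (ptA A) (fReg A e1 c hc Y x) (PhiE c hc γ) s'))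
  -- the bound for a fixed parameter
  have hfix : ∀ t : F, ∑ x ∈ Y, 𝔼 ω : S.U × F, 𝔼 γ : Fin (d + 1) → S.V,
        ind (¬ OK (hatS (next S)) (ptA A) (fReg A e1 c hc Y x) (PhiE c hc γ) ((ω.1, t), ω.2)) ≤
      5 * ∑ j, ∑ x ∈ Y, eX (hatS S) (ptA (slice A (c j))) e1 x +
      (3 * (d + 1) + 5) * ∑ j, ∑ x ∈ Y, 𝔼 s : S.U × F, ind (ptA (slice A (c j)) s x ∉ Y) +
      3 * ∑ j, ∑ k, ∑ x ∈ Y, 𝔼 s : S.U × F, 𝔼 t : S.U × F,
        ind (ptA (slice A (c j)) t (ptA (slice A (c k)) s x) ≠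
          ptA (slice A (c k)) s (ptA (slice A (c j)) t x)) +
      ∑ j, ∑ x ∈ Y, 𝔼 u : S.U, cnL A (Sum.inr u) (c j) x +
      ∑ x ∈ Y, 𝔼 u : S.U, cnL A (Sum.inr u) t x := by
    intro t
    have hM := multi_regb hm A e1 c Y hY (lag c t)
    have hV := vert_regb A c hc Y t
    have hI : ∑ x ∈ Y, 𝔼 ω : S.U × F, 𝔼 γ : Fin (d + 1) → S.V,
        ind (∃ w ∈ Y, cmp Y (d + 1) (bet A e1 c) γ x = some w ∧
          pz (fun j => zet A c (lag c t) j ω) w ≠ A (Sum.inl ((ω.1, t), ω.2)) w) ≤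
        ∑ w ∈ Y, 𝔼 ω : S.U × F, ind (pz (fun j => zet A c (lag c t) j ω) w ≠
          A (Sum.inl ((ω.1, t), ω.2)) w) := by
      rw [← Finset.expect_sum_comm, ← Finset.expect_sum_comm]
      refine Finset.expect_le_expect fun ω _ => ?_
      rw [← Finset.expect_sum_comm]
      refine Finset.expect_le Finset.univ_nonempty fun γ _ => ?_
      exact inj_sum_regb Y (cmp Y (d + 1) (bet A e1 c) γ)
        (fun x1 x2 v h1 h2 h h' => cmp_inj Y (d + 1) (bet A e1 c) (bet_inj A e1 c Y hY) γ h1 h2 h h')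
        _
    have hP : ∑ x ∈ Y, 𝔼 ω : S.U × F, 𝔼 γ : Fin (d + 1) → S.V,
        ind (¬ OK (hatS (next S)) (ptA A) (fReg A e1 c hc Y x) (PhiE c hc γ) ((ω.1, t), ω.2)) ≤
        ∑ x ∈ Y, 𝔼 ω : S.U × F, 𝔼 γ : Fin (d + 1) → S.V, ind (¬ ∃ w ∈ Y,
          cmp Y (d + 1) (bet A e1 c) γ x = some w ∧ pz (fun j => zet A c (lag c t) j ω) w ∈ Y ∧
          cmp Y (d + 1) (bet A e1 c) (γ + fun j => hatS S (ω.1, lag c t j * ω.2)) x =
            some (pz (fun j => zet A c (lag c t) j ω) w)) +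
        ∑ x ∈ Y, 𝔼 ω : S.U × F, 𝔼 γ : Fin (d + 1) → S.V,
          ind (∃ w ∈ Y, cmp Y (d + 1) (bet A e1 c) γ x = some w ∧
          pz (fun j => zet A c (lag c t) j ω) w ≠ A (Sum.inl ((ω.1, t), ω.2)) w) := by
      rw [← Finset.sum_add_distrib]
      refine Finset.sum_le_sum fun x _ => ?_
      rw [← Finset.expect_add_distrib]
      refine Finset.expect_le_expect fun ω _ => ?_
      rw [← Finset.expect_add_distrib]
      refine Finset.expect_le_expect fun γ _ => ?_
      exact point_regb A e1 c hc Y x γ ω.1 t ω.2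
    linarith
  -- average over the parameter
  have hsum : ∑ x ∈ Y, En (hatS (next S)) (ptA A) (fReg A e1 c hc Y x) =
      𝔼 t : F, ∑ x ∈ Y, 𝔼 ω : S.U × F, 𝔼 γ : Fin (d + 1) → S.V,
        ind (¬ OK (hatS (next S)) (ptA A) (fReg A e1 c hc Y x) (PhiE c hc γ) ((ω.1, t), ω.2)) := by
    rw [Finset.expect_sum_comm]
    exact Finset.sum_congr rfl fun x _ => hEn x
  rw [hsum]
  refine (Finset.expect_le_expect fun t _ => hfix t).trans (le_of_eq ?_)
  rw [Finset.expect_add_distrib, Finset.expect_const Finset.univ_nonempty, Finset.expect_sum_comm]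

end Pool.Agent.Lib_MP_3a79a1_b
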