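import Pool.Agent.Lib_MP_3a79a1_b.MixCor

/-!
# [RM-SE1] Sections

Conventions: `D = dom y = {γ | y γ ≠ none}`; a section satisfies `Pr_s [OK y γ s] ≥ 99/100` at every
`γ ∈ D` and is nonempty.

* `mset_large` : if `D` is nonempty and `Pr_s [γ + hat s ∈ D] ≥ 1 - θ` for all `γ ∈ D` then
  `μ(D) ≥ 1 - θ - 1/10000`.  (By `mix_stay`: `(1-θ) μ ≤ (μ + 1/10000) μ`, `μ > 0`.)
* `miss_sec`: apply it to `D`, `θ = 1/100`.
* `sec_agree`: two sections `y, y'` which agree somewhere agree wherever both are defined.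
  Let `C = D ∩ D'`, `G = {γ ∈ C | y γ = y' γ}`, `B = {γ ∈ C | y γ ≠ y' γ}`.  For `γ ∈ G` (resp. `B`)
  and `s` with `OK y γ s`, `OK y' γ s` (probability `≥ 98/100`) we get `γ + hat s ∈ G` (resp. `B`,
  because `α s` is injective).  So by `mset_large` (`θ = 2/100`) each of `G`, `B`, if nonempty, has
  measure `≥ 0.97 > 1/2`; they are disjoint, so if `G` is nonempty then `B` is empty.
* `exists_max`: let `C(y)` be the set of sections agreeing somewhere with `y`.  Any two members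
  `y1, y2` agree somewhere: `y1 = y` on `D1 ∩ D`, `y2 = y` on `D2 ∩ D` by `sec_agree`, and
  `D ∩ D1 ∩ D2` is nonempty as each complement has measure `≤ 11/1000`.  Hence by `sec_agree` all
  members are compatible and their union `z` (`z γ = some x` iff some member has the value `x` at
  `γ`) is a partial function, is a section (if `y1 γ = some x` then `OK y1 γ s → OK z γ s`) and
  contains `y`.  It is maximal: if a section `y'` agrees somewhere with `z` then it agrees somewhere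
  with a member of `C(y)`, thus (triple intersection again) with `y`, so `y' ∈ C(y)`.
-/

set_option linter.unusedSectionVars false

namespace Pool.Agent.Lib_MP_3a79a1_b

open Finset
open scoped BigOperators

variable {V P X : Type} [AddCommGroup V] [Fintype V] [Fintype P] [Nonempty P] [Fintype X]
  {hat : P → V} {α : P → Equiv.Perm X}

private lemma expect_ind_not {ι : Type} [Fintype ι] [Nonempty ι] (p : ι → Prop) :
    𝔼 i, ind (¬ p i) = 1 - 𝔼 i, ind (p i) := by
  have h : ∀ i, ind (¬ p i) = 1 - ind (p i) := fun i => ind_not _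
  simp_rw [h]
  rw [Finset.expect_sub_distrib, Fintype.expect_const]

theorem mset_large (hm : Mix hat) (D : V → Prop) (hne : ∃ γ, D γ) (θ : ℝ)
    (hD : ∀ γ, D γ → 𝔼 s, ind (¬ D (γ + hat s)) ≤ θ) :
    1 - θ - 1 / 10000 ≤ 𝔼 γ, ind (D γ) := by
  have hpos : 0 < 𝔼 γ, ind (D γ) := by
    obtain ⟨γ0, h0⟩ := hne
    exact Finset.expect_pos' (fun i _ => ind_nonneg _)
      ⟨γ0, mem_univ _, by rw [ind_true h0]; norm_num⟩
  have h1 := mix_stay hm D
  have h2 : (1 - θ) * 𝔼 γ, ind (D γ) ≤ 𝔼 γ, 𝔼 s, ind (D γ ∧ D (γ + hat s)) := by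
    rw [Finset.mul_expect]
    refine Finset.expect_le_expect fun γ _ => ?_
    by_cases h : D γ
    · rw [ind_true h, mul_one]
      have e1 : ∀ s, ind (D γ ∧ D (γ + hat s)) = ind (D (γ + hat s)) :=
        fun s => ind_congr (by simp [h])
      simp_rw [e1]
      have h3 := hD γ h
      rw [expect_ind_not] at h3
      linarith
    · rw [ind_false h, mul_zero]
      exact Finset.expect_nonneg fun s _ => ind_nonneg _
  have h3 : (1 - θ) * 𝔼 γ, ind (D γ) ≤ (𝔼 γ, ind (D γ) + 1 / 10000) * 𝔼 γ, ind (D γ) :=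
    h2.trans h1
  have h4 := le_of_mul_le_mul_right h3 hpos
  linarith

theorem miss_sec (hm : Mix hat) {y : V → Option X} (hy : IsSec hat α y) : miss y ≤ 11 / 1000 := by
  have hne : ∃ γ, ¬ (y γ = none) := by
    obtain ⟨γ, x, h⟩ := hy.1
    exact ⟨γ, by rw [h]; simp⟩
  have h1 := mset_large hm (fun γ => ¬ (y γ = none)) hne (1 / 100) (by
    intro γ hγ
    obtain ⟨x, hx⟩ := Option.ne_none_iff_exists'.1 hγ
    refine le_trans (Finset.expect_le_expect fun s _ => ?_) (hy.2 γ x hx)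
    refine ind_mono ?_
    rintro h ⟨x', -, h2⟩
    exact h (by rw [h2]; simp))
  rw [expect_ind_not] at h1
  unfold miss
  linarith

private lemma triple_seca (hm : Mix hat) {y₁ y₂ y₃ : V → Option X} (h1 : IsSec hat α y₁)
    (h2 : IsSec hat α y₂) (h3 : IsSec hat α y₃) :
    ∃ γ x₁ x₂ x₃, y₁ γ = some x₁ ∧ y₂ γ = some x₂ ∧ y₃ γ = some x₃ := by
  by_contra hcon
  have m1 := miss_sec hm h1
  have m2 := miss_sec hm h2
  have m3 := miss_sec hm h3
  have h4 : (1 : ℝ) ≤ miss y₁ + miss y₂ + miss y₃ := by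
    unfold miss
    rw [← Finset.expect_add_distrib, ← Finset.expect_add_distrib]
    have : (1 : ℝ) = 𝔼 _γ : V, (1 : ℝ) := by rw [Fintype.expect_const]
    rw [this]
    refine Finset.expect_le_expect fun γ _ => ?_
    by_cases a1 : y₁ γ = none
    · rw [ind_true a1]
      linarith [ind_nonneg (y₂ γ = none), ind_nonneg (y₃ γ = none)]
    by_cases a2 : y₂ γ = none
    · rw [ind_true a2]
      linarith [ind_nonneg (y₁ γ = none), ind_nonneg (y₃ γ = none)]
    by_cases a3 : y₃ γ = none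
    · rw [ind_true a3]
      linarith [ind_nonneg (y₂ γ = none), ind_nonneg (y₁ γ = none)]
    exfalso
    obtain ⟨x1, hx1⟩ := Option.ne_none_iff_exists'.1 a1
    obtain ⟨x2, hx2⟩ := Option.ne_none_iff_exists'.1 a2
    obtain ⟨x3, hx3⟩ := Option.ne_none_iff_exists'.1 a3
    exact hcon ⟨γ, x1, x2, x3, hx1, hx2, hx3⟩
  linarith

theorem sec_agree (hm : Mix hat) {y y' : V → Option X} (hy : IsSec hat α y)
    (hy' : IsSec hat α y') (h : ∃ γ x, y γ = some x ∧ y' γ = some x) :
    ∀ γ x x', y γ = some x → y' γ = some x' → x = x' := by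
  by_contra hcon
  push Not at hcon
  obtain ⟨γ₀, x₀, x₀', hb1, hb2, hb3⟩ := hcon
  have key : ∀ γ x x', y γ = some x → y' γ = some x' → ∀ Q : V → Prop,
      (∀ s, OK hat α y γ s → OK hat α y' γ s → Q (γ + hat s)) →
      𝔼 s, ind (¬ Q (γ + hat s)) ≤ 2 / 100 := by
    intro γ x x' hx hx' Q hQ
    have e1 : 𝔼 s, ind (¬ Q (γ + hat s)) ≤ eL hat α y γ + eL hat α y' γ := by
      unfold eL
      rw [← Finset.expect_add_distrib]
      refine Finset.expect_le_expect fun s _ => ?_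
      refine ind_le_add ?_
      intro hq
      by_contra hno
      rw [not_or, not_not, not_not] at hno
      exact hq (hQ s hno.1 hno.2)
    have e2 := hy.2 γ x hx
    have e3 := hy'.2 γ x' hx'
    linarith
  have hG := mset_large hm (fun γ => ∃ x, y γ = some x ∧ y' γ = some x) h (2 / 100) (by
    rintro γ ⟨x, hx, hx'⟩
    refine key γ x x hx hx' (fun γ => ∃ x, y γ = some x ∧ y' γ = some x) ?_
    rintro s ⟨a, ha, ha'⟩ ⟨b, hb, hb'⟩
    rw [hx] at ha
    rw [hx'] at hb
    obtain rfl := Option.some.inj ha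
    obtain rfl := Option.some.inj hb
    exact ⟨_, ha', hb'⟩)
  have hB := mset_large hm (fun γ => ∃ x x', y γ = some x ∧ y' γ = some x' ∧ x ≠ x')
    ⟨γ₀, x₀, x₀', hb1, hb2, hb3⟩ (2 / 100) (by
    rintro γ ⟨x, x', hx, hx', hne⟩
    refine key γ x x' hx hx' (fun γ => ∃ x x', y γ = some x ∧ y' γ = some x' ∧ x ≠ x') ?_
    rintro s ⟨a, ha, ha'⟩ ⟨b, hb, hb'⟩
    rw [hx] at ha
    rw [hx'] at hb
    obtain rfl := Option.some.inj ha
    obtain rfl := Option.some.inj hb
    exact ⟨_, _, ha', hb', fun h => hne ((α s).injective h)⟩)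
  have hs : 𝔼 γ, ind (∃ x, y γ = some x ∧ y' γ = some x) +
      𝔼 γ, ind (∃ x x', y γ = some x ∧ y' γ = some x' ∧ x ≠ x') ≤ 1 := by
    rw [← Finset.expect_add_distrib]
    have : (1 : ℝ) = 𝔼 _γ : V, (1 : ℝ) := by rw [Fintype.expect_const]
    rw [this]
    refine Finset.expect_le_expect fun γ _ => ?_
    by_cases hg : ∃ x, y γ = some x ∧ y' γ = some x
    · have hnb : ¬ ∃ x x', y γ = some x ∧ y' γ = some x' ∧ x ≠ x' := by
        rintro ⟨a, b, ha, hb, hab⟩
        obtain ⟨x, hx, hx'⟩ := hg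
        rw [hx] at ha
        rw [hx'] at hb
        exact hab ((Option.some.inj ha).symm.trans (Option.some.inj hb))
      rw [ind_true hg, ind_false hnb]
      norm_num
    · rw [ind_false hg]
      linarith [ind_le_one (∃ x x', y γ = some x ∧ y' γ = some x' ∧ x ≠ x')]
  linarith

theorem exists_max (hm : Mix hat) {y : V → Option X} (hy : IsSec hat α y) :
    ∃ z, MaxSec hat α z ∧ ∀ γ x, y γ = some x → z γ = some x := by
  classical
  let C : (V → Option X) → Prop := fun y' => IsSec hat α y' ∧ ∃ γ x, y γ = some x ∧ y' γ = some x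
  have hyC : C y := by
    obtain ⟨γ, x, h⟩ := hy.1
    exact ⟨hy, γ, x, h, h⟩
  have compat : ∀ y₁ y₂, C y₁ → C y₂ → ∀ γ x₁ x₂, y₁ γ = some x₁ → y₂ γ = some x₂ → x₁ = x₂ := by
    intro y₁ y₂ h1 h2
    obtain ⟨δ, a, b, c, ha, hb, hc⟩ := triple_seca hm hy h1.1 h2.1
    have e1 : a = b := sec_agree hm hy h1.1 h1.2 δ a b ha hb
    have e2 : a = c := sec_agree hm hy h2.1 h2.2 δ a c ha hc
    subst e1
    subst e2
    exact sec_agree hm h1.1 h2.1 ⟨δ, a, hb, hc⟩
  let z : V → Option X := fun γ =>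
    if h : ∃ x, ∃ y', C y' ∧ y' γ = some x then some h.choose else none
  have hz : ∀ γ x, z γ = some x ↔ ∃ y', C y' ∧ y' γ = some x := by
    intro γ x
    constructor
    · intro h
      by_cases hex : ∃ x, ∃ y', C y' ∧ y' γ = some x
      · have e : z γ = some hex.choose := dif_pos hex
        rw [h] at e
        rw [Option.some.inj e]
        exact hex.choose_spec
      · have e : z γ = none := dif_neg hex
        rw [h] at e
        exact absurd e (by simp)
    · rintro ⟨y', h1, h2⟩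
      have hex : ∃ x, ∃ y', C y' ∧ y' γ = some x := ⟨x, y', h1, h2⟩
      have e : z γ = some hex.choose := dif_pos hex
      rw [e]
      obtain ⟨y2, h3, h4⟩ := hex.choose_spec
      rw [compat y2 y' h3 h1 γ _ _ h4 h2]
  have hzsec : IsSec hat α z := by
    refine ⟨?_, ?_⟩
    · obtain ⟨γ, x, h⟩ := hy.1
      exact ⟨γ, x, (hz γ x).2 ⟨y, hyC, h⟩⟩
    · intro γ x h
      obtain ⟨y₁, h1, h2⟩ := (hz γ x).1 h
      refine le_trans ?_ (h1.1.2 γ x h2)
      unfold eL
      refine Finset.expect_le_expect fun s _ => ind_mono ?_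
      rintro hno ⟨x', hx', hx''⟩
      exact hno ⟨x', (hz _ _).2 ⟨y₁, h1, hx'⟩, (hz _ _).2 ⟨y₁, h1, hx''⟩⟩
  refine ⟨z, ⟨hzsec, ?_⟩, fun γ x h => (hz γ x).2 ⟨y, hyC, h⟩⟩
  rintro y' hy' ⟨γ, x, h1, h2⟩
  obtain ⟨y₁, hC1, h3⟩ := (hz γ x).1 h1
  obtain ⟨δ, a, b, c, ha, hb, hc⟩ := triple_seca hm hy hC1.1 hy'
  have e1 : a = b := sec_agree hm hy hC1.1 hC1.2 δ a b ha hb
  have e2 : b = c := sec_agree hm hC1.1 hy' ⟨γ, x, h3, h2⟩ δ b c hb hc
  subst e1
  subst e2
  have hC' : C y' := ⟨hy', δ, a, ha, hc⟩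
  intro γ' x' h'
  exact (hz γ' x').2 ⟨y', hC', h'⟩

end Pool.Agent.Lib_MP_3a79a1_b
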