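import Mathlib

/-!
# Stability of presentations in permutations: the definitions
-/

namespace Pool.Agent.Lib_MP_3a79a1_b.Stab

/-- Normalised Hamming distance with errors between permutations of `{0,…,n-1}` and
`{0,…,N-1}`: one minus the number of common points `i` with `σ i = τ i`, divided by `max n N`. -/
noncomputable def hDist {n N : ℕ} (σ : Equiv.Perm (Fin n)) (τ : Equiv.Perm (Fin N)) : ℝ :=
  1 - (Nat.card {i : Fin n // ∃ h : (i : ℕ) < N, (σ i : ℕ) = (τ ⟨i, h⟩ : ℕ)} : ℝ) / (max n N : ℕ)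

/-- `‖δα‖`: the expected distance of `α(r)` to the identity, `r` distributed by `μR` on `R`. -/
noncomputable def defect {S : Type} (R : Finset (FreeGroup S)) (μR : FreeGroup S → ℝ) {n : ℕ}
    (α : S → Equiv.Perm (Fin n)) : ℝ :=
  ∑ r ∈ R, μR r * hDist (FreeGroup.lift α r) (1 : Equiv.Perm (Fin n))

/-- `d(α, Z)`: the infimum, over all `N ≥ 2` and all `β : S → Sym(N)` satisfying every relation
in `R`, of the expected distance of `α(s)` to `β(s)`, `s` distributed by `μS`. -/
noncomputable def distHom {S : Type} [Fintype S] (R : Finset (FreeGroup S)) (μS : S → ℝ) {n : ℕ}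
    (α : S → Equiv.Perm (Fin n)) : ℝ :=
  sInf {t : ℝ | ∃ (N : ℕ) (β : S → Equiv.Perm (Fin N)), 2 ≤ N ∧
    (∀ r ∈ R, FreeGroup.lift β r = 1) ∧ t = ∑ s, μS s * hDist (α s) (β s)}

/-- `⟨S | R⟩` with the distributions `μS`, `μR` is `ρ`-stable in permutations. -/
def IsStable {S : Type} [Fintype S] (R : Finset (FreeGroup S)) (μS : S → ℝ)
    (μR : FreeGroup S → ℝ) (ρ : ℝ → ℝ) : Prop :=
  ∀ n : ℕ, 2 ≤ n → ∀ α : S → Equiv.Perm (Fin n), distHom R μS α ≤ ρ (defect R μR α)

/-- The elementary abelian group `(Z/2)^k`. -/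
abbrev EA (k : ℕ) : Type := Fin k → Multiplicative (ZMod 2)

end Pool.Agent.Lib_MP_3a79a1_b.Stab
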