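import Pool.Agent.Lib_MP_3a79a1_b.Defs

/-!
# [RM-SA] Points lying in few sets

`Kx G x = {c | G c x}`.  If `|Kx G x| ≤ d` then `#{c | ¬ G c x} ≥ q - d`, so
`(q - d) ∑ x ind (|Kx G x| ≤ d) ≤ ∑ x ∑ c ind (¬ G c x) = q 𝔼 c ∑ x ind (¬ G c x)`; divide by
`q - d > 0`; `q/(q-d) = (1 - d/q)⁻¹`.
-/

set_option linter.unusedSectionVars false

namespace Pool.Agent.Lib_MP_3a79a1_b

open Finset
open scoped BigOperators

variable {F X : Type} [Fintype F] [Fintype X]

/-- the set of `c` with `G c x` -/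
noncomputable def Kx (G : F → X → Prop) (x : X) : Finset F := by
  classical exact Finset.univ.filter (fun c => G c x)

theorem mem_Kx {G : F → X → Prop} {x : X} {c : F} : c ∈ Kx G x ↔ G c x := by
  simp [Kx]

theorem low_mult (G : F → X → Prop) (d : ℕ) (hd : d < Fintype.card F) :
    ∑ x, ind ((Kx G x).card ≤ d) ≤
      (1 - (d : ℝ) / Fintype.card F)⁻¹ * 𝔼 c : F, ∑ x, ind (¬ G c x) := by
  classical
  have hq : (0 : ℝ) < Fintype.card F := by
    exact_mod_cast lt_of_le_of_lt (Nat.zero_le d) hd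
  have hdq : (d : ℝ) / Fintype.card F < 1 := by
    rw [div_lt_one hq]
    exact_mod_cast hd
  have hpos : 0 < 1 - (d : ℝ) / Fintype.card F := by linarith
  have hsum : ∀ x, ∑ c, ind (G c x) = ((Kx G x).card : ℝ) := by
    intro x
    have h1 : ∀ c, ind (G c x) = if c ∈ Kx G x then (1 : ℝ) else 0 := by
      intro c
      by_cases h : G c x
      · rw [ind_true h, if_pos (mem_Kx.2 h)]
      · rw [ind_false h, if_neg fun h' => h (mem_Kx.1 h')]
    simp_rw [h1]
    rw [Finset.sum_ite_mem, Finset.univ_inter, Finset.sum_const, nsmul_eq_mul, mul_one]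
  have hx : ∀ x, 𝔼 c : F, ind (¬ G c x) = 1 - ((Kx G x).card : ℝ) / Fintype.card F := by
    intro x
    rw [Fintype.expect_eq_sum_div_card]
    have h1 : ∀ c, ind (¬ G c x) = 1 - ind (G c x) := fun c => ind_not _
    simp_rw [h1]
    rw [Finset.sum_sub_distrib, hsum, Finset.sum_const, Finset.card_univ, nsmul_eq_mul, mul_one,
      sub_div, div_self hq.ne']
  rw [inv_mul_eq_div, le_div_iff₀ hpos, Finset.sum_mul, Finset.expect_sum_comm]
  refine Finset.sum_le_sum fun x _ => ?_
  rw [hx]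
  by_cases h : (Kx G x).card ≤ d
  · rw [ind_true h, one_mul]
    have h2 : ((Kx G x).card : ℝ) / Fintype.card F ≤ (d : ℝ) / Fintype.card F := by
      apply div_le_div_of_nonneg_right _ hq.le
      exact_mod_cast h
    linarith
  · rw [ind_false h, zero_mul, sub_nonneg, div_le_one hq]
    exact_mod_cast Finset.card_le_univ _

end Pool.Agent.Lib_MP_3a79a1_b
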