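import Pool.Agent.Lib_MP_3a79a1_b.StepA
import Pool.Agent.Lib_MP_3a79a1_b.Bdry

/-!
# [RM-SB] The total boundary

`G c x = x ∈ GG_c`, `GG_c = GG (hatS S) (ptA (slice A c)) e1`, `K = Kx G`, `α = ptA A`,
`s' : (S.U × F) × F`.
If `K (α s' x) ≠ K x` there is `c` with `x ∈ GG_c, α s' x ∉ GG_c` or `x ∉ GG_c, α s' x ∈ GG_c`.  For
fixed `s', c` the numbers of `x` of the two kinds are equal (`α s'` is a bijection of `X`:
`#GG_c = #(α s')⁻¹ GG_c`).  So
`∑ x ind (K (α s' x) ≠ K x) ≤ 2 ∑ c ∑ x ind (x ∈ GG_c ∧ α s' x ∉ GG_c)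
  ≤ 2 (700/e1) ∑ c (Etot_c + ∑ x cmS (ptA (slice A c)) (α s') x)` (`boundary`, `ζ = α s'`).
Average over `s'`:
`𝔼 s' ∑ c cmS (ptA (slice A c)) (α s') x = q 𝔼 s' 𝔼 c 𝔼 t ind (A (inl ((t.1,c),t.2)) (α s' x) ≠ α s' (..x))
 = q * cmX (ptA A) x` (`𝔼 c 𝔼 t = 𝔼 t'` over `t' : (S.U × F) × F`; commute the two averages).
-/

set_option linter.unusedSectionVars false

namespace Pool.Agent.Lib_MP_3a79a1_b

open Finset
open scoped BigOperators

variable {F : Type} [Field F] [Fintype F] [DecidableEq F] {d : ℕ}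

variable {X : Type} [Fintype X]

private lemma expect_prod_stepb {α β : Type} [Fintype α] [Fintype β] (f : α × β → ℝ) :
    𝔼 x, f x = 𝔼 a, 𝔼 b, f (a, b) := by
  rw [← Finset.univ_product_univ, Finset.expect_product]

private lemma slices_stepb {U F : Type} [Fintype U] [Fintype F] (h : (U × F) × F → ℝ) :
    ∑ c : F, 𝔼 t : U × F, h ((t.1, c), t.2) = (Fintype.card F : ℝ) * 𝔼 t : (U × F) × F, h t := by
  rw [expect_prod_stepb, expect_prod_stepb, Finset.expect_comm, Fintype.card_mul_expect]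
  refine Finset.sum_congr rfl fun c _ => ?_
  rw [expect_prod_stepb]

/-- a permutation leaves and enters a set equally often -/
private lemma leave_stepb {X : Type} [Fintype X] (σ : Equiv.Perm X) (P : X → Prop) :
    ∑ x, ind (¬ P x ∧ P (σ x)) = ∑ x, ind (P x ∧ ¬ P (σ x)) := by
  have h1 : ∑ x, ind (P (σ x)) = ∑ x, ind (P x) := Equiv.sum_comp σ fun x => ind (P x)
  have h2 : ∑ x, ind (P (σ x)) = ∑ x, ind (P x ∧ P (σ x)) + ∑ x, ind (¬ P x ∧ P (σ x)) := by
    rw [← Finset.sum_add_distrib]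
    refine Finset.sum_congr rfl fun x _ => ?_
    by_cases hx : P x
    · rw [ind_false (p := ¬ P x ∧ P (σ x)) fun h => h.1 hx, add_zero]
      exact ind_congr ⟨fun h => ⟨hx, h⟩, fun h => h.2⟩
    · rw [ind_false (p := P x ∧ P (σ x)) fun h => hx h.1, zero_add]
      exact ind_congr ⟨fun h => ⟨hx, h⟩, fun h => h.2⟩
  have h3 : ∑ x, ind (P x) = ∑ x, ind (P x ∧ P (σ x)) + ∑ x, ind (P x ∧ ¬ P (σ x)) := by
    rw [← Finset.sum_add_distrib]
    refine Finset.sum_congr rfl fun x _ => ?_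
    by_cases hx : P (σ x)
    · rw [ind_false (p := P x ∧ ¬ P (σ x)) fun h => h.2 hx, add_zero]
      exact ind_congr ⟨fun h => ⟨h, hx⟩, fun h => h.1⟩
    · rw [ind_false (p := P x ∧ P (σ x)) fun h => hx h.2, zero_add]
      exact ind_congr ⟨fun h => ⟨h, hx⟩, fun h => h.1⟩
  linarith

private lemma diff_stepb {F X : Type} [Fintype F] [Fintype X] (G : F → X → Prop) (x x' : X) :
    ind (Kx G x' ≠ Kx G x) ≤ ∑ c : F, (ind (G c x ∧ ¬ G c x') + ind (¬ G c x ∧ G c x')) := by
  classical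
  have hnn : ∀ c ∈ (Finset.univ : Finset F),
      0 ≤ ind (G c x ∧ ¬ G c x') + ind (¬ G c x ∧ G c x') := fun c _ =>
    add_nonneg (ind_nonneg _) (ind_nonneg _)
  by_cases h : Kx G x' = Kx G x
  · rw [ind_false (not_not.2 h)]
    exact Finset.sum_nonneg hnn
  · rw [ind_true h]
    have h1 : ∃ c, ¬ (G c x' ↔ G c x) := by
      by_contra hc
      rw [not_exists] at hc
      apply h
      ext c
      rw [mem_Kx, mem_Kx]
      exact not_not.1 (hc c)
    obtain ⟨c, hc⟩ := h1
    refine le_trans ?_ (Finset.single_le_sum hnn (Finset.mem_univ c))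
    by_cases hx : G c x
    · have hx' : ¬ G c x' := fun h' => hc ⟨fun _ => hx, fun _ => h'⟩
      rw [ind_true (p := G c x ∧ ¬ G c x') ⟨hx, hx'⟩]
      linarith [ind_nonneg (¬ G c x ∧ G c x')]
    · have hx' : G c x' := by
        by_contra h'
        exact hc ⟨fun h2 => absurd h2 h', fun h2 => absurd h2 hx⟩
      rw [ind_true (p := ¬ G c x ∧ G c x') ⟨hx, hx'⟩]
      linarith [ind_nonneg (G c x ∧ ¬ G c x')]

theorem bdry_sum {S : Sys F d} (hm : Mix (hatS S)) (A : Gen (next S) → Equiv.Perm X) {e1 : ℝ}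
    (he0 : 0 < e1) (he1 : e1 ≤ 1 / 2000) :
    ∑ x, 𝔼 s : (next S).U × F,
      ind (Kx (fun c x => x ∈ GG (hatS S) (ptA (slice A c)) e1) (ptA A s x) ≠
        Kx (fun c x => x ∈ GG (hatS S) (ptA (slice A c)) e1) x) ≤
      2 * (700 / e1) * (∑ c : F, Etot (hatS S) (ptA (slice A c)) e1 +
        Fintype.card F * ∑ x, cmX (ptA A) x) := by
  obtain ⟨G, hG⟩ : ∃ G : F → X → Prop, G = fun c x => x ∈ GG (hatS S) (ptA (slice A c)) e1 :=
    ⟨_, rfl⟩
  rw [← hG]
  have hpos : 0 ≤ 700 / e1 := by positivity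
  -- one permutation
  have h1 : ∀ σ : Equiv.Perm X, ∑ x, ind (Kx G (σ x) ≠ Kx G x) ≤
      2 * (700 / e1) * (∑ c : F, Etot (hatS S) (ptA (slice A c)) e1 +
        ∑ c : F, ∑ x, cmS (ptA (slice A c)) σ x) := by
    intro σ
    calc ∑ x, ind (Kx G (σ x) ≠ Kx G x)
        ≤ ∑ x, ∑ c : F, (ind (G c x ∧ ¬ G c (σ x)) + ind (¬ G c x ∧ G c (σ x))) :=
          Finset.sum_le_sum fun x _ => diff_stepb G x (σ x)
      _ = ∑ c : F, 2 * ∑ x, ind (G c x ∧ ¬ G c (σ x)) := by
          rw [Finset.sum_comm]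
          refine Finset.sum_congr rfl fun c _ => ?_
          rw [Finset.sum_add_distrib, leave_stepb σ (G c)]
          ring
      _ ≤ ∑ c : F, 2 * (700 / e1 * (Etot (hatS S) (ptA (slice A c)) e1 +
          ∑ x, cmS (ptA (slice A c)) σ x)) := by
          refine Finset.sum_le_sum fun c _ => ?_
          have hb := boundary (α := ptA (slice A c)) hm he0 he1 σ
          rw [hG]
          linarith
      _ = 2 * (700 / e1) * (∑ c : F, Etot (hatS S) (ptA (slice A c)) e1 +
        ∑ c : F, ∑ x, cmS (ptA (slice A c)) σ x) := by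
          rw [← Finset.sum_add_distrib, Finset.mul_sum]
          refine Finset.sum_congr rfl fun c _ => ?_
          ring
  -- the commutation defects
  have h2 : ∀ (s : (next S).U × F) (x : X), ∑ c : F, cmS (ptA (slice A c)) (ptA A s) x =
      Fintype.card F * 𝔼 t : (next S).U × F, ind (ptA A s (ptA A t x) ≠ ptA A t (ptA A s x)) := by
    intro s x
    have h3 := slices_stepb (U := S.U) (F := F)
      (fun t => ind (ptA A s (ptA A t x) ≠ ptA A t (ptA A s x)))
    refine Eq.trans ?_ h3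
    refine Finset.sum_congr rfl fun c _ => ?_
    unfold cmS
    refine Finset.expect_congr rfl fun t _ => ?_
    exact ind_congr ne_comm
  calc ∑ x, 𝔼 s : (next S).U × F, ind (Kx G (ptA A s x) ≠ Kx G x)
      = 𝔼 s : (next S).U × F, ∑ x, ind (Kx G (ptA A s x) ≠ Kx G x) := by
        rw [Finset.expect_sum_comm]
    _ ≤ 𝔼 s : (next S).U × F, 2 * (700 / e1) * (∑ c : F, Etot (hatS S) (ptA (slice A c)) e1 +
        ∑ c : F, ∑ x, cmS (ptA (slice A c)) (ptA A s) x) :=
        Finset.expect_le_expect fun s _ => h1 (ptA A s)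
    _ = 2 * (700 / e1) * (∑ c : F, Etot (hatS S) (ptA (slice A c)) e1 +
        𝔼 s : (next S).U × F, ∑ c : F, ∑ x, cmS (ptA (slice A c)) (ptA A s) x) := by
        rw [← Finset.mul_expect, Finset.expect_add_distrib, Fintype.expect_const]
    _ = 2 * (700 / e1) * (∑ c : F, Etot (hatS S) (ptA (slice A c)) e1 +
        Fintype.card F * ∑ x, cmX (ptA A) x) := by
        congr 2
        have h4 : ∀ s : (next S).U × F, ∑ c : F, ∑ x, cmS (ptA (slice A c)) (ptA A s) x =
            ∑ x, Fintype.card F * 𝔼 t : (next S).U × F,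
              ind (ptA A s (ptA A t x) ≠ ptA A t (ptA A s x)) := by
          intro s
          rw [Finset.sum_comm]
          exact Finset.sum_congr rfl fun x _ => h2 s x
        rw [Finset.expect_congr rfl fun s _ => h4 s, Finset.expect_sum_comm, Finset.mul_sum]
        refine Finset.sum_congr rfl fun x _ => ?_
        rw [← Finset.mul_expect]
        rfl

end Pool.Agent.Lib_MP_3a79a1_b
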