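import Pool.Agent.Lib_MP_3a79a1_b.MixCor

/-!
# [RM-TR] Transport dichotomy

`bs_small` ([RM-TR]): fix `s` with `bs y s ≤ 1/2`.  Let
`B = {γ | y γ = some x, y (γ + hat s) = some x', x' ≠ α s x}`.  For `γ ∈ B` and `t` with
`OK y γ t`, `OK y (γ + hat s) t` and `α t (α s x) = α s (α t x)` we get
`y (γ + hat t) = α t x`, `y (γ + hat s + hat t) = α t x' ≠ α t (α s x) = α s (α t x)`, i.e.
`γ + hat t ∈ B`.  As `y` is a section, `eL y γ ≤ 1/100`, `eL y (γ + hat s) ≤ 1/100` for `γ ∈ B`; so
`𝔼 γ 𝔼 t ind (γ ∈ B ∧ γ + hat t ∉ B) ≤ (2/100) μ(B) + pull (cmS α (α s)) y`.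
By `mix_stay` the left side is `≥ μ(B) - (μ(B) + 1/10000) μ(B) ≥ (1/2 - 1/10000) μ(B)`
(`μ(B) ≤ bs y s ≤ 1/2`).  So `μ(B) ≤ (21/10) pull (cmS α (α s)) y`.  Finally
`bs y s ≤ μ(B) + 2 miss y`.
-/

set_option linter.unusedSectionVars false

namespace Pool.Agent.Lib_MP_3a79a1_b

open Finset
open scoped BigOperators

variable {V P X : Type} [AddCommGroup V] [Fintype V] [Fintype P] [Nonempty P] [Fintype X]
  {hat : P → V} {α : P → Equiv.Perm X}

/-- the set `B` of the header -/
private def BB_trans (hat : P → V) (α : P → Equiv.Perm X) (y : V → Option X) (s : P) (γ : V) : Prop :=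
  ∃ x x', y γ = some x ∧ y (γ + hat s) = some x' ∧ x' ≠ α s x

/-- one step -/
private lemma step_trans (y : V → Option X) (s : P) (γ : V) (t : P) :
    ind (BB_trans hat α y s γ ∧ ¬ BB_trans hat α y s (γ + hat t)) ≤
      ind (BB_trans hat α y s γ ∧ ¬ OK hat α y γ t) + ind (BB_trans hat α y s γ ∧ ¬ OK hat α y (γ + hat s) t) +
        (y γ).elim 0 (fun x => ind (α t (α s x) ≠ α s (α t x))) := by
  have hel : 0 ≤ (y γ).elim 0 (fun x => ind (α t (α s x) ≠ α s (α t x))) := by
    cases y γ with
    | none => exact le_rfl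
    | some x => exact ind_nonneg _
  have h1 := ind_nonneg (BB_trans hat α y s γ ∧ ¬ OK hat α y γ t)
  have h2 := ind_nonneg (BB_trans hat α y s γ ∧ ¬ OK hat α y (γ + hat s) t)
  by_cases hB : BB_trans hat α y s γ ∧ ¬ BB_trans hat α y s (γ + hat t)
  · rw [ind_true hB]
    obtain ⟨hBγ, hBn⟩ := hB
    by_cases ho1 : OK hat α y γ t
    · by_cases ho2 : OK hat α y (γ + hat s) t
      · obtain ⟨x, x', hx, hx', hne⟩ := id hBγ
        have hcm : α t (α s x) ≠ α s (α t x) := by
          intro hcm
          apply hBn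
          obtain ⟨z, hz, hz'⟩ := ho1
          obtain ⟨w, hw, hw'⟩ := ho2
          have e1 : z = x := Option.some.inj (hz.symm.trans hx)
          have e2 : w = x' := Option.some.inj (hw.symm.trans hx')
          subst e1 e2
          refine ⟨α t z, α t w, hz', ?_, ?_⟩
          · rw [show γ + hat t + hat s = γ + hat s + hat t by abel]
            exact hw'
          · intro h
            rw [← hcm] at h
            exact hne ((α t).injective h)
        have h3 : (y γ).elim 0 (fun x => ind (α t (α s x) ≠ α s (α t x))) = 1 := by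
          rw [hx]
          exact ind_true hcm
        rw [h3]
        linarith
      · rw [ind_true (⟨hBγ, ho2⟩ : BB_trans hat α y s γ ∧ ¬ OK hat α y (γ + hat s) t)]
        linarith
    · rw [ind_true (⟨hBγ, ho1⟩ : BB_trans hat α y s γ ∧ ¬ OK hat α y γ t)]
      linarith
  · rw [ind_false hB]
    linarith

/-- [RM-TR] -/
theorem bs_small (hm : Mix hat) {y : V → Option X} (hy : IsSec hat α y) (s : P)
    (hs : bs hat α y s ≤ 1 / 2) :
    bs hat α y s ≤ 2 * miss y + 21 / 10 * pull (cmS α (α s)) y := by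
  classical
  obtain ⟨B, hBdef⟩ : ∃ B : V → Prop, B = BB_trans hat α y s := ⟨_, rfl⟩
  obtain ⟨μ, hμ⟩ : ∃ μ : ℝ, μ = 𝔼 γ, ind (B γ) := ⟨_, rfl⟩
  have hμ0 : 0 ≤ μ := by
    rw [hμ]
    exact expect_nonneg fun γ _ => ind_nonneg _
  -- `bs ≤ μ + 2 miss`
  have hA : bs hat α y s ≤ 2 * miss y + μ := by
    have h1 : bs hat α y s ≤ 𝔼 γ, (ind (y γ = none) + ind (y (γ + hat s) = none) + ind (B γ)) := by
      refine expect_le_expect fun γ _ => ?_
      have h1 := ind_nonneg (y γ = none)
      have h2 := ind_nonneg (y (γ + hat s) = none)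
      have h3 := ind_nonneg (B γ)
      cases hx : y γ with
      | none => rw [ind_true rfl]; linarith [ind_le_one (¬ OK hat α y γ s)]
      | some x =>
        cases hx' : y (γ + hat s) with
        | none =>
          have := ind_le_one (¬ OK hat α y γ s)
          have e : ind ((none : Option X) = none) = 1 := ind_true rfl
          have e' : 0 ≤ ind ((some x : Option X) = none) := ind_nonneg _
          linarith
        | some x' =>
          have e1 : 0 ≤ ind ((some x : Option X) = none) := ind_nonneg _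
          have e2 : 0 ≤ ind ((some x' : Option X) = none) := ind_nonneg _
          by_cases hxx : x' = α s x
          · have : OK hat α y γ s := ⟨x, hx, by rw [hx', hxx]⟩
            rw [ind_false (not_not.2 this)]
            linarith
          · have hB : B γ := by rw [hBdef]; exact ⟨x, x', hx, hx', hxx⟩
            rw [ind_true hB]
            linarith [ind_le_one (¬ OK hat α y γ s)]
    rw [expect_add_distrib, expect_add_distrib] at h1
    have h2 : 𝔼 γ, ind (y (γ + hat s) = none) = miss y := by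
      unfold miss
      exact Fintype.expect_equiv (Equiv.addRight (hat s)) _ _ fun γ => rfl
    have h3 : 𝔼 γ, ind (y γ = none) = miss y := rfl
    rw [h2, h3, ← hμ] at h1
    linarith
  -- `μ ≤ bs`
  have hB1 : μ ≤ 1 / 2 := by
    refine le_trans ?_ hs
    rw [hμ]
    refine expect_le_expect fun γ _ => ind_mono ?_
    rw [hBdef]
    rintro ⟨x, x', hx, hx', hne⟩ ⟨z, hz, hz'⟩
    have e1 : z = x := Option.some.inj (hz.symm.trans hx)
    have e2 : α s z = x' := Option.some.inj (hz'.symm.trans hx')
    rw [e1] at e2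
    exact hne e2.symm
  -- the main inequality
  have hC : 𝔼 γ, 𝔼 t, ind (B γ ∧ ¬ B (γ + hat t)) ≤ 2 / 100 * μ + pull (cmS α (α s)) y := by
    have h1 : ∀ γ, 𝔼 t, ind (B γ ∧ ¬ B (γ + hat t)) ≤
        2 / 100 * ind (B γ) + (y γ).elim 0 (cmS α (α s)) := by
      intro γ
      have h2 : 𝔼 t, ind (B γ ∧ ¬ B (γ + hat t)) ≤ 𝔼 t, (ind (B γ ∧ ¬ OK hat α y γ t) +
          ind (B γ ∧ ¬ OK hat α y (γ + hat s) t) + (y γ).elim 0 (fun x => ind (α t (α s x) ≠ α s (α t x)))) := by
        refine expect_le_expect fun t _ => ?_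
        rw [hBdef]
        exact step_trans y s γ t
      rw [expect_add_distrib, expect_add_distrib] at h2
      have h3 : 𝔼 t, (y γ).elim 0 (fun x => ind (α t (α s x) ≠ α s (α t x))) = (y γ).elim 0 (cmS α (α s)) := by
        cases y γ with
        | none => simp
        | some x => rfl
      have h4 : 𝔼 t, ind (B γ ∧ ¬ OK hat α y γ t) ≤ 1 / 100 * ind (B γ) := by
        by_cases hB : B γ
        · rw [ind_true hB, mul_one]
          have h5 : 𝔼 t, ind (B γ ∧ ¬ OK hat α y γ t) = eL hat α y γ := by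
            unfold eL
            exact expect_congr rfl fun t _ => ind_congr ⟨fun h => h.2, fun h => ⟨hB, h⟩⟩
          rw [h5]
          rw [hBdef] at hB
          obtain ⟨x, x', hx, hx', hne⟩ := hB
          exact hy.2 γ x hx
        · rw [ind_false hB, mul_zero]
          refine le_of_eq (expect_eq_zero fun t _ => ind_false fun h => hB h.1)
      have h4' : 𝔼 t, ind (B γ ∧ ¬ OK hat α y (γ + hat s) t) ≤ 1 / 100 * ind (B γ) := by
        by_cases hB : B γ
        · rw [ind_true hB, mul_one]
          have h5 : 𝔼 t, ind (B γ ∧ ¬ OK hat α y (γ + hat s) t) = eL hat α y (γ + hat s) := by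
            unfold eL
            exact expect_congr rfl fun t _ => ind_congr ⟨fun h => h.2, fun h => ⟨hB, h⟩⟩
          rw [h5]
          rw [hBdef] at hB
          obtain ⟨x, x', hx, hx', hne⟩ := hB
          exact hy.2 _ x' hx'
        · rw [ind_false hB, mul_zero]
          refine le_of_eq (expect_eq_zero fun t _ => ind_false fun h => hB h.1)
      rw [h3] at h2
      linarith
    refine (expect_le_expect fun γ _ => h1 γ).trans (le_of_eq ?_)
    rw [expect_add_distrib, ← mul_expect, ← hμ]
    rfl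
  have hD := mix_stay hm B
  have hE : 𝔼 γ, 𝔼 t, ind (B γ ∧ B (γ + hat t)) + 𝔼 γ, 𝔼 t, ind (B γ ∧ ¬ B (γ + hat t)) = μ := by
    rw [← expect_add_distrib, hμ]
    refine expect_congr rfl fun γ _ => ?_
    rw [← expect_add_distrib]
    have : ∀ t, ind (B γ ∧ B (γ + hat t)) + ind (B γ ∧ ¬ B (γ + hat t)) = ind (B γ) := by
      intro t
      by_cases hB : B γ
      · by_cases hB' : B (γ + hat t)
        · rw [ind_true ⟨hB, hB'⟩, ind_false (fun h => h.2 hB'), ind_true hB]; norm_num
        · rw [ind_false (fun h => hB' h.2), ind_true ⟨hB, hB'⟩, ind_true hB]; norm_num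
      · rw [ind_false (fun h => hB h.1), ind_false (fun h => hB h.1), ind_false hB]; norm_num
    simp only [this]
    exact Fintype.expect_const _
  rw [← hμ] at hD
  nlinarith

end Pool.Agent.Lib_MP_3a79a1_b
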